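import Mathlib

/-!
Damped Dirichlet integrals of products of three trigonometric functions.
-/

set_option autoImplicit false

namespace Pool.Agent.H79.Wave

open MeasureTheory Set Filter Topology

lemma expint (κ : ℝ) (hκ : 0 < κ) : IntegrableOn (fun t : ℝ => Real.exp (-κ * t)) (Ioi 0) :=
  exp_neg_integrableOn_Ioi 0 hκ

lemma damped_cos (κ k : ℝ) (hκ : 0 < κ) :
    ∫ t in Ioi (0 : ℝ), Real.exp (-κ * t) * Real.cos (k * t) = κ / (κ ^ 2 + k ^ 2) := by
  have h := integral_exp_mul_complex_Ioi (a := (⟨-κ, k⟩ : ℂ)) (by simpa using hκ) 0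
  have h2 : ∀ t : ℝ, (Complex.exp ((⟨-κ, k⟩ : ℂ) * t)).re = Real.exp (-κ * t) * Real.cos (k * t) := by
    intro t
    rw [Complex.exp_re]
    simp
  have hint : IntegrableOn (fun t : ℝ => Complex.exp ((⟨-κ, k⟩ : ℂ) * t)) (Ioi 0) :=
    integrableOn_exp_mul_complex_Ioi (by simpa using hκ) 0
  calc ∫ t in Ioi (0 : ℝ), Real.exp (-κ * t) * Real.cos (k * t)
      = ∫ t in Ioi (0 : ℝ), (Complex.exp ((⟨-κ, k⟩ : ℂ) * t)).re := by simp_rw [h2]
    _ = (∫ t in Ioi (0 : ℝ), Complex.exp ((⟨-κ, k⟩ : ℂ) * t)).re := integral_re hint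
    _ = κ / (κ ^ 2 + k ^ 2) := by
        rw [h]
        simp [Complex.div_re, Complex.normSq_apply]
        ring

/-- damped Dirichlet integral -/
noncomputable def dI (κ k : ℝ) : ℝ := ∫ t in Ioi (0 : ℝ), Real.exp (-κ * t) * (Real.sin (k * t) / t)

lemma sin_div_bound (k t : ℝ) (ht : 0 < t) : |Real.sin (k * t) / t| ≤ |k| := by
  rw [abs_div, abs_of_pos ht, div_le_iff₀ ht]
  calc |Real.sin (k * t)| ≤ |k * t| := Real.abs_sin_le_abs
    _ = |k| * t := by rw [abs_mul, abs_of_pos ht]

lemma dI_integrable (κ k : ℝ) (hκ : 0 < κ) :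
    IntegrableOn (fun t : ℝ => Real.exp (-κ * t) * (Real.sin (k * t) / t)) (Ioi 0) := by
  have h := (expint κ hκ).integrable.mul_bdd (c := |k|) (g := fun t : ℝ => Real.sin (k * t) / t)
    (by
      apply Measurable.aestronglyMeasurable
      fun_prop)
    (by
      filter_upwards [ae_restrict_mem measurableSet_Ioi] with t ht
      exact sin_div_bound k t ht)
  exact h

lemma dI_eq (κ k : ℝ) (hκ : 0 < κ) : dI κ k = Real.arctan (k / κ) := by
  have hderiv : ∀ k : ℝ, HasDerivAt (dI κ) (κ / (κ ^ 2 + k ^ 2)) k := by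
    intro k
    rw [← damped_cos κ k hκ]
    refine (hasDerivAt_integral_of_dominated_loc_of_deriv_le
      (F := fun (k t : ℝ) => Real.exp (-κ * t) * (Real.sin (k * t) / t))
      (F' := fun (k t : ℝ) => Real.exp (-κ * t) * Real.cos (k * t))
      (bound := fun t => Real.exp (-κ * t)) (s := univ) univ_mem ?_ ?_ ?_ ?_ ?_ ?_).2
    · filter_upwards with s
      exact (dI_integrable κ s hκ).aestronglyMeasurable
    · exact dI_integrable κ k hκ
    · apply Continuous.aestronglyMeasurable
      fun_prop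
    · filter_upwards with t s _
      rw [norm_mul, Real.norm_eq_abs, Real.norm_eq_abs, Real.abs_exp]
      calc _ ≤ Real.exp (-κ * t) * 1 := by
            gcongr
            exact Real.abs_cos_le_one _
        _ = _ := mul_one _
    · exact expint κ hκ
    · filter_upwards [ae_restrict_mem measurableSet_Ioi] with t ht s _
      have ht0 : (t : ℝ) ≠ 0 := (ne_of_gt ht)
      have h1 : HasDerivAt (fun s : ℝ => Real.sin (s * t) / t) (Real.cos (s * t)) s := by
        have h2 : HasDerivAt (fun s : ℝ => s * t) t s := by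
          simpa using (hasDerivAt_id s).mul_const t
        have h3 := h2.sin.div_const t
        convert! h3 using 1
        field_simp
      exact h1.const_mul _
  have hderiv2 : ∀ k : ℝ, HasDerivAt (fun k => Real.arctan (k / κ)) (κ / (κ ^ 2 + k ^ 2)) k := by
    intro k
    have h1 : HasDerivAt (fun k : ℝ => k / κ) (1 / κ) k := (hasDerivAt_id k).div_const κ
    have h2 := h1.arctan
    convert! h2 using 1
    field_simp
  have hc : ∀ k : ℝ, HasDerivAt (fun k => dI κ k - Real.arctan (k / κ)) 0 k := by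
    intro k
    have := (hderiv k).sub (hderiv2 k)
    rw [sub_self] at this
    exact this
  have h0 : dI κ 0 - Real.arctan (0 / κ) = 0 := by
    simp [dI]
  have hconst := is_const_of_deriv_eq_zero (f := fun k => dI κ k - Real.arctan (k / κ))
    (fun k => (hc k).differentiableAt) (fun k => (hc k).deriv) k 0
  linarith

lemma arctan_bound (x : ℝ) : |Real.arctan x| ≤ Real.pi / 2 := by
  rw [abs_le]
  exact ⟨(Real.neg_pi_div_two_lt_arctan x).le, (Real.arctan_lt_pi_div_two x).le⟩

/-- triple integral with two cosines -/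
lemma triple_cos (κ a b c : ℝ) (hκ : 0 < κ) :
    ∫ t in Ioi (0 : ℝ), Real.exp (-κ * t) * (Real.cos (a * t) * Real.cos (b * t) * (Real.sin (c * t) / t)) =
      (1 / 4) * (Real.arctan ((a + b + c) / κ) + Real.arctan ((c + a - b) / κ) +
        Real.arctan ((c + b - a) / κ) + Real.arctan ((c - a - b) / κ)) := by
  rw [← dI_eq κ _ hκ, ← dI_eq κ _ hκ, ← dI_eq κ _ hκ, ← dI_eq κ _ hκ]
  unfold dI
  rw [← integral_add (dI_integrable κ _ hκ) (dI_integrable κ _ hκ), ← integral_add, ← integral_add,
    ← integral_const_mul]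
  · congr 1; ext t
    have e1 : Real.sin ((a + b + c) * t) = Real.sin (a * t + b * t + c * t) := by congr 1; ring
    have e2 : Real.sin ((c + a - b) * t) = Real.sin (c * t + a * t - b * t) := by congr 1; ring
    have e3 : Real.sin ((c + b - a) * t) = Real.sin (c * t + b * t - a * t) := by congr 1; ring
    have e4 : Real.sin ((c - a - b) * t) = Real.sin (c * t - a * t - b * t) := by congr 1; ring
    rw [e1, e2, e3, e4]
    simp only [Real.sin_add, Real.cos_add, Real.sin_sub, Real.cos_sub]
    ring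
  · exact ((dI_integrable κ _ hκ).add (dI_integrable κ _ hκ)).add (dI_integrable κ _ hκ)
  · exact dI_integrable κ _ hκ
  · exact (dI_integrable κ _ hκ).add (dI_integrable κ _ hκ)
  · exact dI_integrable κ _ hκ

/-- triple integral with three sines -/
lemma triple_sin (κ a b c : ℝ) (hκ : 0 < κ) :
    ∫ t in Ioi (0 : ℝ), Real.exp (-κ * t) * (Real.sin (a * t) * Real.sin (b * t) * (Real.sin (c * t) / t)) =
      (1 / 4) * (Real.arctan ((a + b - c) / κ) + Real.arctan ((b + c - a) / κ) +
        Real.arctan ((c + a - b) / κ) - Real.arctan ((a + b + c) / κ)) := by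
  rw [← dI_eq κ _ hκ, ← dI_eq κ _ hκ, ← dI_eq κ _ hκ, ← dI_eq κ _ hκ]
  unfold dI
  rw [← integral_add (dI_integrable κ _ hκ) (dI_integrable κ _ hκ), ← integral_add, ← integral_sub,
    ← integral_const_mul]
  · congr 1; ext t
    have e1 : Real.sin ((a + b + c) * t) = Real.sin (a * t + b * t + c * t) := by congr 1; ring
    have e2 : Real.sin ((a + b - c) * t) = Real.sin (a * t + b * t - c * t) := by congr 1; ring
    have e3 : Real.sin ((b + c - a) * t) = Real.sin (b * t + c * t - a * t) := by congr 1; ring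
    have e4 : Real.sin ((c + a - b) * t) = Real.sin (c * t + a * t - b * t) := by congr 1; ring
    rw [e1, e2, e3, e4]
    simp only [Real.sin_add, Real.cos_add, Real.sin_sub, Real.cos_sub]
    ring
  · exact ((dI_integrable κ _ hκ).add (dI_integrable κ _ hκ)).add (dI_integrable κ _ hκ)
  · exact dI_integrable κ _ hκ
  · exact (dI_integrable κ _ hκ).add (dI_integrable κ _ hκ)
  · exact dI_integrable κ _ hκ

lemma tendsto_arctan_div (k : ℝ) (hk : 0 < k) :
    Tendsto (fun n : ℕ => Real.arctan (k / (1 / (n + 1 : ℝ)))) atTop (𝓝 (Real.pi / 2)) := by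
  have h1 : Tendsto (fun n : ℕ => k / (1 / (n + 1 : ℝ))) atTop atTop := by
    have : (fun n : ℕ => k / (1 / (n + 1 : ℝ))) = fun n : ℕ => k * ((n : ℝ) + 1) := by
      ext n; field_simp
    rw [this]
    exact (tendsto_atTop_add_const_right _ _ tendsto_natCast_atTop_atTop).const_mul_atTop hk
  exact (Real.tendsto_arctan_atTop.mono_right nhdsWithin_le_nhds).comp h1

lemma tendsto_arctan_div_neg (k : ℝ) (hk : k < 0) :
    Tendsto (fun n : ℕ => Real.arctan (k / (1 / (n + 1 : ℝ)))) atTop (𝓝 (-(Real.pi / 2))) := by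
  have h := (tendsto_arctan_div (-k) (by linarith)).neg
  refine h.congr (fun n => ?_)
  rw [neg_div, Real.arctan_neg, neg_neg]

end Pool.Agent.H79.Wave
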