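import Mathlib

/-!
Triple sphere kernel in `ℝ³`: volume bound for the set of centres whose distances to three given
points agree up to `δ`.
-/

set_option autoImplicit false

namespace Pool.Agent.H79.Wave

open MeasureTheory Set

/-- three dimensional Euclidean space -/
abbrev E3 := EuclideanSpace ℝ (Fin 3)

/-- Volume of a parallelepiped given by three linear forms. -/
lemma vol_pi_box (p q n h w : Fin 3 → ℝ) (hw : ∀ i, 0 ≤ w i)
    (hD : (Matrix.of ![p, q, n]).det ≠ 0) :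
    volume {x : Fin 3 → ℝ | |p ⬝ᵥ x - h 0| ≤ w 0 ∧ |q ⬝ᵥ x - h 1| ≤ w 1 ∧ |n ⬝ᵥ x - h 2| ≤ w 2}
      = ENNReal.ofReal (8 * w 0 * w 1 * w 2 / |(Matrix.of ![p, q, n]).det|) := by
  set M : Matrix (Fin 3) (Fin 3) ℝ := Matrix.of ![p, q, n] with hM
  have hset : {x : Fin 3 → ℝ | |p ⬝ᵥ x - h 0| ≤ w 0 ∧ |q ⬝ᵥ x - h 1| ≤ w 1 ∧
      |n ⬝ᵥ x - h 2| ≤ w 2} = (Matrix.toLin' M) ⁻¹' (Set.Icc (fun i => h i - w i) (fun i => h i + w i)) := by
    ext x
    simp only [Set.mem_ofPred_eq, Set.mem_preimage, Set.mem_Icc, Pi.le_def, Matrix.toLin'_apply]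
    constructor
    · rintro ⟨h0, h1, h2⟩
      rw [abs_le] at h0 h1 h2
      constructor
      · intro i
        fin_cases i
        · simp [hM, Matrix.mulVec]; linarith [h0.1]
        · simp [hM, Matrix.mulVec]; linarith [h1.1]
        · simp [hM, Matrix.mulVec]; linarith [h2.1]
      · intro i
        fin_cases i
        · simp [hM, Matrix.mulVec]; linarith [h0.2]
        · simp [hM, Matrix.mulVec]; linarith [h1.2]
        · simp [hM, Matrix.mulVec]; linarith [h2.2]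
    · rintro ⟨hl, hu⟩
      have l0 := hl 0
      have l1 := hl 1
      have l2 := hl 2
      have u0 := hu 0
      have u1 := hu 1
      have u2 := hu 2
      simp [hM, Matrix.mulVec] at l0 l1 l2 u0 u1 u2
      refine ⟨?_, ?_, ?_⟩ <;> rw [abs_le] <;> constructor <;> linarith
  rw [hset, Measure.addHaar_preimage_linearMap _ (by rw [LinearMap.det_toLin']; exact hD),
    LinearMap.det_toLin', Real.volume_Icc_pi, Fin.prod_univ_three]
  have e : ∀ i, h i + w i - (h i - w i) = 2 * w i := fun i => by ring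
  rw [e, e, e, ← ENNReal.ofReal_mul (by have := hw 0; positivity),
    ← ENNReal.ofReal_mul (by have := hw 0; have := hw 1; positivity),
    ← ENNReal.ofReal_mul (abs_nonneg _)]
  congr 1
  rw [abs_inv]
  field_simp
  ring

/-- cross product of two vectors, in coordinates -/
noncomputable def crs (p q : E3) : Fin 3 → ℝ :=
  ![p 1 * q 2 - p 2 * q 1, p 2 * q 0 - p 0 * q 2, p 0 * q 1 - p 1 * q 0]

/-- squared norm of the cross product -/
noncomputable def gram (p q : E3) : ℝ :=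
  (p 1 * q 2 - p 2 * q 1) ^ 2 + (p 2 * q 0 - p 0 * q 2) ^ 2 + (p 0 * q 1 - p 1 * q 0) ^ 2

lemma gram_nonneg (p q : E3) : 0 ≤ gram p q := by unfold gram; positivity

lemma nsq (x : E3) : ‖x‖ ^ 2 = x 0 ^ 2 + x 1 ^ 2 + x 2 ^ 2 := by
  rw [EuclideanSpace.norm_sq_eq]
  simp [Fin.sum_univ_three]

lemma inr (x y : E3) : inner ℝ x y = x 0 * y 0 + x 1 * y 1 + x 2 * y 2 := by
  rw [PiLp.inner_apply]
  simp [Fin.sum_univ_three]
  ring

/-- volume in `E3` of a set described in coordinates -/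
lemma vol_E3 (S : Set (Fin 3 → ℝ)) :
    volume {x : E3 | (fun i => x i) ∈ S} = volume S :=
  (EuclideanSpace.volume_preserving_symm_measurableEquiv_toLp (Fin 3)).measure_preimage_equiv S

lemma abs_coord_le (x : E3) (i : Fin 3) : |x i| ≤ ‖x‖ := by
  have h := PiLp.norm_apply_le x i
  simpa using h

/-- one slab -/
lemma vol_slab (q : E3) (hq : q ≠ 0) (h w R : ℝ) (hw : 0 ≤ w) (hR : 0 ≤ R) :
    volume {x : E3 | ‖x‖ ≤ R ∧ |inner ℝ q x - h| ≤ w} ≤ ENNReal.ofReal (16 * w * R ^ 2 / ‖q‖) := by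
  have hqn : 0 < ‖q‖ := norm_pos_iff.mpr hq
  -- a large coordinate
  have hk : ∃ k : Fin 3, ‖q‖ / 2 ≤ |q k| := by
    by_contra hcon
    push Not at hcon
    have e0 := hcon 0
    have e1 := hcon 1
    have e2 := hcon 2
    have n := nsq q
    have s0 : q 0 ^ 2 ≤ (‖q‖ / 2) ^ 2 := by rw [← sq_abs (q 0)]; gcongr
    have s1 : q 1 ^ 2 ≤ (‖q‖ / 2) ^ 2 := by rw [← sq_abs (q 1)]; gcongr
    have s2 : q 2 ^ 2 ≤ (‖q‖ / 2) ^ 2 := by rw [← sq_abs (q 2)]; gcongr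
    nlinarith
  obtain ⟨k, hk⟩ := hk
  -- the general step
  have step : ∀ (e f : Fin 3 → ℝ), (∀ x : E3, |e ⬝ᵥ (fun i => x i)| ≤ ‖x‖) →
      (∀ x : E3, |f ⬝ᵥ (fun i => x i)| ≤ ‖x‖) →
      |(Matrix.of ![(fun i => q i), e, f]).det| = |q k| →
      volume {x : E3 | ‖x‖ ≤ R ∧ |inner ℝ q x - h| ≤ w} ≤
        ENNReal.ofReal (16 * w * R ^ 2 / ‖q‖) := by
    intro e f he hf hdet
    have hqk : 0 < |q k| := lt_of_lt_of_le (by positivity) hk
    have hD : (Matrix.of ![(fun i => q i), e, f]).det ≠ 0 := by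
      intro h0
      rw [h0, abs_zero] at hdet
      exact hqk.ne hdet
    have hb := vol_pi_box (fun i => q i) e f ![h, 0, 0] ![w, R, R]
      (by intro i; fin_cases i <;> simp <;> assumption) hD
    calc volume {x : E3 | ‖x‖ ≤ R ∧ |inner ℝ q x - h| ≤ w}
        ≤ volume {x : E3 | (fun i => x i) ∈ {x : Fin 3 → ℝ |
            |(fun i => q i) ⬝ᵥ x - ![h, 0, 0] 0| ≤ ![w, R, R] 0 ∧
            |e ⬝ᵥ x - ![h, 0, 0] 1| ≤ ![w, R, R] 1 ∧ |f ⬝ᵥ x - ![h, 0, 0] 2| ≤ ![w, R, R] 2}} := by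
          apply measure_mono
          rintro x ⟨hx, hx1⟩
          refine ⟨?_, ?_, ?_⟩
          · rw [inr] at hx1
            simpa [dotProduct, Fin.sum_univ_three] using hx1
          · simpa using (he x).trans hx
          · simpa using (hf x).trans hx
      _ = ENNReal.ofReal (8 * w * R * R / |(Matrix.of ![(fun i => q i), e, f]).det|) := by
          rw [vol_E3, hb]
          simp
      _ ≤ _ := by
          rw [hdet]
          apply ENNReal.ofReal_le_ofReal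
          rw [div_le_div_iff₀ hqk hqn]
          have : 0 ≤ w * R ^ 2 := by positivity
          nlinarith
  have c0 : ∀ x : E3, |(![1, 0, 0] : Fin 3 → ℝ) ⬝ᵥ (fun i => x i)| ≤ ‖x‖ := by
    intro x; simpa [dotProduct, Fin.sum_univ_three] using abs_coord_le x 0
  have c1 : ∀ x : E3, |(![0, 1, 0] : Fin 3 → ℝ) ⬝ᵥ (fun i => x i)| ≤ ‖x‖ := by
    intro x; simpa [dotProduct, Fin.sum_univ_three] using abs_coord_le x 1
  have c2 : ∀ x : E3, |(![0, 0, 1] : Fin 3 → ℝ) ⬝ᵥ (fun i => x i)| ≤ ‖x‖ := by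
    intro x; simpa [dotProduct, Fin.sum_univ_three] using abs_coord_le x 2
  fin_cases k
  · refine step _ _ c1 c2 ?_
    rw [Matrix.det_fin_three]; simp
  · refine step _ _ c0 c2 ?_
    rw [Matrix.det_fin_three]; simp
  · refine step _ _ c0 c1 ?_
    rw [Matrix.det_fin_three]; simp

/-- two slabs -/
lemma vol_slab2 (p q : E3) (hG : 0 < gram p q) (h1 h2 w R : ℝ) (hw : 0 ≤ w) (hR : 0 ≤ R) :
    volume {x : E3 | ‖x‖ ≤ R ∧ |inner ℝ p x - h1| ≤ w ∧ |inner ℝ q x - h2| ≤ w} ≤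
      ENNReal.ofReal (8 * w ^ 2 * R / Real.sqrt (gram p q)) := by
  have hdet : (Matrix.of ![(fun i => p i), (fun i => q i), crs p q]).det = gram p q := by
    rw [Matrix.det_fin_three]
    simp [crs, gram]
    ring
  have hs : 0 < Real.sqrt (gram p q) := Real.sqrt_pos.mpr hG
  have hb := vol_pi_box (fun i => p i) (fun i => q i) (crs p q) ![h1, h2, 0]
    ![w, w, R * Real.sqrt (gram p q)]
    (by intro i; fin_cases i <;> simp <;> first | assumption | positivity)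
    (by rw [hdet]; exact hG.ne')
  calc volume {x : E3 | ‖x‖ ≤ R ∧ |inner ℝ p x - h1| ≤ w ∧ |inner ℝ q x - h2| ≤ w}
      ≤ volume {x : E3 | (fun i => x i) ∈ {x : Fin 3 → ℝ |
          |(fun i => p i) ⬝ᵥ x - ![h1, h2, 0] 0| ≤ ![w, w, R * Real.sqrt (gram p q)] 0 ∧
          |(fun i => q i) ⬝ᵥ x - ![h1, h2, 0] 1| ≤ ![w, w, R * Real.sqrt (gram p q)] 1 ∧
          |crs p q ⬝ᵥ x - ![h1, h2, 0] 2| ≤ ![w, w, R * Real.sqrt (gram p q)] 2}} := by
        apply measure_mono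
        rintro x ⟨hx, hx1, hx2⟩
        rw [inr] at hx1 hx2
        refine ⟨?_, ?_, ?_⟩
        · simpa [dotProduct, Fin.sum_univ_three] using hx1
        · simpa [dotProduct, Fin.sum_univ_three] using hx2
        · simp only [dotProduct, Fin.sum_univ_three, crs, Matrix.cons_val_zero,
            Matrix.cons_val_one, Matrix.cons_val]
          have hx0 : 0 ≤ ‖x‖ := norm_nonneg x
          have : |(p 1 * q 2 - p 2 * q 1) * x 0 + (p 2 * q 0 - p 0 * q 2) * x 1 +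
              (p 0 * q 1 - p 1 * q 0) * x 2| ≤ ‖x‖ * Real.sqrt (gram p q) := by
            apply abs_le_of_sq_le_sq _ (by positivity)
            rw [mul_pow, Real.sq_sqrt hG.le, nsq x, gram]
            nlinarith [sq_nonneg ((p 1 * q 2 - p 2 * q 1) * x 1 - (p 2 * q 0 - p 0 * q 2) * x 0),
              sq_nonneg ((p 1 * q 2 - p 2 * q 1) * x 2 - (p 0 * q 1 - p 1 * q 0) * x 0),
              sq_nonneg ((p 2 * q 0 - p 0 * q 2) * x 2 - (p 0 * q 1 - p 1 * q 0) * x 1)]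
          have h3 : ‖x‖ * Real.sqrt (gram p q) ≤ R * Real.sqrt (gram p q) := by gcongr
          rw [sub_zero]
          exact this.trans h3
    _ = ENNReal.ofReal (8 * w * w * (R * Real.sqrt (gram p q)) / |gram p q|) := by
        rw [vol_E3, hb, hdet]
        simp
    _ ≤ _ := by
        apply ENNReal.ofReal_le_ofReal
        rw [abs_of_pos hG]
        apply le_of_eq
        rw [div_eq_div_iff hG.ne' hs.ne']
        have := Real.mul_self_sqrt hG.le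
        calc 8 * w * w * (R * √(gram p q)) * √(gram p q)
            = 8 * w ^ 2 * R * (√(gram p q) * √(gram p q)) := by ring
          _ = _ := by rw [this]

/-- the key inequality on the circumradius -/
lemma key_ineq (x p q : E3) (δ : ℝ) (hδ : 0 < δ) (hx : ‖x‖ ≤ 3)
    (h1 : |2 * inner ℝ p x - ‖p‖ ^ 2| ≤ 6 * δ) (h2 : |2 * inner ℝ q x - ‖q‖ ^ 2| ≤ 6 * δ)
    (hab : ‖p‖ ≤ ‖q‖) (hac : ‖p‖ ≤ ‖p - q‖) (hd : 48 * δ ≤ ‖p‖ * ‖q‖) :
    ‖p‖ * ‖q‖ ^ 2 ≤ 24 * Real.sqrt (gram p q) := by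
  set G := gram p q with hGdef
  have hG0 : 0 ≤ G := gram_nonneg p q
  -- the auxiliary vector
  set v : E3 := (inner ℝ p x) • q - (inner ℝ q x) • p with hv
  have hv1 : ‖v‖ ≤ 3 * Real.sqrt G := by
    have h9 : ‖v‖ ^ 2 ≤ ‖x‖ ^ 2 * G := by
      rw [nsq v, nsq x, hGdef, gram, hv]
      simp only [PiLp.sub_apply, PiLp.smul_apply, smul_eq_mul]
      rw [inr, inr]
      have : (x 0 ^ 2 + x 1 ^ 2 + x 2 ^ 2) * ((p 1 * q 2 - p 2 * q 1) ^ 2 +
          (p 2 * q 0 - p 0 * q 2) ^ 2 + (p 0 * q 1 - p 1 * q 0) ^ 2) -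
          (((p 0 * x 0 + p 1 * x 1 + p 2 * x 2) * q 0 - (q 0 * x 0 + q 1 * x 1 + q 2 * x 2) * p 0) ^ 2
          + ((p 0 * x 0 + p 1 * x 1 + p 2 * x 2) * q 1 - (q 0 * x 0 + q 1 * x 1 + q 2 * x 2) * p 1) ^ 2
          + ((p 0 * x 0 + p 1 * x 1 + p 2 * x 2) * q 2 - (q 0 * x 0 + q 1 * x 1 + q 2 * x 2) * p 2) ^ 2)
          = (x 0 * (p 1 * q 2 - p 2 * q 1) + x 1 * (p 2 * q 0 - p 0 * q 2) +
            x 2 * (p 0 * q 1 - p 1 * q 0)) ^ 2 := by ring
      nlinarith [sq_nonneg (x 0 * (p 1 * q 2 - p 2 * q 1) + x 1 * (p 2 * q 0 - p 0 * q 2) +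
            x 2 * (p 0 * q 1 - p 1 * q 0))]
    apply le_of_sq_le_sq _ (by positivity)
    rw [mul_pow, Real.sq_sqrt hG0]
    have : ‖x‖ ^ 2 ≤ 3 ^ 2 := by gcongr
    nlinarith
  have hv2 : ‖(‖p‖ ^ 2) • q - (‖q‖ ^ 2) • p‖ = ‖p‖ * ‖q‖ * ‖p - q‖ := by
    apply (sq_eq_sq₀ (norm_nonneg _) (by positivity)).mp
    rw [mul_pow, mul_pow, @norm_sub_sq_real, @norm_sub_sq_real, norm_smul, norm_smul,
      inner_smul_left, inner_smul_right]
    simp only [norm_pow, norm_norm, conj_trivial, real_inner_comm]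
    ring
  have hv3 : ‖(2 : ℝ) • v - ((‖p‖ ^ 2) • q - (‖q‖ ^ 2) • p)‖ ≤ 6 * δ * ‖q‖ + 6 * δ * ‖p‖ := by
    have : (2 : ℝ) • v - ((‖p‖ ^ 2) • q - (‖q‖ ^ 2) • p) =
        (2 * inner ℝ p x - ‖p‖ ^ 2) • q - (2 * inner ℝ q x - ‖q‖ ^ 2) • p := by
      rw [hv, smul_sub, smul_smul, smul_smul, sub_smul, sub_smul]
      abel
    rw [this]
    refine (norm_sub_le _ _).trans ?_
    rw [norm_smul, norm_smul, Real.norm_eq_abs, Real.norm_eq_abs]
    gcongr
  have hv4 : ‖p‖ * ‖q‖ * ‖p - q‖ ≤ 2 * ‖v‖ + (6 * δ * ‖q‖ + 6 * δ * ‖p‖) := by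
    rw [← hv2]
    have h5 : (‖p‖ ^ 2) • q - (‖q‖ ^ 2) • p = (2 : ℝ) • v -
      ((2 : ℝ) • v - ((‖p‖ ^ 2) • q - (‖q‖ ^ 2) • p)) := by abel
    calc ‖(‖p‖ ^ 2) • q - (‖q‖ ^ 2) • p‖
        ≤ ‖(2 : ℝ) • v‖ + ‖(2 : ℝ) • v - ((‖p‖ ^ 2) • q - (‖q‖ ^ 2) • p)‖ := by
          conv_lhs => rw [h5]
          exact norm_sub_le _ _
      _ ≤ 2 * ‖v‖ + (6 * δ * ‖q‖ + 6 * δ * ‖p‖) := by
          gcongr
          rw [norm_smul]; norm_num
  have hc : ‖q‖ ≤ 2 * ‖p - q‖ := by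
    have h6 : ‖q‖ ≤ ‖p‖ + ‖p - q‖ := by
      have := norm_sub_le p (p - q)
      simpa using this
    linarith
  have hp0 := norm_nonneg p
  have hq0 := norm_nonneg q
  have hs0 := Real.sqrt_nonneg G
  have e1 : ‖p‖ * ‖q‖ * ‖q‖ ≤ 2 * (‖p‖ * ‖q‖ * ‖p - q‖) := by
    have := mul_le_mul_of_nonneg_left hc (mul_nonneg hp0 hq0)
    linarith
  have e2 : 48 * δ * ‖q‖ ≤ ‖p‖ * ‖q‖ * ‖q‖ := mul_le_mul_of_nonneg_right hd hq0
  have e3 : δ * ‖p‖ ≤ δ * ‖q‖ := mul_le_mul_of_nonneg_left hab hδ.le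
  nlinarith

/-- the volume of the set of centres, `y₁ = 0` -/
lemma vol_centres_zero (p q : E3) (δ : ℝ) (hδ : 0 < δ) (hp : p ≠ 0) (hq : q ≠ 0)
    (hab : ‖p‖ ≤ ‖q‖) (hac : ‖p‖ ≤ ‖p - q‖) :
    volume {x : E3 | ‖x‖ ≤ 3 ∧ |2 * inner ℝ p x - ‖p‖ ^ 2| ≤ 6 * δ ∧
      |2 * inner ℝ q x - ‖q‖ ^ 2| ≤ 6 * δ} ≤
      ENNReal.ofReal (20736 * δ ^ 2 / (‖p‖ * ‖q‖ ^ 2)) := by
  have hpn : 0 < ‖p‖ := norm_pos_iff.mpr hp
  have hqn : 0 < ‖q‖ := norm_pos_iff.mpr hq
  by_cases hd : 48 * δ ≤ ‖p‖ * ‖q‖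
  · by_cases hne : ∃ x : E3, ‖x‖ ≤ 3 ∧ |2 * inner ℝ p x - ‖p‖ ^ 2| ≤ 6 * δ ∧
      |2 * inner ℝ q x - ‖q‖ ^ 2| ≤ 6 * δ
    · obtain ⟨x, hx, h1, h2⟩ := hne
      have hk := key_ineq x p q δ hδ hx h1 h2 hab hac hd
      have hG : 0 < gram p q := by
        have h0 : 0 < Real.sqrt (gram p q) := by
          have : 0 < ‖p‖ * ‖q‖ ^ 2 := by positivity
          linarith
        exact Real.sqrt_pos.mp h0
      refine (measure_mono ?_).trans ((vol_slab2 p q hG (‖p‖ ^ 2 / 2) (‖q‖ ^ 2 / 2) (3 * δ) 3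
        (by positivity) (by norm_num)).trans ?_)
      · rintro z ⟨hz, hz1, hz2⟩
        rw [abs_le] at hz1 hz2
        refine ⟨hz, ?_, ?_⟩ <;> rw [abs_le] <;> constructor <;> linarith
      · apply ENNReal.ofReal_le_ofReal
        have hs : 0 < Real.sqrt (gram p q) := Real.sqrt_pos.mpr hG
        rw [div_le_div_iff₀ hs (by positivity)]
        have : 0 ≤ δ ^ 2 := by positivity
        nlinarith [mul_le_mul_of_nonneg_left hk this]
    · have : {x : E3 | ‖x‖ ≤ 3 ∧ |2 * inner ℝ p x - ‖p‖ ^ 2| ≤ 6 * δ ∧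
        |2 * inner ℝ q x - ‖q‖ ^ 2| ≤ 6 * δ} = ∅ := by
        ext x
        simp only [Set.mem_ofPred_eq, Set.mem_empty_iff_false, iff_false]
        intro h
        exact hne ⟨x, h⟩
      rw [this]
      simp
  · push Not at hd
    refine (measure_mono ?_).trans ((vol_slab q hq (‖q‖ ^ 2 / 2) (3 * δ) 3
        (by positivity) (by norm_num)).trans ?_)
    · rintro z ⟨hz, hz1, hz2⟩
      rw [abs_le] at hz2
      refine ⟨hz, ?_⟩
      rw [abs_le]; constructor <;> linarith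
    · apply ENNReal.ofReal_le_ofReal
      rw [div_le_div_iff₀ hqn (by positivity)]
      have h1 : ‖p‖ * ‖q‖ * (δ * ‖q‖) ≤ 48 * δ * (δ * ‖q‖) :=
        mul_le_mul_of_nonneg_right hd.le (by positivity)
      nlinarith

/-- the volume of the set of centres -/
lemma vol_centres (y₁ y₂ y₃ : E3) (δ : ℝ) (hδ : 0 < δ) (hδ1 : δ ≤ 1) (h12 : y₁ ≠ y₂) (h13 : y₁ ≠ y₃)
    (hab : ‖y₁ - y₂‖ ≤ ‖y₁ - y₃‖) (hac : ‖y₁ - y₂‖ ≤ ‖y₂ - y₃‖) :
    volume {x : E3 | ∃ t : ℝ, 1 ≤ t ∧ t ≤ 2 ∧ (t < ‖x - y₁‖ ∧ ‖x - y₁‖ < t + δ) ∧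
      (t < ‖x - y₂‖ ∧ ‖x - y₂‖ < t + δ) ∧ (t < ‖x - y₃‖ ∧ ‖x - y₃‖ < t + δ)} ≤
      ENNReal.ofReal (20736 * δ ^ 2 / (‖y₁ - y₂‖ * ‖y₁ - y₃‖ ^ 2)) := by
  have hp : y₂ - y₁ ≠ 0 := sub_ne_zero.mpr (Ne.symm h12)
  have hq : y₃ - y₁ ≠ 0 := sub_ne_zero.mpr (Ne.symm h13)
  have h := vol_centres_zero (y₂ - y₁) (y₃ - y₁) δ hδ hp hq
    (by rw [norm_sub_rev y₂ y₁, norm_sub_rev y₃ y₁]; exact hab)
    (by rw [norm_sub_rev y₂ y₁]; simpa using hac)
  rw [norm_sub_rev y₂ y₁, norm_sub_rev y₃ y₁] at h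
  refine le_trans ?_ h
  rw [← measure_preimage_add_right volume y₁]
  apply measure_mono
  rintro x ⟨t, ht1, ht2, ⟨a1, a2⟩, ⟨b1, b2⟩, ⟨c1, c2⟩⟩
  have g : ∀ y : E3, 2 * inner ℝ (y - y₁) x - ‖y₁ - y‖ ^ 2 =
      ‖x + y₁ - y₁‖ ^ 2 - ‖x + y₁ - y‖ ^ 2 := by
    intro y
    have e1 : x + y₁ - y = x - (y - y₁) := by abel
    rw [e1, @norm_sub_sq_real _ _ _ x (y - y₁), norm_sub_rev y₁ y, real_inner_comm,
      add_sub_cancel_right]
    ring
  have bd : ∀ u v : ℝ, t < u → u < t + δ → t < v → v < t + δ → |u ^ 2 - v ^ 2| ≤ 6 * δ := by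
    intro u v hu hu' hv hv'
    have : u ^ 2 - v ^ 2 = (u - v) * (u + v) := by ring
    rw [this, abs_mul, mul_comm 6 δ]
    apply mul_le_mul _ _ (abs_nonneg _) hδ.le
    · rw [abs_le]; constructor <;> linarith
    · rw [abs_le]; constructor <;> linarith
  refine ⟨?_, ?_, ?_⟩
  · have : x + y₁ - y₁ = x := by abel
    simp only [this] at a2
    linarith
  · rw [g]; exact bd _ _ a1 a2 b1 b2
  · rw [g]; exact bd _ _ a1 a2 c1 c2

/-- The truncated Riesz kernel `|z|⁻² 1_{|z| ≤ 12}`. -/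
noncomputable def kr (z : E3) : ENNReal := if ‖z‖ ≤ 12 then (‖z‖ₑ ^ 2)⁻¹ else 0

/-- The shell kernel. -/
noncomputable def sh (δ : ℝ) (x : E3) (t : ℝ) (y : E3) : ENNReal :=
  if t < ‖x - y‖ ∧ ‖x - y‖ < t + δ then 1 else 0

lemma measurable_kr : Measurable kr := by
  unfold kr
  apply Measurable.ite
  · exact measurableSet_le measurable_norm measurable_const
  · exact (measurable_enorm.pow_const 2).inv
  · exact measurable_const

lemma measurable_sh (δ : ℝ) : Measurable (fun z : (E3 × ℝ) × E3 => sh δ z.1.1 z.1.2 z.2) := by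
  unfold sh
  apply Measurable.ite
  · apply MeasurableSet.inter
    · exact measurableSet_lt (f := fun z : (E3 × ℝ) × E3 => z.1.2)
        (g := fun z : (E3 × ℝ) × E3 => ‖z.1.1 - z.2‖) (by fun_prop) (by fun_prop)
    · exact measurableSet_lt (f := fun z : (E3 × ℝ) × E3 => ‖z.1.1 - z.2‖)
        (g := fun z : (E3 × ℝ) × E3 => z.1.2 + δ) (by fun_prop) (by fun_prop)
  · exact measurable_const
  · exact measurable_const

lemma sh_triple_le (δ : ℝ) (hδ : 0 < δ) (hδ1 : δ ≤ 1) (y₁ y₂ y₃ : E3) (h12 : y₁ ≠ y₂) (h13 : y₁ ≠ y₃)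
    (hab : ‖y₁ - y₂‖ ≤ ‖y₁ - y₃‖) (hac : ‖y₁ - y₂‖ ≤ ‖y₂ - y₃‖) :
    ∫⁻ t in Icc (1 : ℝ) 2, ∫⁻ x, sh δ x t y₁ * sh δ x t y₂ * sh δ x t y₃ ≤
      ENNReal.ofReal (20736 * δ ^ 3 / (‖y₁ - y₂‖ * ‖y₁ - y₃‖ ^ 2)) := by
  have hm : Measurable (fun z : E3 × ℝ => sh δ z.1 z.2 y₁ * sh δ z.1 z.2 y₂ * sh δ z.1 z.2 y₃) := by
    have e : ∀ y : E3, Measurable (fun z : E3 × ℝ => sh δ z.1 z.2 y) := fun y =>
      (measurable_sh δ).comp (measurable_id.prodMk measurable_const)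
    exact ((e y₁).mul (e y₂)).mul (e y₃)
  rw [lintegral_lintegral_swap]
  · set A : Set E3 := {x : E3 | ∃ t : ℝ, 1 ≤ t ∧ t ≤ 2 ∧ (t < ‖x - y₁‖ ∧ ‖x - y₁‖ < t + δ) ∧
      (t < ‖x - y₂‖ ∧ ‖x - y₂‖ < t + δ) ∧ (t < ‖x - y₃‖ ∧ ‖x - y₃‖ < t + δ)} with hA
    have hpt : ∀ x : E3, ∫⁻ t in Icc (1 : ℝ) 2, sh δ x t y₁ * sh δ x t y₂ * sh δ x t y₃ ≤
        A.indicator (fun _ => ENNReal.ofReal δ) x := by
      intro x
      by_cases hx : x ∈ A
      · rw [Set.indicator_of_mem hx]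
        calc ∫⁻ t in Icc (1 : ℝ) 2, sh δ x t y₁ * sh δ x t y₂ * sh δ x t y₃
            ≤ ∫⁻ t in Icc (1 : ℝ) 2, (Ioo (‖x - y₁‖ - δ) ‖x - y₁‖).indicator 1 t := by
              apply lintegral_mono
              intro t
              have h2 : sh δ x t y₂ ≤ 1 := by unfold sh; split_ifs <;> simp
              have h3 : sh δ x t y₃ ≤ 1 := by unfold sh; split_ifs <;> simp
              have h1 : sh δ x t y₁ ≤ (Ioo (‖x - y₁‖ - δ) ‖x - y₁‖).indicator 1 t := by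
                unfold sh
                split_ifs with h
                · rw [Set.indicator_of_mem]
                  · simp
                  · exact ⟨by linarith [h.2], h.1⟩
                · simp
              calc sh δ x t y₁ * sh δ x t y₂ * sh δ x t y₃ ≤ sh δ x t y₁ * 1 * 1 := by gcongr
                _ = sh δ x t y₁ := by simp
                _ ≤ _ := h1
          _ ≤ ∫⁻ t, (Ioo (‖x - y₁‖ - δ) ‖x - y₁‖).indicator 1 t := setLIntegral_le_lintegral _ _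
          _ = ENNReal.ofReal δ := by
              rw [lintegral_indicator_one measurableSet_Ioo, Real.volume_Ioo]
              congr 1
              ring
      · rw [Set.indicator_of_notMem hx]
        apply le_of_eq
        rw [setLIntegral_congr_fun measurableSet_Icc (g := fun _ => 0)]
        · simp
        · intro t ht
          simp only
          by_contra hne
          apply hx
          have hh : sh δ x t y₁ ≠ 0 ∧ sh δ x t y₂ ≠ 0 ∧ sh δ x t y₃ ≠ 0 := by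
            refine ⟨?_, ?_, ?_⟩ <;> intro h0 <;> apply hne <;> simp [h0]
          unfold sh at hh
          obtain ⟨g1, g2, g3⟩ := hh
          have k1 := (ite_ne_right_iff.mp g1).1
          have k2 := (ite_ne_right_iff.mp g2).1
          have k3 := (ite_ne_right_iff.mp g3).1
          exact ⟨t, ht.1, ht.2, k1, k2, k3⟩
    calc ∫⁻ x, ∫⁻ t in Icc (1 : ℝ) 2, sh δ x t y₁ * sh δ x t y₂ * sh δ x t y₃
        ≤ ∫⁻ x, A.indicator (fun _ => ENNReal.ofReal δ) x := lintegral_mono hpt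
      _ ≤ ENNReal.ofReal δ * volume A := lintegral_indicator_const_le _ _
      _ ≤ ENNReal.ofReal δ * ENNReal.ofReal (20736 * δ ^ 2 / (‖y₁ - y₂‖ * ‖y₁ - y₃‖ ^ 2)) := by
          gcongr
          exact vol_centres y₁ y₂ y₃ δ hδ hδ1 h12 h13 hab hac
      _ = _ := by
          rw [← ENNReal.ofReal_mul hδ.le]
          congr 1
          ring
  · exact (hm.comp measurable_swap).aemeasurable

/-- `(16 · |B₁|⁻¹)` -/
noncomputable def cK : ENNReal := (volume (Metric.ball (0 : E3) 1))⁻¹ * 16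

lemma kr_triple_ge (y₁ y₂ y₃ : E3) (h12 : y₁ ≠ y₂) (h13 : y₁ ≠ y₃)
    (hab : ‖y₁ - y₂‖ ≤ ‖y₁ - y₃‖) (h6 : ‖y₁ - y₃‖ ≤ 6) :
    ENNReal.ofReal (1 / (‖y₁ - y₂‖ * ‖y₁ - y₃‖ ^ 2)) ≤
      cK * ∫⁻ x, kr (x - y₁) * kr (x - y₂) * kr (x - y₃) := by
  have ha : 0 < ‖y₁ - y₂‖ := norm_pos_iff.mpr (sub_ne_zero.mpr h12)
  have hb : 0 < ‖y₁ - y₃‖ := norm_pos_iff.mpr (sub_ne_zero.mpr h13)
  set a := ‖y₁ - y₂‖ with hadef
  set b := ‖y₁ - y₃‖ with hbdef
  have hkr : ∀ (z : E3) (r : ℝ), 0 < r → ‖z‖ ≤ r → r ≤ 12 → ENNReal.ofReal ((r ^ 2)⁻¹) ≤ kr z := by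
    intro z r hr hz hr12
    unfold kr
    rw [if_pos (hz.trans hr12), ENNReal.ofReal_inv_of_pos (by positivity),
      ENNReal.ofReal_pow hr.le]
    gcongr
    rw [← ofReal_norm]
    exact ENNReal.ofReal_le_ofReal hz
  have hlow : ENNReal.ofReal ((a ^ 2)⁻¹) * ENNReal.ofReal (((2 * a) ^ 2)⁻¹) *
      ENNReal.ofReal (((2 * b) ^ 2)⁻¹) * volume (Metric.ball y₁ a) ≤
      ∫⁻ x, kr (x - y₁) * kr (x - y₂) * kr (x - y₃) := by
    calc _ = ∫⁻ x in Metric.ball y₁ a, ENNReal.ofReal ((a ^ 2)⁻¹) *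
          ENNReal.ofReal (((2 * a) ^ 2)⁻¹) * ENNReal.ofReal (((2 * b) ^ 2)⁻¹) := by
          rw [setLIntegral_const]
      _ ≤ ∫⁻ x in Metric.ball y₁ a, kr (x - y₁) * kr (x - y₂) * kr (x - y₃) := by
          apply setLIntegral_mono' Metric.isOpen_ball.measurableSet
          intro x hx
          rw [Metric.mem_ball, dist_eq_norm] at hx
          have n2 : ‖x - y₂‖ ≤ 2 * a := by
            have : x - y₂ = (x - y₁) + (y₁ - y₂) := by abel
            rw [this]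
            refine (norm_add_le _ _).trans ?_
            linarith
          have n3 : ‖x - y₃‖ ≤ 2 * b := by
            have : x - y₃ = (x - y₁) + (y₁ - y₃) := by abel
            rw [this]
            refine (norm_add_le _ _).trans ?_
            linarith
          gcongr
          · exact hkr _ _ ha hx.le (by linarith)
          · exact hkr _ _ (by linarith) n2 (by linarith)
          · exact hkr _ _ (by linarith) n3 (by linarith)
      _ ≤ _ := setLIntegral_le_lintegral _ _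
  have hv : volume (Metric.ball y₁ a) = ENNReal.ofReal (a ^ 3) * volume (Metric.ball (0 : E3) 1) := by
    rw [Measure.addHaar_ball _ _ ha.le]
    simp
  have hv1 : volume (Metric.ball (0 : E3) 1) ≠ 0 :=
    (Metric.measure_ball_pos volume 0 one_pos).ne'
  have hv2 : volume (Metric.ball (0 : E3) 1) ≠ ⊤ := measure_ball_lt_top.ne
  calc ENNReal.ofReal (1 / (a * b ^ 2)) = cK * (ENNReal.ofReal ((a ^ 2)⁻¹) *
      ENNReal.ofReal (((2 * a) ^ 2)⁻¹) *
      ENNReal.ofReal (((2 * b) ^ 2)⁻¹) * volume (Metric.ball y₁ a)) := by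
        rw [hv, cK]
        have e1 : ENNReal.ofReal (1 / (a * b ^ 2)) = 16 * (ENNReal.ofReal ((a ^ 2)⁻¹) *
            ENNReal.ofReal (((2 * a) ^ 2)⁻¹) * ENNReal.ofReal (((2 * b) ^ 2)⁻¹) *
            ENNReal.ofReal (a ^ 3)) := by
          rw [← ENNReal.ofReal_mul (by positivity), ← ENNReal.ofReal_mul (by positivity),
            ← ENNReal.ofReal_mul (by positivity)]
          rw [show (16 : ENNReal) = ENNReal.ofReal 16 by simp, ← ENNReal.ofReal_mul (by norm_num)]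
          congr 1
          field_simp
          ring
        rw [e1]
        have e2 : ∀ X : ENNReal, (volume (Metric.ball (0 : E3) 1))⁻¹ * 16 *
            (X * volume (Metric.ball (0 : E3) 1)) = 16 * X *
            ((volume (Metric.ball (0 : E3) 1))⁻¹ * volume (Metric.ball (0 : E3) 1)) := by
          intro X; ring
        rw [← mul_assoc (ENNReal.ofReal ((a ^ 2)⁻¹) * ENNReal.ofReal (((2 * a) ^ 2)⁻¹) *
            ENNReal.ofReal (((2 * b) ^ 2)⁻¹)), e2, ENNReal.inv_mul_cancel hv1 hv2, mul_one]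
    _ ≤ _ := by gcongr

/-- the constant in the kernel inequality -/
noncomputable def cT : ENNReal := 20736 * cK

lemma cT_ne_top : cT ≠ ⊤ := by
  unfold cT cK
  have hv1 : volume (Metric.ball (0 : E3) 1) ≠ 0 :=
    (Metric.measure_ball_pos volume 0 one_pos).ne'
  exact ENNReal.mul_ne_top (by norm_num) (ENNReal.mul_ne_top (ENNReal.inv_ne_top.mpr hv1) (by norm_num))

lemma sh_kr_ordered (δ : ℝ) (hδ : 0 < δ) (hδ1 : δ ≤ 1) (y₁ y₂ y₃ : E3) (h12 : y₁ ≠ y₂)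
    (h13 : y₁ ≠ y₃)
    (hab : ‖y₁ - y₂‖ ≤ ‖y₁ - y₃‖) (hac : ‖y₁ - y₂‖ ≤ ‖y₂ - y₃‖) :
    ∫⁻ t in Icc (1 : ℝ) 2, ∫⁻ x, sh δ x t y₁ * sh δ x t y₂ * sh δ x t y₃ ≤
      ENNReal.ofReal (δ ^ 3) * (cT * ∫⁻ x, kr (x - y₁) * kr (x - y₂) * kr (x - y₃)) := by
  by_cases h6 : ‖y₁ - y₃‖ ≤ 6
  · calc ∫⁻ t in Icc (1 : ℝ) 2, ∫⁻ x, sh δ x t y₁ * sh δ x t y₂ * sh δ x t y₃
        ≤ ENNReal.ofReal (20736 * δ ^ 3 / (‖y₁ - y₂‖ * ‖y₁ - y₃‖ ^ 2)) :=
          sh_triple_le δ hδ hδ1 y₁ y₂ y₃ h12 h13 hab hac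
      _ = ENNReal.ofReal (δ ^ 3) * (20736 * ENNReal.ofReal (1 / (‖y₁ - y₂‖ * ‖y₁ - y₃‖ ^ 2))) := by
          rw [show (20736 : ENNReal) = ENNReal.ofReal 20736 by simp,
            ← ENNReal.ofReal_mul (by norm_num), ← ENNReal.ofReal_mul (by positivity)]
          congr 1
          ring
      _ ≤ _ := by
          unfold cT
          rw [mul_assoc]
          gcongr
          exact kr_triple_ge y₁ y₂ y₃ h12 h13 hab h6
  · have hz : ∫⁻ t in Icc (1 : ℝ) 2, ∫⁻ x, sh δ x t y₁ * sh δ x t y₂ * sh δ x t y₃ = 0 := by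
      rw [setLIntegral_congr_fun measurableSet_Icc (g := fun _ => 0)]
      · simp
      · intro t ht
        simp only
        rw [lintegral_congr (g := fun _ => 0)]
        · simp
        · intro x
          by_contra hne
          have hh : sh δ x t y₁ ≠ 0 ∧ sh δ x t y₃ ≠ 0 := by
            refine ⟨?_, ?_⟩ <;> intro h0 <;> apply hne <;> simp [h0]
          unfold sh at hh
          obtain ⟨g1, g3⟩ := hh
          have k1 := (ite_ne_right_iff.mp g1).1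
          have k3 := (ite_ne_right_iff.mp g3).1
          apply h6
          have : y₁ - y₃ = (x - y₃) - (x - y₁) := by abel
          rw [this]
          refine (norm_sub_le _ _).trans ?_
          have := ht.2
          linarith [k1.2, k3.2]
    rw [hz]
    exact bot_le

lemma sh_kr (δ : ℝ) (hδ : 0 < δ) (hδ1 : δ ≤ 1) (y₁ y₂ y₃ : E3) (h12 : y₁ ≠ y₂)
    (h13 : y₁ ≠ y₃) (h23 : y₂ ≠ y₃) :
    ∫⁻ t in Icc (1 : ℝ) 2, ∫⁻ x, sh δ x t y₁ * sh δ x t y₂ * sh δ x t y₃ ≤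
      ENNReal.ofReal (δ ^ 3) * (cT * ∫⁻ x, kr (x - y₁) * kr (x - y₂) * kr (x - y₃)) := by
  rcases le_total ‖y₁ - y₂‖ ‖y₁ - y₃‖ with h1 | h1
  · rcases le_total ‖y₁ - y₂‖ ‖y₂ - y₃‖ with h2 | h2
    · exact sh_kr_ordered δ hδ hδ1 y₁ y₂ y₃ h12 h13 h1 h2
    · -- shortest side is y₂ y₃
      have := sh_kr_ordered δ hδ hδ1 y₂ y₃ y₁ h23 (Ne.symm h12) (by rw [norm_sub_rev y₂ y₁]; exact h2)
        (by rw [norm_sub_rev y₃ y₁]; exact h2.trans h1)
      calc _ = ∫⁻ t in Icc (1 : ℝ) 2, ∫⁻ x, sh δ x t y₂ * sh δ x t y₃ * sh δ x t y₁ := by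
            congr 1; ext t; congr 1; ext x; ring
        _ ≤ _ := this
        _ = _ := by
            congr 2; congr 1; ext x; ring
  · rcases le_total ‖y₁ - y₃‖ ‖y₂ - y₃‖ with h2 | h2
    · -- shortest side is y₁ y₃
      have := sh_kr_ordered δ hδ hδ1 y₁ y₃ y₂ h13 h12 h1 (by rw [norm_sub_rev y₃ y₂]; exact h2)
      calc _ = ∫⁻ t in Icc (1 : ℝ) 2, ∫⁻ x, sh δ x t y₁ * sh δ x t y₃ * sh δ x t y₂ := by
            congr 1; ext t; congr 1; ext x; ring
        _ ≤ _ := this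
        _ = _ := by
            congr 2; congr 1; ext x; ring
    · have := sh_kr_ordered δ hδ hδ1 y₂ y₃ y₁ h23 (Ne.symm h12)
        (by rw [norm_sub_rev y₂ y₁]; exact h2.trans h1)
        (by rw [norm_sub_rev y₃ y₁]; exact h2)
      calc _ = ∫⁻ t in Icc (1 : ℝ) 2, ∫⁻ x, sh δ x t y₂ * sh δ x t y₃ * sh δ x t y₁ := by
            congr 1; ext t; congr 1; ext x; ring
        _ ≤ _ := this
        _ = _ := by
            congr 2; congr 1; ext x; ring

/-- expansion of a cube of a linear positive operator -/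
lemma cube_expand {Z Y : Type*} [MeasurableSpace Z] [MeasurableSpace Y] (μ : Measure Z) (ν : Measure Y)
    [SFinite μ] [SFinite ν] (K : Z → Y → ENNReal) (hK : Measurable (Function.uncurry K))
    (f : Y → ENNReal) (hf : Measurable f) :
    ∫⁻ z, (∫⁻ y, K z y * f y ∂ν) ^ 3 ∂μ =
      ∫⁻ y₁, ∫⁻ y₂, ∫⁻ y₃, f y₁ * f y₂ * f y₃ * ∫⁻ z, K z y₁ * K z y₂ * K z y₃ ∂μ ∂ν ∂ν ∂ν := by
  have hKz : ∀ z, Measurable (K z) := fun z => hK.comp (measurable_const.prodMk measurable_id)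
  have e1 : ∀ z, (∫⁻ y, K z y * f y ∂ν) ^ 3 =
      ∫⁻ y₁, ∫⁻ y₂, ∫⁻ y₃, f y₁ * f y₂ * f y₃ * (K z y₁ * K z y₂ * K z y₃) ∂ν ∂ν ∂ν := by
    intro z
    have m1 : Measurable (fun y => K z y * f y) := (hKz z).mul hf
    calc (∫⁻ y, K z y * f y ∂ν) ^ 3
        = (∫⁻ y, K z y * f y ∂ν) * ((∫⁻ y, K z y * f y ∂ν) * ∫⁻ y, K z y * f y ∂ν) := by ring
      _ = ∫⁻ y₁, (K z y₁ * f y₁) * ((∫⁻ y, K z y * f y ∂ν) * ∫⁻ y, K z y * f y ∂ν) ∂ν := by
          rw [lintegral_mul_const _ m1]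
      _ = _ := by
          congr 1; ext y₁
          rw [← lintegral_mul_const _ m1, ← lintegral_const_mul _ (by fun_prop)]
          congr 1; ext y₂
          rw [← lintegral_const_mul _ m1, ← lintegral_const_mul _ (by fun_prop)]
          congr 1; ext y₃
          ring
  simp_rw [e1]
  -- swap the integrals
  have hmeas : Measurable (fun w : ((Z × Y) × Y) × Y =>
      f w.1.1.2 * f w.1.2 * f w.2 * (K w.1.1.1 w.1.1.2 * K w.1.1.1 w.1.2 * K w.1.1.1 w.2)) := by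
    have k1 : Measurable (fun w : ((Z × Y) × Y) × Y => K w.1.1.1 w.1.1.2) :=
      hK.comp (f := fun w : ((Z × Y) × Y) × Y => (w.1.1.1, w.1.1.2)) (by fun_prop)
    have k2 : Measurable (fun w : ((Z × Y) × Y) × Y => K w.1.1.1 w.1.2) :=
      hK.comp (f := fun w : ((Z × Y) × Y) × Y => (w.1.1.1, w.1.2)) (by fun_prop)
    have k3 : Measurable (fun w : ((Z × Y) × Y) × Y => K w.1.1.1 w.2) :=
      hK.comp (f := fun w : ((Z × Y) × Y) × Y => (w.1.1.1, w.2)) (by fun_prop)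
    fun_prop
  rw [lintegral_lintegral_swap]
  · congr 1; ext y₁
    rw [lintegral_lintegral_swap]
    · congr 1; ext y₂
      rw [lintegral_lintegral_swap]
      · congr 1; ext y₃
        rw [lintegral_const_mul]
        have k1 : ∀ y, Measurable (fun z => K z y) := fun y => hK.comp (measurable_id.prodMk measurable_const)
        exact ((k1 y₁).mul (k1 y₂)).mul (k1 y₃)
      · exact (hmeas.comp (f := fun w : Z × Y => (((w.1, y₁), y₂), w.2)) (by fun_prop)).aemeasurable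
    · apply Measurable.aemeasurable
      exact Measurable.lintegral_prod_right' (f := fun w : (Z × Y) × Y =>
        f y₁ * f w.1.2 * f w.2 * (K w.1.1 y₁ * K w.1.1 w.1.2 * K w.1.1 w.2))
        (hmeas.comp (f := fun w : (Z × Y) × Y => (((w.1.1, y₁), w.1.2), w.2)) (by fun_prop))
  · apply Measurable.aemeasurable
    exact Measurable.lintegral_prod_right' (f := fun w : (Z × Y) × Y =>
        ∫⁻ y₃, f w.1.2 * f w.2 * f y₃ * (K w.1.1 w.1.2 * K w.1.1 w.2 * K w.1.1 y₃) ∂ν)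
        (Measurable.lintegral_prod_right' (f := fun w : ((Z × Y) × Y) × Y =>
        f w.1.1.2 * f w.1.2 * f w.2 * (K w.1.1.1 w.1.1.2 * K w.1.1.1 w.1.2 * K w.1.1.1 w.2)) hmeas)

/-- **The main inequality**, thickened version. -/
theorem shell_main (δ : ℝ) (hδ : 0 < δ) (hδ1 : δ ≤ 1) (f : E3 → ENNReal) (hf : Measurable f) :
    ∫⁻ t in Icc (1 : ℝ) 2, ∫⁻ x, (∫⁻ y, sh δ x t y * f y) ^ 3 ≤
      ENNReal.ofReal (δ ^ 3) * (cT * ∫⁻ x, (∫⁻ y, kr (x - y) * f y) ^ 3) := by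
  have hsh := measurable_sh δ
  -- left side
  have hL : ∫⁻ t in Icc (1 : ℝ) 2, ∫⁻ x, (∫⁻ y, sh δ x t y * f y) ^ 3 =
      ∫⁻ y₁, ∫⁻ y₂, ∫⁻ y₃, f y₁ * f y₂ * f y₃ *
        ∫⁻ t in Icc (1 : ℝ) 2, ∫⁻ x, sh δ x t y₁ * sh δ x t y₂ * sh δ x t y₃ := by
    have hsh' : Measurable (Function.uncurry (fun (z : ℝ × E3) (y : E3) => sh δ z.2 z.1 y)) :=
      hsh.comp (f := fun w : (ℝ × E3) × E3 => ((w.1.2, w.1.1), w.2)) (by fun_prop)
    have h := cube_expand ((volume.restrict (Icc (1 : ℝ) 2)).prod (volume : Measure E3))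
      (volume : Measure E3) (fun (z : ℝ × E3) (y : E3) => sh δ z.2 z.1 y) hsh' f hf
    rw [lintegral_prod] at h
    · rw [h]
      congr 1; ext y₁; congr 1; ext y₂; congr 1; ext y₃
      congr 1
      rw [lintegral_prod]
      have e : ∀ y : E3, Measurable (fun z : ℝ × E3 => sh δ z.2 z.1 y) := fun y =>
        hsh'.comp (measurable_id.prodMk measurable_const)
      exact (((e y₁).mul (e y₂)).mul (e y₃)).aemeasurable
    · apply Measurable.aemeasurable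
      apply Measurable.pow_const
      exact Measurable.lintegral_prod_right' (f := fun w : (ℝ × E3) × E3 => sh δ w.1.2 w.1.1 w.2 * f w.2)
        (hsh'.mul (hf.comp measurable_snd))
  have hR : ∫⁻ x, (∫⁻ y, kr (x - y) * f y) ^ 3 =
      ∫⁻ y₁, ∫⁻ y₂, ∫⁻ y₃, f y₁ * f y₂ * f y₃ * ∫⁻ x, kr (x - y₁) * kr (x - y₂) * kr (x - y₃) := by
    exact cube_expand (volume : Measure E3) (volume : Measure E3) (fun x y => kr (x - y))
      (measurable_kr.comp (f := fun w : E3 × E3 => w.1 - w.2) (by fun_prop)) f hf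
  have hk1 : ∀ y : E3, Measurable (fun x : E3 => kr (x - y)) := fun y => measurable_kr.comp (by fun_prop)
  have hJ : Measurable (fun w : (E3 × E3) × E3 => ∫⁻ x, kr (x - w.1.1) * kr (x - w.1.2) * kr (x - w.2)) := by
    apply Measurable.lintegral_prod_right' (f := fun v : ((E3 × E3) × E3) × E3 =>
      kr (v.2 - v.1.1.1) * kr (v.2 - v.1.1.2) * kr (v.2 - v.1.2))
    refine ((measurable_kr.comp ?_).mul (measurable_kr.comp ?_)).mul (measurable_kr.comp ?_) <;> fun_prop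
  rw [hL, hR, ← lintegral_const_mul', ← lintegral_const_mul']
  · apply lintegral_mono
    intro y₁
    simp only
    rw [← lintegral_const_mul', ← lintegral_const_mul']
    · apply lintegral_mono_ae
      have h12 : ∀ᵐ y₂ : E3, y₂ ≠ y₁ := by
        rw [ae_iff]; simp
      filter_upwards [h12] with y₂ hy₂
      rw [← lintegral_const_mul', ← lintegral_const_mul']
      · apply lintegral_mono_ae
        have h13 : ∀ᵐ y₃ : E3, y₃ ≠ y₁ := by
          rw [ae_iff]; simp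
        have h23 : ∀ᵐ y₃ : E3, y₃ ≠ y₂ := by
          rw [ae_iff]; simp
        filter_upwards [h13, h23] with y₃ hy₃ hy₃'
        have := sh_kr δ hδ hδ1 y₁ y₂ y₃ (Ne.symm hy₂) (Ne.symm hy₃) (Ne.symm hy₃')
        calc f y₁ * f y₂ * f y₃ * _ ≤ f y₁ * f y₂ * f y₃ * (ENNReal.ofReal (δ ^ 3) *
              (cT * ∫⁻ x, kr (x - y₁) * kr (x - y₂) * kr (x - y₃))) := by gcongr
          _ = _ := by ring
      · exact ENNReal.ofReal_ne_top
      · exact cT_ne_top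
    · exact ENNReal.ofReal_ne_top
    · exact cT_ne_top
  · exact ENNReal.ofReal_ne_top
  · exact cT_ne_top

end Pool.Agent.H79.Wave
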