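import Mathlib
import Pool.Agent.H79.Wave.Geom

/-!
Fourier transform of a ball in `ℝ³` and Kirchhoff's formula.
-/

set_option autoImplicit false

namespace Pool.Agent.H79.Wave

open MeasureTheory Set Metric FourierTransform RealInnerProductSpace

/-- the measure preserving identification of `E3` with `ℝ × ℝ²`. -/
noncomputable def eq3 : E3 ≃ᵐ ℝ × (Fin 2 → ℝ) :=
  (MeasurableEquiv.toLp 2 (Fin 3 → ℝ)).symm.trans (MeasurableEquiv.piFinSuccAbove (fun _ => ℝ) 0)

lemma eq3_mp : MeasurePreserving eq3 :=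
  (volume_preserving_piFinSuccAbove (fun _ : Fin 3 => ℝ) 0).comp
    (EuclideanSpace.volume_preserving_symm_measurableEquiv_toLp (Fin 3))

lemma eq3_apply (y : E3) : eq3 y = (y 0, ![y 1, y 2]) := by
  unfold eq3
  ext
  · simp [MeasurableEquiv.piFinSuccAbove]
  · rename_i i
    fin_cases i <;> simp [MeasurableEquiv.piFinSuccAbove] <;> rfl

lemma vol_disc (ρ : ℝ) : volume {v : Fin 2 → ℝ | v 0 ^ 2 + v 1 ^ 2 < ρ} = ENNReal.ofReal (Real.pi * ρ) := by
  have h1 : volume {v : Fin 2 → ℝ | v 0 ^ 2 + v 1 ^ 2 < ρ} =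
      volume {y : EuclideanSpace ℝ (Fin 2) | y 0 ^ 2 + y 1 ^ 2 < ρ} :=
    ((EuclideanSpace.volume_preserving_symm_measurableEquiv_toLp (Fin 2)).measure_preimage_equiv
      {v : Fin 2 → ℝ | v 0 ^ 2 + v 1 ^ 2 < ρ}).symm
  rw [h1]
  by_cases hρ : 0 < ρ
  · have h2 : {y : EuclideanSpace ℝ (Fin 2) | y 0 ^ 2 + y 1 ^ 2 < ρ} = ball 0 (Real.sqrt ρ) := by
      ext y
      simp only [Set.mem_ofPred_eq, mem_ball_zero_iff]
      rw [Real.lt_sqrt (norm_nonneg _), EuclideanSpace.norm_sq_eq]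
      simp
    rw [h2, EuclideanSpace.volume_ball_fin_two, ← ENNReal.ofReal_pow (Real.sqrt_nonneg _),
      Real.sq_sqrt hρ.le, ← ENNReal.ofReal_mul hρ.le, mul_comm]
  · have h2 : {y : EuclideanSpace ℝ (Fin 2) | y 0 ^ 2 + y 1 ^ 2 < ρ} = ∅ := by
      ext y
      simp only [Set.mem_ofPred_eq, Set.mem_empty_iff_false, iff_false, not_lt]
      nlinarith [sq_nonneg (y 0), sq_nonneg (y 1)]
    rw [h2, measure_empty, ENNReal.ofReal_of_nonpos]
    have := Real.pi_pos
    nlinarith

/-- slicing formula for a ball -/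
lemma ball_slice (g : ℝ → ℂ) (hg : Continuous g) (r : ℝ) (hr : 0 ≤ r) :
    ∫ y in ball (0 : E3) r, g (y 0) = ∫ s in (-r)..r, ((Real.pi * (r ^ 2 - s ^ 2) : ℝ) : ℂ) * g s := by
  have hcoord : Continuous (fun y : E3 => y 0) := by fun_prop
  have hint : IntegrableOn (fun y : E3 => g (y 0)) (ball (0 : E3) r) := by
    have : IntegrableOn (fun y : E3 => g (y 0)) (closedBall (0 : E3) r) :=
      (hg.comp hcoord).continuousOn.integrableOn_compact (isCompact_closedBall _ _)
    exact this.mono_set ball_subset_closedBall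
  set S : Set (ℝ × (Fin 2 → ℝ)) := {w | w.1 ^ 2 + (w.2 0 ^ 2 + w.2 1 ^ 2) < r ^ 2} with hS
  have hSm : MeasurableSet S := by
    apply measurableSet_lt <;> fun_prop
  have hpre : eq3 ⁻¹' S = ball (0 : E3) r := by
    ext y
    rw [Set.mem_preimage, eq3_apply, hS]
    simp only [Set.mem_ofPred_eq, mem_ball_zero_iff]
    rw [← sq_lt_sq₀ (norm_nonneg _) hr, nsq]
    simp [add_assoc]
  have hfun : ∀ y : E3, g (y 0) = (fun w : ℝ × (Fin 2 → ℝ) => g w.1) (eq3 y) := by
    intro y; rw [eq3_apply]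
  have h1 : ∫ y in ball (0 : E3) r, g (y 0) = ∫ w in S, g w.1 := by
    rw [← hpre]
    simp_rw [hfun]
    exact eq3_mp.setIntegral_preimage_emb eq3.measurableEmbedding (fun w => g w.1) S
  have hintS : IntegrableOn (fun w : ℝ × (Fin 2 → ℝ) => g w.1) S := by
    rw [← eq3_mp.integrableOn_comp_preimage eq3.measurableEmbedding, hpre]
    simpa only [Function.comp_def, ← hfun] using hint
  rw [h1, ← integral_indicator hSm]
  have hprod : ∫ w, S.indicator (fun w : ℝ × (Fin 2 → ℝ) => g w.1) w =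
      ∫ s : ℝ, ∫ v : Fin 2 → ℝ, S.indicator (fun w : ℝ × (Fin 2 → ℝ) => g w.1) (s, v) := by
    rw [← integral_prod]
    · rfl
    · exact (integrable_indicator_iff hSm).mpr hintS
  rw [hprod]
  have hinner : ∀ s : ℝ, ∫ v : Fin 2 → ℝ, S.indicator (fun w : ℝ × (Fin 2 → ℝ) => g w.1) (s, v) =
      ((ENNReal.ofReal (Real.pi * (r ^ 2 - s ^ 2))).toReal : ℂ) * g s := by
    intro s
    have e : ∀ v : Fin 2 → ℝ, S.indicator (fun w : ℝ × (Fin 2 → ℝ) => g w.1) (s, v) =
        ({v : Fin 2 → ℝ | v 0 ^ 2 + v 1 ^ 2 < r ^ 2 - s ^ 2}).indicator (fun _ => g s) v := by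
      intro v
      by_cases hv : v 0 ^ 2 + v 1 ^ 2 < r ^ 2 - s ^ 2
      · rw [Set.indicator_of_mem, Set.indicator_of_mem]
        · exact hv
        · simp only [hS, Set.mem_ofPred_eq]; linarith
      · rw [Set.indicator_of_notMem, Set.indicator_of_notMem]
        · exact hv
        · simp only [hS, Set.mem_ofPred_eq]; intro h; apply hv; linarith
    simp_rw [e]
    rw [integral_indicator_const, measureReal_def, vol_disc]
    · simp
    · apply measurableSet_lt <;> fun_prop
  simp_rw [hinner]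
  rw [intervalIntegral.integral_of_le (by linarith), ← integral_indicator measurableSet_Ioc]
  apply integral_congr_ae
  filter_upwards with s
  by_cases hs : s ∈ Ioc (-r) r
  · rw [Set.indicator_of_mem hs, ENNReal.toReal_ofReal]
    have := Real.pi_pos
    have h3 : 0 ≤ r ^ 2 - s ^ 2 := by nlinarith [hs.1, hs.2]
    positivity
  · rw [Set.indicator_of_notMem hs]
    have h3 : r ^ 2 - s ^ 2 ≤ 0 := by
      rw [Set.mem_Ioc, not_and_or, not_lt, not_le] at hs
      rcases hs with hs | hs <;> nlinarith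
    rw [ENNReal.ofReal_of_nonpos]
    · simp
    · have := Real.pi_pos
      nlinarith

/-- Fourier transform of the indicator of a ball -/
noncomputable def bft (r : ℝ) (ξ : E3) : ℂ :=
  ∫ y in ball (0 : E3) r, Complex.exp (((-(2 * Real.pi * ⟪y, ξ⟫) : ℝ) : ℂ) * Complex.I)

/-- the value of the Fourier transform of a ball, as a one dimensional integral -/
noncomputable def bftR (k r : ℝ) : ℝ :=
  2 * Real.pi * (r ^ 2 * (∫ s in (0 : ℝ)..r, Real.cos (2 * Real.pi * k * s)) -
    ∫ s in (0 : ℝ)..r, s ^ 2 * Real.cos (2 * Real.pi * k * s))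

lemma bft_rot (r : ℝ) (ξ : E3) :
    bft r ξ = ∫ y in ball (0 : E3) r,
      Complex.exp (((-(2 * Real.pi * ‖ξ‖ * y 0) : ℝ) : ℂ) * Complex.I) := by
  set w : E3 := ‖ξ‖ • EuclideanSpace.single (0 : Fin 3) (1 : ℝ) with hw
  have hn : ‖ξ‖ = ‖w‖ := by
    rw [hw, norm_smul]; simp
  set A := (ℝ ∙ (ξ - w))ᗮ.reflection with hA
  have hAξ : A ξ = w := Submodule.reflection_sub (v := ξ) (w := w) hn
  have hin : ∀ y : E3, ⟪y, w⟫ = ‖ξ‖ * y 0 := by
    intro y
    rw [hw, inner_smul_right, inr]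
    simp
  have hf : ∀ y : E3, Complex.exp (((-(2 * Real.pi * ⟪y, ξ⟫) : ℝ) : ℂ) * Complex.I) =
      (fun z : E3 => Complex.exp (((-(2 * Real.pi * ‖ξ‖ * z 0) : ℝ) : ℂ) * Complex.I)) (A y) := by
    intro y
    simp only
    congr 4
    rw [mul_assoc (2 * Real.pi), ← hin, ← hAξ, A.inner_map_map]
  unfold bft
  simp_rw [hf]
  have hpre : A ⁻¹' (ball (0 : E3) r) = ball (0 : E3) r := by
    ext y
    simp
  conv_lhs => rw [← hpre]
  exact A.measurePreserving.setIntegral_preimage_emb A.toHomeomorph.measurableEmbedding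
    (fun z : E3 => Complex.exp (((-(2 * Real.pi * ‖ξ‖ * z 0) : ℝ) : ℂ) * Complex.I)) (ball (0 : E3) r)

lemma bft_eq (r : ℝ) (hr : 0 ≤ r) (ξ : E3) : bft r ξ = (bftR ‖ξ‖ r : ℂ) := by
  rw [bft_rot]
  set k := ‖ξ‖ with hk
  have hc : Continuous (fun s : ℝ => Complex.exp (((-(2 * Real.pi * k * s) : ℝ) : ℂ) * Complex.I)) := by
    fun_prop
  rw [ball_slice (fun s => Complex.exp (((-(2 * Real.pi * k * s) : ℝ) : ℂ) * Complex.I)) hc r hr]
  set F : ℝ → ℂ := fun s => ((Real.pi * (r ^ 2 - s ^ 2) : ℝ) : ℂ) *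
    Complex.exp (((-(2 * Real.pi * k * s) : ℝ) : ℂ) * Complex.I) with hF
  have hFc : Continuous F := by fun_prop
  have h1 : ∫ s in (-r)..r, F s = (∫ s in (0 : ℝ)..r, F (-s)) + ∫ s in (0 : ℝ)..r, F s := by
    rw [← intervalIntegral.integral_add_adjacent_intervals (a := -r) (b := 0) (c := r)
      (hFc.intervalIntegrable _ _) (hFc.intervalIntegrable _ _)]
    congr 1
    rw [intervalIntegral.integral_comp_neg]
    simp
  rw [h1, ← intervalIntegral.integral_add]
  · have h2 : ∀ s : ℝ, F (-s) + F s =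
        ((2 * Real.pi * (r ^ 2 * Real.cos (2 * Real.pi * k * s) -
          s ^ 2 * Real.cos (2 * Real.pi * k * s)) : ℝ) : ℂ) := by
      intro s
      simp only [hF]
      have e1 : Complex.exp (((-(2 * Real.pi * k * -s) : ℝ) : ℂ) * Complex.I) =
          Complex.cos ((2 * Real.pi * k * s : ℝ) : ℂ) + Complex.sin ((2 * Real.pi * k * s : ℝ) : ℂ) * Complex.I := by
        rw [← Complex.exp_mul_I]; congr 2; push_cast; ring
      have e2 : Complex.exp (((-(2 * Real.pi * k * s) : ℝ) : ℂ) * Complex.I) =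
          Complex.cos ((2 * Real.pi * k * s : ℝ) : ℂ) - Complex.sin ((2 * Real.pi * k * s : ℝ) : ℂ) * Complex.I := by
        have : (((-(2 * Real.pi * k * s) : ℝ) : ℂ)) = -((2 * Real.pi * k * s : ℝ) : ℂ) := by push_cast; ring
        rw [this, Complex.exp_mul_I, Complex.cos_neg, Complex.sin_neg]
        ring
      rw [e1, e2, ← Complex.ofReal_cos, ← Complex.ofReal_sin]
      push_cast
      ring
    simp_rw [h2]
    rw [intervalIntegral.integral_ofReal]
    congr 1
    unfold bftR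
    rw [intervalIntegral.integral_const_mul, intervalIntegral.integral_sub,
      intervalIntegral.integral_const_mul]
    · exact Continuous.intervalIntegrable (by fun_prop) _ _
    · exact Continuous.intervalIntegrable (by fun_prop) _ _
  · exact (hFc.comp continuous_neg).intervalIntegrable _ _
  · exact hFc.intervalIntegrable _ _

lemma hasDerivAt_bftR (k r : ℝ) :
    HasDerivAt (bftR k) (4 * Real.pi * r * ∫ s in (0 : ℝ)..r, Real.cos (2 * Real.pi * k * s)) r := by
  have c1 : Continuous (fun s : ℝ => Real.cos (2 * Real.pi * k * s)) := by fun_prop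
  have c2 : Continuous (fun s : ℝ => s ^ 2 * Real.cos (2 * Real.pi * k * s)) := by fun_prop
  have d1 : HasDerivAt (fun r : ℝ => ∫ s in (0 : ℝ)..r, Real.cos (2 * Real.pi * k * s))
      (Real.cos (2 * Real.pi * k * r)) r :=
    intervalIntegral.integral_hasDerivAt_right (c1.intervalIntegrable _ _)
      (c1.stronglyMeasurableAtFilter _ _) c1.continuousAt
  have d2 : HasDerivAt (fun r : ℝ => ∫ s in (0 : ℝ)..r, s ^ 2 * Real.cos (2 * Real.pi * k * s))
      (r ^ 2 * Real.cos (2 * Real.pi * k * r)) r :=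
    intervalIntegral.integral_hasDerivAt_right (c2.intervalIntegrable _ _)
      (c2.stronglyMeasurableAtFilter _ _) c2.continuousAt
  have d3 : HasDerivAt (fun r : ℝ => r ^ 2) (2 * r) r := by simpa using hasDerivAt_pow 2 r
  have d4 := ((d3.mul d1).sub d2).const_mul (2 * Real.pi)
  convert! d4 using 1
  ring

lemma int_cos (k r : ℝ) (hk : k ≠ 0) :
    ∫ s in (0 : ℝ)..r, Real.cos (2 * Real.pi * k * s) =
      Real.sin (2 * Real.pi * k * r) / (2 * Real.pi * k) := by
  have h : (2 * Real.pi * k) ≠ 0 := by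
    have := Real.pi_pos
    positivity
  rw [intervalIntegral.integral_comp_mul_left (fun s => Real.cos s) h]
  simp
  field_simp

lemma abs_int_cos_le (k r : ℝ) (hr : 0 ≤ r) :
    |∫ s in (0 : ℝ)..r, Real.cos (2 * Real.pi * k * s)| ≤ r := by
  have := intervalIntegral.norm_integral_le_of_norm_le_const (a := 0) (b := r) (C := 1)
    (f := fun s => Real.cos (2 * Real.pi * k * s)) (by
      intro s _
      rw [Real.norm_eq_abs]
      exact Real.abs_cos_le_one _)
  simpa [abs_of_nonneg hr] using this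

/-- Lipschitz bound in the radius -/
lemma bftR_lip (k r r' : ℝ) (hr : 0 ≤ r) (h : r ≤ r') (h3 : r' ≤ 3) :
    |bftR k r' - bftR k r| ≤ 36 * Real.pi * (r' - r) := by
  have hconv : Convex ℝ (Icc (0 : ℝ) 3) := convex_Icc _ _
  have := hconv.norm_image_sub_le_of_norm_hasDerivWithin_le (f := bftR k)
    (f' := fun r => 4 * Real.pi * r * ∫ s in (0 : ℝ)..r, Real.cos (2 * Real.pi * k * s))
    (C := 36 * Real.pi) (x := r) (y := r')
    (fun x hx => (hasDerivAt_bftR k x).hasDerivWithinAt) (by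
      intro x hx
      rw [norm_mul, Real.norm_eq_abs, Real.norm_eq_abs]
      have h1 := abs_int_cos_le k x hx.1
      have h2 : |4 * Real.pi * x| ≤ 12 * Real.pi := by
        rw [abs_of_nonneg (by have := Real.pi_pos; have := hx.1; positivity)]
        have := Real.pi_pos
        nlinarith [hx.2]
      calc _ ≤ (12 * Real.pi) * 3 := by
            apply mul_le_mul h2 (h1.trans hx.2) (abs_nonneg _)
            have := Real.pi_pos; positivity
        _ = _ := by ring) ⟨hr, h.trans h3⟩ ⟨hr.trans h, h3⟩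
  rw [Real.norm_eq_abs, Real.norm_eq_abs, abs_of_nonneg (sub_nonneg.mpr h)] at this
  exact this

end Pool.Agent.H79.Wave
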