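import Mathlib
import Pool.Agent.H79.Wave.Geom
import Pool.Agent.H79.Wave.BallFourier

/-!
Kirchhoff's formula: the Fourier multiplier solution of the wave equation in `ℝ³` is a limit of
shell averages.
-/

set_option autoImplicit false

namespace Pool.Agent.H79.Wave

open MeasureTheory Set Metric FourierTransform RealInnerProductSpace Filter Topology

/-- The solution at time `t` of the wave equation in `ℝ³` with data `u(0) = 0`, `∂ₜu(0) = f`:
the Fourier multiplier with symbol `sin(2πt|ξ|)/(2π|ξ|)`. -/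
noncomputable def waveSol (f : E3 → ℂ) (t : ℝ) (x : E3) : ℂ :=
  𝓕⁻ (fun ξ : E3 => ((Real.sin (2 * Real.pi * t * ‖ξ‖) / (2 * Real.pi * ‖ξ‖) : ℝ) : ℂ) * 𝓕 f ξ) x

/-- the character -/
noncomputable def ch (x ξ : E3) : ℂ := Complex.exp (((2 * Real.pi * ⟪ξ, x⟫ : ℝ) : ℂ) * Complex.I)

lemma norm_ch (x ξ : E3) : ‖ch x ξ‖ = 1 := by
  unfold ch
  exact Complex.norm_exp_ofReal_mul_I _

lemma continuous_ch : Continuous (fun w : E3 × E3 => ch w.1 w.2) := by
  unfold ch
  fun_prop

lemma fourierInv_ch (g : E3 → ℂ) (x : E3) : 𝓕⁻ g x = ∫ ξ, ch x ξ * g ξ := by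
  rw [Real.fourierInv_eq']
  rfl

lemma ball_integral (f : E3 → ℂ) (hc : Continuous f) (hf : Integrable f) (hf' : Integrable (𝓕 f))
    (x : E3) (r : ℝ) :
    ∫ y in ball (0 : E3) r, f (x - y) = ∫ ξ, ch x ξ * (bft r ξ * 𝓕 f ξ) := by
  have hinv : ∀ z, f z = ∫ ξ, ch z ξ * 𝓕 f ξ := by
    intro z
    rw [← fourierInv_ch, hc.fourierInv_fourier_eq hf hf']
  have e : ∀ y ξ : E3, ch (x - y) ξ = ch x ξ *
      Complex.exp (((-(2 * Real.pi * ⟪y, ξ⟫) : ℝ) : ℂ) * Complex.I) := by
    intro y ξ
    unfold ch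
    rw [← Complex.exp_add]
    congr 1
    rw [inner_sub_right, real_inner_comm y ξ]
    push_cast
    ring
  calc ∫ y in ball (0 : E3) r, f (x - y)
      = ∫ y in ball (0 : E3) r, ∫ ξ, ch (x - y) ξ * 𝓕 f ξ := by
        congr 1; ext y; exact hinv _
    _ = ∫ ξ, ∫ y in ball (0 : E3) r, ch (x - y) ξ * 𝓕 f ξ := by
        have hfin : IsFiniteMeasure ((volume : Measure E3).restrict (ball (0 : E3) r)) :=
          isFiniteMeasure_restrict.mpr measure_ball_lt_top.ne
        apply integral_integral_swap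
        have h1 : Integrable (fun w : E3 × E3 => (1 : ℂ) * 𝓕 f w.2)
            ((volume.restrict (ball (0 : E3) r)).prod volume) :=
          Integrable.mul_prod (f := fun _ : E3 => (1 : ℂ)) (integrable_const _) hf'
        have h2 := h1.bdd_mul (c := 1) (f := fun w : E3 × E3 => ch (x - w.1) w.2)
          (by
            apply Continuous.aestronglyMeasurable
            exact continuous_ch.comp (f := fun w : E3 × E3 => (x - w.1, w.2)) (by fun_prop))
          (by filter_upwards with w; rw [norm_ch])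
        simpa [Function.uncurry_def] using h2
    _ = _ := by
        congr 1; ext ξ
        simp_rw [e]
        rw [bft]
        rw [← integral_mul_const, ← integral_const_mul]
        congr 1; ext y
        ring

/-- the open shell around `x` -/
def shellSet (δ : ℝ) (x : E3) (t : ℝ) : Set E3 := {y | t < ‖x - y‖ ∧ ‖x - y‖ < t + δ}

lemma measurableSet_shell (δ : ℝ) (x : E3) (t : ℝ) : MeasurableSet (shellSet δ x t) := by
  apply MeasurableSet.inter
  · exact measurableSet_lt (f := fun _ : E3 => t) (g := fun y : E3 => ‖x - y‖) (by fun_prop) (by fun_prop)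
  · exact measurableSet_lt (f := fun y : E3 => ‖x - y‖) (g := fun _ : E3 => t + δ) (by fun_prop) (by fun_prop)

lemma ball_shift (f : E3 → ℂ) (x : E3) (r : ℝ) :
    ∫ y in ball (0 : E3) r, f (x - y) = ∫ y in ball x r, f y := by
  rw [← integral_indicator isOpen_ball.measurableSet, ← integral_indicator isOpen_ball.measurableSet,
    ← integral_sub_left_eq_self (fun y => (ball x r).indicator f y) volume x]
  congr 1; ext y
  by_cases hy : ‖y‖ < r
  · rw [Set.indicator_of_mem (by simpa using hy), Set.indicator_of_mem]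
    rw [mem_ball, dist_eq_norm]
    simpa using hy
  · rw [Set.indicator_of_notMem (by simpa using hy), Set.indicator_of_notMem]
    rw [mem_ball, dist_eq_norm]
    simpa using hy

lemma continuous_bft (r : ℝ) : Continuous (fun ξ => bft r ξ) := by
  have hfin : IsFiniteMeasure ((volume : Measure E3).restrict (ball (0 : E3) r)) :=
    isFiniteMeasure_restrict.mpr measure_ball_lt_top.ne
  unfold bft
  apply continuous_of_dominated (bound := fun _ => 1)
  · intro ξ
    apply Continuous.aestronglyMeasurable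
    fun_prop
  · intro ξ
    filter_upwards with y
    rw [Complex.norm_exp_ofReal_mul_I]
  · exact integrable_const _
  · filter_upwards with y
    fun_prop

lemma continuous_bftR (r : ℝ) (hr : 0 ≤ r) : Continuous (fun ξ : E3 => bftR ‖ξ‖ r) := by
  have h : (fun ξ : E3 => bftR ‖ξ‖ r) = fun ξ : E3 => (bft r ξ).re := by
    ext ξ
    rw [bft_eq r hr]
    simp
  rw [h]
  exact Complex.continuous_re.comp (continuous_bft r)

lemma integrable_bft (f : E3 → ℂ) (hf' : Integrable (𝓕 f)) (x : E3) (r : ℝ) :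
    Integrable (fun ξ => ch x ξ * (bft r ξ * 𝓕 f ξ)) := by
  have hfin : IsFiniteMeasure ((volume : Measure E3).restrict (ball (0 : E3) r)) :=
    isFiniteMeasure_restrict.mpr measure_ball_lt_top.ne
  have hb : ∀ ξ, ‖bft r ξ‖ ≤ (volume : Measure E3).real (ball (0 : E3) r) := by
    intro ξ
    unfold bft
    have := norm_setIntegral_le_of_norm_le_const (μ := (volume : Measure E3)) (s := ball (0 : E3) r)
      (C := 1) (f := fun y => Complex.exp (((-(2 * Real.pi * ⟪y, ξ⟫) : ℝ) : ℂ) * Complex.I))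
      measure_ball_lt_top (by
        intro y _
        rw [Complex.norm_exp_ofReal_mul_I])
    simpa using this
  have hcont : Continuous (fun ξ => bft r ξ) := continuous_bft r
  have hch : Continuous (fun ξ => ch x ξ) :=
    continuous_ch.comp (f := fun ξ : E3 => (x, ξ)) (by fun_prop)
  have h := hf'.bdd_mul (c := (volume : Measure E3).real (ball (0 : E3) r))
    (f := fun ξ => ch x ξ * bft r ξ) ((hch.mul hcont).aestronglyMeasurable) (by
      filter_upwards with ξ
      rw [norm_mul, norm_ch, one_mul]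
      exact hb ξ)
  simpa [mul_assoc] using h

lemma shell_integral (f : E3 → ℂ) (hc : Continuous f) (hf : Integrable f) (hf' : Integrable (𝓕 f))
    (x : E3) (t δ : ℝ) (ht : 0 ≤ t) (hδ : 0 < δ) :
    ∫ y in shellSet δ x t, f y =
      ∫ ξ, ch x ξ * (((bftR ‖ξ‖ (t + δ) - bftR ‖ξ‖ t : ℝ) : ℂ) * 𝓕 f ξ) := by
  have hae : shellSet δ x t =ᵐ[volume] (ball x (t + δ) \ ball x t : Set E3) := by
    have hs : volume (sphere x t) = 0 := Measure.addHaar_sphere _ _ _
    have h2 : ∀ᵐ y : E3, y ∉ sphere x t := measure_eq_zero_iff_ae_notMem.mp hs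
    filter_upwards [h2] with y hy
    have hne : ‖x - y‖ ≠ t := by
      intro h
      apply hy
      rw [mem_sphere, dist_comm, dist_eq_norm]
      exact h
    apply propext
    change (t < ‖x - y‖ ∧ ‖x - y‖ < t + δ) ↔ (dist y x < t + δ ∧ ¬ dist y x < t)
    rw [dist_comm, dist_eq_norm]
    constructor
    · rintro ⟨h1, h2⟩
      exact ⟨h2, not_lt.mpr h1.le⟩
    · rintro ⟨h1, h2⟩
      exact ⟨lt_of_le_of_ne (not_lt.mp h2) (Ne.symm hne), h1⟩
  rw [setIntegral_congr_set hae, setIntegral_sdiff measurableSet_ball hf.integrableOn]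
  · rw [← ball_shift f x (t + δ), ← ball_shift f x t, ball_integral f hc hf hf', ball_integral f hc hf hf',
      ← integral_sub (integrable_bft f hf' x _) (integrable_bft f hf' x _)]
    congr 1; ext ξ
    rw [bft_eq _ (by linarith), bft_eq _ ht]
    push_cast
    ring
  · exact ball_subset_ball (by linarith)

/-- **Kirchhoff's formula** (shell version). -/
lemma tendsto_shell (f : E3 → ℂ) (hc : Continuous f) (hf : Integrable f) (hf' : Integrable (𝓕 f))
    (x : E3) (t : ℝ) (ht : 0 ≤ t) (ht2 : t ≤ 2) :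
    Tendsto (fun n : ℕ => ((n + 1 : ℝ) : ℂ) * ∫ y in shellSet (1 / (n + 1 : ℝ)) x t, f y) atTop
      (𝓝 (((4 * Real.pi * t : ℝ) : ℂ) * waveSol f t x)) := by
  have hn : ∀ n : ℕ, (0 : ℝ) < 1 / (n + 1 : ℝ) := fun n => Nat.one_div_pos_of_nat
  have hlim : Tendsto (fun n : ℕ => t + 1 / (n + 1 : ℝ)) atTop (𝓝[≠] t) := by
    rw [tendsto_nhdsWithin_iff]
    constructor
    · simpa using tendsto_const_nhds.add (tendsto_one_div_add_atTop_nhds_zero_nat (𝕜 := ℝ))
    · filter_upwards with n
      have := hn n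
      simp only [Set.mem_compl_iff, Set.mem_singleton_iff]
      intro h
      linarith
  have e1 : ∀ n : ℕ, ((n + 1 : ℝ) : ℂ) * ∫ y in shellSet (1 / (n + 1 : ℝ)) x t, f y =
      ∫ ξ, ch x ξ * ((((n + 1 : ℝ) * (bftR ‖ξ‖ (t + 1 / (n + 1 : ℝ)) - bftR ‖ξ‖ t) : ℝ) : ℂ) * 𝓕 f ξ) := by
    intro n
    rw [shell_integral f hc hf hf' x t _ ht (hn n), ← integral_const_mul]
    congr 1; ext ξ
    push_cast
    ring
  simp_rw [e1]
  have e2 : ((4 * Real.pi * t : ℝ) : ℂ) * waveSol f t x =
      ∫ ξ, ch x ξ * (((4 * Real.pi * t * (Real.sin (2 * Real.pi * t * ‖ξ‖) / (2 * Real.pi * ‖ξ‖)) : ℝ) : ℂ)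
        * 𝓕 f ξ) := by
    rw [waveSol, fourierInv_ch, ← integral_const_mul]
    congr 1; ext ξ
    push_cast
    ring
  rw [e2]
  have hch : Continuous (fun ξ => ch x ξ) :=
    continuous_ch.comp (f := fun ξ : E3 => (x, ξ)) (by fun_prop)
  apply tendsto_integral_of_dominated_convergence (fun ξ => 36 * Real.pi * ‖𝓕 f ξ‖)
  · intro n
    have hb : Continuous (fun ξ : E3 => bftR ‖ξ‖ (t + 1 / (n + 1 : ℝ)) - bftR ‖ξ‖ t) :=
      (continuous_bftR _ (by linarith [hn n])).sub (continuous_bftR _ ht)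
    apply (hch.aestronglyMeasurable).mul
    apply AEStronglyMeasurable.mul
    · apply Continuous.aestronglyMeasurable
      fun_prop
    · exact hf'.aestronglyMeasurable
  · exact hf'.norm.const_mul _
  · intro n
    filter_upwards with ξ
    rw [norm_mul, norm_ch, one_mul, norm_mul]
    gcongr
    rw [Complex.norm_real, Real.norm_eq_abs, abs_mul, abs_of_pos (by positivity : (0 : ℝ) < n + 1)]
    have h1 : 1 / (n + 1 : ℝ) ≤ 1 := by
      rw [div_le_one (by positivity)]
      have : (0 : ℝ) ≤ n := Nat.cast_nonneg n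
      linarith
    have h2 := bftR_lip ‖ξ‖ t (t + 1 / (n + 1 : ℝ)) ht (by linarith [hn n]) (by linarith)
    calc (n + 1 : ℝ) * |bftR ‖ξ‖ (t + 1 / (n + 1 : ℝ)) - bftR ‖ξ‖ t|
        ≤ (n + 1 : ℝ) * (36 * Real.pi * (t + 1 / (n + 1 : ℝ) - t)) := by gcongr
      _ = 36 * Real.pi := by
          field_simp
          ring
  · have hne : ∀ᵐ ξ : E3, ξ ≠ 0 := by
      rw [ae_iff]; simp
    filter_upwards [hne] with ξ hξ
    have hk : ‖ξ‖ ≠ 0 := norm_ne_zero_iff.mpr hξ
    apply Tendsto.const_mul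
    apply Tendsto.mul_const
    apply (Complex.continuous_ofReal.tendsto _).comp
    have hd := (hasDerivAt_bftR ‖ξ‖ t).tendsto_slope.comp hlim
    rw [int_cos _ _ hk] at hd
    have e3 : 4 * Real.pi * t * (Real.sin (2 * Real.pi * ‖ξ‖ * t) / (2 * Real.pi * ‖ξ‖)) =
        4 * Real.pi * t * (Real.sin (2 * Real.pi * t * ‖ξ‖) / (2 * Real.pi * ‖ξ‖)) := by
      congr 3; ring
    rw [e3] at hd
    refine hd.congr (fun n => ?_)
    simp only [Function.comp_apply, slope_def_field]
    rw [add_sub_cancel_left]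
    have := hn n
    field_simp

end Pool.Agent.H79.Wave
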