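import Mathlib
import Pool.Agent.H79.Wave.Geom
import Pool.Agent.H79.Wave.Kirchhoff

/-!
Lower bound for Bessel potentials of non-negative functions in `ℝ³`.
-/

set_option autoImplicit false

namespace Pool.Agent.H79.Wave

open MeasureTheory Set Metric FourierTransform RealInnerProductSpace Filter Topology

/-- `(I - Δ)^{s/2} f` in `ℝ³`: the Fourier multiplier with symbol `(1 + 4π²|ξ|²)^{s/2}`. -/
noncomputable def bessel (s : ℝ) (f : E3 → ℂ) (x : E3) : ℂ :=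
  𝓕⁻ (fun ξ : E3 => (((1 + 4 * Real.pi ^ 2 * ‖ξ‖ ^ 2) ^ (s / 2) : ℝ) : ℂ) * 𝓕 f ξ) x

/-- heat kernel -/
noncomputable def heatK (s : ℝ) (z : E3) : ℝ :=
  (4 * Real.pi * s) ^ (-(3 / 2) : ℝ) * Real.exp (-(‖z‖ ^ 2 / (4 * s)))

lemma heatK_nonneg (s : ℝ) (hs : 0 < s) (z : E3) : 0 ≤ heatK s z := by
  unfold heatK; positivity

lemma heat_formula (f : E3 → ℂ) (hf : Integrable f) (s : ℝ) (hs : 0 < s) (x : E3) :
    ∫ ξ, ch x ξ * (((Real.exp (-(4 * Real.pi ^ 2 * s * ‖ξ‖ ^ 2)) : ℝ) : ℂ) * 𝓕 f ξ) =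
      ∫ y, ((heatK s (x - y) : ℝ) : ℂ) * f y := by
  set b : ℂ := ((4 * Real.pi ^ 2 * s : ℝ) : ℂ) with hb
  have hbre : 0 < b.re := by
    rw [hb, Complex.ofReal_re]
    have := Real.pi_pos
    positivity
  have J : Integrable (fun w : E3 ↦ Complex.exp (-b * ‖w‖ ^ 2 + 2 * Real.pi * Complex.I * ⟪x, w⟫)) :=
    GaussianFourier.integrable_cexp_neg_mul_sq_norm_add hbre _ _
  have h1 := (VectorFourier.integral_fourierIntegral_smul_eq_flip (L := innerₗ E3)
      Real.continuous_fourierChar continuous_inner J hf)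
  have h2 : ∫ ξ, ch x ξ * (((Real.exp (-(4 * Real.pi ^ 2 * s * ‖ξ‖ ^ 2)) : ℝ) : ℂ) * 𝓕 f ξ) =
      ∫ w : E3, Complex.exp (-b * ‖w‖ ^ 2 + 2 * Real.pi * Complex.I * ⟪x, w⟫) * 𝓕 f w := by
    congr 1; ext w
    rw [← mul_assoc]
    congr 1
    unfold ch
    rw [Complex.ofReal_exp, ← Complex.exp_add]
    congr 1
    rw [hb, real_inner_comm]
    push_cast
    ring
  have h3 : ∫ w : E3, Complex.exp (-b * ‖w‖ ^ 2 + 2 * Real.pi * Complex.I * ⟪x, w⟫) * 𝓕 f w =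
      ∫ w : E3, 𝓕 (fun v : E3 => Complex.exp (-b * ‖v‖ ^ 2 + 2 * Real.pi * Complex.I * ⟪x, v⟫)) w * f w := by
    simpa using! h1.symm
  rw [h2, h3]
  congr 1; ext w
  congr 1
  rw [fourier_gaussian_innerProductSpace' hbre]
  unfold heatK
  have e1 : ((Real.pi : ℂ) / b) = (((4 * Real.pi * s)⁻¹ : ℝ) : ℂ) := by
    rw [hb]
    have := Real.pi_pos
    rw [← Complex.ofReal_div]
    congr 1
    field_simp
  rw [e1]
  have e2 : ((Module.finrank ℝ E3 : ℂ) / 2) = (((3 / 2 : ℝ)) : ℂ) := by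
    simp
  rw [e2, ← Complex.ofReal_cpow (by have := Real.pi_pos; positivity)]
  push_cast
  congr 1
  · rw [Real.rpow_neg (by have := Real.pi_pos; positivity),
      Real.inv_rpow (by have := Real.pi_pos; positivity)]
  · congr 1
    rw [hb]
    have := Real.pi_pos
    have h4 : (Real.pi : ℂ) ≠ 0 := by exact_mod_cast this.ne'
    have h5 : (s : ℂ) ≠ 0 := by exact_mod_cast hs.ne'
    push_cast
    field_simp

lemma subord (β : ℝ) (hβ : 0 < β) (k : ℝ) :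
    (1 + 4 * Real.pi ^ 2 * k ^ 2) ^ (-β / 2) = (Real.Gamma (β / 2))⁻¹ *
      ∫ s in Ioi (0 : ℝ), (s ^ (β / 2 - 1) * Real.exp (-s)) * Real.exp (-(4 * Real.pi ^ 2 * s * k ^ 2)) := by
  have hr : 0 < 1 + 4 * Real.pi ^ 2 * k ^ 2 := by positivity
  have h := Real.integral_rpow_mul_exp_neg_mul_Ioi (a := β / 2) (by positivity) hr
  have hG : 0 < Real.Gamma (β / 2) := Real.Gamma_pos_of_pos (by positivity)
  have e : ∀ s : ℝ, (s ^ (β / 2 - 1) * Real.exp (-s)) * Real.exp (-(4 * Real.pi ^ 2 * s * k ^ 2)) =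
      s ^ (β / 2 - 1) * Real.exp (-((1 + 4 * Real.pi ^ 2 * k ^ 2) * s)) := by
    intro s
    rw [mul_assoc, ← Real.exp_add]
    congr 2
    ring
  simp_rw [e]
  rw [h, one_div, Real.inv_rpow hr.le, neg_div, Real.rpow_neg hr.le]
  field_simp

/-- the weight in the subordination formula -/
noncomputable def wt (β s : ℝ) : ℝ := s ^ (β / 2 - 1) * Real.exp (-s)

lemma wt_nonneg (β s : ℝ) (hs : 0 < s) : 0 ≤ wt β s := by unfold wt; positivity

lemma integrableOn_wt (β : ℝ) (hβ : 0 < β) : IntegrableOn (wt β) (Ioi 0) := by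
  have := Real.GammaIntegral_convergent (s := β / 2) (by positivity)
  refine this.congr_fun (fun s _ => ?_) measurableSet_Ioi
  unfold wt
  ring

lemma integrable_wtprod (f : E3 → ℂ) (hf' : Integrable (𝓕 f)) (β : ℝ) (hβ : 0 < β)
    (x : E3) :
    Integrable (fun w : E3 × ℝ => ((wt β w.2 : ℝ) : ℂ) *
        (ch x w.1 * (((Real.exp (-(4 * Real.pi ^ 2 * w.2 * ‖w.1‖ ^ 2)) : ℝ) : ℂ) * 𝓕 f w.1)))
      ((volume : Measure E3).prod (volume.restrict (Ioi (0 : ℝ)))) := by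
  have h1 : Integrable (fun w : E3 × ℝ => 𝓕 f w.1 * ((wt β w.2 : ℝ) : ℂ))
      ((volume : Measure E3).prod (volume.restrict (Ioi (0 : ℝ)))) :=
    Integrable.mul_prod (f := fun ξ : E3 => 𝓕 f ξ) (g := fun s : ℝ => ((wt β s : ℝ) : ℂ)) hf'
      (integrableOn_wt β hβ).ofReal
  have hch : Continuous (fun w : E3 × ℝ => ch x w.1) :=
    continuous_ch.comp (f := fun w : E3 × ℝ => (x, w.1)) (by fun_prop)
  have hae : ∀ᵐ w : E3 × ℝ ∂((volume : Measure E3).prod (volume.restrict (Ioi (0 : ℝ)))), w.2 ∈ Ioi (0 : ℝ) :=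
    (Measure.quasiMeasurePreserving_snd (μ := (volume : Measure E3))
      (ν := volume.restrict (Ioi (0 : ℝ)))).ae (ae_restrict_mem measurableSet_Ioi)
  have h2 := h1.bdd_mul (c := 1) (f := fun w : E3 × ℝ => ch x w.1 *
    (((Real.exp (-(4 * Real.pi ^ 2 * w.2 * ‖w.1‖ ^ 2)) : ℝ) : ℂ)))
    (by
      apply Continuous.aestronglyMeasurable
      apply hch.mul
      fun_prop)
    (by
      filter_upwards [hae] with w hw
      have hw' : 0 < w.2 := hw
      rw [norm_mul, norm_ch, one_mul, Complex.norm_real, Real.norm_eq_abs, Real.abs_exp,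
        Real.exp_le_one_iff]
      have : 0 ≤ 4 * Real.pi ^ 2 * w.2 * ‖w.1‖ ^ 2 := by positivity
      linarith)
  refine h2.congr ?_
  filter_upwards with w
  ring

lemma bessel_formula (f : E3 → ℂ) (hf : Integrable f) (hf' : Integrable (𝓕 f)) (β : ℝ) (hβ : 0 < β)
    (x : E3) :
    bessel (-β) f x = (((Real.Gamma (β / 2))⁻¹ : ℝ) : ℂ) *
      ∫ s in Ioi (0 : ℝ), ((wt β s : ℝ) : ℂ) * ∫ y, ((heatK s (x - y) : ℝ) : ℂ) * f y := by
  have e1 : ∀ ξ : E3, ch x ξ * ((((1 + 4 * Real.pi ^ 2 * ‖ξ‖ ^ 2) ^ (-β / 2) : ℝ) : ℂ) * 𝓕 f ξ) =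
      (((Real.Gamma (β / 2))⁻¹ : ℝ) : ℂ) * ∫ s in Ioi (0 : ℝ), ((wt β s : ℝ) : ℂ) *
        (ch x ξ * (((Real.exp (-(4 * Real.pi ^ 2 * s * ‖ξ‖ ^ 2)) : ℝ) : ℂ) * 𝓕 f ξ)) := by
    intro ξ
    rw [subord β hβ]
    have e2 : ∀ s : ℝ, ((wt β s : ℝ) : ℂ) *
        (ch x ξ * (((Real.exp (-(4 * Real.pi ^ 2 * s * ‖ξ‖ ^ 2)) : ℝ) : ℂ) * 𝓕 f ξ)) =
        (((wt β s * Real.exp (-(4 * Real.pi ^ 2 * s * ‖ξ‖ ^ 2)) : ℝ) : ℂ)) * (ch x ξ * 𝓕 f ξ) := by
      intro s; push_cast; ring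
    simp_rw [e2]
    rw [integral_mul_const, integral_complex_ofReal]
    unfold wt
    push_cast
    ring
  unfold bessel
  rw [fourierInv_ch]
  simp_rw [e1]
  rw [integral_const_mul]
  congr 1
  rw [integral_integral_swap (integrable_wtprod f hf' β hβ x)]
  apply setIntegral_congr_fun measurableSet_Ioi
  intro s hs
  simp only
  rw [integral_const_mul, heat_formula f hf s hs x]

/-- the kernel of the Bessel potential, up to the Gamma factor -/
noncomputable def besK (β : ℝ) (z : E3) : ENNReal :=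
  ∫⁻ s in Ioi (0 : ℝ), ENNReal.ofReal (wt β s * heatK s z)

lemma measurable_wt (β : ℝ) : Measurable (wt β) := by
  unfold wt; fun_prop

lemma measurable_heatK : Measurable (fun w : ℝ × E3 => heatK w.1 w.2) := by
  unfold heatK; fun_prop

lemma integrable_heat (g : E3 → ℝ) (hf : Integrable g) (s : ℝ) (hs : 0 < s) (x : E3) :
    Integrable (fun y => heatK s (x - y) * g y) := by
  apply hf.bdd_mul (c := (4 * Real.pi * s) ^ (-(3 / 2) : ℝ))
  · apply Continuous.aestronglyMeasurable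
    unfold heatK
    fun_prop
  · filter_upwards with y
    rw [Real.norm_eq_abs, abs_of_nonneg (heatK_nonneg s hs _)]
    unfold heatK
    have h1 : Real.exp (-(‖x - y‖ ^ 2 / (4 * s))) ≤ 1 := by
      rw [Real.exp_le_one_iff]
      have : 0 ≤ ‖x - y‖ ^ 2 / (4 * s) := by positivity
      linarith
    have h2 : 0 ≤ (4 * Real.pi * s) ^ (-(3 / 2) : ℝ) := by positivity
    calc _ ≤ (4 * Real.pi * s) ^ (-(3 / 2) : ℝ) * 1 := by gcongr
      _ = _ := by ring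

lemma bessel_nonneg (g : E3 → ℝ) (hg0 : ∀ x, 0 ≤ g x) (hgc : Continuous g) (hf : Integrable g)
    (hf' : Integrable (𝓕 (fun x => (g x : ℂ)))) (β : ℝ) (hβ : 0 < β) (x : E3) :
    ‖bessel (-β) (fun x => (g x : ℂ)) x‖ₑ = ENNReal.ofReal ((Real.Gamma (β / 2))⁻¹) *
      ∫⁻ y, besK β (x - y) * ENNReal.ofReal (g y) := by
  have hG : 0 < Real.Gamma (β / 2) := Real.Gamma_pos_of_pos (by positivity)
  rw [bessel_formula (fun x => (g x : ℂ)) hf.ofReal hf' β hβ x]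
  set H : ℝ → ℝ := fun s => wt β s * ∫ y, heatK s (x - y) * g y with hH
  have e1 : ∀ s : ℝ, ((wt β s : ℝ) : ℂ) * ∫ y, ((heatK s (x - y) : ℝ) : ℂ) * (g y : ℂ) = ((H s : ℝ) : ℂ) := by
    intro s
    rw [hH]
    simp only
    push_cast
    rw [← integral_complex_ofReal]
    push_cast
    rfl
  simp_rw [e1]
  have hH0 : ∀ s ∈ Ioi (0 : ℝ), 0 ≤ H s := fun s hs =>
    mul_nonneg (wt_nonneg β s hs) (integral_nonneg (fun y => mul_nonneg (heatK_nonneg s hs _) (hg0 y)))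
  have hHint : IntegrableOn H (Ioi 0) := by
    have h1 := (integrable_wtprod (fun x => (g x : ℂ)) hf' β hβ x).integral_prod_right
    have h2 : IntegrableOn (fun s => ((H s : ℝ) : ℂ)) (Ioi 0) := by
      refine IntegrableOn.congr_fun h1 (fun s hs => ?_) measurableSet_Ioi
      simp only
      rw [integral_const_mul, heat_formula (fun x => (g x : ℂ)) hf.ofReal s hs x, ← e1]
    have h3 : Integrable (fun s => ((H s : ℝ) : ℂ)) (volume.restrict (Ioi 0)) := h2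
    have h4 := h3.re
    exact h4
  rw [integral_complex_ofReal, ← Complex.ofReal_mul, ← ofReal_norm, Complex.norm_real,
    Real.norm_eq_abs, abs_of_nonneg (mul_nonneg (inv_nonneg.mpr hG.le)
      (setIntegral_nonneg measurableSet_Ioi hH0)), ENNReal.ofReal_mul (inv_nonneg.mpr hG.le)]
  congr 1
  rw [ofReal_integral_eq_lintegral_ofReal hHint (by
    filter_upwards [ae_restrict_mem measurableSet_Ioi] with s hs using hH0 s hs)]
  have e2 : ∀ s ∈ Ioi (0 : ℝ), ENNReal.ofReal (H s) =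
      ∫⁻ y, ENNReal.ofReal (wt β s * heatK s (x - y)) * ENNReal.ofReal (g y) := by
    intro s hs
    rw [hH]
    simp only
    rw [ENNReal.ofReal_mul (wt_nonneg β s hs), ofReal_integral_eq_lintegral_ofReal
      (integrable_heat g hf s hs x)
      (ae_of_all _ (fun y => mul_nonneg (heatK_nonneg s hs _) (hg0 y))),
      ← lintegral_const_mul' _ _ ENNReal.ofReal_ne_top]
    congr 1; ext y
    rw [ENNReal.ofReal_mul (heatK_nonneg s hs _), ENNReal.ofReal_mul (wt_nonneg β s hs), mul_assoc]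
  rw [setLIntegral_congr_fun measurableSet_Ioi e2, lintegral_lintegral_swap]
  · congr 1; ext y
    unfold besK
    rw [lintegral_mul_const']
    exact ENNReal.ofReal_ne_top
  · apply Measurable.aemeasurable
    have m1 : Measurable (fun w : ℝ × E3 => heatK w.1 (x - w.2)) :=
      measurable_heatK.comp (f := fun w : ℝ × E3 => (w.1, x - w.2)) (by fun_prop)
    have m2 := measurable_wt β
    have m3 := hgc.measurable
    simp only [Function.uncurry_def]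
    fun_prop

/-- the constant in the lower bound for the Bessel kernel -/
noncomputable def c0 : ℝ := (4 * Real.pi) ^ (-(3 / 2) : ℝ) * (288 : ℝ) ^ (-(1 / 2) : ℝ) / 4 * Real.exp (-289)

lemma c0_pos : 0 < c0 := by unfold c0; positivity

lemma kernel_lower (β : ℝ) (hβ : 0 < β) (hβ1 : β ≤ 1) (ρ s : ℝ) (hρ : 0 < ρ) (hρ12 : ρ ≤ 12)
    (hs1 : ρ ^ 2 < s) (hs2 : s < 2 * ρ ^ 2) (z : E3) (hz : ‖z‖ = ρ) :
    c0 / ρ ^ 4 ≤ wt β s * heatK s z := by
  have hs : 0 < s := lt_trans (by positivity) hs1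
  have hρ2 : ρ ^ 2 ≤ 144 := by nlinarith
  have hs288 : s ≤ 288 := by linarith
  have hpi := Real.pi_pos
  -- power part
  have e1 : s ^ (β / 2 - 1) * (4 * Real.pi * s) ^ (-(3 / 2) : ℝ) =
      (4 * Real.pi) ^ (-(3 / 2) : ℝ) * s ^ ((β - 1) / 2) * (s ^ 2)⁻¹ := by
    rw [Real.mul_rpow (by positivity) hs.le]
    have : s ^ (β / 2 - 1) * s ^ (-(3 / 2) : ℝ) = s ^ ((β - 1) / 2) * (s ^ 2)⁻¹ := by
      rw [← Real.rpow_natCast s 2, ← Real.rpow_neg hs.le, ← Real.rpow_add hs, ← Real.rpow_add hs]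
      congr 1
      push_cast
      ring
    calc s ^ (β / 2 - 1) * ((4 * Real.pi) ^ (-(3 / 2) : ℝ) * s ^ (-(3 / 2) : ℝ))
        = (4 * Real.pi) ^ (-(3 / 2) : ℝ) * (s ^ (β / 2 - 1) * s ^ (-(3 / 2) : ℝ)) := by ring
      _ = _ := by rw [this]; ring
  have e2 : (288 : ℝ) ^ (-(1 / 2) : ℝ) ≤ s ^ ((β - 1) / 2) := by
    calc (288 : ℝ) ^ (-(1 / 2) : ℝ) ≤ (288 : ℝ) ^ ((β - 1) / 2) :=
          Real.rpow_le_rpow_of_exponent_le (by norm_num) (by linarith)
      _ ≤ s ^ ((β - 1) / 2) := Real.rpow_le_rpow_of_nonpos hs hs288 (by linarith)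
  have e3 : (ρ ^ 4)⁻¹ / 4 ≤ (s ^ 2)⁻¹ := by
    have : s ^ 2 ≤ 4 * ρ ^ 4 := by nlinarith
    calc (ρ ^ 4)⁻¹ / 4 = (4 * ρ ^ 4)⁻¹ := by rw [mul_inv]; ring
      _ ≤ _ := by gcongr
  have e4 : Real.exp (-289) ≤ Real.exp (-s) * Real.exp (-(‖z‖ ^ 2 / (4 * s))) := by
    rw [← Real.exp_add]
    apply Real.exp_le_exp.mpr
    have : ‖z‖ ^ 2 / (4 * s) ≤ 1 := by
      rw [hz, div_le_one (by positivity)]
      linarith
    linarith
  unfold wt heatK
  calc c0 / ρ ^ 4 = ((4 * Real.pi) ^ (-(3 / 2) : ℝ) * (288 : ℝ) ^ (-(1 / 2) : ℝ) * ((ρ ^ 4)⁻¹ / 4)) *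
        Real.exp (-289) := by unfold c0; field_simp
    _ ≤ ((4 * Real.pi) ^ (-(3 / 2) : ℝ) * s ^ ((β - 1) / 2) * (s ^ 2)⁻¹) *
        (Real.exp (-s) * Real.exp (-(‖z‖ ^ 2 / (4 * s)))) := by gcongr
    _ = _ := by
        rw [← e1]; ring

lemma besK_lower (β : ℝ) (hβ : 0 < β) (hβ1 : β ≤ 1) (z : E3) (hz : z ≠ 0) :
    ENNReal.ofReal c0 * kr z ≤ besK β z := by
  unfold kr
  split_ifs with h12
  · have hρ : 0 < ‖z‖ := norm_pos_iff.mpr hz
    calc ENNReal.ofReal c0 * (‖z‖ₑ ^ 2)⁻¹ = ENNReal.ofReal (c0 / ‖z‖ ^ 4) * ENNReal.ofReal (‖z‖ ^ 2) := by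
          rw [← ofReal_norm, ← ENNReal.ofReal_pow (norm_nonneg z), ← ENNReal.ofReal_inv_of_pos (by positivity),
            ← ENNReal.ofReal_mul c0_pos.le, ← ENNReal.ofReal_mul (by have := c0_pos; positivity)]
          congr 1
          field_simp
      _ = ∫⁻ s in Ioo (‖z‖ ^ 2) (2 * ‖z‖ ^ 2), ENNReal.ofReal (c0 / ‖z‖ ^ 4) := by
          rw [setLIntegral_const, Real.volume_Ioo]
          congr 2
          ring
      _ ≤ ∫⁻ s in Ioo (‖z‖ ^ 2) (2 * ‖z‖ ^ 2), ENNReal.ofReal (wt β s * heatK s z) := by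
          apply setLIntegral_mono' measurableSet_Ioo
          intro s hs
          exact ENNReal.ofReal_le_ofReal (kernel_lower β hβ hβ1 ‖z‖ s hρ h12 hs.1 hs.2 z rfl)
      _ ≤ besK β z := by
          unfold besK
          apply lintegral_mono_set
          intro s hs
          exact lt_trans (by positivity) hs.1
  · simp

/-- lower bound of the Bessel potential of a nonnegative function by the truncated Riesz potential -/
theorem bessel_lower (g : E3 → ℝ) (hg0 : ∀ x, 0 ≤ g x) (hgc : Continuous g) (hf : Integrable g)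
    (hf' : Integrable (𝓕 (fun x => (g x : ℂ)))) (β : ℝ) (hβ : 0 < β) (hβ1 : β ≤ 1) (x : E3) :
    ENNReal.ofReal ((Real.Gamma (β / 2))⁻¹ * c0) * ∫⁻ y, kr (x - y) * ENNReal.ofReal (g y) ≤
      ‖bessel (-β) (fun x => (g x : ℂ)) x‖ₑ := by
  have hG : 0 < Real.Gamma (β / 2) := Real.Gamma_pos_of_pos (by positivity)
  rw [bessel_nonneg g hg0 hgc hf hf' β hβ x, ENNReal.ofReal_mul (inv_nonneg.mpr hG.le), mul_assoc,
    ← lintegral_const_mul' _ _ ENNReal.ofReal_ne_top]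
  refine mul_le_mul' le_rfl ?_
  apply lintegral_mono_ae
  have hne : ∀ᵐ y : E3, y ≠ x := by
    rw [ae_iff]; simp
  filter_upwards [hne] with y hy
  rw [← mul_assoc]
  gcongr
  exact besK_lower β hβ hβ1 _ (sub_ne_zero.mpr (Ne.symm hy))

end Pool.Agent.H79.Wave
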