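import Mathlib
import Pool.Agent.H79.Wave.Geom
import Pool.Agent.H79.Wave.Kirchhoff

/-!
From the thickened inequality to the solution of the wave equation.
-/

set_option autoImplicit false

namespace Pool.Agent.H79.Wave

open MeasureTheory Set Metric FourierTransform Filter Topology

lemma lintegral_sh (f : E3 → ℝ) (δ : ℝ) (x : E3) (t : ℝ) :
    ∫⁻ y, sh δ x t y * ENNReal.ofReal (f y) = ∫⁻ y in shellSet δ x t, ENNReal.ofReal (f y) := by
  rw [← lintegral_indicator (measurableSet_shell δ x t)]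
  congr 1; ext y
  unfold sh
  by_cases hy : y ∈ shellSet δ x t
  · rw [Set.indicator_of_mem hy]
    have hy' : t < ‖x - y‖ ∧ ‖x - y‖ < t + δ := hy
    rw [if_pos hy', one_mul]
  · rw [Set.indicator_of_notMem hy]
    have hy' : ¬ (t < ‖x - y‖ ∧ ‖x - y‖ < t + δ) := hy
    rw [if_neg hy', zero_mul]

lemma enorm_shell (f : E3 → ℝ) (hf0 : ∀ x, 0 ≤ f x) (hf : Integrable f) (δ : ℝ) (x : E3) (t : ℝ) (c : ℝ)
    (hc0 : 0 ≤ c) :
    ‖((c : ℝ) : ℂ) * ∫ y in shellSet δ x t, ((f y : ℝ) : ℂ)‖ₑ =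
      ENNReal.ofReal c * ∫⁻ y, sh δ x t y * ENNReal.ofReal (f y) := by
  rw [lintegral_sh, integral_complex_ofReal, ← Complex.ofReal_mul]
  have h1 : 0 ≤ ∫ y in shellSet δ x t, f y := integral_nonneg hf0
  rw [← ofReal_norm, Complex.norm_real, Real.norm_eq_abs, abs_of_nonneg (mul_nonneg hc0 h1),
    ENNReal.ofReal_mul hc0]
  congr 1
  exact ofReal_integral_eq_lintegral_ofReal hf.integrableOn (ae_of_all _ hf0)

lemma measurable_shf (δ : ℝ) (g : E3 → ENNReal) (hg : Measurable g) :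
    Measurable (fun z : ℝ × E3 => ∫⁻ y, sh δ z.2 z.1 y * g y) := by
  have hsh' : Measurable (fun w : (ℝ × E3) × E3 => sh δ w.1.2 w.1.1 w.2) :=
    (measurable_sh δ).comp (f := fun w : (ℝ × E3) × E3 => ((w.1.2, w.1.1), w.2)) (by fun_prop)
  exact Measurable.lintegral_prod_right' (f := fun w : (ℝ × E3) × E3 => sh δ w.1.2 w.1.1 w.2 * g w.2)
    (hsh'.mul (hg.comp measurable_snd))

/-- local smoothing at the critical exponent for non-negative velocity, with the truncated Riesz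
potential on the right -/
theorem wave_nonneg (f : E3 → ℝ) (hf0 : ∀ x, 0 ≤ f x) (hc : Continuous f) (hf : Integrable f)
    (hf' : Integrable (𝓕 (fun x => (f x : ℂ)))) :
    ∫⁻ t in Icc (1 : ℝ) 2, ∫⁻ x, ‖waveSol (fun x => (f x : ℂ)) t x‖ₑ ^ 3 ≤
      cT * ∫⁻ x, (∫⁻ y, kr (x - y) * ENNReal.ofReal (f y)) ^ 3 := by
  set g : E3 → ENNReal := fun y => ENNReal.ofReal (f y) with hg
  have hgm : Measurable g := hc.measurable.ennreal_ofReal
  set S : ℕ → ℝ → E3 → ENNReal := fun n t x =>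
    (ENNReal.ofReal (n + 1 : ℝ) * ∫⁻ y, sh (1 / (n + 1 : ℝ)) x t y * g y) ^ 3 with hS
  have hSm : ∀ n, Measurable (fun z : ℝ × E3 => S n z.1 z.2) := by
    intro n
    exact (((measurable_shf _ g hgm).const_mul _).pow_const 3)
  -- bounds on the integrals of `S n`
  have hbound : ∀ n, ∫⁻ t in Icc (1 : ℝ) 2, ∫⁻ x, S n t x ≤
      cT * ∫⁻ x, (∫⁻ y, kr (x - y) * g y) ^ 3 := by
    intro n
    have hn : (0 : ℝ) < n + 1 := by positivity
    have hn1 : 1 / (n + 1 : ℝ) ≤ 1 := by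
      rw [div_le_one hn]
      have : (0 : ℝ) ≤ n := Nat.cast_nonneg n
      linarith
    have h := shell_main (1 / (n + 1 : ℝ)) (by positivity) hn1 g hgm
    calc ∫⁻ t in Icc (1 : ℝ) 2, ∫⁻ x, S n t x
        = ENNReal.ofReal ((n + 1 : ℝ)) ^ 3 * ∫⁻ t in Icc (1 : ℝ) 2, ∫⁻ x,
            (∫⁻ y, sh (1 / (n + 1 : ℝ)) x t y * g y) ^ 3 := by
          simp only [hS, mul_pow]
          rw [← lintegral_const_mul' _ _ (by finiteness)]
          congr 1; ext t
          rw [lintegral_const_mul' _ _ (by finiteness)]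
      _ ≤ ENNReal.ofReal ((n + 1 : ℝ)) ^ 3 * (ENNReal.ofReal ((1 / (n + 1 : ℝ)) ^ 3) *
            (cT * ∫⁻ x, (∫⁻ y, kr (x - y) * g y) ^ 3)) := by gcongr
      _ = cT * ∫⁻ x, (∫⁻ y, kr (x - y) * g y) ^ 3 := by
          rw [← mul_assoc, ← ENNReal.ofReal_pow hn.le, ← ENNReal.ofReal_mul (by positivity)]
          have : (n + 1 : ℝ) ^ 3 * (1 / (n + 1 : ℝ)) ^ 3 = 1 := by
            rw [← mul_pow, mul_one_div_cancel hn.ne', one_pow]
          rw [this]
          simp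
  -- pointwise limit
  have hpt : ∀ t ∈ Icc (1 : ℝ) 2, ∀ x : E3, ‖waveSol (fun x => (f x : ℂ)) t x‖ₑ ^ 3 ≤
      liminf (fun n => S n t x) atTop := by
    intro t ht x
    have hlim := tendsto_shell (fun x => (f x : ℂ)) (by fun_prop) hf.ofReal hf' x t
      (by linarith [ht.1]) ht.2
    have h2 : Tendsto (fun n : ℕ => ‖((n + 1 : ℝ) : ℂ) * ∫ y in shellSet (1 / (n + 1 : ℝ)) x t,
        ((f y : ℝ) : ℂ)‖ₑ ^ 3) atTop
        (𝓝 (‖((4 * Real.pi * t : ℝ) : ℂ) * waveSol (fun x => (f x : ℂ)) t x‖ₑ ^ 3)) :=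
      (ENNReal.continuous_pow 3).continuousAt.tendsto.comp hlim.enorm
    have h3 : ∀ n : ℕ, ‖((n + 1 : ℝ) : ℂ) * ∫ y in shellSet (1 / (n + 1 : ℝ)) x t,
        ((f y : ℝ) : ℂ)‖ₑ ^ 3 = S n t x := by
      intro n
      have h4 := enorm_shell f hf0 hf (1 / (n + 1 : ℝ)) x t (n + 1 : ℝ) (by positivity)
      rw [h4]
    simp_rw [h3] at h2
    rw [h2.liminf_eq]
    gcongr
    rw [enorm_mul]
    have h5 : (1 : ENNReal) ≤ ‖((4 * Real.pi * t : ℝ) : ℂ)‖ₑ := by
      rw [← ofReal_norm, Complex.norm_real, Real.norm_eq_abs]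
      have : 1 ≤ |4 * Real.pi * t| := by
        rw [abs_of_nonneg (by have := Real.pi_pos; have := ht.1; positivity)]
        have := Real.pi_gt_three
        nlinarith [ht.1]
      simpa using ENNReal.ofReal_le_ofReal this
    calc ‖waveSol (fun x => (f x : ℂ)) t x‖ₑ = 1 * ‖waveSol (fun x => (f x : ℂ)) t x‖ₑ := by rw [one_mul]
      _ ≤ _ := by gcongr
  calc ∫⁻ t in Icc (1 : ℝ) 2, ∫⁻ x, ‖waveSol (fun x => (f x : ℂ)) t x‖ₑ ^ 3
      ≤ ∫⁻ t in Icc (1 : ℝ) 2, liminf (fun n => ∫⁻ x, S n t x) atTop := by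
        apply setLIntegral_mono' measurableSet_Icc
        intro t ht
        calc ∫⁻ x, ‖waveSol (fun x => (f x : ℂ)) t x‖ₑ ^ 3
            ≤ ∫⁻ x, liminf (fun n => S n t x) atTop := lintegral_mono (hpt t ht)
          _ ≤ liminf (fun n => ∫⁻ x, S n t x) atTop :=
              lintegral_liminf_le (fun n => (hSm n).comp (measurable_const.prodMk measurable_id))
    _ ≤ liminf (fun n => ∫⁻ t in Icc (1 : ℝ) 2, ∫⁻ x, S n t x) atTop := by
        apply lintegral_liminf_le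
        intro n
        exact Measurable.lintegral_prod_right' (f := fun z : ℝ × E3 => S n z.1 z.2) (hSm n)
    _ ≤ liminf (fun _ : ℕ => cT * ∫⁻ x, (∫⁻ y, kr (x - y) * g y) ^ 3) atTop :=
        liminf_le_liminf (Eventually.of_forall hbound)
    _ = _ := by simp [hg]

end Pool.Agent.H79.Wave
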