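import Mathlib
import Pool.Agent.H79.Wave.Geom
import Pool.Agent.H79.Wave.Kirchhoff
import Pool.Agent.H79.Wave.Fatou
import Pool.Agent.H79.Wave.Bessel

/-!
Local smoothing at the critical exponent `p = 3` in `ℝ³`, non-negative velocity.
-/

set_option autoImplicit false

namespace Pool.Agent.H79.Wave

open MeasureTheory Set Metric FourierTransform Filter Topology SchwartzMap

/-- a real Schwartz function as a complex one -/
noncomputable def cplx (u : 𝓢(E3, ℝ)) : 𝓢(E3, ℂ) where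
  toFun := fun x => (u x : ℂ)
  smooth' := Complex.ofRealCLM.contDiff.comp u.smooth'
  decay' := by
    intro k n
    obtain ⟨C, hC⟩ := u.decay' k n
    refine ⟨C, fun x => ?_⟩
    have h := Complex.ofRealLI.norm_iteratedFDeriv_comp_left (u.smooth'.contDiffAt (x := x)) (i := n)
      (by exact_mod_cast le_top)
    have e : (Complex.ofRealLI ∘ u.toFun) = fun x => (u x : ℂ) := rfl
    rw [e] at h
    rw [h]
    exact hC x

lemma coe_cplx (u : 𝓢(E3, ℝ)) : (cplx u : E3 → ℂ) = fun x => (u x : ℂ) := rfl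

lemma sch_cont (u : 𝓢(E3, ℝ)) : Continuous (fun x => u x) := u.continuous

lemma sch_int (u : 𝓢(E3, ℝ)) : Integrable (fun x => u x) := u.integrable

lemma sch_fint (u : 𝓢(E3, ℝ)) : Integrable (𝓕 (fun x => (u x : ℂ))) := by
  rw [← coe_cplx, ← SchwartzMap.fourier_coe]
  exact (𝓕 (cplx u)).integrable

lemma sch_fcont (u : 𝓢(E3, ℝ)) : Continuous (𝓕 (fun x => (u x : ℂ))) := by
  rw [← coe_cplx, ← SchwartzMap.fourier_coe]
  exact (𝓕 (cplx u)).continuous

/-- the constant -/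
noncomputable def cB (β : ℝ) : ENNReal := cT * ((ENNReal.ofReal ((Real.Gamma (β / 2))⁻¹ * c0))⁻¹) ^ 3

lemma cB_ne_top (β : ℝ) (hβ : 0 < β) : cB β ≠ ⊤ := by
  unfold cB
  have h : 0 < (Real.Gamma (β / 2))⁻¹ * c0 := by
    have := c0_pos
    have := Real.Gamma_pos_of_pos (s := β / 2) (by positivity)
    positivity
  apply ENNReal.mul_ne_top cT_ne_top
  apply ENNReal.pow_ne_top
  apply ENNReal.inv_ne_top.mpr
  simpa using h

theorem ls_nonneg (β : ℝ) (hβ : 0 < β) (hβ1 : β ≤ 1) (v : 𝓢(E3, ℝ)) (hv : ∀ x, 0 ≤ v x) :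
    ∫⁻ t in Icc (1 : ℝ) 2, ∫⁻ x, ‖waveSol (fun x => (v x : ℂ)) t x‖ₑ ^ 3 ≤
      cB β * ∫⁻ x, ‖bessel (-β) (fun x => (v x : ℂ)) x‖ₑ ^ 3 := by
  set a : ENNReal := ENNReal.ofReal ((Real.Gamma (β / 2))⁻¹ * c0) with ha
  have hpos : 0 < (Real.Gamma (β / 2))⁻¹ * c0 := by
    have := c0_pos
    have := Real.Gamma_pos_of_pos (s := β / 2) (by positivity)
    positivity
  have ha0 : a ≠ 0 := by rw [ha]; simpa using hpos
  have hat : a ≠ ⊤ := ENNReal.ofReal_ne_top
  calc _ ≤ cT * ∫⁻ x, (∫⁻ y, kr (x - y) * ENNReal.ofReal (v y)) ^ 3 :=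
        wave_nonneg (fun x => v x) hv (sch_cont v) (sch_int v) (sch_fint v)
    _ ≤ cT * ∫⁻ x, (a⁻¹ * ‖bessel (-β) (fun x => (v x : ℂ)) x‖ₑ) ^ 3 := by
        gcongr with x
        have h := bessel_lower (fun x => v x) hv (sch_cont v) (sch_int v) (sch_fint v) β hβ hβ1 x
        calc ∫⁻ y, kr (x - y) * ENNReal.ofReal (v y)
            = a⁻¹ * (a * ∫⁻ y, kr (x - y) * ENNReal.ofReal (v y)) := by
              rw [← mul_assoc, ENNReal.inv_mul_cancel ha0 hat, one_mul]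
          _ ≤ _ := by gcongr
    _ = _ := by
        simp_rw [mul_pow]
        rw [lintegral_const_mul' _ _ (ENNReal.pow_ne_top (ENNReal.inv_ne_top.mpr ha0))]
        unfold cB
        rw [mul_assoc]

/-- the multiplier of the wave solution -/
lemma measurable_waveSol (u : 𝓢(E3, ℝ)) :
    Measurable (fun z : ℝ × E3 => waveSol (fun x => (u x : ℂ)) z.1 z.2) := by
  have e : (fun z : ℝ × E3 => waveSol (fun x => (u x : ℂ)) z.1 z.2) = fun z : ℝ × E3 =>
      ∫ ξ, ch z.2 ξ * (((Real.sin (2 * Real.pi * z.1 * ‖ξ‖) / (2 * Real.pi * ‖ξ‖) : ℝ) : ℂ) *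
        𝓕 (fun x => (u x : ℂ)) ξ) := by
    ext z
    rw [waveSol, fourierInv_ch]
  rw [e]
  apply StronglyMeasurable.measurable
  apply StronglyMeasurable.integral_prod_right (f := fun (z : ℝ × E3) (ξ : E3) =>
    ch z.2 ξ * (((Real.sin (2 * Real.pi * z.1 * ‖ξ‖) / (2 * Real.pi * ‖ξ‖) : ℝ) : ℂ) *
        𝓕 (fun x => (u x : ℂ)) ξ))
  apply Measurable.stronglyMeasurable
  have h1 : Measurable (fun w : (ℝ × E3) × E3 => ch w.1.2 w.2) :=
    (continuous_ch.comp (f := fun w : (ℝ × E3) × E3 => (w.1.2, w.2)) (by fun_prop)).measurable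
  have h2 : Measurable (fun w : (ℝ × E3) × E3 => 𝓕 (fun x => (u x : ℂ)) w.2) :=
    (sch_fcont u).measurable.comp measurable_snd
  simp only [Function.uncurry_def]
  fun_prop

lemma fourier_add' (u g : 𝓢(E3, ℝ)) (ξ : E3) :
    𝓕 (fun x => (((u + g) x : ℝ) : ℂ)) ξ = 𝓕 (fun x => (u x : ℂ)) ξ + 𝓕 (fun x => (g x : ℂ)) ξ := by
  rw [Real.fourier_eq', Real.fourier_eq', Real.fourier_eq', ← integral_add]
  · congr 1; ext v
    simp only [SchwartzMap.add_apply, Complex.ofReal_add, smul_eq_mul]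
    ring
  · have h := (sch_int u).ofReal (𝕜 := ℂ)
    have := (Real.fourierIntegral_convergent_iff (f := fun x => (u x : ℂ)) ξ).mpr h
    simpa [Circle.smul_def, Real.fourierChar_apply] using this
  · have h := (sch_int g).ofReal (𝕜 := ℂ)
    have := (Real.fourierIntegral_convergent_iff (f := fun x => (g x : ℂ)) ξ).mpr h
    simpa [Circle.smul_def, Real.fourierChar_apply] using this

/-- Fourier inverse of a bounded multiple is additive -/
lemma mult_int (m : E3 → ℝ) (hm : Measurable m) (C : ℝ) (hC : ∀ ξ, |m ξ| ≤ C) (u : 𝓢(E3, ℝ)) (x : E3) :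
    Integrable (fun ξ => ch x ξ * (((m ξ : ℝ) : ℂ) * 𝓕 (fun x => (u x : ℂ)) ξ)) := by
  have hch : Continuous (fun ξ => ch x ξ) :=
    continuous_ch.comp (f := fun ξ : E3 => (x, ξ)) (by fun_prop)
  have h := (sch_fint u).bdd_mul (c := C) (f := fun ξ => ch x ξ * ((m ξ : ℝ) : ℂ))
    (by
      apply Measurable.aestronglyMeasurable
      have := hch.measurable
      fun_prop) (by
      filter_upwards with ξ
      rw [norm_mul, norm_ch, one_mul, Complex.norm_real]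
      exact hC ξ)
  refine h.congr ?_
  filter_upwards with ξ
  ring

lemma sinc_bound (t k : ℝ) (hk : 0 ≤ k) : |Real.sin (2 * Real.pi * t * k) / (2 * Real.pi * k)| ≤ |t| := by
  rcases hk.eq_or_lt with h | h
  · rw [← h]; simp
  · have hp : 0 < 2 * Real.pi * k := by have := Real.pi_pos; positivity
    rw [abs_div, abs_of_pos hp, div_le_iff₀ hp]
    calc |Real.sin (2 * Real.pi * t * k)| ≤ |2 * Real.pi * t * k| := Real.abs_sin_le_abs
      _ = |t| * (2 * Real.pi * k) := by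
          rw [show 2 * Real.pi * t * k = t * (2 * Real.pi * k) by ring, abs_mul, abs_of_pos hp]

lemma waveSol_sub (u g : 𝓢(E3, ℝ)) (t : ℝ) (x : E3) :
    waveSol (fun x => (u x : ℂ)) t x =
      waveSol (fun x => (((u + g) x : ℝ) : ℂ)) t x - waveSol (fun x => (g x : ℂ)) t x := by
  have hm : Measurable (fun ξ : E3 => Real.sin (2 * Real.pi * t * ‖ξ‖) / (2 * Real.pi * ‖ξ‖)) := by
    fun_prop
  have hC : ∀ ξ : E3, |Real.sin (2 * Real.pi * t * ‖ξ‖) / (2 * Real.pi * ‖ξ‖)| ≤ |t| :=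
    fun ξ => sinc_bound t _ (norm_nonneg _)
  rw [waveSol, waveSol, waveSol, fourierInv_ch, fourierInv_ch, fourierInv_ch,
    ← integral_sub (mult_int _ hm _ hC (u + g) x) (mult_int _ hm _ hC g x)]
  congr 1; ext ξ
  rw [fourier_add']
  ring

lemma bes_bound (s : ℝ) (hs : s ≤ 0) (ξ : E3) :
    |(1 + 4 * Real.pi ^ 2 * ‖ξ‖ ^ 2) ^ (s / 2)| ≤ 1 := by
  have h : 0 ≤ 4 * Real.pi ^ 2 * ‖ξ‖ ^ 2 := by positivity
  rw [abs_of_nonneg (by positivity)]
  exact Real.rpow_le_one_of_one_le_of_nonpos (by linarith) (by linarith)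

lemma bessel_add (s : ℝ) (hs : s ≤ 0) (u g : 𝓢(E3, ℝ)) (x : E3) :
    bessel s (fun x => (((u + g) x : ℝ) : ℂ)) x =
      bessel s (fun x => (u x : ℂ)) x + bessel s (fun x => (g x : ℂ)) x := by
  have hm : Measurable (fun ξ : E3 => (1 + 4 * Real.pi ^ 2 * ‖ξ‖ ^ 2) ^ (s / 2)) := by
    fun_prop
  rw [bessel, bessel, bessel, fourierInv_ch, fourierInv_ch, fourierInv_ch,
    ← integral_add (mult_int _ hm 1 (bes_bound s hs) u x) (mult_int _ hm 1 (bes_bound s hs) g x)]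
  congr 1; ext ξ
  rw [fourier_add']
  ring

lemma continuous_bessel (s : ℝ) (hs : s ≤ 0) (u : 𝓢(E3, ℝ)) :
    Continuous (bessel s (fun x => (u x : ℂ))) := by
  have e : bessel s (fun x => (u x : ℂ)) = fun x => ∫ ξ, ch x ξ *
      ((((1 + 4 * Real.pi ^ 2 * ‖ξ‖ ^ 2) ^ (s / 2) : ℝ) : ℂ) * 𝓕 (fun x => (u x : ℂ)) ξ) := by
    ext x
    rw [bessel, fourierInv_ch]
  have hm : Measurable (fun ξ : E3 => (1 + 4 * Real.pi ^ 2 * ‖ξ‖ ^ 2) ^ (s / 2)) := by
    fun_prop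
  rw [e]
  apply continuous_of_dominated (bound := fun ξ => ‖𝓕 (fun x => (u x : ℂ)) ξ‖)
  · intro x
    exact (mult_int _ hm 1 (bes_bound s hs) u x).aestronglyMeasurable
  · intro x
    filter_upwards with ξ
    rw [norm_mul, norm_ch, one_mul, norm_mul, Complex.norm_real]
    calc _ ≤ 1 * ‖𝓕 (fun x => (u x : ℂ)) ξ‖ := by
          gcongr
          exact bes_bound s hs ξ
      _ = _ := one_mul _
  · exact (sch_fint u).norm
  · filter_upwards with ξ
    apply Continuous.mul _ continuous_const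
    exact continuous_ch.comp (f := fun x : E3 => (x, ξ)) (by fun_prop)

/-- (a+b)^3 ≤ 4 (a^3 + b^3) -/
lemma add_cube_le (a b : ENNReal) : (a + b) ^ 3 ≤ 4 * (a ^ 3 + b ^ 3) := by
  have h := ENNReal.rpow_add_le_mul_rpow_add_rpow a b (p := 3) (by norm_num)
  have e : ∀ c : ENNReal, c ^ (3 : ℝ) = c ^ 3 := fun c => by
    rw [← ENNReal.rpow_natCast]; norm_num
  rw [e, e, e] at h
  refine h.trans ?_
  gcongr
  norm_num

lemma eLpNorm_cube (F : E3 → ℂ) : (eLpNorm F 3 volume) ^ 3 = ∫⁻ x, ‖F x‖ₑ ^ 3 := by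
  have h := eLpNorm_eq_lintegral_rpow_enorm_toReal (p := 3) (μ := (volume : Measure E3)) (f := F)
    (by norm_num) (by norm_num)
  rw [h]
  have e : ∀ c : ENNReal, c ^ (3 : ℝ) = c ^ 3 := fun c => by
    rw [← ENNReal.rpow_natCast]; norm_num
  simp only [ENNReal.toReal_ofNat, e]
  rw [← ENNReal.rpow_natCast, ← ENNReal.rpow_mul]
  norm_num

/-- Local smoothing at `p = 3` in `ℝ³` for velocities whose negative part is dominated by `g`. -/
theorem ls_onesided (β : ℝ) (hβ : 0 < β) (hβ1 : β ≤ 1) (u g : 𝓢(E3, ℝ)) (hg : ∀ x, 0 ≤ g x)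
    (hu : ∀ x, 0 ≤ u x + g x) :
    ∫⁻ t in Icc (1 : ℝ) 2, ∫⁻ x, ‖waveSol (fun x => (u x : ℂ)) t x‖ₑ ^ 3 ≤
      8 * cB β * (eLpNorm (bessel (-β) (fun x => (u x : ℂ))) 3 volume +
        eLpNorm (bessel (-β) (fun x => (g x : ℂ))) 3 volume) ^ 3 := by
  set W : 𝓢(E3, ℝ) → ℝ → E3 → ℂ := fun f t x => waveSol (fun x => (f x : ℂ)) t x with hW
  have hWm : ∀ f : 𝓢(E3, ℝ), Measurable (fun z : ℝ × E3 => W f z.1 z.2) := measurable_waveSol
  set Nu := eLpNorm (bessel (-β) (fun x => (u x : ℂ))) 3 volume with hNu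
  set Ng := eLpNorm (bessel (-β) (fun x => (g x : ℂ))) 3 volume with hNg
  have hm3 : ∀ (f : 𝓢(E3, ℝ)) (t : ℝ), Measurable (fun x => ‖W f t x‖ₑ ^ 3) := fun f t =>
    (((hWm f).comp (measurable_const.prodMk measurable_id)).enorm).pow_const 3
  have hmt : ∀ f : 𝓢(E3, ℝ), Measurable (fun t => ∫⁻ x, ‖W f t x‖ₑ ^ 3) := fun f =>
    Measurable.lintegral_prod_right' (f := fun z : ℝ × E3 => ‖W f z.1 z.2‖ₑ ^ 3)
      ((hWm f).enorm.pow_const 3)
  have h1 : eLpNorm (bessel (-β) (fun x => (((u + g) x : ℝ) : ℂ))) 3 volume ≤ Nu + Ng := by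
    have e : bessel (-β) (fun x => (((u + g) x : ℝ) : ℂ)) =
        bessel (-β) (fun x => (u x : ℂ)) + bessel (-β) (fun x => (g x : ℂ)) := by
      ext x
      exact bessel_add (-β) (by linarith) u g x
    rw [e]
    exact eLpNorm_add_le (continuous_bessel _ (by linarith) u).aestronglyMeasurable
      (continuous_bessel _ (by linarith) g).aestronglyMeasurable (by norm_num)
  calc ∫⁻ t in Icc (1 : ℝ) 2, ∫⁻ x, ‖W u t x‖ₑ ^ 3
      ≤ ∫⁻ t in Icc (1 : ℝ) 2, ∫⁻ x, 4 * (‖W (u + g) t x‖ₑ ^ 3 + ‖W g t x‖ₑ ^ 3) := by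
        gcongr with t x
        refine le_trans ?_ (add_cube_le _ _)
        gcongr
        have : W u t x = W (u + g) t x - W g t x := waveSol_sub u g t x
        rw [this]
        exact enorm_sub_le
    _ = 4 * (∫⁻ t in Icc (1 : ℝ) 2, ∫⁻ x, ‖W (u + g) t x‖ₑ ^ 3) +
          4 * (∫⁻ t in Icc (1 : ℝ) 2, ∫⁻ x, ‖W g t x‖ₑ ^ 3) := by
        have e1 : ∀ t, ∫⁻ x, 4 * (‖W (u + g) t x‖ₑ ^ 3 + ‖W g t x‖ₑ ^ 3) =
            4 * (∫⁻ x, ‖W (u + g) t x‖ₑ ^ 3) + 4 * (∫⁻ x, ‖W g t x‖ₑ ^ 3) := by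
          intro t
          rw [lintegral_const_mul' _ _ (by norm_num), lintegral_add_left (hm3 _ t), mul_add]
        simp_rw [e1]
        rw [lintegral_add_left ((hmt _).const_mul _), lintegral_const_mul' _ _ (by norm_num),
          lintegral_const_mul' _ _ (by norm_num)]
    _ ≤ 4 * (cB β * (Nu + Ng) ^ 3) + 4 * (cB β * (Nu + Ng) ^ 3) := by
        gcongr
        · refine (ls_nonneg β hβ hβ1 (u + g) (fun x => by simpa using hu x)).trans ?_
          rw [← eLpNorm_cube]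
          gcongr
        · refine (ls_nonneg β hβ hβ1 g hg).trans ?_
          rw [← eLpNorm_cube]
          gcongr
          exact le_add_self
    _ = _ := by ring

end Pool.Agent.H79.Wave
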