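import Mathlib
import Pool.Agent.H79.Wave.Geom
import Pool.Agent.H79.Wave.BallFourier
import Pool.Agent.H79.Wave.Kirchhoff

/-!
Kirchhoff's formula with the surface measure of the unit sphere of `ℝ³`, for all times.
-/

set_option autoImplicit false

namespace Pool.Agent.H79.Wave

open MeasureTheory Set Metric FourierTransform RealInnerProductSpace Filter Topology

/-- Lipschitz bound in the radius -/
lemma bftR_lip' (k r r' R : ℝ) (hr : 0 ≤ r) (h : r ≤ r') (h3 : r' ≤ R) :
    |bftR k r' - bftR k r| ≤ 4 * Real.pi * R ^ 2 * (r' - r) := by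
  have hconv : Convex ℝ (Icc (0 : ℝ) R) := convex_Icc _ _
  have := hconv.norm_image_sub_le_of_norm_hasDerivWithin_le (f := bftR k)
    (f' := fun r => 4 * Real.pi * r * ∫ s in (0 : ℝ)..r, Real.cos (2 * Real.pi * k * s))
    (C := 4 * Real.pi * R ^ 2) (x := r) (y := r')
    (fun x hx => (hasDerivAt_bftR k x).hasDerivWithinAt) (by
      intro x hx
      rw [norm_mul, Real.norm_eq_abs, Real.norm_eq_abs]
      have h1 := abs_int_cos_le k x hx.1
      have h2 : |4 * Real.pi * x| ≤ 4 * Real.pi * R := by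
        rw [abs_of_nonneg (by have := Real.pi_pos; have := hx.1; positivity)]
        have := Real.pi_pos
        nlinarith [hx.2]
      calc _ ≤ (4 * Real.pi * R) * R := by
            apply mul_le_mul h2 (h1.trans hx.2) (abs_nonneg _)
            have := Real.pi_pos; have := hx.1.trans hx.2; positivity
        _ = _ := by ring) ⟨hr, h.trans h3⟩ ⟨hr.trans h, h3⟩
  rw [Real.norm_eq_abs, Real.norm_eq_abs, abs_of_nonneg (sub_nonneg.mpr h)] at this
  exact this

/-- **Kirchhoff's formula** (shell version), all times. -/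
lemma tendsto_shell' (f : E3 → ℂ) (hc : Continuous f) (hf : Integrable f) (hf' : Integrable (𝓕 f))
    (x : E3) (t : ℝ) (ht : 0 ≤ t) :
    Tendsto (fun n : ℕ => ((n + 1 : ℝ) : ℂ) * ∫ y in shellSet (1 / (n + 1 : ℝ)) x t, f y) atTop
      (𝓝 (((4 * Real.pi * t : ℝ) : ℂ) * waveSol f t x)) := by
  have hn : ∀ n : ℕ, (0 : ℝ) < 1 / (n + 1 : ℝ) := fun n => Nat.one_div_pos_of_nat
  have hlim : Tendsto (fun n : ℕ => t + 1 / (n + 1 : ℝ)) atTop (𝓝[≠] t) := by
    rw [tendsto_nhdsWithin_iff]
    constructor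
    · simpa using tendsto_const_nhds.add (tendsto_one_div_add_atTop_nhds_zero_nat (𝕜 := ℝ))
    · filter_upwards with n
      have := hn n
      simp only [Set.mem_compl_iff, Set.mem_singleton_iff]
      intro h
      linarith
  have e1 : ∀ n : ℕ, ((n + 1 : ℝ) : ℂ) * ∫ y in shellSet (1 / (n + 1 : ℝ)) x t, f y =
      ∫ ξ, ch x ξ * ((((n + 1 : ℝ) * (bftR ‖ξ‖ (t + 1 / (n + 1 : ℝ)) - bftR ‖ξ‖ t) : ℝ) : ℂ) * 𝓕 f ξ) := by
    intro n
    rw [shell_integral f hc hf hf' x t _ ht (hn n), ← integral_const_mul]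
    congr 1; ext ξ
    push_cast
    ring
  simp_rw [e1]
  have e2 : ((4 * Real.pi * t : ℝ) : ℂ) * waveSol f t x =
      ∫ ξ, ch x ξ * (((4 * Real.pi * t * (Real.sin (2 * Real.pi * t * ‖ξ‖) / (2 * Real.pi * ‖ξ‖)) : ℝ) : ℂ)
        * 𝓕 f ξ) := by
    rw [waveSol, fourierInv_ch, ← integral_const_mul]
    congr 1; ext ξ
    push_cast
    ring
  rw [e2]
  have hch : Continuous (fun ξ => ch x ξ) :=
    continuous_ch.comp (f := fun ξ : E3 => (x, ξ)) (by fun_prop)
  apply tendsto_integral_of_dominated_convergence (fun ξ => 4 * Real.pi * (t + 1) ^ 2 * ‖𝓕 f ξ‖)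
  · intro n
    have hb : Continuous (fun ξ : E3 => bftR ‖ξ‖ (t + 1 / (n + 1 : ℝ)) - bftR ‖ξ‖ t) :=
      (continuous_bftR _ (by linarith [hn n])).sub (continuous_bftR _ ht)
    apply (hch.aestronglyMeasurable).mul
    apply AEStronglyMeasurable.mul
    · apply Continuous.aestronglyMeasurable
      fun_prop
    · exact hf'.aestronglyMeasurable
  · exact hf'.norm.const_mul _
  · intro n
    filter_upwards with ξ
    rw [norm_mul, norm_ch, one_mul, norm_mul]
    gcongr
    rw [Complex.norm_real, Real.norm_eq_abs, abs_mul, abs_of_pos (by positivity : (0 : ℝ) < n + 1)]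
    have h1 : 1 / (n + 1 : ℝ) ≤ 1 := by
      rw [div_le_one (by positivity)]
      have : (0 : ℝ) ≤ n := Nat.cast_nonneg n
      linarith
    have h2 := bftR_lip' ‖ξ‖ t (t + 1 / (n + 1 : ℝ)) (t + 1) ht (by linarith [hn n]) (by linarith)
    calc (n + 1 : ℝ) * |bftR ‖ξ‖ (t + 1 / (n + 1 : ℝ)) - bftR ‖ξ‖ t|
        ≤ (n + 1 : ℝ) * (4 * Real.pi * (t + 1) ^ 2 * (t + 1 / (n + 1 : ℝ) - t)) := by gcongr
      _ = 4 * Real.pi * (t + 1) ^ 2 := by
          field_simp
          ring
  · have hne : ∀ᵐ ξ : E3, ξ ≠ 0 := by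
      rw [ae_iff]; simp
    filter_upwards [hne] with ξ hξ
    have hk : ‖ξ‖ ≠ 0 := norm_ne_zero_iff.mpr hξ
    apply Tendsto.const_mul
    apply Tendsto.mul_const
    apply (Complex.continuous_ofReal.tendsto _).comp
    have hd := (hasDerivAt_bftR ‖ξ‖ t).tendsto_slope.comp hlim
    rw [int_cos _ _ hk] at hd
    have e3 : 4 * Real.pi * t * (Real.sin (2 * Real.pi * ‖ξ‖ * t) / (2 * Real.pi * ‖ξ‖)) =
        4 * Real.pi * t * (Real.sin (2 * Real.pi * t * ‖ξ‖) / (2 * Real.pi * ‖ξ‖)) := by
      congr 3; ring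
    rw [e3] at hd
    refine hd.congr (fun n => ?_)
    simp only [Function.comp_apply, slope_def_field]
    rw [add_sub_cancel_left]
    have := hn n
    field_simp

/-- the surface measure of the unit sphere -/
noncomputable abbrev sg : Measure (sphere (0 : E3) 1) := (volume : Measure E3).toSphere

/-- polar coordinates for the integral over a shell -/
lemma shell_polar (f : E3 → ℂ) (hc : Continuous f) (hf : Integrable f) (x : E3) (t δ : ℝ) (ht : 0 ≤ t)
    (hδ : 0 < δ) :
    ∫ y in shellSet δ x t, f y =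
      ∫ ω : sphere (0 : E3) 1, (∫ r in Ioo t (t + δ), ((r ^ 2 : ℝ) : ℂ) * f (x - r • (ω : E3))) ∂sg := by
  -- translate
  set S : Set E3 := {y : E3 | t < ‖y‖ ∧ ‖y‖ < t + δ} with hS
  have hSm : MeasurableSet S := by
    apply MeasurableSet.inter
    · exact measurableSet_lt (f := fun _ : E3 => t) (g := fun y : E3 => ‖y‖) (by fun_prop) (by fun_prop)
    · exact measurableSet_lt (f := fun y : E3 => ‖y‖) (g := fun _ : E3 => t + δ) (by fun_prop) (by fun_prop)
  set F : E3 → ℂ := S.indicator (fun y => f (x - y)) with hF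
  have hFint : Integrable F := by
    apply Integrable.indicator _ hSm
    exact hf.comp_sub_left x
  have h1 : ∫ y in shellSet δ x t, f y = ∫ y, F y := by
    rw [← integral_indicator (measurableSet_shell δ x t),
      ← integral_sub_left_eq_self (fun y => (shellSet δ x t).indicator f y) volume x]
    congr 1; ext y
    rw [hF]
    by_cases hy : y ∈ S
    · rw [Set.indicator_of_mem hy, Set.indicator_of_mem]
      simpa [shellSet, hS] using hy
    · rw [Set.indicator_of_notMem hy, Set.indicator_of_notMem]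
      simpa [shellSet, hS] using hy
  rw [h1]
  -- polar coordinates
  have hmp := (volume : Measure E3).measurePreserving_homeomorphUnitSphereProd
  have h2 : ∫ y, F y = ∫ w : sphere (0 : E3) 1 × Ioi (0 : ℝ), F ((w.2 : ℝ) • (w.1 : E3))
      ∂(sg.prod (Measure.volumeIoiPow (Module.finrank ℝ E3 - 1))) := by
    rw [← hmp.integral_comp (Homeomorph.measurableEmbedding _)]
    have e : ∀ z : ({0}ᶜ : Set E3), ((homeomorphUnitSphereProd E3 z).2 : ℝ) •
        ((homeomorphUnitSphereProd E3 z).1 : E3) = (z : E3) := by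
      intro z
      have hz : ‖(z : E3)‖ ≠ 0 := norm_ne_zero_iff.mpr z.2
      simp [smul_smul, hz]
    simp_rw [e]
    rw [integral_subtype_comap (measurableSet_singleton _).compl (fun y => F y),
      restrict_compl_singleton]
  have hFint' : Integrable (fun w : sphere (0 : E3) 1 × Ioi (0 : ℝ) => F ((w.2 : ℝ) • (w.1 : E3)))
      (sg.prod (Measure.volumeIoiPow (Module.finrank ℝ E3 - 1))) := by
    rw [← hmp.integrable_comp_emb (Homeomorph.measurableEmbedding _)]
    have e : ∀ z : ({0}ᶜ : Set E3), ((homeomorphUnitSphereProd E3 z).2 : ℝ) •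
        ((homeomorphUnitSphereProd E3 z).1 : E3) = (z : E3) := by
      intro z
      have hz : ‖(z : E3)‖ ≠ 0 := norm_ne_zero_iff.mpr z.2
      simp [smul_smul, hz]
    simp only [Function.comp_def, e]
    have h3 := (integrableOn_iff_comap_subtypeVal (measurableSet_singleton (0 : E3)).compl
      (f := F) (μ := volume)).mp hFint.integrableOn
    exact h3
  rw [h2, integral_prod _ hFint']
  congr 1; ext ω
  simp only [Measure.volumeIoiPow, ENNReal.ofReal]
  rw [integral_withDensity_eq_integral_smul]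
  · rw [integral_subtype_comap measurableSet_Ioi (fun r : ℝ =>
      Real.toNNReal (r ^ (Module.finrank ℝ E3 - 1)) • F (r • (ω : E3))),
      ← integral_indicator measurableSet_Ioi, ← integral_indicator measurableSet_Ioo]
    congr 1; ext r
    have hω : ‖(ω : E3)‖ = 1 := by simpa using ω.2
    by_cases hr : r ∈ Ioo t (t + δ)
    · have hr0 : 0 < r := lt_of_le_of_lt ht hr.1
      rw [Set.indicator_of_mem (show r ∈ Ioi (0 : ℝ) from hr0), Set.indicator_of_mem hr, hF,
        Set.indicator_of_mem]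
      · rw [NNReal.smul_def, Real.coe_toNNReal _ (pow_nonneg hr0.le _)]
        simp
      · simp only [hS, Set.mem_ofPred_eq, norm_smul, hω, mul_one, Real.norm_eq_abs, abs_of_pos hr0]
        exact hr
    · rw [Set.indicator_of_notMem hr]
      by_cases hr0 : 0 < r
      · rw [Set.indicator_of_mem (show r ∈ Ioi (0 : ℝ) from hr0), hF, Set.indicator_of_notMem]
        · simp
        · simp only [hS, Set.mem_ofPred_eq, norm_smul, hω, mul_one, Real.norm_eq_abs, abs_of_pos hr0]
          exact hr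
      · rw [Set.indicator_of_notMem (show r ∉ Ioi (0 : ℝ) from hr0)]
  · exact (measurable_subtype_coe.pow_const _).real_toNNReal

lemma tendsto_avg (h : ℝ → ℂ) (hh : Continuous h) (t : ℝ) :
    Tendsto (fun n : ℕ => ((n + 1 : ℝ) : ℂ) * ∫ r in Ioo t (t + 1 / (n + 1 : ℝ)), h r) atTop (𝓝 (h t)) := by
  have hn : ∀ n : ℕ, (0 : ℝ) < 1 / (n + 1 : ℝ) := fun n => Nat.one_div_pos_of_nat
  have hlim : Tendsto (fun n : ℕ => t + 1 / (n + 1 : ℝ)) atTop (𝓝[≠] t) := by
    rw [tendsto_nhdsWithin_iff]
    constructor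
    · simpa using tendsto_const_nhds.add (tendsto_one_div_add_atTop_nhds_zero_nat (𝕜 := ℝ))
    · filter_upwards with n
      have := hn n
      simp only [Set.mem_compl_iff, Set.mem_singleton_iff]
      intro h
      linarith
  have hd : HasDerivAt (fun r : ℝ => ∫ s in t..r, h s) (h t) t :=
    intervalIntegral.integral_hasDerivAt_right (hh.intervalIntegrable _ _)
      (hh.stronglyMeasurableAtFilter _ _) hh.continuousAt
  have h2 := hd.tendsto_slope.comp hlim
  refine h2.congr (fun n => ?_)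
  simp only [Function.comp_apply, slope, vsub_eq_sub, intervalIntegral.integral_same, sub_zero,
    add_sub_cancel_left]
  rw [intervalIntegral.integral_of_le (by linarith [hn n]), integral_Ioc_eq_integral_Ioo]
  simp

/-- **Kirchhoff's formula.** -/
lemma waveSol_sphere (f : E3 → ℂ) (hc : Continuous f) (hf : Integrable f) (hf' : Integrable (𝓕 f))
    (x : E3) (t : ℝ) (ht : 0 < t) :
    waveSol f t x = ((t / (4 * Real.pi) : ℝ) : ℂ) * ∫ ω : sphere (0 : E3) 1, f (x - t • (ω : E3)) ∂sg := by
  have h1 := tendsto_shell' f hc hf hf' x t ht.le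
  have hn : ∀ n : ℕ, (0 : ℝ) < 1 / (n + 1 : ℝ) := fun n => Nat.one_div_pos_of_nat
  have hcont : ∀ ω : sphere (0 : E3) 1, Continuous (fun r : ℝ => ((r ^ 2 : ℝ) : ℂ) * f (x - r • (ω : E3))) := by
    intro ω
    have : Continuous (fun r : ℝ => f (x - r • (ω : E3))) := hc.comp (by fun_prop)
    fun_prop
  obtain ⟨M, hM⟩ := (isCompact_closedBall x (t + 1)).exists_bound_of_continuousOn hc.continuousOn
  have hM0 : 0 ≤ M := (norm_nonneg _).trans (hM x (mem_closedBall_self (by linarith)))
  have h2 : Tendsto (fun n : ℕ => ((n + 1 : ℝ) : ℂ) * ∫ y in shellSet (1 / (n + 1 : ℝ)) x t, f y) atTop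
      (𝓝 (∫ ω : sphere (0 : E3) 1, ((t ^ 2 : ℝ) : ℂ) * f (x - t • (ω : E3)) ∂sg)) := by
    have e1 : ∀ n : ℕ, ((n + 1 : ℝ) : ℂ) * ∫ y in shellSet (1 / (n + 1 : ℝ)) x t, f y =
        ∫ ω : sphere (0 : E3) 1, ((n + 1 : ℝ) : ℂ) * (∫ r in Ioo t (t + 1 / (n + 1 : ℝ)),
          ((r ^ 2 : ℝ) : ℂ) * f (x - r • (ω : E3))) ∂sg := by
      intro n
      rw [shell_polar f hc hf x t _ ht.le (hn n), integral_const_mul]
    simp_rw [e1]
    apply tendsto_integral_of_dominated_convergence (fun _ => (t + 1) ^ 2 * M)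
    · intro n
      apply AEStronglyMeasurable.const_mul
      apply StronglyMeasurable.aestronglyMeasurable
      apply StronglyMeasurable.integral_prod_right
        (f := fun (ω : sphere (0 : E3) 1) (r : ℝ) => ((r ^ 2 : ℝ) : ℂ) * f (x - r • (ω : E3)))
      apply Continuous.stronglyMeasurable
      have : Continuous (fun w : sphere (0 : E3) 1 × ℝ => f (x - w.2 • (w.1 : E3))) :=
        hc.comp (by fun_prop)
      simp only [Function.uncurry_def]
      fun_prop
    · exact integrable_const _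
    · intro n
      filter_upwards with ω
      have hω : ‖(ω : E3)‖ = 1 := by simp
      have h1n : 1 / (n + 1 : ℝ) ≤ 1 := by
        rw [div_le_one (by positivity)]
        have : (0 : ℝ) ≤ n := Nat.cast_nonneg n
        linarith
      have hb : ‖∫ r in Ioo t (t + 1 / (n + 1 : ℝ)), ((r ^ 2 : ℝ) : ℂ) * f (x - r • (ω : E3))‖ ≤
          ((t + 1) ^ 2 * M) * (volume : Measure ℝ).real (Ioo t (t + 1 / (n + 1 : ℝ))) := by
        apply norm_setIntegral_le_of_norm_le_const measure_Ioo_lt_top
        intro r hr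
        have hr0 : 0 < r := lt_trans ht hr.1
        have hr1 : r ≤ t + 1 := by linarith [hr.2]
        rw [norm_mul, Complex.norm_real, Real.norm_eq_abs, abs_of_nonneg (sq_nonneg r)]
        apply mul_le_mul _ _ (norm_nonneg _) (by positivity)
        · gcongr
        · apply hM
          rw [mem_closedBall, dist_eq_norm]
          have : x - r • (ω : E3) - x = -(r • (ω : E3)) := by abel
          rw [this, norm_neg, norm_smul, hω, Real.norm_eq_abs, abs_of_pos hr0, mul_one]
          exact hr1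
      rw [Real.volume_real_Ioo_of_le (by linarith [hn n])] at hb
      rw [norm_mul, Complex.norm_real, Real.norm_eq_abs, abs_of_pos (by positivity : (0 : ℝ) < n + 1)]
      calc (n + 1 : ℝ) * _ ≤ (n + 1 : ℝ) * (((t + 1) ^ 2 * M) * (t + 1 / (n + 1 : ℝ) - t)) := by gcongr
        _ = (t + 1) ^ 2 * M := by field_simp; ring
    · filter_upwards with ω
      exact tendsto_avg _ (hcont ω) t
  have h3 := tendsto_nhds_unique h1 h2
  rw [integral_const_mul] at h3
  have hpi : (Real.pi : ℂ) ≠ 0 := by exact_mod_cast Real.pi_pos.ne'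
  have htc : (t : ℂ) ≠ 0 := by exact_mod_cast ht.ne'
  have h4 : (4 * Real.pi * t : ℂ) ≠ 0 := by
    simp [hpi, htc]
  push_cast at h3 ⊢
  apply mul_left_cancel₀ h4
  rw [h3]
  field_simp

end Pool.Agent.H79.Wave
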