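import Mathlib
import Pool.Agent.H79.Wave.Geom
import Pool.Agent.H79.Wave.Kirchhoff
import Pool.Agent.H79.Wave.Sphere

/-!
The solution of the Cauchy problem in `ℝ³` and its pointwise majorant by a spherical mean.
-/

set_option autoImplicit false

namespace Pool.Agent.H79.Wave

open MeasureTheory Set Metric FourierTransform RealInnerProductSpace Filter Topology SchwartzMap

/-- The solution at time `t` of the wave equation with data `u(0) = f`, `∂ₜu(0) = 0`. -/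
noncomputable def cosSol (f : E3 → ℂ) (t : ℝ) (x : E3) : ℂ :=
  𝓕⁻ (fun ξ : E3 => ((Real.cos (2 * Real.pi * t * ‖ξ‖) : ℝ) : ℂ) * 𝓕 f ξ) x

lemma schC_fint (f : 𝓢(E3, ℂ)) : Integrable (𝓕 (f : E3 → ℂ)) := by
  rw [← SchwartzMap.fourier_coe]
  exact (𝓕 f).integrable

lemma schC_fcont (f : 𝓢(E3, ℂ)) : Continuous (𝓕 (f : E3 → ℂ)) := by
  rw [← SchwartzMap.fourier_coe]
  exact (𝓕 f).continuous

lemma multC_int (m : E3 → ℝ) (hm : Measurable m) (C : ℝ) (hC : ∀ ξ, |m ξ| ≤ C) (f : 𝓢(E3, ℂ)) (x : E3) :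
    Integrable (fun ξ => ch x ξ * (((m ξ : ℝ) : ℂ) * 𝓕 (f : E3 → ℂ) ξ)) := by
  have hch : Continuous (fun ξ => ch x ξ) :=
    continuous_ch.comp (f := fun ξ : E3 => (x, ξ)) (by fun_prop)
  have h := (schC_fint f).bdd_mul (c := C) (f := fun ξ => ch x ξ * ((m ξ : ℝ) : ℂ))
    (by
      apply Measurable.aestronglyMeasurable
      have := hch.measurable
      fun_prop) (by
      filter_upwards with ξ
      rw [norm_mul, norm_ch, one_mul, Complex.norm_real]
      exact hC ξ)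
  refine h.congr ?_
  filter_upwards with ξ
  ring

lemma sinc_bound' (t k : ℝ) (hk : 0 ≤ k) : |Real.sin (2 * Real.pi * t * k) / (2 * Real.pi * k)| ≤ |t| := by
  rcases hk.eq_or_lt with h | h
  · rw [← h]; simp
  · have hp : 0 < 2 * Real.pi * k := by have := Real.pi_pos; positivity
    rw [abs_div, abs_of_pos hp, div_le_iff₀ hp]
    calc |Real.sin (2 * Real.pi * t * k)| ≤ |2 * Real.pi * t * k| := Real.abs_sin_le_abs
      _ = |t| * (2 * Real.pi * k) := by
          rw [show 2 * Real.pi * t * k = t * (2 * Real.pi * k) by ring, abs_mul, abs_of_pos hp]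

lemma hasDerivAt_waveSol (f : 𝓢(E3, ℂ)) (t : ℝ) (x : E3) :
    HasDerivAt (fun t => waveSol f t x) (cosSol f t x) t := by
  have e1 : ∀ t : ℝ, waveSol f t x = ∫ ξ, ch x ξ *
      (((Real.sin (2 * Real.pi * t * ‖ξ‖) / (2 * Real.pi * ‖ξ‖) : ℝ) : ℂ) * 𝓕 (f : E3 → ℂ) ξ) := by
    intro t; rw [waveSol, fourierInv_ch]
  have e2 : cosSol f t x = ∫ ξ, ch x ξ *
      (((Real.cos (2 * Real.pi * t * ‖ξ‖) : ℝ) : ℂ) * 𝓕 (f : E3 → ℂ) ξ) := by
    rw [cosSol, fourierInv_ch]
  simp_rw [e1]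
  rw [e2]
  have hms : ∀ t : ℝ, Measurable (fun ξ : E3 => Real.sin (2 * Real.pi * t * ‖ξ‖) / (2 * Real.pi * ‖ξ‖)) := by
    intro t; fun_prop
  have hmc : Measurable (fun ξ : E3 => Real.cos (2 * Real.pi * t * ‖ξ‖)) := by fun_prop
  refine (hasDerivAt_integral_of_dominated_loc_of_deriv_le
    (F := fun t ξ => ch x ξ *
      (((Real.sin (2 * Real.pi * t * ‖ξ‖) / (2 * Real.pi * ‖ξ‖) : ℝ) : ℂ) * 𝓕 (f : E3 → ℂ) ξ))
    (F' := fun t ξ => ch x ξ * (((Real.cos (2 * Real.pi * t * ‖ξ‖) : ℝ) : ℂ) * 𝓕 (f : E3 → ℂ) ξ))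
    (bound := fun ξ => ‖𝓕 (f : E3 → ℂ) ξ‖) (s := univ) univ_mem ?_ ?_ ?_ ?_ ?_ ?_).2
  · filter_upwards with s
    exact (multC_int _ (hms s) _ (fun ξ => sinc_bound' s _ (norm_nonneg _)) f x).aestronglyMeasurable
  · exact multC_int _ (hms t) _ (fun ξ => sinc_bound' t _ (norm_nonneg _)) f x
  · exact (multC_int _ hmc 1 (fun ξ => Real.abs_cos_le_one _) f x).aestronglyMeasurable
  · filter_upwards with ξ s _
    rw [norm_mul, norm_ch, one_mul, norm_mul, Complex.norm_real]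
    calc _ ≤ 1 * ‖𝓕 (f : E3 → ℂ) ξ‖ := by
          gcongr
          exact Real.abs_cos_le_one _
      _ = _ := one_mul _
  · exact (schC_fint f).norm
  · have hne : ∀ᵐ ξ : E3, ξ ≠ 0 := by
      rw [ae_iff]; simp
    filter_upwards [hne] with ξ hξ s _
    have hk : 2 * Real.pi * ‖ξ‖ ≠ 0 := by
      have := Real.pi_pos
      have := norm_pos_iff.mpr hξ
      positivity
    have h1 : HasDerivAt (fun s : ℝ => Real.sin (2 * Real.pi * s * ‖ξ‖) / (2 * Real.pi * ‖ξ‖))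
        (Real.cos (2 * Real.pi * s * ‖ξ‖)) s := by
      have h2 : HasDerivAt (fun s : ℝ => 2 * Real.pi * s * ‖ξ‖) (2 * Real.pi * ‖ξ‖) s := by
        have := ((hasDerivAt_id s).const_mul (2 * Real.pi)).mul_const ‖ξ‖
        simpa using this
      have h3 := h2.sin.div_const (2 * Real.pi * ‖ξ‖)
      convert! h3 using 1
      field_simp
    exact ((h1.ofReal_comp.mul_const (𝓕 (f : E3 → ℂ) ξ)).const_mul (ch x ξ))

/-- spherical mean of the function and its derivative -/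
lemma hasDerivAt_mean (f : 𝓢(E3, ℂ)) (t : ℝ) (x : E3) :
    HasDerivAt (fun t : ℝ => ∫ ω : sphere (0 : E3) 1, f (x - t • (ω : E3)) ∂sg)
      (∫ ω : sphere (0 : E3) 1, -(fderiv ℝ f (x - t • (ω : E3)) (ω : E3)) ∂sg) t := by
  have hd : ∀ y : E3, HasFDerivAt f (fderiv ℝ f y) y := fun y => f.differentiableAt.hasFDerivAt
  obtain ⟨C, hC⟩ : ∃ C, ∀ y, ‖fderiv ℝ f y‖ ≤ C := by
    obtain ⟨C, hC⟩ := f.decay 0 1
    refine ⟨C, fun y => ?_⟩
    have := hC.2 y
    rw [norm_iteratedFDeriv_one, pow_zero, one_mul] at this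
    exact this
  have hfc : Continuous (fderiv ℝ (f : E3 → ℂ)) := (f.smooth 1).continuous_fderiv (by norm_num)
  refine (hasDerivAt_integral_of_dominated_loc_of_deriv_le
    (F := fun (t : ℝ) (ω : sphere (0 : E3) 1) => f (x - t • (ω : E3)))
    (F' := fun (t : ℝ) (ω : sphere (0 : E3) 1) => -(fderiv ℝ f (x - t • (ω : E3)) (ω : E3)))
    (bound := fun _ => C) (s := univ) univ_mem ?_ ?_ ?_ ?_ ?_ ?_).2
  · filter_upwards with s
    apply Continuous.aestronglyMeasurable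
    exact f.continuous.comp (by fun_prop)
  · apply Continuous.integrable_of_hasCompactSupport
    · exact f.continuous.comp (by fun_prop)
    · exact HasCompactSupport.of_compactSpace _
  · apply Continuous.aestronglyMeasurable
    have : Continuous (fun ω : sphere (0 : E3) 1 => fderiv ℝ f (x - t • (ω : E3))) :=
      hfc.comp (by fun_prop)
    exact (this.clm_apply (by fun_prop)).neg
  · filter_upwards with ω s _
    have hω : ‖(ω : E3)‖ = 1 := by simp
    rw [norm_neg]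
    calc _ ≤ ‖fderiv ℝ f (x - s • (ω : E3))‖ * ‖(ω : E3)‖ := ContinuousLinearMap.le_opNorm _ _
      _ ≤ C := by rw [hω, mul_one]; exact hC _
  · exact integrable_const _
  · filter_upwards with ω s _
    have h1 : HasDerivAt (fun s : ℝ => x - s • (ω : E3)) (-(ω : E3)) s := by
      have := ((hasDerivAt_id s).smul_const (ω : E3)).const_sub x
      simpa using this
    have := (hd (x - s • (ω : E3))).comp_hasDerivAt s h1
    rw [map_neg] at this
    exact this

/-- real spherical mean -/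
noncomputable def Av (g : E3 → ℝ) (t : ℝ) (x : E3) : ℝ :=
  (4 * Real.pi)⁻¹ * ∫ ω : sphere (0 : E3) 1, g (x - t • (ω : E3)) ∂sg

lemma cosSol_eq (f : 𝓢(E3, ℂ)) (t : ℝ) (ht : 0 < t) (x : E3) :
    cosSol f t x = (((4 * Real.pi)⁻¹ : ℝ) : ℂ) * ∫ ω : sphere (0 : E3) 1, f (x - t • (ω : E3)) ∂sg +
      ((t / (4 * Real.pi) : ℝ) : ℂ) *
        ∫ ω : sphere (0 : E3) 1, -(fderiv ℝ f (x - t • (ω : E3)) (ω : E3)) ∂sg := by
  have h1 := hasDerivAt_waveSol f t x
  have h2 : HasDerivAt (fun t => waveSol f t x)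
      ((((4 * Real.pi)⁻¹ : ℝ) : ℂ) * ∫ ω : sphere (0 : E3) 1, f (x - t • (ω : E3)) ∂sg +
      ((t / (4 * Real.pi) : ℝ) : ℂ) *
        ∫ ω : sphere (0 : E3) 1, -(fderiv ℝ f (x - t • (ω : E3)) (ω : E3)) ∂sg) t := by
    have h3 : HasDerivAt (fun t : ℝ => ((t / (4 * Real.pi) : ℝ) : ℂ)) (((4 * Real.pi)⁻¹ : ℝ) : ℂ) t := by
      have : HasDerivAt (fun t : ℝ => t / (4 * Real.pi)) ((4 * Real.pi)⁻¹) t := by
        have := (hasDerivAt_id t).div_const (4 * Real.pi)
        simpa [one_div] using this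
      exact this.ofReal_comp
    refine (h3.mul (hasDerivAt_mean f t x)).congr_of_eventuallyEq ?_
    filter_upwards [lt_mem_nhds ht] with s hs
    exact waveSol_sphere f f.continuous f.integrable (schC_fint f) x s hs
  exact h1.unique h2

lemma int_sphere_cont (h : sphere (0 : E3) 1 → ℝ) (hh : Continuous h) : Integrable h sg :=
  hh.integrable_of_hasCompactSupport (HasCompactSupport.of_compactSpace _)

/-- pointwise majorant of the solution for times at least one -/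
lemma sol_major (u₀ u₁ : 𝓢(E3, ℂ)) (g : E3 → ℝ) (hgc : Continuous g)
    (hg : ∀ x, ‖u₀ x‖ + ‖fderiv ℝ u₀ x‖ + ‖u₁ x‖ ≤ g x) (t : ℝ) (ht : 1 ≤ t) (x : E3) :
    ‖cosSol u₀ t x + waveSol u₁ t x‖ ≤ t * Av g t x := by
  have ht0 : 0 < t := by linarith
  have hpi := Real.pi_pos
  have hfc : Continuous (fderiv ℝ (u₀ : E3 → ℂ)) := (u₀.smooth 1).continuous_fderiv (by norm_num)
  have c0 : Continuous (fun ω : sphere (0 : E3) 1 => ‖u₀ (x - t • (ω : E3))‖) :=
    (u₀.continuous.comp (by fun_prop)).norm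
  have c1 : Continuous (fun ω : sphere (0 : E3) 1 => ‖u₁ (x - t • (ω : E3))‖) :=
    (u₁.continuous.comp (by fun_prop)).norm
  have c2 : Continuous (fun ω : sphere (0 : E3) 1 => ‖fderiv ℝ u₀ (x - t • (ω : E3))‖) :=
    (hfc.comp (by fun_prop)).norm
  have cg : Continuous (fun ω : sphere (0 : E3) 1 => g (x - t • (ω : E3))) := hgc.comp (by fun_prop)
  rw [cosSol_eq u₀ t ht0 x, waveSol_sphere u₁ u₁.continuous u₁.integrable (schC_fint u₁) x t ht0]
  have b0 : ‖∫ ω : sphere (0 : E3) 1, u₀ (x - t • (ω : E3)) ∂sg‖ ≤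
      ∫ ω : sphere (0 : E3) 1, ‖u₀ (x - t • (ω : E3))‖ ∂sg := norm_integral_le_integral_norm _
  have b1 : ‖∫ ω : sphere (0 : E3) 1, u₁ (x - t • (ω : E3)) ∂sg‖ ≤
      ∫ ω : sphere (0 : E3) 1, ‖u₁ (x - t • (ω : E3))‖ ∂sg := norm_integral_le_integral_norm _
  have b2 : ‖∫ ω : sphere (0 : E3) 1, -(fderiv ℝ u₀ (x - t • (ω : E3)) (ω : E3)) ∂sg‖ ≤
      ∫ ω : sphere (0 : E3) 1, ‖fderiv ℝ u₀ (x - t • (ω : E3))‖ ∂sg := by
    refine norm_integral_le_of_norm_le (int_sphere_cont _ c2) ?_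
    filter_upwards with ω
    have hω : ‖(ω : E3)‖ = 1 := by simp
    rw [norm_neg]
    calc _ ≤ ‖fderiv ℝ u₀ (x - t • (ω : E3))‖ * ‖(ω : E3)‖ := ContinuousLinearMap.le_opNorm _ _
      _ = _ := by rw [hω, mul_one]
  set I0 := ∫ ω : sphere (0 : E3) 1, ‖u₀ (x - t • (ω : E3))‖ ∂sg with hI0
  set I1 := ∫ ω : sphere (0 : E3) 1, ‖u₁ (x - t • (ω : E3))‖ ∂sg with hI1
  set I2 := ∫ ω : sphere (0 : E3) 1, ‖fderiv ℝ u₀ (x - t • (ω : E3))‖ ∂sg with hI2
  have hI0n : 0 ≤ I0 := integral_nonneg (fun ω => norm_nonneg _)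
  have hsum : I0 + I2 + I1 ≤ ∫ ω : sphere (0 : E3) 1, g (x - t • (ω : E3)) ∂sg := by
    have c02 : Integrable (fun ω : sphere (0 : E3) 1 => ‖u₀ (x - t • (ω : E3))‖ +
      ‖fderiv ℝ u₀ (x - t • (ω : E3))‖) sg := (int_sphere_cont _ c0).add (int_sphere_cont _ c2)
    rw [hI0, hI1, hI2, ← integral_add (int_sphere_cont _ c0) (int_sphere_cont _ c2),
      ← integral_add c02 (int_sphere_cont _ c1)]
    apply integral_mono _ (int_sphere_cont _ cg)
    · intro ω
      exact hg _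
    · exact ((int_sphere_cont _ c0).add (int_sphere_cont _ c2)).add (int_sphere_cont _ c1)
  calc _ ≤ (4 * Real.pi)⁻¹ * I0 + t / (4 * Real.pi) * I2 + t / (4 * Real.pi) * I1 := by
        refine (norm_add_le _ _).trans (add_le_add ((norm_add_le _ _).trans (add_le_add ?_ ?_)) ?_)
        · rw [norm_mul, Complex.norm_real, Real.norm_eq_abs, abs_of_pos (by positivity)]
          gcongr
        · rw [norm_mul, Complex.norm_real, Real.norm_eq_abs, abs_of_pos (by positivity)]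
          gcongr
        · rw [norm_mul, Complex.norm_real, Real.norm_eq_abs, abs_of_pos (by positivity)]
          gcongr
    _ ≤ t / (4 * Real.pi) * (I0 + I2 + I1) := by
        have : (4 * Real.pi)⁻¹ * I0 ≤ t / (4 * Real.pi) * I0 := by
          gcongr
          rw [inv_eq_one_div]
          gcongr
        nlinarith
    _ ≤ t / (4 * Real.pi) * ∫ ω : sphere (0 : E3) 1, g (x - t • (ω : E3)) ∂sg := by gcongr
    _ = _ := by unfold Av; field_simp

end Pool.Agent.H79.Wave
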