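import Mathlib
import Pool.Agent.H79.Wave.Geom
import Pool.Agent.H79.Wave.Kirchhoff

/-!
Trilinear Fourier formula and integrability of the trilinear kernel.
-/

set_option autoImplicit false

namespace Pool.Agent.H79.Wave

open MeasureTheory Set Metric FourierTransform RealInnerProductSpace Filter Topology

/-- inverse Fourier integral of `ψ` -/
noncomputable def Vf (ψ : E3 → ℂ) (x : E3) : ℂ := ∫ ξ, ch x ξ * ψ ξ

lemma ch_mul_conj (x ξ η : E3) :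
    ch x ξ * (starRingEnd ℂ) (ch x η) = Complex.exp (((-(2 * Real.pi * ⟪x, η - ξ⟫) : ℝ) : ℂ) * Complex.I) := by
  unfold ch
  rw [← Complex.exp_conj, ← Complex.exp_add]
  congr 1
  simp only [map_mul, Complex.conj_ofReal, Complex.conj_I]
  rw [inner_sub_right, real_inner_comm x η, real_inner_comm x ξ]
  push_cast
  ring

lemma fourier_eq_exp (U : E3 → ℂ) (ζ : E3) :
    𝓕 U ζ = ∫ x, Complex.exp (((-(2 * Real.pi * ⟪x, ζ⟫) : ℝ) : ℂ) * Complex.I) * U x := by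
  rw [Real.fourier_eq']
  congr 1; ext v
  rw [smul_eq_mul]
  congr 2
  push_cast
  ring

lemma Vf_integrable (ψ : E3 → ℂ) (hψ : Integrable ψ) (x : E3) : Integrable (fun ξ => ch x ξ * ψ ξ) := by
  have hch : Continuous (fun ξ => ch x ξ) :=
    continuous_ch.comp (f := fun ξ : E3 => (x, ξ)) (by fun_prop)
  exact hψ.bdd_mul (c := 1) hch.aestronglyMeasurable (by filter_upwards with ξ; rw [norm_ch])

/-- the trilinear formula -/
lemma tri (ψ U : E3 → ℂ) (hψ : Integrable ψ) (hU : Integrable U) :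
    ∫ x, ((‖Vf ψ x‖ ^ 2 : ℝ) : ℂ) * U x =
      ∫ w : E3 × E3, ψ w.1 * (starRingEnd ℂ) (ψ w.2) * 𝓕 U (w.2 - w.1) := by
  have hψc : Integrable (fun ξ => (starRingEnd ℂ) (ψ ξ)) := by
    have := (Complex.conjLIE.toContinuousLinearEquiv.toContinuousLinearMap).integrable_comp hψ
    exact this
  have hP : Integrable (fun w : E3 × E3 => ψ w.1 * (starRingEnd ℂ) (ψ w.2)) := hψ.mul_prod hψc
  have e1 : ∀ x, ((‖Vf ψ x‖ ^ 2 : ℝ) : ℂ) = ∫ w : E3 × E3,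
      Complex.exp (((-(2 * Real.pi * ⟪x, w.2 - w.1⟫) : ℝ) : ℂ) * Complex.I) *
        (ψ w.1 * (starRingEnd ℂ) (ψ w.2)) := by
    intro x
    have h1 : ((‖Vf ψ x‖ ^ 2 : ℝ) : ℂ) = Vf ψ x * (starRingEnd ℂ) (Vf ψ x) := by
      rw [Complex.mul_conj, Complex.normSq_eq_norm_sq]
    have h2 : (starRingEnd ℂ) (Vf ψ x) = ∫ η, (starRingEnd ℂ) (ch x η * ψ η) := by
      unfold Vf
      exact integral_conj.symm
    rw [h1, h2]
    unfold Vf
    rw [← integral_prod_mul]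
    congr 1; ext w
    rw [map_mul, ← ch_mul_conj]
    ring
  simp_rw [e1]
  have e2 : ∀ x : E3, (∫ w : E3 × E3, Complex.exp (((-(2 * Real.pi * ⟪x, w.2 - w.1⟫) : ℝ) : ℂ) * Complex.I) *
        (ψ w.1 * (starRingEnd ℂ) (ψ w.2))) * U x = ∫ w : E3 × E3,
      Complex.exp (((-(2 * Real.pi * ⟪x, w.2 - w.1⟫) : ℝ) : ℂ) * Complex.I) *
        (ψ w.1 * (starRingEnd ℂ) (ψ w.2)) * U x := by
    intro x; rw [integral_mul_const]
  simp_rw [e2]
  rw [integral_integral_swap]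
  · congr 1; ext w
    rw [fourier_eq_exp, ← integral_const_mul]
    congr 1; ext x
    ring
  · have h3 : Integrable (fun z : E3 × (E3 × E3) => U z.1 * (ψ z.2.1 * (starRingEnd ℂ) (ψ z.2.2))) :=
      hU.mul_prod hP
    have h4 := h3.bdd_mul (c := 1) (f := fun z : E3 × (E3 × E3) =>
      Complex.exp (((-(2 * Real.pi * ⟪z.1, z.2.2 - z.2.1⟫) : ℝ) : ℂ) * Complex.I))
      (by
        apply Continuous.aestronglyMeasurable
        fun_prop)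
      (by filter_upwards with z; rw [Complex.norm_exp_ofReal_mul_I])
    refine h4.congr ?_
    filter_upwards with z
    simp only [Function.uncurry]
    ring

lemma lint_inv_sq_ball : ∫⁻ z in ball (0 : E3) 1, (‖z‖ₑ ^ 2)⁻¹ ≠ ⊤ := by
  have h : IntegrableOn (fun x : E3 => (‖x‖ ^ 2)⁻¹) (ball (0 : E3) 1) := by
    rw [integrableOn_fun_norm_addHaar (μ := (volume : Measure E3)) (f := fun r => (r ^ 2)⁻¹) (r := 1)]
    have hv : volume (Ioo (0 : ℝ) 1) ≠ ⊤ := by simp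
    have hC : ‖(1 : ℝ)‖ₑ ≠ ⊤ := by simp
    have this : IntegrableOn (fun y : ℝ => (1 : ℝ)) (Ioo 0 1) := integrableOn_const hv hC
    refine this.congr_fun (fun y hy => ?_) measurableSet_Ioo
    have : y ≠ 0 := hy.1.ne'
    simp
    field_simp
  have h2 := h.2
  rw [hasFiniteIntegral_iff_enorm] at h2
  refine ne_of_lt (lt_of_le_of_lt ?_ h2)
  apply lintegral_mono_ae
  have hne : ∀ᵐ z : E3 ∂(volume.restrict (ball (0 : E3) 1)), z ≠ 0 := by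
    apply ae_restrict_of_ae
    rw [ae_iff]; simp
  filter_upwards [hne] with z hz
  have hz' : 0 < ‖z‖ := norm_pos_iff.mpr hz
  rw [← ofReal_norm (x := (‖z‖ ^ 2)⁻¹), Real.norm_eq_abs, abs_of_pos (by positivity),
    ENNReal.ofReal_inv_of_pos (by positivity), ENNReal.ofReal_pow (norm_nonneg _), ofReal_norm]

lemma lint_inv_ball : ∫⁻ z in ball (0 : E3) 1, (‖z‖ₑ)⁻¹ ≠ ⊤ := by
  refine ne_of_lt (lt_of_le_of_lt ?_ lint_inv_sq_ball.lt_top)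
  apply setLIntegral_mono' measurableSet_ball
  intro z hz
  have hz1 : ‖z‖ₑ ≤ 1 := by
    rw [← ofReal_norm]
    have : ‖z‖ ≤ 1 := by simpa using (mem_ball_zero_iff.mp hz).le
    simpa using ENNReal.ofReal_le_ofReal this
  apply ENNReal.inv_le_inv.mpr
  calc ‖z‖ₑ ^ 2 = ‖z‖ₑ * ‖z‖ₑ := sq _
    _ ≤ ‖z‖ₑ * 1 := by gcongr
    _ = _ := mul_one _

/-- constant in the next lemma -/
noncomputable def cInt (φ : E3 → ENNReal) : ENNReal :=
  (∫⁻ ξ, φ ξ) + ((∫⁻ ξ, φ ξ ^ 2) + ∫⁻ z in ball (0 : E3) 1, (‖z‖ₑ ^ 2)⁻¹)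

lemma inner_bound (φ : E3 → ENNReal) (hφ : Measurable φ) (ξ : E3) :
    ∫⁻ η, φ η * (‖η - ξ‖ₑ)⁻¹ ≤ cInt φ := by
  have hpt : ∀ η : E3, φ η * (‖η - ξ‖ₑ)⁻¹ ≤ φ η + (φ η ^ 2 +
      (ball ξ 1).indicator (fun η => (‖η - ξ‖ₑ ^ 2)⁻¹) η) := by
    intro η
    by_cases h : η ∈ ball ξ 1
    · rw [Set.indicator_of_mem h]
      refine le_trans ?_ le_add_self
      rw [ENNReal.inv_pow]
      -- a b ≤ a^2 + b^2
      rcases le_total (φ η) (‖η - ξ‖ₑ)⁻¹ with h1 | h1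
      · calc φ η * (‖η - ξ‖ₑ)⁻¹ ≤ (‖η - ξ‖ₑ)⁻¹ * (‖η - ξ‖ₑ)⁻¹ := by gcongr
          _ = ((‖η - ξ‖ₑ)⁻¹) ^ 2 := (sq _).symm
          _ ≤ _ := le_add_self
      · calc φ η * (‖η - ξ‖ₑ)⁻¹ ≤ φ η * φ η := by gcongr
          _ = φ η ^ 2 := (sq _).symm
          _ ≤ _ := le_self_add
    · refine le_trans ?_ le_self_add
      have h1 : 1 ≤ ‖η - ξ‖ₑ := by
        rw [mem_ball, dist_eq_norm, not_lt] at h
        rw [← ofReal_norm]
        simpa using ENNReal.ofReal_le_ofReal h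
      calc φ η * (‖η - ξ‖ₑ)⁻¹ ≤ φ η * 1 := by
            gcongr
            exact ENNReal.inv_le_one.mpr h1
        _ = φ η := mul_one _
  calc ∫⁻ η, φ η * (‖η - ξ‖ₑ)⁻¹ ≤ ∫⁻ η, (φ η + (φ η ^ 2 +
      (ball ξ 1).indicator (fun η => (‖η - ξ‖ₑ ^ 2)⁻¹) η)) := lintegral_mono hpt
    _ = (∫⁻ ξ, φ ξ) + ((∫⁻ ξ, φ ξ ^ 2) + ∫⁻ η, (ball ξ 1).indicator (fun η => (‖η - ξ‖ₑ ^ 2)⁻¹) η) := by
        rw [lintegral_add_left hφ, lintegral_add_left (hφ.pow_const 2)]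
    _ = cInt φ := by
        unfold cInt
        congr 2
        rw [← lintegral_indicator measurableSet_ball,
          ← lintegral_sub_right_eq_self (fun z => (ball (0 : E3) 1).indicator (fun z => (‖z‖ₑ ^ 2)⁻¹) z) ξ]
        congr 1; ext η
        by_cases h : η ∈ ball ξ 1
        · rw [Set.indicator_of_mem h, Set.indicator_of_mem]
          rw [mem_ball, dist_eq_norm] at h
          simpa using h
        · rw [Set.indicator_of_notMem h, Set.indicator_of_notMem]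
          rw [mem_ball, dist_eq_norm] at h
          simpa using h

/-- finiteness of the trilinear kernel integral -/
lemma int_kernel (φ : E3 → ℂ) (hφm : Measurable φ) (h1 : ∫⁻ ξ, ‖φ ξ‖ₑ ≠ ⊤) (h2 : ∫⁻ ξ, ‖φ ξ‖ₑ ^ 2 ≠ ⊤) :
    Integrable (fun w : E3 × E3 => φ w.1 * (starRingEnd ℂ) (φ w.2) * (((‖w.2 - w.1‖)⁻¹ : ℝ) : ℂ)) := by
  constructor
  · apply Measurable.aestronglyMeasurable
    have := Complex.continuous_conj.measurable
    have c1 : Measurable (fun w : E3 × E3 => φ w.1) := hφm.comp measurable_fst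
    have c2 : Measurable (fun w : E3 × E3 => (starRingEnd ℂ) (φ w.2)) :=
      Complex.continuous_conj.measurable.comp (hφm.comp measurable_snd)
    have c3 : Measurable (fun w : E3 × E3 => (((‖w.2 - w.1‖)⁻¹ : ℝ) : ℂ)) := by
      fun_prop
    exact (c1.mul c2).mul c3
  · rw [hasFiniteIntegral_iff_enorm]
    have hcI : cInt (fun ξ => ‖φ ξ‖ₑ) ≠ ⊤ := by
      unfold cInt
      exact ENNReal.add_ne_top.mpr ⟨h1, ENNReal.add_ne_top.mpr ⟨h2, lint_inv_sq_ball⟩⟩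
    have hb : ∀ w : E3 × E3, ‖φ w.1 * (starRingEnd ℂ) (φ w.2) * (((‖w.2 - w.1‖)⁻¹ : ℝ) : ℂ)‖ₑ ≤
        ‖φ w.1‖ₑ * (‖φ w.2‖ₑ * (‖w.2 - w.1‖ₑ)⁻¹) := by
      intro w
      rw [enorm_mul, enorm_mul, mul_assoc]
      have a1 : ‖(starRingEnd ℂ) (φ w.2)‖ₑ = ‖φ w.2‖ₑ := by
        rw [← ofReal_norm, ← ofReal_norm, RCLike.norm_conj]
      have a2 : ‖(((‖w.2 - w.1‖)⁻¹ : ℝ) : ℂ)‖ₑ ≤ (‖w.2 - w.1‖ₑ)⁻¹ := by
        rw [← ofReal_norm, Complex.norm_real, norm_inv, norm_norm]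
        rcases eq_or_ne (w.2 - w.1) 0 with h | h
        · simp [h]
        · rw [ENNReal.ofReal_inv_of_pos (norm_pos_iff.mpr h), ofReal_norm]
      rw [a1]
      gcongr
    have hmeas : Measurable (fun w : E3 × E3 => ‖φ w.1‖ₑ * (‖φ w.2‖ₑ * (‖w.2 - w.1‖ₑ)⁻¹)) := by
      have c1 : Measurable (fun w : E3 × E3 => ‖φ w.1‖ₑ) := (hφm.comp measurable_fst).enorm
      have c2 : Measurable (fun w : E3 × E3 => ‖φ w.2‖ₑ) := (hφm.comp measurable_snd).enorm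
      have c3 : Measurable (fun w : E3 × E3 => (‖w.2 - w.1‖ₑ)⁻¹) := by
        fun_prop
      exact c1.mul (c2.mul c3)
    calc ∫⁻ w : E3 × E3, ‖φ w.1 * (starRingEnd ℂ) (φ w.2) * (((‖w.2 - w.1‖)⁻¹ : ℝ) : ℂ)‖ₑ
        ≤ ∫⁻ w : E3 × E3, ‖φ w.1‖ₑ * (‖φ w.2‖ₑ * (‖w.2 - w.1‖ₑ)⁻¹) := lintegral_mono hb
      _ = ∫⁻ ξ, ∫⁻ η, ‖φ ξ‖ₑ * (‖φ η‖ₑ * (‖η - ξ‖ₑ)⁻¹) := by
          exact lintegral_prod _ hmeas.aemeasurable
      _ ≤ ∫⁻ ξ, ‖φ ξ‖ₑ * cInt (fun ξ => ‖φ ξ‖ₑ) := by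
          gcongr with ξ
          rw [lintegral_const_mul' _ _ (by simp)]
          gcongr
          exact inner_bound (fun ξ => ‖φ ξ‖ₑ) hφm.enorm ξ
      _ = (∫⁻ ξ, ‖φ ξ‖ₑ) * cInt (fun ξ => ‖φ ξ‖ₑ) := lintegral_mul_const' _ _ hcI
      _ < ⊤ := ENNReal.mul_lt_top h1.lt_top hcI.lt_top

end Pool.Agent.H79.Wave
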