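import Mathlib
import Pool.Agent.H79.Wave.Geom
import Pool.Agent.H79.Wave.Kirchhoff
import Pool.Agent.H79.Wave.Bessel
import Pool.Agent.H79.Wave.Tri

/-!
Gaussian regularisation of the trilinear form.
-/

set_option autoImplicit false

namespace Pool.Agent.H79.Wave

open MeasureTheory Set Metric FourierTransform RealInnerProductSpace Filter Topology

lemma lint_heatK (s : ℝ) (hs : 0 < s) (ζ : E3) : ∫⁻ y, ENNReal.ofReal (heatK s (ζ - y)) = 1 := by
  rw [lintegral_sub_left_eq_self (fun y => ENNReal.ofReal (heatK s y)) ζ]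
  have hpi := Real.pi_pos
  have h1 := GaussianFourier.integral_rexp_neg_mul_sq_norm (V := E3) (b := 1 / (4 * s)) (by positivity)
  have h2 : ∫ y : E3, heatK s y = 1 := by
    unfold heatK
    rw [integral_const_mul]
    have e : ∀ y : E3, Real.exp (-(‖y‖ ^ 2 / (4 * s))) = Real.exp (-(1 / (4 * s)) * ‖y‖ ^ 2) := by
      intro y; congr 1; ring
    simp_rw [e]
    rw [h1]
    have e2 : Real.pi / (1 / (4 * s)) = 4 * Real.pi * s := by field_simp
    rw [e2]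
    have e3 : ((Module.finrank ℝ E3 : ℝ) / 2) = 3 / 2 := by simp
    rw [e3, ← Real.rpow_add (by positivity)]
    norm_num
  have hint : Integrable (fun y : E3 => heatK s y) := by
    by_contra hn
    rw [integral_undef hn] at h2
    norm_num at h2
  rw [← ofReal_integral_eq_lintegral_ofReal hint (ae_of_all _ (fun y => heatK_nonneg s hs y)), h2]
  simp

lemma heatK_le (s : ℝ) (hs : 0 < s) (z : E3) (hz : z ≠ 0) : heatK s z ≤ (‖z‖ ^ 3)⁻¹ := by
  have hr : 0 < ‖z‖ := norm_pos_iff.mpr hz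
  have hpi := Real.pi_pos
  set v := ‖z‖ ^ 2 / (4 * s) with hv
  have hv0 : 0 < v := by positivity
  have e1 : 4 * Real.pi * s = Real.pi * ‖z‖ ^ 2 * v⁻¹ := by
    rw [hv]; field_simp
  have e2 : (4 * Real.pi * s) ^ (-(3 / 2) : ℝ) = Real.pi ^ (-(3 / 2) : ℝ) * (‖z‖ ^ 3)⁻¹ * v ^ (3 / 2 : ℝ) := by
    rw [e1, Real.mul_rpow (by positivity) (by positivity), Real.mul_rpow (by positivity) (by positivity),
      Real.inv_rpow hv0.le, Real.rpow_neg hv0.le, inv_inv]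
    congr 2
    rw [← Real.rpow_natCast, ← Real.rpow_natCast, ← Real.rpow_mul hr.le, ← Real.rpow_neg hr.le]
    norm_num
  have e3 : v ^ (3 / 2 : ℝ) * Real.exp (-v) ≤ 1 := by
    have h1 : v ^ (3 / 2 : ℝ) ≤ Real.exp v := by
      have h2 : v ^ (3 / 2 : ℝ) = v * Real.sqrt v := by
        rw [Real.sqrt_eq_rpow, show (3 / 2 : ℝ) = 1 + 1 / 2 by norm_num, Real.rpow_add hv0, Real.rpow_one]
      have h3 : Real.sqrt v ≤ (1 + v) / 2 := by
        have h5 := Real.sq_sqrt hv0.le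
        nlinarith [sq_nonneg (Real.sqrt v - 1)]
      have h4 := Real.quadratic_le_exp_of_nonneg hv0.le
      rw [h2]
      nlinarith
    rw [Real.exp_neg, ← div_eq_mul_inv, div_le_one (Real.exp_pos v)]
    exact h1
  have e4 : Real.pi ^ (-(3 / 2) : ℝ) ≤ 1 :=
    Real.rpow_le_one_of_one_le_of_nonpos (by linarith [Real.pi_gt_three]) (by norm_num)
  unfold heatK
  rw [e2, ← hv]
  calc Real.pi ^ (-(3 / 2) : ℝ) * (‖z‖ ^ 3)⁻¹ * v ^ (3 / 2 : ℝ) * Real.exp (-v)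
      = Real.pi ^ (-(3 / 2) : ℝ) * ((‖z‖ ^ 3)⁻¹ * (v ^ (3 / 2 : ℝ) * Real.exp (-v))) := by ring
    _ ≤ 1 * ((‖z‖ ^ 3)⁻¹ * 1) := by gcongr
    _ = _ := by ring

/-- constant `∫_{|z|<1} |z|⁻¹` -/
noncomputable def cb : ENNReal := ∫⁻ z in ball (0 : E3) 1, (‖z‖ₑ)⁻¹

lemma lint_inv_ball_scale (ρ : ℝ) (hρ : 0 < ρ) :
    ∫⁻ y in ball (0 : E3) ρ, (‖y‖ₑ)⁻¹ = ENNReal.ofReal (ρ ^ 2) * cb := by
  have h := Measure.map_addHaar_smul (volume : Measure E3) hρ.ne'
  have hd : Module.finrank ℝ E3 = 3 := by simp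
  rw [hd] at h
  have hm : Measurable (fun y : E3 => ρ • y) := measurable_const_smul ρ
  have h1 : ∫⁻ z, (ball (0 : E3) ρ).indicator (fun y => (‖y‖ₑ)⁻¹) (ρ • z) =
      ENNReal.ofReal |(ρ ^ 3)⁻¹| * ∫⁻ y, (ball (0 : E3) ρ).indicator (fun y => (‖y‖ₑ)⁻¹) y := by
    rw [← lintegral_map (μ := (volume : Measure E3))
      (f := fun y => (ball (0 : E3) ρ).indicator (fun y => (‖y‖ₑ)⁻¹) y) (by measurability) hm, h,
      lintegral_smul_measure, smul_eq_mul]
  have h2 : ∀ z : E3, (ball (0 : E3) ρ).indicator (fun y => (‖y‖ₑ)⁻¹) (ρ • z) =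
      ENNReal.ofReal (ρ⁻¹) * (ball (0 : E3) 1).indicator (fun y => (‖y‖ₑ)⁻¹) z := by
    intro z
    have e : ‖ρ • z‖ = ρ * ‖z‖ := by rw [norm_smul, Real.norm_eq_abs, abs_of_pos hρ]
    by_cases hz : z ∈ ball (0 : E3) 1
    · rw [Set.indicator_of_mem hz, Set.indicator_of_mem]
      · rw [← ofReal_norm, e, ENNReal.ofReal_mul hρ.le, ENNReal.ofReal_inv_of_pos hρ, ofReal_norm,
          ENNReal.mul_inv (Or.inl (by simpa using hρ)) (Or.inl (by simp))]
      · rw [mem_ball_zero_iff] at hz ⊢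
        rw [e]; nlinarith
    · rw [Set.indicator_of_notMem hz, Set.indicator_of_notMem, mul_zero]
      rw [mem_ball_zero_iff, not_lt] at hz ⊢
      rw [e]; nlinarith
  simp_rw [h2] at h1
  rw [lintegral_const_mul' _ _ (by simp), lintegral_indicator measurableSet_ball,
    lintegral_indicator measurableSet_ball] at h1
  unfold cb
  have e3 : ENNReal.ofReal (ρ ^ 3) * ENNReal.ofReal |(ρ ^ 3)⁻¹| = 1 := by
    rw [← ENNReal.ofReal_mul (by positivity), abs_of_pos (by positivity), mul_inv_cancel₀ (by positivity)]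
    simp
  calc ∫⁻ y in ball (0 : E3) ρ, (‖y‖ₑ)⁻¹
      = (ENNReal.ofReal (ρ ^ 3) * ENNReal.ofReal |(ρ ^ 3)⁻¹|) * ∫⁻ y in ball (0 : E3) ρ, (‖y‖ₑ)⁻¹ := by
        rw [e3, one_mul]
    _ = ENNReal.ofReal (ρ ^ 3) * (ENNReal.ofReal (ρ⁻¹) * ∫⁻ z in ball (0 : E3) 1, (‖z‖ₑ)⁻¹) := by
        rw [mul_assoc, ← h1]
    _ = _ := by
        rw [← mul_assoc, ← ENNReal.ofReal_mul (by positivity)]
        congr 2
        field_simp

lemma heat_inv_bound (s : ℝ) (hs : 0 < s) (ζ : E3) (hζ : ζ ≠ 0) :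
    ∫⁻ y, ENNReal.ofReal (heatK s (ζ - y)) * (‖y‖ₑ)⁻¹ ≤ (2 + 2 * cb) * (‖ζ‖ₑ)⁻¹ := by
  have hr : 0 < ‖ζ‖ := norm_pos_iff.mpr hζ
  set A : Set E3 := ball 0 (‖ζ‖ / 2) with hA
  have hAm : MeasurableSet A := measurableSet_ball
  rw [← lintegral_add_compl _ hAm]
  have b1 : ∫⁻ y in A, ENNReal.ofReal (heatK s (ζ - y)) * (‖y‖ₑ)⁻¹ ≤ 2 * cb * (‖ζ‖ₑ)⁻¹ := by
    calc ∫⁻ y in A, ENNReal.ofReal (heatK s (ζ - y)) * (‖y‖ₑ)⁻¹
        ≤ ∫⁻ y in A, ENNReal.ofReal (8 / ‖ζ‖ ^ 3) * (‖y‖ₑ)⁻¹ := by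
          apply setLIntegral_mono' hAm
          intro y hy
          rw [hA, mem_ball_zero_iff] at hy
          gcongr
          have h1 : ‖ζ‖ / 2 ≤ ‖ζ - y‖ := by
            have := norm_sub_norm_le ζ y
            linarith
          have hne : ζ - y ≠ 0 := by
            intro h0; rw [h0, norm_zero] at h1; linarith
          refine (heatK_le s hs _ hne).trans ?_
          calc (‖ζ - y‖ ^ 3)⁻¹ ≤ ((‖ζ‖ / 2) ^ 3)⁻¹ := by gcongr
            _ = 8 / ‖ζ‖ ^ 3 := by field_simp; norm_num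
      _ = ENNReal.ofReal (8 / ‖ζ‖ ^ 3) * (ENNReal.ofReal ((‖ζ‖ / 2) ^ 2) * cb) := by
          rw [lintegral_const_mul' _ _ (by simp), lint_inv_ball_scale _ (by positivity)]
      _ = 2 * cb * (‖ζ‖ₑ)⁻¹ := by
          rw [← mul_assoc, ← ENNReal.ofReal_mul (by positivity), ← ofReal_norm,
            ← ENNReal.ofReal_inv_of_pos hr]
          have : 8 / ‖ζ‖ ^ 3 * (‖ζ‖ / 2) ^ 2 = 2 * ‖ζ‖⁻¹ := by field_simp; norm_num
          rw [this, ENNReal.ofReal_mul (by norm_num), ENNReal.ofReal_ofNat]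
          ring
  have b2 : ∫⁻ y in Aᶜ, ENNReal.ofReal (heatK s (ζ - y)) * (‖y‖ₑ)⁻¹ ≤ 2 * (‖ζ‖ₑ)⁻¹ := by
    calc ∫⁻ y in Aᶜ, ENNReal.ofReal (heatK s (ζ - y)) * (‖y‖ₑ)⁻¹
        ≤ ∫⁻ y in Aᶜ, ENNReal.ofReal (heatK s (ζ - y)) * (2 * (‖ζ‖ₑ)⁻¹) := by
          apply setLIntegral_mono' hAm.compl
          intro y hy
          rw [hA, mem_compl_iff, mem_ball_zero_iff, not_lt] at hy
          gcongr
          have hy0 : 0 < ‖y‖ := by linarith [half_pos hr]
          rw [← ofReal_norm, ← ofReal_norm, ← ENNReal.ofReal_inv_of_pos hr, ← ENNReal.ofReal_inv_of_pos hy0]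
          calc ENNReal.ofReal ‖y‖⁻¹ ≤ ENNReal.ofReal (2 * ‖ζ‖⁻¹) := by
                apply ENNReal.ofReal_le_ofReal
                calc ‖y‖⁻¹ ≤ (‖ζ‖ / 2)⁻¹ := by gcongr
                  _ = 2 * ‖ζ‖⁻¹ := by field_simp
            _ = _ := by rw [ENNReal.ofReal_mul (by norm_num), ENNReal.ofReal_ofNat]
      _ ≤ ∫⁻ y, ENNReal.ofReal (heatK s (ζ - y)) * (2 * (‖ζ‖ₑ)⁻¹) := setLIntegral_le_lintegral _ _
      _ = 2 * (‖ζ‖ₑ)⁻¹ := by
          rw [lintegral_mul_const', lint_heatK s hs, one_mul]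
          exact ENNReal.mul_ne_top (by norm_num) (ENNReal.inv_ne_top.mpr (by simpa using hζ))
  calc _ ≤ 2 * cb * (‖ζ‖ₑ)⁻¹ + 2 * (‖ζ‖ₑ)⁻¹ := add_le_add b1 b2
    _ = _ := by ring

/-- Fourier transform of a potential times a Gaussian -/
lemma fourier_gauss (H : E3 → ℂ) (hH : Integrable H) (s : ℝ) (hs : 0 < s) (ζ : E3) :
    𝓕 (fun x => Vf H x * ((Real.exp (-(4 * Real.pi ^ 2 * s * ‖x‖ ^ 2)) : ℝ) : ℂ)) ζ =
      ∫ y, ((heatK s (ζ - y) : ℝ) : ℂ) * H y := by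
  rw [← heat_formula H hH s hs ζ, fourier_eq_exp, ← integral_neg_eq_self]
  congr 1; ext ξ
  have e1 : 𝓕 H ξ = Vf H (-ξ) := by
    rw [fourier_eq_exp]
    unfold Vf ch
    congr 1; ext x
    congr 2
    rw [inner_neg_right]
    push_cast
    ring
  rw [e1]
  have e2 : Complex.exp (((-(2 * Real.pi * ⟪-ξ, ζ⟫) : ℝ) : ℂ) * Complex.I) = ch ζ ξ := by
    unfold ch
    congr 2
    rw [inner_neg_left]
    push_cast
    ring
  rw [e2, norm_neg]
  ring

lemma ofReal_integral_le (f : E3 → ℝ) (hf : ∀ x, 0 ≤ f x) :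
    ENNReal.ofReal (∫ x, f x) ≤ ∫⁻ x, ENNReal.ofReal (f x) := by
  by_cases h : Integrable f
  · rw [ofReal_integral_eq_lintegral_ofReal h (ae_of_all _ hf)]
  · rw [integral_undef h]
    simp

lemma ae_diag : ∀ᵐ w : E3 × E3, w.2 - w.1 ≠ 0 := by
  have hm : MeasurableSet {w : E3 × E3 | w.2 - w.1 = 0} :=
    (isClosed_eq (by fun_prop) continuous_const).measurableSet
  rw [ae_iff]
  have e : {w : E3 × E3 | ¬ (w.2 - w.1 ≠ 0)} = {w : E3 × E3 | w.2 - w.1 = 0} := by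
    ext w; simp
  rw [e]
  have h0 : ((volume : Measure E3).prod (volume : Measure E3)) {w : E3 × E3 | w.2 - w.1 = 0} = 0 := by
    rw [Measure.measure_prod_null hm]
    filter_upwards with ξ
    have : Prod.mk ξ ⁻¹' {w : E3 × E3 | w.2 - w.1 = 0} = {ξ} := by
      ext η
      simp [sub_eq_zero]
    rw [this]
    simp
  exact h0

lemma continuous_fourier_of_integrable (U : E3 → ℂ) (hU : Integrable U) : Continuous (𝓕 U) :=
  VectorFourier.fourierIntegral_continuous Real.continuous_fourierChar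
    (innerSL ℝ).continuous₂ hU

lemma tendsto_heat (H : E3 → ℂ) (hH : Integrable H) (ζ : E3) (hc : ContinuousAt H ζ) :
    Tendsto (fun n : ℕ => ∫ y, ((heatK (1 / (4 * Real.pi ^ 2 * (n + 1 : ℝ))) (ζ - y) : ℝ) : ℂ) * H y) atTop
      (𝓝 (H ζ)) := by
  have h := Real.tendsto_integral_gaussian_smul' (V := E3) hH hc
  have hn : Tendsto (fun n : ℕ => (n : ℝ) + 1) atTop atTop :=
    tendsto_atTop_add_const_right _ _ tendsto_natCast_atTop_atTop
  have h2 := h.comp hn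
  refine h2.congr (fun n => ?_)
  have hpi := Real.pi_pos
  simp only [Function.comp_apply]
  congr 1; ext y
  rw [smul_eq_mul]
  congr 1
  unfold heatK
  have hn0 : (0 : ℝ) < (n : ℝ) + 1 := by positivity
  have e1 : 4 * Real.pi * (1 / (4 * Real.pi ^ 2 * (n + 1 : ℝ))) = (Real.pi * ((n : ℝ) + 1))⁻¹ := by
    field_simp
  rw [e1]
  have e2 : ((Module.finrank ℝ E3 : ℂ) / 2) = (((3 / 2 : ℝ)) : ℂ) := by
    simp
  rw [e2, ← Complex.ofReal_mul, ← Complex.ofReal_cpow (by positivity)]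
  rw [Real.inv_rpow (by positivity), Real.rpow_neg (by positivity), inv_inv, Complex.ofReal_mul]
  congr 1
  rw [Complex.ofReal_exp]
  congr 1
  push_cast
  have h4 : (Real.pi : ℂ) ≠ 0 := by exact_mod_cast hpi.ne'
  have h5 : ((n : ℂ) + 1) ≠ 0 := by exact_mod_cast hn0.ne'
  field_simp

/-- regularisation: the trilinear form is at most the weighted `L²` norm -/
lemma reg (φ H : E3 → ℂ) (hφm : Measurable φ) (h1 : ∫⁻ ξ, ‖φ ξ‖ₑ ≠ ⊤) (h2 : ∫⁻ ξ, ‖φ ξ‖ₑ ^ 2 ≠ ⊤)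
    (hH : Integrable H) (hHm : Measurable H) (C : NNReal) (hHb : ∀ y, ‖H y‖ₑ ≤ C * (‖y‖ₑ)⁻¹)
    (hHc : ∀ y, y ≠ 0 → ContinuousAt H y) (G : E3 → ℝ) (hG0 : ∀ x, 0 ≤ G x)
    (hG : ∀ x, Vf H x = (G x : ℂ)) :
    ENNReal.ofReal (∫ w : E3 × E3, φ w.1 * (starRingEnd ℂ) (φ w.2) * H (w.2 - w.1)).re ≤
      ∫⁻ x, ‖Vf φ x‖ₑ ^ 2 * ENNReal.ofReal (G x) := by
  have hpi := Real.pi_pos
  have hφi : Integrable φ := ⟨hφm.aestronglyMeasurable, by
    rw [hasFiniteIntegral_iff_enorm]; exact h1.lt_top⟩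
  set s : ℕ → ℝ := fun n => 1 / (4 * Real.pi ^ 2 * (n + 1 : ℝ)) with hs
  have hs0 : ∀ n, 0 < s n := fun n => by rw [hs]; positivity
  set Un : ℕ → E3 → ℂ := fun n x => Vf H x * ((Real.exp (-(4 * Real.pi ^ 2 * s n * ‖x‖ ^ 2)) : ℝ) : ℂ) with hUn
  have hVcont : Continuous (fun x => Vf H x) := by
    unfold Vf
    apply continuous_of_dominated (bound := fun ξ => ‖H ξ‖)
    · intro x
      exact (Vf_integrable H hH x).aestronglyMeasurable
    · intro x
      filter_upwards with ξ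
      rw [norm_mul, norm_ch, one_mul]
    · exact hH.norm
    · filter_upwards with ξ
      apply Continuous.mul _ continuous_const
      exact continuous_ch.comp (f := fun x : E3 => (x, ξ)) (by fun_prop)
  have hVb : ∀ x, ‖Vf H x‖ ≤ ∫ ξ, ‖H ξ‖ := by
    intro x
    unfold Vf
    refine (norm_integral_le_integral_norm _).trans (le_of_eq ?_)
    congr 1; ext ξ
    rw [norm_mul, norm_ch, one_mul]
  have hUi : ∀ n, Integrable (Un n) := by
    intro n
    have hg : Integrable (fun x : E3 => ((Real.exp (-(4 * Real.pi ^ 2 * s n * ‖x‖ ^ 2)) : ℝ) : ℂ)) := by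
      have := GaussianFourier.integrable_cexp_neg_mul_sq_norm_add (V := E3)
        (b := ((4 * Real.pi ^ 2 * s n : ℝ) : ℂ)) (by
          rw [Complex.ofReal_re]; have := hs0 n; positivity) 0 0
      refine this.congr ?_
      filter_upwards with x
      rw [Complex.ofReal_exp]
      congr 1
      push_cast
      simp
    exact hg.bdd_mul hVcont.aestronglyMeasurable (by filter_upwards with x; exact hVb x)
  -- the sequence of regularised integrals
  set a : ℕ → ℝ := fun n => ∫ x, ‖Vf φ x‖ ^ 2 * (G x * Real.exp (-(4 * Real.pi ^ 2 * s n * ‖x‖ ^ 2))) with ha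
  have haeq : ∀ n, ((a n : ℝ) : ℂ) = ∫ w : E3 × E3, φ w.1 * (starRingEnd ℂ) (φ w.2) * 𝓕 (Un n) (w.2 - w.1) := by
    intro n
    rw [← tri φ (Un n) hφi (hUi n), ha]
    simp only
    rw [← integral_complex_ofReal]
    congr 1; ext x
    simp only [hUn]
    rw [hG]
    push_cast
    ring
  -- bound of each term
  have hbound : ∀ n, ENNReal.ofReal (a n) ≤ ∫⁻ x, ‖Vf φ x‖ₑ ^ 2 * ENNReal.ofReal (G x) := by
    intro n
    refine (ofReal_integral_le _ (fun x => ?_)).trans ?_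
    · have := hG0 x
      positivity
    · apply lintegral_mono
      intro x
      simp only
      rw [ENNReal.ofReal_mul (by positivity), ENNReal.ofReal_pow (norm_nonneg _), ofReal_norm]
      gcongr
      have h3 : Real.exp (-(4 * Real.pi ^ 2 * s n * ‖x‖ ^ 2)) ≤ 1 := by
        rw [Real.exp_le_one_iff]
        have := hs0 n
        have : 0 ≤ 4 * Real.pi ^ 2 * s n * ‖x‖ ^ 2 := by positivity
        linarith
      calc G x * _ ≤ G x * 1 := mul_le_mul_of_nonneg_left h3 (hG0 x)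
        _ = G x := mul_one _
  -- the limit
  have hne : ∀ᵐ w : E3 × E3, w.2 - w.1 ≠ 0 := ae_diag
  have hCb : cb ≠ ⊤ := lint_inv_ball
  set K : ℝ := ((2 + 2 * cb) * C).toReal with hK
  have hker := int_kernel φ hφm h1 h2
  have hFb : ∀ (n : ℕ) (ζ : E3), ζ ≠ 0 → ‖𝓕 (Un n) ζ‖ ≤ K * ‖ζ‖⁻¹ := by
    intro n ζ hζ
    rw [fourier_gauss H hH (s n) (hs0 n) ζ]
    have hz : 0 < ‖ζ‖ := norm_pos_iff.mpr hζ
    have h5 : ‖∫ y, ((heatK (s n) (ζ - y) : ℝ) : ℂ) * H y‖ₑ ≤ ((2 + 2 * cb) * C) * (‖ζ‖ₑ)⁻¹ := by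
      calc ‖∫ y, ((heatK (s n) (ζ - y) : ℝ) : ℂ) * H y‖ₑ
          ≤ ∫⁻ y, ‖((heatK (s n) (ζ - y) : ℝ) : ℂ) * H y‖ₑ := enorm_integral_le_lintegral_enorm _
        _ ≤ ∫⁻ y, C * (ENNReal.ofReal (heatK (s n) (ζ - y)) * (‖y‖ₑ)⁻¹) := by
            apply lintegral_mono
            intro y
            simp only
            rw [enorm_mul, ← ofReal_norm, Complex.norm_real, Real.norm_eq_abs,
              abs_of_nonneg (heatK_nonneg _ (hs0 n) _)]
            calc _ ≤ ENNReal.ofReal (heatK (s n) (ζ - y)) * (C * (‖y‖ₑ)⁻¹) := by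
                  gcongr
                  exact hHb y
              _ = _ := by ring
        _ = C * ∫⁻ y, (ENNReal.ofReal (heatK (s n) (ζ - y)) * (‖y‖ₑ)⁻¹) :=
            lintegral_const_mul' _ _ ENNReal.coe_ne_top
        _ ≤ C * ((2 + 2 * cb) * (‖ζ‖ₑ)⁻¹) := by
            gcongr
            exact heat_inv_bound (s n) (hs0 n) ζ hζ
        _ = _ := by ring
    have hfin : ((2 + 2 * cb) * C) ≠ ⊤ := by
      apply ENNReal.mul_ne_top _ ENNReal.coe_ne_top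
      exact ENNReal.add_ne_top.mpr ⟨by norm_num, ENNReal.mul_ne_top (by norm_num) hCb⟩
    have h6 : ((2 + 2 * cb) * C) * (‖ζ‖ₑ)⁻¹ = ENNReal.ofReal (K * ‖ζ‖⁻¹) := by
      rw [hK, ENNReal.ofReal_mul ENNReal.toReal_nonneg, ENNReal.ofReal_toReal hfin,
        ENNReal.ofReal_inv_of_pos hz, ofReal_norm]
    rw [h6, ← ofReal_norm] at h5
    exact (ENNReal.ofReal_le_ofReal_iff (by positivity)).mp h5
  have hlim : Tendsto (fun n => ((a n : ℝ) : ℂ)) atTop
      (𝓝 (∫ w : E3 × E3, φ w.1 * (starRingEnd ℂ) (φ w.2) * H (w.2 - w.1))) := by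
    simp_rw [haeq]
    apply tendsto_integral_of_dominated_convergence (fun w : E3 × E3 =>
      K * ‖φ w.1 * (starRingEnd ℂ) (φ w.2) * (((‖w.2 - w.1‖)⁻¹ : ℝ) : ℂ)‖)
    · intro n
      have c1 : AEStronglyMeasurable (fun w : E3 × E3 => φ w.1 * (starRingEnd ℂ) (φ w.2)) := by
        apply Measurable.aestronglyMeasurable
        exact (hφm.comp measurable_fst).mul (Complex.continuous_conj.measurable.comp (hφm.comp measurable_snd))
      apply c1.mul
      exact ((continuous_fourier_of_integrable _ (hUi n)).comp (by fun_prop)).aestronglyMeasurable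
    · exact hker.norm.const_mul K
    · intro n
      filter_upwards [hne] with w hw
      rw [norm_mul, norm_mul (φ w.1 * _), Complex.norm_real, norm_inv, norm_norm]
      calc _ ≤ ‖φ w.1 * (starRingEnd ℂ) (φ w.2)‖ * (K * ‖w.2 - w.1‖⁻¹) := by
            gcongr
            exact hFb n _ hw
        _ = _ := by ring
    · filter_upwards [hne] with w hw
      apply Tendsto.const_mul
      have h7 := tendsto_heat H hH (w.2 - w.1) (hHc _ hw)
      refine h7.congr (fun n => ?_)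
      rw [hUn]
      exact (fourier_gauss H hH (s n) (hs0 n) (w.2 - w.1)).symm
  have hre : Tendsto a atTop (𝓝 (∫ w : E3 × E3, φ w.1 * (starRingEnd ℂ) (φ w.2) * H (w.2 - w.1)).re) := by
    have := (Complex.continuous_re.tendsto _).comp hlim
    refine this.congr (fun n => ?_)
    simp
  have := (ENNReal.continuous_ofReal.tendsto _).comp hre
  exact le_of_tendsto' this hbound

end Pool.Agent.H79.Wave
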