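import Mathlib
import Pool.Agent.H79.Wave.Geom
import Pool.Agent.H79.Wave.Kirchhoff
import Pool.Agent.H79.Wave.Major
import Pool.Agent.H79.Wave.Tri
import Pool.Agent.H79.Wave.Reg
import Pool.Agent.H79.Wave.Dirichlet
import Pool.Agent.H79.Wave.Final

/-!
Spherical means, their Fourier transform, and positivity of the Riesz potential.
-/

set_option autoImplicit false

namespace Pool.Agent.H79.Wave

open MeasureTheory Set Metric FourierTransform RealInnerProductSpace Filter Topology SchwartzMap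

lemma Av_nonneg (g : E3 → ℝ) (hg : ∀ x, 0 ≤ g x) (t : ℝ) (x : E3) : 0 ≤ Av g t x := by
  unfold Av
  have := Real.pi_pos
  have h := integral_nonneg (μ := sg) (f := fun ω : sphere (0 : E3) 1 => g (x - t • (ω : E3))) (fun ω => hg _)
  positivity

lemma Av_integrable (g : E3 → ℝ) (hgc : Continuous g) (hgi : Integrable g) (t : ℝ) :
    Integrable (fun x => Av g t x) := by
  unfold Av
  apply Integrable.const_mul
  have hF : Integrable (fun w : E3 × sphere (0 : E3) 1 => g (w.1 - t • (w.2 : E3))) (volume.prod sg) := by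
    rw [integrable_prod_iff']
    · constructor
      · filter_upwards with ω
        exact hgi.comp_sub_right _
      · have e : ∀ ω : sphere (0 : E3) 1, ∫ x : E3, ‖g (x - t • (ω : E3))‖ = ∫ x : E3, ‖g x‖ := by
          intro ω
          exact integral_sub_right_eq_self (fun x => ‖g x‖) _
        simp_rw [e]
        exact integrable_const _
    · apply Continuous.aestronglyMeasurable
      exact hgc.comp (by fun_prop)
  exact hF.integral_prod_left

/-- the multiplier of the spherical mean -/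
noncomputable def am (t : ℝ) (ζ : E3) : ℝ := Real.sin (2 * Real.pi * t * ‖ζ‖) / (2 * Real.pi * t * ‖ζ‖)

lemma am_bound (t : ℝ) (ζ : E3) : |am t ζ| ≤ 1 := by
  unfold am
  rw [abs_div]
  apply div_le_one_of_le₀ Real.abs_sin_le_abs (abs_nonneg _)

lemma wave_eq_Av (g : 𝓢(E3, ℝ)) (t : ℝ) (ht : 0 < t) (x : E3) :
    waveSol (fun x => (g x : ℂ)) t x = ((t * Av (fun x => g x) t x : ℝ) : ℂ) := by
  rw [waveSol_sphere (fun x => (g x : ℂ)) (by have := g.continuous; fun_prop) (g.integrable.ofReal) (sch_fint g) x t ht]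
  unfold Av
  rw [integral_complex_ofReal, ← Complex.ofReal_mul]
  congr 1
  field_simp

lemma Av_eq_Vf (g : 𝓢(E3, ℝ)) (t : ℝ) (ht : 0 < t) (x : E3) :
    ((Av (fun x => g x) t x : ℝ) : ℂ) = Vf (fun ζ => ((am t ζ : ℝ) : ℂ) * 𝓕 (fun x => (g x : ℂ)) ζ) x := by
  have h := wave_eq_Av g t ht x
  have h2 : waveSol (fun x => (g x : ℂ)) t x = (t : ℂ) *
      Vf (fun ζ => ((am t ζ : ℝ) : ℂ) * 𝓕 (fun x => (g x : ℂ)) ζ) x := by
    rw [waveSol, fourierInv_ch]
    unfold Vf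
    rw [← integral_const_mul]
    congr 1; ext ζ
    have e : Real.sin (2 * Real.pi * t * ‖ζ‖) / (2 * Real.pi * ‖ζ‖) = t * am t ζ := by
      unfold am
      rw [show 2 * Real.pi * t * ‖ζ‖ = t * (2 * Real.pi * ‖ζ‖) by ring]
      rw [← mul_div_assoc, mul_div_mul_left _ _ ht.ne']
    rw [e]
    push_cast
    ring
  have ht' : (t : ℂ) ≠ 0 := by exact_mod_cast ht.ne'
  apply mul_left_cancel₀ ht'
  rw [← h2, h]
  push_cast
  ring

lemma am_meas (t : ℝ) : Measurable (am t) := by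
  unfold am; fun_prop

lemma fourier_Av (g : 𝓢(E3, ℝ)) (t : ℝ) (ht : 0 < t) (ζ : E3) (hζ : ζ ≠ 0) :
    𝓕 (fun x => ((Av (fun x => g x) t x : ℝ) : ℂ)) ζ = ((am t ζ : ℝ) : ℂ) * 𝓕 (fun x => (g x : ℂ)) ζ := by
  set h : E3 → ℂ := fun ζ => ((am t ζ : ℝ) : ℂ) * 𝓕 (fun x => (g x : ℂ)) ζ with hh
  have e : (fun x => ((Av (fun x => g x) t x : ℝ) : ℂ)) = 𝓕⁻ h := by
    ext x
    rw [Av_eq_Vf g t ht x, fourierInv_ch]
    rfl
  have hi : Integrable h := by
    refine (sch_fint g).bdd_mul (c := 1) ?_ ?_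
    · apply Measurable.aestronglyMeasurable
      have := am_meas t
      fun_prop
    · filter_upwards with ζ
      rw [Complex.norm_real]
      exact am_bound t ζ
  have hi2 : Integrable (𝓕⁻ h) := by
    rw [← e]
    exact (Av_integrable _ g.continuous g.integrable t).ofReal
  have hc : ContinuousAt h ζ := by
    rw [hh]
    have hne : 2 * Real.pi * t * ‖ζ‖ ≠ 0 := by
      have := Real.pi_pos
      have := norm_pos_iff.mpr hζ
      positivity
    have h1 : ContinuousAt (fun ζ : E3 => am t ζ) ζ := by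
      unfold am
      exact ContinuousAt.div (by fun_prop) (by fun_prop) hne
    exact (Complex.continuous_ofReal.continuousAt.comp h1).mul (sch_fcont g).continuousAt
  have hi3 : Integrable (𝓕 h) := by
    refine hi2.comp_neg.congr ?_
    filter_upwards with w
    rw [Real.fourierInv_eq_fourier_neg, neg_neg]
  rw [e]
  exact hi.fourier_fourierInv_eq hi3 hc

/-- Fourier side of the Riesz potential of order one -/
noncomputable def rH (f : E3 → ℂ) (ζ : E3) : ℂ := (((2 * Real.pi * ‖ζ‖)⁻¹ : ℝ) : ℂ) * 𝓕 f ζ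

/-- `|∇|⁻¹ f` in `ℝ³`: the Fourier multiplier with symbol `1/(2π|ξ|)` -/
noncomputable def riesz (f : E3 → ℂ) (x : E3) : ℂ :=
  𝓕⁻ (fun ξ : E3 => (((2 * Real.pi * ‖ξ‖)⁻¹ : ℝ) : ℂ) * 𝓕 f ξ) x

lemma riesz_eq (f : E3 → ℂ) (x : E3) : riesz f x = Vf (rH f) x := by
  rw [riesz, fourierInv_ch]
  rfl

/-- bounds for the Fourier side -/
lemma rH_props (F : E3 → ℂ) (hFm : Measurable F) (C : NNReal) (hFb : ∀ ζ, ‖F ζ‖ₑ ≤ C)
    (h1 : ∫⁻ ζ, ‖F ζ‖ₑ ≠ ⊤) (h2 : ∫⁻ ζ, ‖F ζ‖ₑ ^ 2 ≠ ⊤) :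
    (∫⁻ ζ, ‖(((2 * Real.pi * ‖ζ‖)⁻¹ : ℝ) : ℂ) * F ζ‖ₑ ≠ ⊤) ∧
      (∫⁻ ζ, ‖(((2 * Real.pi * ‖ζ‖)⁻¹ : ℝ) : ℂ) * F ζ‖ₑ ^ 2 ≠ ⊤) ∧
      (∀ ζ, ‖(((2 * Real.pi * ‖ζ‖)⁻¹ : ℝ) : ℂ) * F ζ‖ₑ ≤ C * (‖ζ‖ₑ)⁻¹) := by
  have hpi := Real.pi_pos
  have key : ∀ ζ : E3, ‖(((2 * Real.pi * ‖ζ‖)⁻¹ : ℝ) : ℂ) * F ζ‖ₑ ≤ (‖ζ‖ₑ)⁻¹ * ‖F ζ‖ₑ := by
    intro ζ
    rw [enorm_mul]
    gcongr
    rw [← ofReal_norm, Complex.norm_real, Real.norm_eq_abs]
    rcases eq_or_ne ζ 0 with h | h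
    · simp [h]
    · have hz : 0 < ‖ζ‖ := norm_pos_iff.mpr h
      rw [abs_of_pos (by positivity), ← ofReal_norm, ← ENNReal.ofReal_inv_of_pos hz]
      apply ENNReal.ofReal_le_ofReal
      gcongr
      nlinarith [Real.pi_gt_three]
  have hcap : ∀ ζ : E3, (‖ζ‖ₑ)⁻¹ * ‖F ζ‖ₑ ≤ ‖F ζ‖ₑ + (ball (0 : E3) 1).indicator (fun ζ => C * (‖ζ‖ₑ)⁻¹) ζ := by
    intro ζ
    by_cases h : ζ ∈ ball (0 : E3) 1
    · rw [Set.indicator_of_mem h]
      refine le_trans ?_ le_add_self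
      rw [mul_comm]
      gcongr
      exact hFb ζ
    · refine le_trans ?_ le_self_add
      have h1 : 1 ≤ ‖ζ‖ₑ := by
        rw [mem_ball_zero_iff, not_lt] at h
        rw [← ofReal_norm]
        simpa using ENNReal.ofReal_le_ofReal h
      calc (‖ζ‖ₑ)⁻¹ * ‖F ζ‖ₑ ≤ 1 * ‖F ζ‖ₑ := by
            gcongr
            exact ENNReal.inv_le_one.mpr h1
        _ = _ := one_mul _
  have hcap2 : ∀ ζ : E3, ((‖ζ‖ₑ)⁻¹ * ‖F ζ‖ₑ) ^ 2 ≤ ‖F ζ‖ₑ ^ 2 +
      (ball (0 : E3) 1).indicator (fun ζ => C ^ 2 * (‖ζ‖ₑ ^ 2)⁻¹) ζ := by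
    intro ζ
    by_cases h : ζ ∈ ball (0 : E3) 1
    · rw [Set.indicator_of_mem h]
      refine le_trans ?_ le_add_self
      rw [mul_pow, mul_comm, ENNReal.inv_pow]
      gcongr
      exact hFb ζ
    · refine le_trans ?_ le_self_add
      have h1 : 1 ≤ ‖ζ‖ₑ := by
        rw [mem_ball_zero_iff, not_lt] at h
        rw [← ofReal_norm]
        simpa using ENNReal.ofReal_le_ofReal h
      calc ((‖ζ‖ₑ)⁻¹ * ‖F ζ‖ₑ) ^ 2 ≤ (1 * ‖F ζ‖ₑ) ^ 2 := by
            gcongr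
            exact ENNReal.inv_le_one.mpr h1
        _ = _ := by rw [one_mul]
  refine ⟨?_, ?_, ?_⟩
  · refine ne_of_lt (lt_of_le_of_lt (lintegral_mono (fun ζ => (key ζ).trans (hcap ζ))) ?_)
    rw [lintegral_add_left hFm.enorm, lintegral_indicator measurableSet_ball,
      lintegral_const_mul' _ _ ENNReal.coe_ne_top]
    exact ENNReal.add_lt_top.mpr ⟨h1.lt_top, ENNReal.mul_lt_top ENNReal.coe_lt_top lint_inv_ball.lt_top⟩
  · refine ne_of_lt (lt_of_le_of_lt (lintegral_mono (fun ζ =>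
      (pow_le_pow_left' (key ζ) 2).trans (hcap2 ζ))) ?_)
    rw [lintegral_add_left (hFm.enorm.pow_const 2), lintegral_indicator measurableSet_ball,
      lintegral_const_mul' _ _ (ENNReal.pow_ne_top ENNReal.coe_ne_top)]
    exact ENNReal.add_lt_top.mpr ⟨h2.lt_top, ENNReal.mul_lt_top
      (ENNReal.pow_lt_top ENNReal.coe_lt_top) lint_inv_sq_ball.lt_top⟩
  · intro ζ
    refine (key ζ).trans ?_
    rw [mul_comm]
    gcongr
    exact hFb ζ

lemma sch_props (F : 𝓢(E3, ℂ)) : Measurable F ∧ (∃ C : NNReal, ∀ ζ, ‖F ζ‖ₑ ≤ C) ∧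
    (∫⁻ ζ, ‖F ζ‖ₑ ≠ ⊤) ∧ (∫⁻ ζ, ‖F ζ‖ₑ ^ 2 ≠ ⊤) := by
  obtain ⟨C, hC0, hC⟩ := F.decay 0 0
  have hb : ∀ ζ, ‖F ζ‖ₑ ≤ (Real.toNNReal C : ENNReal) := by
    intro ζ
    have h := hC ζ
    rw [pow_zero, one_mul, norm_iteratedFDeriv_zero] at h
    rw [← ofReal_norm]
    exact ENNReal.ofReal_le_ofReal h
  have h1 : ∫⁻ ζ, ‖F ζ‖ₑ ≠ ⊤ := by
    have := F.integrable (μ := (volume : Measure E3)).2
    rw [hasFiniteIntegral_iff_enorm] at this
    exact this.ne
  refine ⟨F.continuous.measurable, ⟨_, hb⟩, h1, ?_⟩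
  refine ne_of_lt (lt_of_le_of_lt (lintegral_mono (g := fun ζ => (Real.toNNReal C : ENNReal) * ‖F ζ‖ₑ)
    (fun ζ => ?_)) ?_)
  · rw [sq]
    exact mul_le_mul' (hb ζ) le_rfl
  · rw [lintegral_const_mul' _ _ ENNReal.coe_ne_top]
    exact ENNReal.mul_lt_top ENNReal.coe_lt_top h1.lt_top

lemma four_coe (g : 𝓢(E3, ℝ)) : 𝓕 (fun x => (g x : ℂ)) = ((𝓕 (cplx g) : 𝓢(E3, ℂ)) : E3 → ℂ) := by
  rw [SchwartzMap.fourier_coe, coe_cplx]

lemma rH_integrable (g : 𝓢(E3, ℝ)) : Integrable (rH (fun x => (g x : ℂ))) := by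
  obtain ⟨hm, ⟨C, hC⟩, h1, h2⟩ := sch_props (𝓕 (cplx g))
  obtain ⟨a, b, c⟩ := rH_props _ hm C hC h1 h2
  constructor
  · apply Measurable.aestronglyMeasurable
    unfold rH
    rw [four_coe]
    fun_prop
  · rw [hasFiniteIntegral_iff_enorm]
    unfold rH
    rw [four_coe]
    exact a.lt_top

lemma damped_Av (g : 𝓢(E3, ℝ)) (κ : ℝ) (hκ : 0 < κ) (x : E3) :
    ((∫ t in Ioi (0 : ℝ), Real.exp (-κ * t) * Av (fun x => g x) t x : ℝ) : ℂ) =
      ∫ ζ, ch x ζ * (((Real.arctan (2 * Real.pi * ‖ζ‖ / κ) : ℝ) : ℂ) * rH (fun x => (g x : ℂ)) ζ) := by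
  have hpi := Real.pi_pos
  rw [← integral_complex_ofReal]
  have e1 : ∀ t ∈ Ioi (0 : ℝ), ((Real.exp (-κ * t) * Av (fun x => g x) t x : ℝ) : ℂ) =
      ∫ ζ, ((Real.exp (-κ * t) : ℝ) : ℂ) * (ch x ζ * (((am t ζ : ℝ) : ℂ) * 𝓕 (fun x => (g x : ℂ)) ζ)) := by
    intro t ht
    rw [Complex.ofReal_mul, Av_eq_Vf g t ht x, integral_const_mul]
    rfl
  rw [setIntegral_congr_fun measurableSet_Ioi e1, integral_integral_swap]
  · apply integral_congr_ae
    have hne : ∀ᵐ ζ : E3, ζ ≠ 0 := by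
      rw [ae_iff]; simp
    filter_upwards [hne] with ζ hζ
    have hz : 0 < ‖ζ‖ := norm_pos_iff.mpr hζ
    have e2 : ∀ t : ℝ, ((Real.exp (-κ * t) : ℝ) : ℂ) * (ch x ζ * (((am t ζ : ℝ) : ℂ) * 𝓕 (fun x => (g x : ℂ)) ζ)) =
        ((Real.exp (-κ * t) * (Real.sin ((2 * Real.pi * ‖ζ‖) * t) / t) : ℝ) : ℂ) *
          (ch x ζ * rH (fun x => (g x : ℂ)) ζ) := by
      intro t
      unfold rH am
      rw [show 2 * Real.pi * t * ‖ζ‖ = (2 * Real.pi * ‖ζ‖) * t by ring]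
      push_cast
      have : (2 * Real.pi * ‖ζ‖ : ℂ) ≠ 0 := by
        have h0 : (2 * Real.pi * ‖ζ‖ : ℝ) ≠ 0 := by positivity
        exact_mod_cast h0
      rw [div_mul_eq_div_div]
      field_simp
    simp_rw [e2]
    rw [integral_mul_const, integral_complex_ofReal]
    have e3 := dI_eq κ (2 * Real.pi * ‖ζ‖) hκ
    unfold dI at e3
    rw [e3]
    ring
  · have h1 : Integrable (fun w : ℝ × E3 => ((Real.exp (-κ * w.1) : ℝ) : ℂ) * 𝓕 (fun x => (g x : ℂ)) w.2)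
        ((volume.restrict (Ioi (0 : ℝ))).prod volume) :=
      Integrable.mul_prod (f := fun t : ℝ => ((Real.exp (-κ * t) : ℝ) : ℂ))
        (g := fun ζ : E3 => 𝓕 (fun x => (g x : ℂ)) ζ) (expint κ hκ).ofReal (sch_fint g)
    have hch : Continuous (fun w : ℝ × E3 => ch x w.2) :=
      continuous_ch.comp (f := fun w : ℝ × E3 => (x, w.2)) (by fun_prop)
    have h2 := h1.bdd_mul (c := 1) (f := fun w : ℝ × E3 => ch x w.2 * ((am w.1 w.2 : ℝ) : ℂ))
      (by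
        apply AEStronglyMeasurable.mul hch.aestronglyMeasurable
        apply Measurable.aestronglyMeasurable
        unfold am
        fun_prop)
      (by
        filter_upwards with w
        rw [norm_mul, norm_ch, one_mul, Complex.norm_real]
        exact am_bound w.1 w.2)
    refine h2.congr ?_
    filter_upwards with w
    simp only [Function.uncurry]
    ring

/-- the Riesz potential of a nonnegative function is nonnegative -/
lemma riesz_nonneg (g : 𝓢(E3, ℝ)) (hg : ∀ x, 0 ≤ g x) (x : E3) :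
    ∃ r : ℝ, 0 ≤ r ∧ riesz (fun x => (g x : ℂ)) x = (r : ℂ) := by
  have hpi := Real.pi_pos
  set H := rH (fun x => (g x : ℂ)) with hH
  have hHi : Integrable H := rH_integrable g
  set a : ℕ → ℝ := fun n => ∫ t in Ioi (0 : ℝ), Real.exp (-(1 / (n + 1 : ℝ)) * t) * Av (fun x => g x) t x with ha
  have ha0 : ∀ n, 0 ≤ a n := fun n => integral_nonneg (fun t => mul_nonneg (Real.exp_pos _).le
    (Av_nonneg _ hg t x))
  have hlim : Tendsto (fun n => ((a n : ℝ) : ℂ)) atTop (𝓝 (∫ ζ, ch x ζ * (((Real.pi / 2 : ℝ) : ℂ) * H ζ))) := by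
    have e : ∀ n, ((a n : ℝ) : ℂ) = ∫ ζ, ch x ζ *
        (((Real.arctan (2 * Real.pi * ‖ζ‖ / (1 / (n + 1 : ℝ))) : ℝ) : ℂ) * H ζ) := by
      intro n
      exact damped_Av g (1 / (n + 1 : ℝ)) (by positivity) x
    simp_rw [e]
    apply tendsto_integral_of_dominated_convergence (fun ζ => Real.pi / 2 * ‖H ζ‖)
    · intro n
      have hch : Continuous (fun ζ => ch x ζ) :=
        continuous_ch.comp (f := fun ζ : E3 => (x, ζ)) (by fun_prop)
      apply hch.aestronglyMeasurable.mul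
      apply AEStronglyMeasurable.mul _ hHi.aestronglyMeasurable
      apply Measurable.aestronglyMeasurable
      have := Real.measurable_arctan
      fun_prop
    · exact hHi.norm.const_mul _
    · intro n
      filter_upwards with ζ
      rw [norm_mul, norm_ch, one_mul, norm_mul, Complex.norm_real]
      gcongr
      exact arctan_bound _
    · have hne : ∀ᵐ ζ : E3, ζ ≠ 0 := by
        rw [ae_iff]; simp
      filter_upwards [hne] with ζ hζ
      have hz : 0 < ‖ζ‖ := norm_pos_iff.mpr hζ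
      apply Tendsto.const_mul
      apply Tendsto.mul_const
      exact (Complex.continuous_ofReal.tendsto _).comp (tendsto_arctan_div (2 * Real.pi * ‖ζ‖) (by positivity))
  have e2 : ∫ ζ, ch x ζ * (((Real.pi / 2 : ℝ) : ℂ) * H ζ) = ((Real.pi / 2 : ℝ) : ℂ) * riesz (fun x => (g x : ℂ)) x := by
    rw [riesz_eq, Vf, ← integral_const_mul]
    congr 1; ext ζ
    rw [hH]; ring
  rw [e2] at hlim
  set z := ((Real.pi / 2 : ℝ) : ℂ) * riesz (fun x => (g x : ℂ)) x with hz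
  have hre : Tendsto a atTop (𝓝 z.re) := by
    have := (Complex.continuous_re.tendsto _).comp hlim
    refine this.congr (fun n => ?_)
    simp
  have him : z.im = 0 := by
    have h1 := (Complex.continuous_im.tendsto _).comp hlim
    have h2 : Tendsto (fun _ : ℕ => (0 : ℝ)) atTop (𝓝 z.im) := by
      refine h1.congr (fun n => ?_)
      simp
    exact tendsto_nhds_unique h2 tendsto_const_nhds |>.symm ▸ rfl
  have hz0 : 0 ≤ z.re := ge_of_tendsto' hre ha0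
  refine ⟨2 / Real.pi * z.re, by positivity, ?_⟩
  have hzz : z = ((z.re : ℝ) : ℂ) := by
    apply Complex.ext <;> simp [him]
  have h3 : riesz (fun x => (g x : ℂ)) x = ((2 / Real.pi : ℝ) : ℂ) * z := by
    rw [hz, ← mul_assoc, ← Complex.ofReal_mul]
    have : 2 / Real.pi * (Real.pi / 2) = 1 := by field_simp
    rw [this]
    simp
  rw [h3, hzz]
  push_cast
  simp

end Pool.Agent.H79.Wave
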