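import Mathlib
import Pool.Agent.H79.Wave.Geom
import Pool.Agent.H79.Wave.Sphere
import Pool.Agent.H79.Wave.AvLem

/-!
Polar coordinates in `ℝ³` and the Fourier transform of the sphere.
-/

set_option autoImplicit false

namespace Pool.Agent.H79.Wave

open MeasureTheory Set Metric FourierTransform RealInnerProductSpace Filter Topology SchwartzMap

lemma polar_pt (z : ({0}ᶜ : Set E3)) : ((homeomorphUnitSphereProd E3 z).2 : ℝ) •
        ((homeomorphUnitSphereProd E3 z).1 : E3) = (z : E3) := by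
  have hz : ‖(z : E3)‖ ≠ 0 := norm_ne_zero_iff.mpr z.2
  simp [smul_smul, hz]

/-- polar coordinates for lower integrals -/
lemma polar_lint (F : E3 → ENNReal) (hF : Measurable F) :
    ∫⁻ x, F x = ∫⁻ ω : sphere (0 : E3) 1, (∫⁻ r in Ioi (0 : ℝ), ENNReal.ofReal (r ^ 2) * F (r • (ω : E3))) ∂sg := by
  have hmp := (volume : Measure E3).measurePreserving_homeomorphUnitSphereProd
  have hfr : Module.finrank ℝ E3 - 1 = 2 := by simp
  have h2 : ∫⁻ y, F y = ∫⁻ w : sphere (0 : E3) 1 × Ioi (0 : ℝ), F ((w.2 : ℝ) • (w.1 : E3))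
      ∂(sg.prod (Measure.volumeIoiPow (Module.finrank ℝ E3 - 1))) := by
    rw [← hmp.lintegral_comp_emb (Homeomorph.measurableEmbedding _)]
    simp_rw [polar_pt]
    rw [lintegral_subtype_comap (measurableSet_singleton _).compl (fun y => F y),
      restrict_compl_singleton]
  have hm2 : Measurable (fun w : sphere (0 : E3) 1 × Ioi (0 : ℝ) => F ((w.2 : ℝ) • (w.1 : E3))) :=
    hF.comp (by fun_prop)
  rw [h2, lintegral_prod _ hm2.aemeasurable]
  apply lintegral_congr
  intro ω
  have hm3 : Measurable (fun r : Ioi (0 : ℝ) => F ((r : ℝ) • (ω : E3))) := hF.comp (by fun_prop)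
  rw [hfr, Measure.volumeIoiPow, lintegral_withDensity_eq_lintegral_mul _ (by fun_prop) hm3]
  simp only [Pi.mul_apply]
  rw [lintegral_subtype_comap measurableSet_Ioi (fun r : ℝ => ENNReal.ofReal (r ^ 2) * F (r • (ω : E3)))]

/-- polar coordinates for integrals -/
lemma polar_int (F : E3 → ℂ) (hFint : Integrable F) :
    ∫ x, F x = ∫ ω : sphere (0 : E3) 1, (∫ r in Ioi (0 : ℝ), ((r ^ 2 : ℝ) : ℂ) * F (r • (ω : E3))) ∂sg := by
  have hmp := (volume : Measure E3).measurePreserving_homeomorphUnitSphereProd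
  have h2 : ∫ y, F y = ∫ w : sphere (0 : E3) 1 × Ioi (0 : ℝ), F ((w.2 : ℝ) • (w.1 : E3))
      ∂(sg.prod (Measure.volumeIoiPow (Module.finrank ℝ E3 - 1))) := by
    rw [← hmp.integral_comp (Homeomorph.measurableEmbedding _)]
    simp_rw [polar_pt]
    rw [integral_subtype_comap (measurableSet_singleton _).compl (fun y => F y),
      restrict_compl_singleton]
  have hFint' : Integrable (fun w : sphere (0 : E3) 1 × Ioi (0 : ℝ) => F ((w.2 : ℝ) • (w.1 : E3)))
      (sg.prod (Measure.volumeIoiPow (Module.finrank ℝ E3 - 1))) := by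
    rw [← hmp.integrable_comp_emb (Homeomorph.measurableEmbedding _)]
    simp only [Function.comp_def, polar_pt]
    have h3 := (integrableOn_iff_comap_subtypeVal (measurableSet_singleton (0 : E3)).compl
      (f := F) (μ := volume)).mp hFint.integrableOn
    exact h3
  rw [h2, integral_prod _ hFint']
  congr 1; ext ω
  simp only [Measure.volumeIoiPow, ENNReal.ofReal]
  rw [integral_withDensity_eq_integral_smul]
  · rw [integral_subtype_comap measurableSet_Ioi (fun r : ℝ =>
      Real.toNNReal (r ^ (Module.finrank ℝ E3 - 1)) • F (r • (ω : E3)))]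
    apply setIntegral_congr_fun measurableSet_Ioi
    intro r hr
    simp only
    rw [NNReal.smul_def, Real.coe_toNNReal _ (pow_nonneg (le_of_lt hr) _)]
    simp
  · exact (measurable_subtype_coe.pow_const _).real_toNNReal

/-- the integral of a character over the unit sphere, scaled by `r` -/
noncomputable def chs (r : ℝ) (ζ : E3) : ℂ :=
  ∫ ω : sphere (0 : E3) 1, Complex.exp (((-(2 * Real.pi * ⟪r • (ω : E3), ζ⟫) : ℝ) : ℂ) * Complex.I) ∂sg

lemma chs_cont (ζ : E3) : Continuous (fun r => chs r ζ) := by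
  unfold chs
  apply continuous_of_dominated (bound := fun _ => 1)
  · intro r
    apply Continuous.aestronglyMeasurable
    fun_prop
  · intro r
    filter_upwards with ω
    rw [Complex.norm_exp_ofReal_mul_I]
  · exact integrable_const _
  · filter_upwards with ω
    fun_prop

lemma bft_polar (R : ℝ) (hR : 0 ≤ R) (ζ : E3) :
    bft R ζ = ∫ r in (0 : ℝ)..R, ((r ^ 2 : ℝ) : ℂ) * chs r ζ := by
  unfold bft
  rw [← integral_indicator measurableSet_ball]
  set e : E3 → ℂ := fun y => Complex.exp (((-(2 * Real.pi * ⟪y, ζ⟫) : ℝ) : ℂ) * Complex.I) with he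
  have hec : Continuous e := by rw [he]; fun_prop
  have hfin : volume (ball (0 : E3) R) ≠ ⊤ := measure_ball_lt_top.ne
  have hint : Integrable ((ball (0 : E3) R).indicator e) := by
    rw [integrable_indicator_iff measurableSet_ball]
    refine Measure.integrableOn_of_bounded (M := 1) hfin hec.aestronglyMeasurable ?_
    filter_upwards with y
    rw [he]
    simp only
    rw [Complex.norm_exp_ofReal_mul_I]
  rw [polar_int _ hint, intervalIntegral.integral_of_le hR]
  have e1 : ∀ ω : sphere (0 : E3) 1, ∫ r in Ioi (0 : ℝ), ((r ^ 2 : ℝ) : ℂ) * (ball (0 : E3) R).indicator e (r • (ω : E3)) =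
      ∫ r in Ioc 0 R, ((r ^ 2 : ℝ) : ℂ) * e (r • (ω : E3)) := by
    intro ω
    have hω : ‖(ω : E3)‖ = 1 := by simp
    rw [← integral_indicator measurableSet_Ioi, ← integral_indicator measurableSet_Ioc]
    apply integral_congr_ae
    have hne : ∀ᵐ r : ℝ, r ≠ R := by
      rw [ae_iff]; simp
    filter_upwards [hne] with r hrR
    by_cases hr : 0 < r
    · rw [Set.indicator_of_mem (show r ∈ Ioi (0 : ℝ) from hr)]
      by_cases hr2 : r < R
      · rw [Set.indicator_of_mem (show r ∈ Ioc 0 R from ⟨hr, hr2.le⟩), Set.indicator_of_mem]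
        rw [mem_ball_zero_iff, norm_smul, hω, mul_one, Real.norm_eq_abs, abs_of_pos hr]
        exact hr2
      · rw [Set.indicator_of_notMem (show r ∉ Ioc 0 R from fun h => hr2 (lt_of_le_of_ne h.2 hrR)),
          Set.indicator_of_notMem, mul_zero]
        rw [mem_ball_zero_iff, norm_smul, hω, mul_one, Real.norm_eq_abs, abs_of_pos hr]
        exact hr2
    · rw [Set.indicator_of_notMem (show r ∉ Ioi (0 : ℝ) from hr),
        Set.indicator_of_notMem (show r ∉ Ioc 0 R from fun h => hr h.1)]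
  simp_rw [e1]
  rw [integral_integral_swap]
  · unfold chs
    simp_rw [← integral_const_mul]
    rfl
  · have hb : Integrable (fun z : sphere (0 : E3) 1 × ℝ => (1 : ℂ)) (sg.prod (volume.restrict (Ioc 0 R))) :=
      integrable_const _
    have h3 := hb.bdd_mul (c := R ^ 2) (f := fun z : sphere (0 : E3) 1 × ℝ => ((z.2 ^ 2 : ℝ) : ℂ) * e (z.2 • (z.1 : E3)))
      (by
        apply Continuous.aestronglyMeasurable
        fun_prop)
      (by
        have hae : ∀ᵐ z : sphere (0 : E3) 1 × ℝ ∂(sg.prod (volume.restrict (Ioc 0 R))), z.2 ∈ Ioc 0 R := by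
          have : sg.prod (volume.restrict (Ioc 0 R)) = (sg.prod volume).restrict (univ ×ˢ Ioc 0 R) := by
            rw [← Measure.prod_restrict, Measure.restrict_univ]
          rw [this]
          filter_upwards [ae_restrict_mem (MeasurableSet.univ.prod measurableSet_Ioc)] with z hz
          exact hz.2
        filter_upwards [hae] with z hz
        rw [norm_mul, he]
        simp only
        rw [Complex.norm_exp_ofReal_mul_I, mul_one, Complex.norm_real, Real.norm_eq_abs,
          abs_of_nonneg (by positivity)]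
        have := hz.1.le
        have := hz.2
        gcongr)
    refine h3.congr ?_
    filter_upwards with z
    simp [Function.uncurry]

/-- Fourier transform of the sphere -/
lemma chs_eq (t : ℝ) (ht : 0 < t) (ζ : E3) (hζ : ζ ≠ 0) : chs t ζ = ((4 * Real.pi * am t ζ : ℝ) : ℂ) := by
  have hk : ‖ζ‖ ≠ 0 := norm_ne_zero_iff.mpr hζ
  have hpi := Real.pi_pos
  have hc : Continuous (fun r : ℝ => ((r ^ 2 : ℝ) : ℂ) * chs r ζ) := by
    have := chs_cont ζ
    fun_prop
  have h1 : HasDerivAt (fun R : ℝ => ∫ r in (0 : ℝ)..R, ((r ^ 2 : ℝ) : ℂ) * chs r ζ)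
      (((t ^ 2 : ℝ) : ℂ) * chs t ζ) t :=
    intervalIntegral.integral_hasDerivAt_right (hc.intervalIntegrable _ _)
      (hc.stronglyMeasurableAtFilter _ _) hc.continuousAt
  have h2 : HasDerivAt (fun R : ℝ => ((bftR ‖ζ‖ R : ℝ) : ℂ))
      ((4 * Real.pi * t * ∫ s in (0 : ℝ)..t, Real.cos (2 * Real.pi * ‖ζ‖ * s) : ℝ) : ℂ) t :=
    (hasDerivAt_bftR ‖ζ‖ t).ofReal_comp
  have h3 : HasDerivAt (fun R : ℝ => ((bftR ‖ζ‖ R : ℝ) : ℂ)) (((t ^ 2 : ℝ) : ℂ) * chs t ζ) t := by
    refine h1.congr_of_eventuallyEq ?_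
    filter_upwards [lt_mem_nhds ht] with R hR
    rw [← bft_eq R hR.le, bft_polar R hR.le]
  have h4 := h3.unique h2
  rw [int_cos _ _ hk] at h4
  have ht2 : ((t ^ 2 : ℝ) : ℂ) ≠ 0 := by
    have : (t ^ 2 : ℝ) ≠ 0 := by positivity
    exact_mod_cast this
  apply mul_left_cancel₀ ht2
  rw [h4, ← Complex.ofReal_mul]
  congr 1
  unfold am
  rw [show 2 * Real.pi * ‖ζ‖ * t = 2 * Real.pi * t * ‖ζ‖ by ring]
  field_simp

end Pool.Agent.H79.Wave
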