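import Mathlib
import Pool.Agent.H79.Wave.AvLem

/-!
The weighted `L²` inequality for solutions of the wave equation.
-/

set_option autoImplicit false

namespace Pool.Agent.H79.Wave

open MeasureTheory Set Metric FourierTransform RealInnerProductSpace Filter Topology SchwartzMap

/-- strict triangle inequality almost everywhere -/
lemma ae_triangle : ∀ᵐ w : E3 × E3, |‖w.1‖ - ‖w.2‖| < ‖w.2 - w.1‖ ∧ ‖w.2 - w.1‖ < ‖w.1‖ + ‖w.2‖ := by
  have hm : MeasurableSet {w : E3 × E3 | ¬ (|‖w.1‖ - ‖w.2‖| < ‖w.2 - w.1‖ ∧ ‖w.2 - w.1‖ < ‖w.1‖ + ‖w.2‖)} := by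
    apply MeasurableSet.compl
    apply MeasurableSet.inter
    · exact measurableSet_lt (f := fun w : E3 × E3 => |‖w.1‖ - ‖w.2‖|) (g := fun w : E3 × E3 => ‖w.2 - w.1‖)
        (by fun_prop) (by fun_prop)
    · exact measurableSet_lt (f := fun w : E3 × E3 => ‖w.2 - w.1‖) (g := fun w : E3 × E3 => ‖w.1‖ + ‖w.2‖)
        (by fun_prop) (by fun_prop)
  rw [ae_iff]
  have h0 : ((volume : Measure E3).prod (volume : Measure E3))
      {w : E3 × E3 | ¬ (|‖w.1‖ - ‖w.2‖| < ‖w.2 - w.1‖ ∧ ‖w.2 - w.1‖ < ‖w.1‖ + ‖w.2‖)} = 0 := by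
    rw [Measure.measure_prod_null hm]
    have hne : ∀ᵐ ξ : E3, ξ ≠ 0 := by
      rw [ae_iff]; simp
    filter_upwards [hne] with ξ hξ
    have hsub : Prod.mk ξ ⁻¹' {w : E3 × E3 | ¬ (|‖w.1‖ - ‖w.2‖| < ‖w.2 - w.1‖ ∧
        ‖w.2 - w.1‖ < ‖w.1‖ + ‖w.2‖)} ⊆ ((ℝ ∙ ξ : Submodule ℝ E3) : Set E3) := by
      intro η hη
      by_contra hcon
      apply hη
      have hcon' : η ∉ (ℝ ∙ ξ : Submodule ℝ E3) := hcon
      rw [Submodule.mem_span_singleton] at hcon'
      constructor
      · have h1 : ¬ SameRay ℝ ξ η := by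
          intro hs
          apply hcon'
          obtain ⟨r, hr, h2⟩ := hs.exists_nonneg_left hξ
          exact ⟨r, h2⟩
        rw [not_sameRay_iff_abs_lt_norm_sub] at h1
        rw [norm_sub_rev]
        exact h1
      · have h1 : ¬ SameRay ℝ ξ (-η) := by
          intro hs
          apply hcon'
          obtain ⟨r, hr, h2⟩ := hs.exists_nonneg_left hξ
          exact ⟨-r, by rw [neg_smul, h2, neg_neg]⟩
        rw [not_sameRay_iff_norm_add_lt, norm_neg] at h1
        change ‖η - ξ‖ < ‖ξ‖ + ‖η‖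
        rw [norm_sub_rev]
        exact h1
    refine measure_mono_null hsub ?_
    apply Measure.addHaar_submodule
    intro htop
    have h3 : Module.finrank ℝ (ℝ ∙ ξ : Submodule ℝ E3) = 1 := finrank_span_singleton hξ
    rw [htop, finrank_top] at h3
    simp at h3
  exact h0

/-- admissible time profiles: the two relevant functions are cosine and sine -/
structure Adm (m : ℝ → ℝ) : Prop where
  meas : Measurable m
  bdd : ∀ x, |m x| ≤ 1
  tbdd : ∀ κ a b c : ℝ, 0 < κ →
    |∫ t in Ioi (0 : ℝ), Real.exp (-κ * t) * (m (a * t) * m (b * t) * (Real.sin (c * t) / t))| ≤ Real.pi / 2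
  tlim : ∀ a b c : ℝ, |a - b| < c → c < a + b →
    Tendsto (fun n : ℕ => ∫ t in Ioi (0 : ℝ), Real.exp (-(1 / (n + 1 : ℝ)) * t) *
      (m (a * t) * m (b * t) * (Real.sin (c * t) / t))) atTop (𝓝 (Real.pi / 4))

lemma adm_cos : Adm Real.cos where
  meas := Real.measurable_cos
  bdd := Real.abs_cos_le_one
  tbdd := by
    intro κ a b c hκ
    rw [triple_cos κ a b c hκ, abs_mul, abs_of_pos (by norm_num : (0 : ℝ) < 1 / 4)]
    have h1 := arctan_bound ((a + b + c) / κ)
    have h2 := arctan_bound ((c + a - b) / κ)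
    have h3 := arctan_bound ((c + b - a) / κ)
    have h4 := arctan_bound ((c - a - b) / κ)
    rw [abs_le] at h1 h2 h3 h4
    have : |Real.arctan ((a + b + c) / κ) + Real.arctan ((c + a - b) / κ) +
        Real.arctan ((c + b - a) / κ) + Real.arctan ((c - a - b) / κ)| ≤ 4 * (Real.pi / 2) := by
      rw [abs_le]; constructor <;> linarith [h1.1, h1.2, h2.1, h2.2, h3.1, h3.2, h4.1, h4.2]
    linarith
  tlim := by
    intro a b c h1 h2
    rw [abs_lt] at h1
    have e : ∀ n : ℕ, ∫ t in Ioi (0 : ℝ), Real.exp (-(1 / (n + 1 : ℝ)) * t) *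
      (Real.cos (a * t) * Real.cos (b * t) * (Real.sin (c * t) / t)) = _ := fun n =>
        triple_cos (1 / (n + 1 : ℝ)) a b c (by positivity)
    simp_rw [e]
    have l1 := tendsto_arctan_div (a + b + c) (by linarith [h1.1, h1.2])
    have l2 := tendsto_arctan_div (c + a - b) (by linarith [h1.1, h1.2])
    have l3 := tendsto_arctan_div (c + b - a) (by linarith [h1.1, h1.2])
    have l4 := tendsto_arctan_div_neg (c - a - b) (by linarith [h1.1, h1.2])
    have := (((l1.add l2).add l3).add l4).const_mul (1 / 4)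
    convert! this using 2
    ring

lemma adm_sin : Adm Real.sin where
  meas := Real.measurable_sin
  bdd := Real.abs_sin_le_one
  tbdd := by
    intro κ a b c hκ
    rw [triple_sin κ a b c hκ, abs_mul, abs_of_pos (by norm_num : (0 : ℝ) < 1 / 4)]
    have h1 := arctan_bound ((a + b - c) / κ)
    have h2 := arctan_bound ((b + c - a) / κ)
    have h3 := arctan_bound ((c + a - b) / κ)
    have h4 := arctan_bound ((a + b + c) / κ)
    rw [abs_le] at h1 h2 h3 h4
    have : |Real.arctan ((a + b - c) / κ) + Real.arctan ((b + c - a) / κ) +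
        Real.arctan ((c + a - b) / κ) - Real.arctan ((a + b + c) / κ)| ≤ 4 * (Real.pi / 2) := by
      rw [abs_le]; constructor <;> linarith [h1.1, h1.2, h2.1, h2.2, h3.1, h3.2, h4.1, h4.2]
    linarith
  tlim := by
    intro a b c h1 h2
    rw [abs_lt] at h1
    have e : ∀ n : ℕ, ∫ t in Ioi (0 : ℝ), Real.exp (-(1 / (n + 1 : ℝ)) * t) *
      (Real.sin (a * t) * Real.sin (b * t) * (Real.sin (c * t) / t)) = _ := fun n =>
        triple_sin (1 / (n + 1 : ℝ)) a b c (by positivity)
    simp_rw [e]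
    have l1 := tendsto_arctan_div (a + b - c) (by linarith [h1.1, h1.2])
    have l2 := tendsto_arctan_div (b + c - a) (by linarith [h1.1, h1.2])
    have l3 := tendsto_arctan_div (c + a - b) (by linarith [h1.1, h1.2])
    have l4 := tendsto_arctan_div (a + b + c) (by linarith [h1.1, h1.2])
    have := (((l1.add l2).add l3).sub l4).const_mul (1 / 4)
    convert! this using 2
    ring

end Pool.Agent.H79.Wave
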