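import Mathlib
import Pool.Agent.H79.Wave.WMain
import Pool.Agent.H79.Wave.Polar

/-!
An identity on light cones for solutions of the wave equation in `ℝ³`.
-/

set_option autoImplicit false

namespace Pool.Agent.H79.Wave

open MeasureTheory Set Metric FourierTransform RealInnerProductSpace Filter Topology SchwartzMap

/-- admissible profiles with limit `L` -/
structure Adm2 (m : ℝ → ℝ) (L : ℝ) : Prop where
  meas : Measurable m
  bdd : ∀ x, |m x| ≤ 1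
  tbdd : ∀ κ a b c : ℝ, 0 < κ →
    |∫ t in Ioi (0 : ℝ), Real.exp (-κ * t) * (m (a * t) * m (b * t) * (Real.sin (c * t) / t))| ≤ Real.pi / 2
  tlim : ∀ a b c : ℝ, |a - b| < c → c < a + b →
    Tendsto (fun n : ℕ => ∫ t in Ioi (0 : ℝ), Real.exp (-(1 / (n + 1 : ℝ)) * t) *
      (m (a * t) * m (b * t) * (Real.sin (c * t) / t))) atTop (𝓝 L)

lemma adm2_cos : Adm2 Real.cos (Real.pi / 4) := ⟨adm_cos.meas, adm_cos.bdd, adm_cos.tbdd, adm_cos.tlim⟩

lemma adm2_sin : Adm2 Real.sin (Real.pi / 4) := ⟨adm_sin.meas, adm_sin.bdd, adm_sin.tbdd, adm_sin.tlim⟩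

lemma adm2_one : Adm2 (fun _ => 1) (Real.pi / 2) where
  meas := measurable_const
  bdd := fun x => by simp
  tbdd := by
    intro κ a b c hκ
    have h := dI_eq κ c hκ
    unfold dI at h
    simp only [one_mul]
    rw [h]
    exact arctan_bound _
  tlim := by
    intro a b c h1 h2
    have hc : 0 < c := lt_of_le_of_lt (abs_nonneg _) h1
    simp only [one_mul]
    have e : ∀ n : ℕ, ∫ t in Ioi (0 : ℝ), Real.exp (-(1 / (n + 1 : ℝ)) * t) * (Real.sin (c * t) / t) =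
        Real.arctan (c / (1 / (n + 1 : ℝ))) := fun n => dI_eq (1 / (n + 1 : ℝ)) c (by positivity)
    simp_rw [e]
    exact tendsto_arctan_div c hc

/-- the function `Vf (m(2π|ξ|r) φ)(x)` -/
noncomputable def vr (m : ℝ → ℝ) (φ : E3 → ℂ) (r : ℝ) (x : E3) : ℂ :=
  Vf (fun ξ => ((m (2 * Real.pi * ‖ξ‖ * r) : ℝ) : ℂ) * φ ξ) x

lemma vr_meas (m : ℝ → ℝ) (hm : Measurable m) (φ : E3 → ℂ) (hφ : Measurable φ) :
    Measurable (fun z : ℝ × E3 => vr m φ z.1 z.2) := by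
  have h1 : Measurable (fun w : (ℝ × E3) × E3 => ch w.1.2 w.2 * (((m (2 * Real.pi * ‖w.2‖ * w.1.1) : ℝ) : ℂ) * φ w.2)) := by
    have c1 : Measurable (fun w : (ℝ × E3) × E3 => ch w.1.2 w.2) :=
      (continuous_ch.comp (f := fun w : (ℝ × E3) × E3 => (w.1.2, w.2)) (by fun_prop)).measurable
    have c2 : Measurable (fun w : (ℝ × E3) × E3 => m (2 * Real.pi * ‖w.2‖ * w.1.1)) := hm.comp (by fun_prop)
    exact c1.mul ((Complex.measurable_ofReal.comp c2).mul (hφ.comp measurable_snd))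
  exact (StronglyMeasurable.integral_prod_right' (ν := (volume : Measure E3)) h1.stronglyMeasurable).measurable

lemma norm_sq_Vf (ψ : E3 → ℂ) (x : E3) : ((‖Vf ψ x‖ ^ 2 : ℝ) : ℂ) = ∫ w : E3 × E3,
      Complex.exp (((-(2 * Real.pi * ⟪x, w.2 - w.1⟫) : ℝ) : ℂ) * Complex.I) *
        (ψ w.1 * (starRingEnd ℂ) (ψ w.2)) := by
  have h1 : ((‖Vf ψ x‖ ^ 2 : ℝ) : ℂ) = Vf ψ x * (starRingEnd ℂ) (Vf ψ x) := by
    rw [Complex.mul_conj, Complex.normSq_eq_norm_sq]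
  have h2 : (starRingEnd ℂ) (Vf ψ x) = ∫ η, (starRingEnd ℂ) (ch x η * ψ η) := by
    unfold Vf
    exact integral_conj.symm
  rw [h1, h2]
  unfold Vf
  rw [← integral_prod_mul]
  congr 1; ext w
  rw [map_mul, ← ch_mul_conj]
  ring

/-- the damped kernel -/
noncomputable def Kd (κ : ℝ) (x : E3) : ℝ := (‖x‖ ^ 2)⁻¹ * Real.exp (-κ * ‖x‖)

lemma Kd_int (κ : ℝ) (hκ : 0 < κ) : Integrable (Kd κ) := by
  have h := (integrable_fun_norm_addHaar (μ := (volume : Measure E3)) (F := ℝ)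
    (f := fun r : ℝ => (r ^ 2)⁻¹ * Real.exp (-κ * r))).mpr (by
      have h1 : IntegrableOn (fun t : ℝ => Real.exp (-κ * t)) (Ioi 0) := expint κ hκ
      refine h1.congr_fun (fun r hr => ?_) measurableSet_Ioi
      have hr0 : (r : ℝ) ≠ 0 := (ne_of_gt hr)
      simp only [finrank_euclideanSpace, Fintype.card_fin, smul_eq_mul]
      have : (3 - 1 : ℕ) = 2 := rfl
      rw [this, ← mul_assoc, mul_inv_cancel₀ (pow_ne_zero 2 hr0), one_mul])
  exact h

lemma phiphi (φ : E3 → ℂ) (hφ : Integrable φ) :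
    Integrable (fun w : E3 × E3 => φ w.1 * (starRingEnd ℂ) (φ w.2)) := by
  have hφc : Integrable (fun ξ => (starRingEnd ℂ) (φ ξ)) := by
    have := (Complex.conjLIE.toContinuousLinearEquiv.toContinuousLinearMap).integrable_comp hφ
    exact this
  exact hφ.mul_prod hφc

/-- radial integration of the damped kernel against a character -/
lemma inner_polar (m : ℝ → ℝ) (L : ℝ) (hm : Adm2 m L) (κ : ℝ) (hκ : 0 < κ) (a b : ℝ) (ζ : E3) (hζ : ζ ≠ 0) :
    ∫ x : E3, ((Kd κ x * (m (a * ‖x‖) * m (b * ‖x‖)) : ℝ) : ℂ) *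
      Complex.exp (((-(2 * Real.pi * ⟪x, ζ⟫) : ℝ) : ℂ) * Complex.I) =
      ((2 * ‖ζ‖⁻¹ * ∫ t in Ioi (0 : ℝ), Real.exp (-κ * t) * (m (a * t) * m (b * t) *
        (Real.sin (2 * Real.pi * ‖ζ‖ * t) / t)) : ℝ) : ℂ) := by
  have hpi := Real.pi_pos
  have hz : 0 < ‖ζ‖ := norm_pos_iff.mpr hζ
  have hmb : ∀ t : ℝ, |m (a * t) * m (b * t)| ≤ 1 := by
    intro t
    rw [abs_mul]
    calc _ ≤ 1 * (1 : ℝ) := mul_le_mul (hm.bdd _) (hm.bdd _) (abs_nonneg _) (by norm_num)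
      _ = 1 := by norm_num
  have hmm : Measurable (fun t : ℝ => m (a * t) * m (b * t)) :=
    (hm.meas.comp (by fun_prop)).mul (hm.meas.comp (by fun_prop))
  have hint : Integrable (fun x : E3 => ((Kd κ x * (m (a * ‖x‖) * m (b * ‖x‖)) : ℝ) : ℂ) *
      Complex.exp (((-(2 * Real.pi * ⟪x, ζ⟫) : ℝ) : ℂ) * Complex.I)) := by
    have h1 := (Kd_int κ hκ).ofReal (𝕜 := ℂ)
    have h2 := h1.bdd_mul (c := 1) (f := fun x : E3 => (((m (a * ‖x‖) * m (b * ‖x‖)) : ℝ) : ℂ) *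
      Complex.exp (((-(2 * Real.pi * ⟪x, ζ⟫) : ℝ) : ℂ) * Complex.I))
      (by
        apply AEStronglyMeasurable.mul
        · exact (Complex.measurable_ofReal.comp (hmm.comp measurable_norm)).aestronglyMeasurable
        · apply Continuous.aestronglyMeasurable; fun_prop)
      (by
        filter_upwards with x
        rw [norm_mul, Complex.norm_exp_ofReal_mul_I, mul_one, Complex.norm_real]
        exact hmb _)
    refine h2.congr ?_
    filter_upwards with x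
    simp only [Complex.coe_algebraMap]
    push_cast
    ring
  rw [polar_int _ hint]
  have e1 : ∀ ω : sphere (0 : E3) 1, ∫ r in Ioi (0 : ℝ), ((r ^ 2 : ℝ) : ℂ) *
      (((Kd κ (r • (ω : E3)) * (m (a * ‖r • (ω : E3)‖) * m (b * ‖r • (ω : E3)‖)) : ℝ) : ℂ) *
      Complex.exp (((-(2 * Real.pi * ⟪r • (ω : E3), ζ⟫) : ℝ) : ℂ) * Complex.I)) =
      ∫ r in Ioi (0 : ℝ), ((Real.exp (-κ * r) * (m (a * r) * m (b * r)) : ℝ) : ℂ) *
        Complex.exp (((-(2 * Real.pi * ⟪r • (ω : E3), ζ⟫) : ℝ) : ℂ) * Complex.I) := by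
    intro ω
    apply setIntegral_congr_fun measurableSet_Ioi
    intro r hr
    have hω : ‖(ω : E3)‖ = 1 := by simp
    have hr0 : (0 : ℝ) < r := hr
    have hn : ‖r • (ω : E3)‖ = r := by rw [norm_smul, hω, mul_one, Real.norm_eq_abs, abs_of_pos hr0]
    simp only
    rw [← mul_assoc, ← Complex.ofReal_mul]
    congr 2
    unfold Kd
    rw [hn]
    field_simp
  simp_rw [e1]
  rw [integral_integral_swap]
  · have e2 : ∀ r ∈ Ioi (0 : ℝ), ∫ ω : sphere (0 : E3) 1, ((Real.exp (-κ * r) * (m (a * r) * m (b * r)) : ℝ) : ℂ) *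
        Complex.exp (((-(2 * Real.pi * ⟪r • (ω : E3), ζ⟫) : ℝ) : ℂ) * Complex.I) ∂sg =
        ((2 * ‖ζ‖⁻¹ * (Real.exp (-κ * r) * (m (a * r) * m (b * r) *
        (Real.sin (2 * Real.pi * ‖ζ‖ * r) / r))) : ℝ) : ℂ) := by
      intro r hr
      have hr0 : (0 : ℝ) < r := hr
      rw [integral_const_mul]
      change _ * chs r ζ = _
      rw [chs_eq r hr0 ζ hζ, ← Complex.ofReal_mul]
      congr 1
      unfold am
      rw [show 2 * Real.pi * r * ‖ζ‖ = 2 * Real.pi * ‖ζ‖ * r by ring]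
      field_simp
      ring
    rw [setIntegral_congr_fun measurableSet_Ioi e2, integral_complex_ofReal, integral_const_mul]
  · have h1 : Integrable (fun z : sphere (0 : E3) 1 × ℝ => (1 : ℂ) * ((Real.exp (-κ * z.2) : ℝ) : ℂ))
        (sg.prod (volume.restrict (Ioi (0 : ℝ)))) :=
      Integrable.mul_prod (f := fun _ : sphere (0 : E3) 1 => (1 : ℂ))
        (g := fun t : ℝ => ((Real.exp (-κ * t) : ℝ) : ℂ)) (integrable_const _) (expint κ hκ).ofReal
    have h2 := h1.bdd_mul (c := 1) (f := fun z : sphere (0 : E3) 1 × ℝ => (((m (a * z.2) * m (b * z.2)) : ℝ) : ℂ) *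
      Complex.exp (((-(2 * Real.pi * ⟪z.2 • (z.1 : E3), ζ⟫) : ℝ) : ℂ) * Complex.I))
      (by
        apply AEStronglyMeasurable.mul
        · exact (Complex.measurable_ofReal.comp (hmm.comp measurable_snd)).aestronglyMeasurable
        · apply Continuous.aestronglyMeasurable; fun_prop)
      (by
        filter_upwards with z
        rw [norm_mul, Complex.norm_exp_ofReal_mul_I, mul_one, Complex.norm_real]
        exact hmb _)
    refine h2.congr ?_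
    filter_upwards with z
    simp only [Function.uncurry]
    push_cast
    ring

/-- the damped integral over the light cone -/
lemma cone_damped (m : ℝ → ℝ) (L : ℝ) (hm : Adm2 m L) (φ : E3 → ℂ) (hφ : Integrable φ)
    (κ : ℝ) (hκ : 0 < κ) :
    Integrable (fun x => ‖vr m φ ‖x‖ x‖ ^ 2 * Kd κ x) ∧
    ((∫ x, ‖vr m φ ‖x‖ x‖ ^ 2 * Kd κ x : ℝ) : ℂ) =
      ∫ w : E3 × E3, ((2 * ∫ t in Ioi (0 : ℝ), Real.exp (-κ * t) * (m (2 * Real.pi * ‖w.1‖ * t) *
        m (2 * Real.pi * ‖w.2‖ * t) * (Real.sin (2 * Real.pi * ‖w.2 - w.1‖ * t) / t)) : ℝ) : ℂ) *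
        (φ w.1 * (starRingEnd ℂ) (φ w.2) * (((‖w.2 - w.1‖)⁻¹ : ℝ) : ℂ)) := by
  have hΨ : ∀ x : E3, ((‖vr m φ ‖x‖ x‖ ^ 2 * Kd κ x : ℝ) : ℂ) = ∫ w : E3 × E3,
      (((Kd κ x * (m (2 * Real.pi * ‖w.1‖ * ‖x‖) * m (2 * Real.pi * ‖w.2‖ * ‖x‖)) : ℝ) : ℂ) *
      Complex.exp (((-(2 * Real.pi * ⟪x, w.2 - w.1⟫) : ℝ) : ℂ) * Complex.I)) *
        (φ w.1 * (starRingEnd ℂ) (φ w.2)) := by
    intro x
    rw [Complex.ofReal_mul, mul_comm, vr, norm_sq_Vf, ← integral_const_mul]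
    congr 1; ext w
    rw [map_mul, Complex.conj_ofReal]
    push_cast
    ring
  have hP := phiphi φ hφ
  have hF : Integrable (fun z : E3 × (E3 × E3) =>
      (((Kd κ z.1 * (m (2 * Real.pi * ‖z.2.1‖ * ‖z.1‖) * m (2 * Real.pi * ‖z.2.2‖ * ‖z.1‖)) : ℝ) : ℂ) *
      Complex.exp (((-(2 * Real.pi * ⟪z.1, z.2.2 - z.2.1⟫) : ℝ) : ℂ) * Complex.I)) *
        (φ z.2.1 * (starRingEnd ℂ) (φ z.2.2))) (volume.prod volume) := by
    have h1 : Integrable (fun z : E3 × (E3 × E3) => ((Kd κ z.1 : ℝ) : ℂ) *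
        (φ z.2.1 * (starRingEnd ℂ) (φ z.2.2))) (volume.prod volume) :=
      Integrable.mul_prod (f := fun x : E3 => ((Kd κ x : ℝ) : ℂ))
        (g := fun w : E3 × E3 => φ w.1 * (starRingEnd ℂ) (φ w.2)) (Kd_int κ hκ).ofReal hP
    have h2 := h1.bdd_mul (c := 1) (f := fun z : E3 × (E3 × E3) =>
      (((m (2 * Real.pi * ‖z.2.1‖ * ‖z.1‖) * m (2 * Real.pi * ‖z.2.2‖ * ‖z.1‖)) : ℝ) : ℂ) *
      Complex.exp (((-(2 * Real.pi * ⟪z.1, z.2.2 - z.2.1⟫) : ℝ) : ℂ) * Complex.I))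
      (by
        apply AEStronglyMeasurable.mul
        · apply Measurable.aestronglyMeasurable
          apply Complex.measurable_ofReal.comp
          have c1 : Measurable (fun z : E3 × (E3 × E3) => m (2 * Real.pi * ‖z.2.1‖ * ‖z.1‖)) :=
            hm.meas.comp (by fun_prop)
          have c2 : Measurable (fun z : E3 × (E3 × E3) => m (2 * Real.pi * ‖z.2.2‖ * ‖z.1‖)) :=
            hm.meas.comp (by fun_prop)
          exact c1.mul c2
        · apply Continuous.aestronglyMeasurable; fun_prop)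
      (by
        filter_upwards with z
        rw [norm_mul, Complex.norm_exp_ofReal_mul_I, mul_one, Complex.norm_real, Real.norm_eq_abs, abs_mul]
        calc _ ≤ 1 * (1 : ℝ) := mul_le_mul (hm.bdd _) (hm.bdd _) (abs_nonneg _) (by norm_num)
          _ = 1 := by norm_num)
    refine h2.congr ?_
    filter_upwards with z
    push_cast
    ring
  constructor
  · have h1 := hF.integral_prod_left
    have h2 : Integrable (fun x => ((‖vr m φ ‖x‖ x‖ ^ 2 * Kd κ x : ℝ) : ℂ)) := by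
      refine h1.congr ?_
      filter_upwards with x
      exact (hΨ x).symm
    have := h2.re
    refine this.congr ?_
    filter_upwards with x
    exact Complex.ofReal_re _
  · rw [← integral_complex_ofReal]
    simp_rw [hΨ]
    rw [integral_integral_swap hF]
    apply integral_congr_ae
    filter_upwards [ae_diag] with w hw
    rw [integral_mul_const, inner_polar m L hm κ hκ (2 * Real.pi * ‖w.1‖) (2 * Real.pi * ‖w.2‖) (w.2 - w.1) hw]
    push_cast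
    ring

/-- the integral over the light cone -/
lemma cone_lim (m : ℝ → ℝ) (L : ℝ) (hm : Adm2 m L) (φ : E3 → ℂ) (hφm : Measurable φ)
    (h1 : ∫⁻ ξ, ‖φ ξ‖ₑ ≠ ⊤) (h2 : ∫⁻ ξ, ‖φ ξ‖ₑ ^ 2 ≠ ⊤) :
    ∫⁻ x, ‖vr m φ ‖x‖ x‖ₑ ^ 2 * (‖x‖ₑ ^ 2)⁻¹ = ENNReal.ofReal (2 * L *
      (∫ w : E3 × E3, φ w.1 * (starRingEnd ℂ) (φ w.2) * (((‖w.2 - w.1‖)⁻¹ : ℝ) : ℂ)).re) := by
  have hpi := Real.pi_pos
  have hφ : Integrable φ := ⟨hφm.aestronglyMeasurable, by
    rw [hasFiniteIntegral_iff_enorm]; exact h1.lt_top⟩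
  have hΘi := int_kernel φ hφm h1 h2
  set Θ : E3 × E3 → ℂ := fun w => φ w.1 * (starRingEnd ℂ) (φ w.2) * (((‖w.2 - w.1‖)⁻¹ : ℝ) : ℂ) with hΘ
  set κ : ℕ → ℝ := fun n => 1 / (n + 1 : ℝ) with hκ
  have hκ0 : ∀ n, 0 < κ n := fun n => by rw [hκ]; positivity
  set M : ℕ → E3 × E3 → ℝ := fun n w => 2 * ∫ t in Ioi (0 : ℝ), Real.exp (-(κ n) * t) *
    (m (2 * Real.pi * ‖w.1‖ * t) * m (2 * Real.pi * ‖w.2‖ * t) *
      (Real.sin (2 * Real.pi * ‖w.2 - w.1‖ * t) / t)) with hM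
  set J : ℕ → ℝ := fun n => ∫ x, ‖vr m φ ‖x‖ x‖ ^ 2 * Kd (κ n) x with hJ
  have hJeq : ∀ n, ((J n : ℝ) : ℂ) = ∫ w, ((M n w : ℝ) : ℂ) * Θ w := fun n =>
    (cone_damped m L hm φ hφ (κ n) (hκ0 n)).2
  have hMm : ∀ n, Measurable (M n) := by
    intro n
    have hmeas : Measurable (fun z : (E3 × E3) × ℝ => Real.exp (-(κ n) * z.2) *
      (m (2 * Real.pi * ‖z.1.1‖ * z.2) * m (2 * Real.pi * ‖z.1.2‖ * z.2) *
      (Real.sin (2 * Real.pi * ‖z.1.2 - z.1.1‖ * z.2) / z.2))) := by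
      have c1 : Measurable (fun z : (E3 × E3) × ℝ => m (2 * Real.pi * ‖z.1.1‖ * z.2)) :=
        hm.meas.comp (by fun_prop)
      have c2 : Measurable (fun z : (E3 × E3) × ℝ => m (2 * Real.pi * ‖z.1.2‖ * z.2)) :=
        hm.meas.comp (by fun_prop)
      have c3 : Measurable (fun z : (E3 × E3) × ℝ => Real.exp (-(κ n) * z.2)) := by fun_prop
      have c4 : Measurable (fun z : (E3 × E3) × ℝ =>
        Real.sin (2 * Real.pi * ‖z.1.2 - z.1.1‖ * z.2) / z.2) := by fun_prop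
      exact c3.mul ((c1.mul c2).mul c4)
    have := StronglyMeasurable.integral_prod_right' (ν := volume.restrict (Ioi (0 : ℝ)))
      hmeas.stronglyMeasurable
    exact this.measurable.const_mul 2
  have hlim : Tendsto (fun n => ((J n : ℝ) : ℂ)) atTop (𝓝 (∫ w, ((2 * L : ℝ) : ℂ) * Θ w)) := by
    simp_rw [hJeq]
    apply tendsto_integral_of_dominated_convergence (fun w => Real.pi * ‖Θ w‖)
    · intro n
      exact (Complex.measurable_ofReal.comp (hMm n)).aestronglyMeasurable.mul hΘi.aestronglyMeasurable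
    · exact hΘi.norm.const_mul _
    · intro n
      filter_upwards with w
      rw [norm_mul, Complex.norm_real]
      gcongr
      rw [hM]
      simp only
      rw [Real.norm_eq_abs, abs_mul, abs_of_pos (by norm_num : (0 : ℝ) < 2)]
      have := hm.tbdd (κ n) (2 * Real.pi * ‖w.1‖) (2 * Real.pi * ‖w.2‖) (2 * Real.pi * ‖w.2 - w.1‖) (hκ0 n)
      linarith
    · filter_upwards [ae_triangle] with w hw
      apply Tendsto.mul_const
      refine (Complex.continuous_ofReal.tendsto _).comp ?_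
      apply Tendsto.const_mul
      exact hm.tlim (2 * Real.pi * ‖w.1‖) (2 * Real.pi * ‖w.2‖) (2 * Real.pi * ‖w.2 - w.1‖)
        (by
          rw [← mul_sub, abs_mul, abs_of_pos (by positivity : (0 : ℝ) < 2 * Real.pi)]
          exact mul_lt_mul_of_pos_left hw.1 (by positivity))
        (by
          rw [← mul_add]
          exact mul_lt_mul_of_pos_left hw.2 (by positivity))
  have hlim2 : Tendsto (fun n => ENNReal.ofReal (J n)) atTop
      (𝓝 (ENNReal.ofReal (2 * L * (∫ w, Θ w).re))) := by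
    have e1 : ∫ w, ((2 * L : ℝ) : ℂ) * Θ w = ((2 * L : ℝ) : ℂ) * ∫ w, Θ w :=
      integral_const_mul _ _
    rw [e1] at hlim
    have h9 := (Complex.continuous_re.tendsto _).comp hlim
    rw [Complex.re_ofReal_mul] at h9
    exact (ENNReal.continuous_ofReal.tendsto _).comp h9
  -- monotone convergence
  have hvm : Measurable (fun x : E3 => vr m φ ‖x‖ x) :=
    (vr_meas m hm.meas φ hφm).comp (f := fun x : E3 => (‖x‖, x)) (by fun_prop)
  have hJl : ∀ n, ENNReal.ofReal (J n) = ∫⁻ x, ‖vr m φ ‖x‖ x‖ₑ ^ 2 * ENNReal.ofReal (Kd (κ n) x) := by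
    intro n
    rw [hJ]
    simp only
    rw [ofReal_integral_eq_lintegral_ofReal (cone_damped m L hm φ hφ (κ n) (hκ0 n)).1
      (ae_of_all _ (fun x => by unfold Kd; simp only [Pi.zero_apply]; positivity))]
    apply lintegral_congr
    intro x
    rw [ENNReal.ofReal_mul (by positivity), ENNReal.ofReal_pow (norm_nonneg _), ofReal_norm]
  have hmono : Tendsto (fun n => ∫⁻ x, ‖vr m φ ‖x‖ x‖ₑ ^ 2 * ENNReal.ofReal (Kd (κ n) x)) atTop
      (𝓝 (∫⁻ x, ‖vr m φ ‖x‖ x‖ₑ ^ 2 * ENNReal.ofReal ((‖x‖ ^ 2)⁻¹))) := by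
    apply lintegral_tendsto_of_tendsto_of_monotone
    · intro n
      apply Measurable.aemeasurable
      have c1 : Measurable (fun x : E3 => ‖vr m φ ‖x‖ x‖ₑ ^ 2) := hvm.enorm.pow_const 2
      have c2 : Measurable (fun x : E3 => ENNReal.ofReal (Kd (κ n) x)) := by
        unfold Kd; fun_prop
      exact c1.mul c2
    · filter_upwards with x
      intro n n' hn
      simp only
      gcongr
      unfold Kd
      gcongr
      rw [hκ]
      simp only
      gcongr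
    · filter_upwards with x
      apply ENNReal.Tendsto.const_mul _ (Or.inr (by simp))
      refine (ENNReal.continuous_ofReal.tendsto _).comp ?_
      have h11 : Tendsto κ atTop (𝓝 0) := tendsto_one_div_add_atTop_nhds_zero_nat
      have h12 : Tendsto (fun n => (‖x‖ ^ 2)⁻¹ * Real.exp (-(κ n) * ‖x‖)) atTop
          (𝓝 ((‖x‖ ^ 2)⁻¹ * Real.exp (-0 * ‖x‖))) := by
        apply Tendsto.const_mul
        exact (Real.continuous_exp.tendsto _).comp ((h11.neg).mul_const ‖x‖)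
      simpa [Kd] using h12
  simp_rw [hJl] at hlim2
  have hfin := tendsto_nhds_unique hmono hlim2
  rw [← hfin]
  apply lintegral_congr_ae
  have hne : ∀ᵐ x : E3, x ≠ 0 := by
    rw [ae_iff]; simp
  filter_upwards [hne] with x hx
  have hx0 : 0 < ‖x‖ := norm_pos_iff.mpr hx
  rw [ENNReal.ofReal_inv_of_pos (by positivity), ENNReal.ofReal_pow (norm_nonneg _), ofReal_norm]

/-- the identity on the light cone with vertex at the origin -/
lemma cone_zero (m : ℝ → ℝ) (hm : Adm2 m (Real.pi / 4)) (φ : E3 → ℂ) (hφm : Measurable φ)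
    (h1 : ∫⁻ ξ, ‖φ ξ‖ₑ ≠ ⊤) (h2 : ∫⁻ ξ, ‖φ ξ‖ₑ ^ 2 ≠ ⊤) :
    ∫⁻ x, ‖vr m φ ‖x‖ x‖ₑ ^ 2 * (‖x‖ₑ ^ 2)⁻¹ = 2⁻¹ * ∫⁻ x, ‖Vf φ x‖ₑ ^ 2 * (‖x‖ₑ ^ 2)⁻¹ := by
  have hpi := Real.pi_pos
  have e1 := cone_lim m _ hm φ hφm h1 h2
  have e2 := cone_lim (fun _ => 1) _ adm2_one φ hφm h1 h2
  have e3 : ∀ x : E3, vr (fun _ => 1) φ ‖x‖ x = Vf φ x := by
    intro x
    unfold vr
    congr 1
    ext ξ
    simp
  simp_rw [e3] at e2
  rw [e1, e2]
  set T := (∫ w : E3 × E3, φ w.1 * (starRingEnd ℂ) (φ w.2) * (((‖w.2 - w.1‖)⁻¹ : ℝ) : ℂ)).re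
  rw [show (2 : ENNReal)⁻¹ = ENNReal.ofReal (2⁻¹ : ℝ) by
    rw [ENNReal.ofReal_inv_of_pos (by norm_num)]; simp, ← ENNReal.ofReal_mul (by norm_num)]
  congr 1
  ring

/-- translation -/
lemma Vf_translate (ψ : E3 → ℂ) (x y : E3) : Vf (fun ξ => ch y ξ * ψ ξ) x = Vf ψ (x + y) := by
  unfold Vf
  congr 1; ext ξ
  rw [← mul_assoc]
  congr 1
  unfold ch
  rw [← Complex.exp_add, inner_add_right]
  congr 1
  push_cast
  ring

/-- the identity on the light cone with vertex `y` -/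
theorem cone_identity (m : ℝ → ℝ) (hm : Adm2 m (Real.pi / 4)) (φ : E3 → ℂ) (hφm : Measurable φ)
    (h1 : ∫⁻ ξ, ‖φ ξ‖ₑ ≠ ⊤) (h2 : ∫⁻ ξ, ‖φ ξ‖ₑ ^ 2 ≠ ⊤) (y : E3) :
    ∫⁻ x, ‖vr m φ ‖x - y‖ x‖ₑ ^ 2 * (‖x - y‖ₑ ^ 2)⁻¹ = 2⁻¹ * ∫⁻ x, ‖Vf φ x‖ₑ ^ 2 * (‖x - y‖ₑ ^ 2)⁻¹ := by
  have hch : Measurable (fun ξ : E3 => ch y ξ) :=
    (continuous_ch.comp (f := fun ξ : E3 => (y, ξ)) (by fun_prop)).measurable
  have hnorm : ∀ ξ, ‖ch y ξ * φ ξ‖ₑ = ‖φ ξ‖ₑ := by
    intro ξ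
    rw [enorm_mul, ← ofReal_norm, norm_ch]
    simp
  have h := cone_zero m hm (fun ξ => ch y ξ * φ ξ) (hch.mul hφm)
    (by simp_rw [hnorm]; exact h1) (by simp_rw [hnorm]; exact h2)
  have e1 : ∀ x : E3, vr m (fun ξ => ch y ξ * φ ξ) ‖x‖ x = vr m φ ‖(x + y) - y‖ (x + y) := by
    intro x
    unfold vr
    rw [add_sub_cancel_right, ← Vf_translate]
    congr 1
    ext ξ
    ring
  have e2 : ∀ x : E3, (‖x‖ₑ ^ 2)⁻¹ = (‖(x + y) - y‖ₑ ^ 2)⁻¹ := by
    intro x; rw [add_sub_cancel_right]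
  simp_rw [e1, Vf_translate] at h
  conv at h =>
    congr
    · congr
      · skip
      · ext x
        rw [e2 x]
    · congr
      · skip
      · congr
        · skip
        · ext x
          rw [e2 x]
  rw [lintegral_add_right_eq_self (fun x => ‖vr m φ ‖x - y‖ x‖ₑ ^ 2 * (‖x - y‖ₑ ^ 2)⁻¹) y,
    lintegral_add_right_eq_self (fun x => ‖Vf φ x‖ₑ ^ 2 * (‖x - y‖ₑ ^ 2)⁻¹) y] at h
  exact h

end Pool.Agent.H79.Wave
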