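import Mathlib
import Pool.Agent.H79.Wave.Cone

/-!
The weighted `L²` identity for solutions of the wave equation in `ℝ³`, for all weights of the form
spherical means of a nonnegative function.
-/

set_option autoImplicit false

namespace Pool.Agent.H79.Wave

open MeasureTheory Set Metric FourierTransform RealInnerProductSpace Filter Topology SchwartzMap

/-- weighted identity -/
theorem weight_all (m : ℝ → ℝ) (hm : Adm2 m (Real.pi / 4)) (φ : E3 → ℂ) (hφm : Measurable φ)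
    (h1 : ∫⁻ ξ, ‖φ ξ‖ₑ ≠ ⊤) (h2 : ∫⁻ ξ, ‖φ ξ‖ₑ ^ 2 ≠ ⊤) (G : E3 → ENNReal) (hG : Measurable G) :
    ∫⁻ t in Ioi (0 : ℝ), ∫⁻ x, ‖vr m φ t x‖ₑ ^ 2 * (∫⁻ ω : sphere (0 : E3) 1, G (x - t • (ω : E3)) ∂sg) =
      2⁻¹ * ∫⁻ x, ∫⁻ y, ‖Vf φ x‖ₑ ^ 2 * G y * (‖x - y‖ₑ ^ 2)⁻¹ := by
  have hvm := vr_meas m hm.meas φ hφm
  have hφ : Integrable φ := ⟨hφm.aestronglyMeasurable, by
    rw [hasFiniteIntegral_iff_enorm]; exact h1.lt_top⟩
  have hVm : Measurable (Vf φ) := by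
    have h := (vr_meas (fun _ => 1) measurable_const φ hφm).comp (f := fun x : E3 => ((0 : ℝ), x)) (by fun_prop)
    have e : (fun z : ℝ × E3 => vr (fun _ => 1) φ z.1 z.2) ∘ (fun x : E3 => ((0 : ℝ), x)) = Vf φ := by
      ext x
      simp only [Function.comp_apply, vr]
      congr 1
      ext ξ
      simp
    rw [e] at h
    exact h
  have s1 : ∫⁻ x, ∫⁻ y, ‖Vf φ x‖ₑ ^ 2 * G y * (‖x - y‖ₑ ^ 2)⁻¹ =
      ∫⁻ y, G y * ∫⁻ x, ‖Vf φ x‖ₑ ^ 2 * (‖x - y‖ₑ ^ 2)⁻¹ := by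
    rw [lintegral_lintegral_swap]
    · apply lintegral_congr
      intro y
      rw [← lintegral_const_mul _ (by fun_prop)]
      apply lintegral_congr
      intro x
      ring
    · apply Measurable.aemeasurable
      simp only [Function.uncurry_def]
      fun_prop
  have s2 : 2⁻¹ * ∫⁻ y, G y * ∫⁻ x, ‖Vf φ x‖ₑ ^ 2 * (‖x - y‖ₑ ^ 2)⁻¹ =
      ∫⁻ y, G y * ∫⁻ x, ‖vr m φ ‖x - y‖ x‖ₑ ^ 2 * (‖x - y‖ₑ ^ 2)⁻¹ := by
    rw [← lintegral_const_mul' _ _ (by simp)]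
    apply lintegral_congr
    intro y
    rw [cone_identity m hm φ hφm h1 h2 y]
    ring
  have hjoint : Measurable (fun z : E3 × E3 => ‖vr m φ ‖z.1 - z.2‖ z.1‖ₑ ^ 2 * (‖z.1 - z.2‖ₑ ^ 2)⁻¹) := by
    have c1 : Measurable (fun z : E3 × E3 => vr m φ ‖z.1 - z.2‖ z.1) :=
      hvm.comp (f := fun z : E3 × E3 => (‖z.1 - z.2‖, z.1)) (by fun_prop)
    fun_prop
  have s3 : ∫⁻ y, G y * ∫⁻ x, ‖vr m φ ‖x - y‖ x‖ₑ ^ 2 * (‖x - y‖ₑ ^ 2)⁻¹ =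
      ∫⁻ x, ∫⁻ y, G y * (‖vr m φ ‖x - y‖ x‖ₑ ^ 2 * (‖x - y‖ₑ ^ 2)⁻¹) := by
    rw [lintegral_lintegral_swap]
    · apply lintegral_congr
      intro y
      have hmy : Measurable (fun x : E3 => ‖vr m φ ‖x - y‖ x‖ₑ ^ 2 * (‖x - y‖ₑ ^ 2)⁻¹) :=
        hjoint.comp (f := fun x : E3 => (x, y)) (by fun_prop)
      rw [lintegral_const_mul _ hmy]
    · apply Measurable.aemeasurable
      simp only [Function.uncurry_def]
      exact (hG.comp measurable_snd).mul hjoint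
  have hjoint2 : Measurable (fun z : E3 × E3 => G (z.1 - z.2) * (‖vr m φ ‖z.2‖ z.1‖ₑ ^ 2 * (‖z.2‖ₑ ^ 2)⁻¹)) := by
    have c1 : Measurable (fun z : E3 × E3 => vr m φ ‖z.2‖ z.1) :=
      hvm.comp (f := fun z : E3 × E3 => (‖z.2‖, z.1)) (by fun_prop)
    have c2 : Measurable (fun z : E3 × E3 => G (z.1 - z.2)) := hG.comp (by fun_prop)
    fun_prop
  have hjoint3 : Measurable (fun z : (E3 × ℝ) × sphere (0 : E3) 1 =>
      ‖vr m φ z.1.2 z.1.1‖ₑ ^ 2 * G (z.1.1 - z.1.2 • (z.2 : E3))) := by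
    have c1 : Measurable (fun z : (E3 × ℝ) × sphere (0 : E3) 1 => vr m φ z.1.2 z.1.1) :=
      hvm.comp (f := fun z : (E3 × ℝ) × sphere (0 : E3) 1 => (z.1.2, z.1.1)) (by fun_prop)
    have c2 : Measurable (fun z : (E3 × ℝ) × sphere (0 : E3) 1 => G (z.1.1 - z.1.2 • (z.2 : E3))) :=
      hG.comp (by fun_prop)
    exact (c1.enorm.pow_const 2).mul c2
  have s4 : ∀ x : E3, ∫⁻ y, G y * (‖vr m φ ‖x - y‖ x‖ₑ ^ 2 * (‖x - y‖ₑ ^ 2)⁻¹) =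
      ∫⁻ t in Ioi (0 : ℝ), ‖vr m φ t x‖ₑ ^ 2 * (∫⁻ ω : sphere (0 : E3) 1, G (x - t • (ω : E3)) ∂sg) := by
    intro x
    have e1 : ∫⁻ y, G y * (‖vr m φ ‖x - y‖ x‖ₑ ^ 2 * (‖x - y‖ₑ ^ 2)⁻¹) =
        ∫⁻ z, G (x - z) * (‖vr m φ ‖z‖ x‖ₑ ^ 2 * (‖z‖ₑ ^ 2)⁻¹) := by
      rw [← lintegral_sub_left_eq_self (fun y => G y * (‖vr m φ ‖x - y‖ x‖ₑ ^ 2 * (‖x - y‖ₑ ^ 2)⁻¹)) x]
      simp_rw [sub_sub_cancel]
    have hmx : Measurable (fun z : E3 => G (x - z) * (‖vr m φ ‖z‖ x‖ₑ ^ 2 * (‖z‖ₑ ^ 2)⁻¹)) :=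
      hjoint2.comp (f := fun z : E3 => (x, z)) (by fun_prop)
    rw [e1, polar_lint _ hmx]
    have e2 : ∀ ω : sphere (0 : E3) 1, ∫⁻ r in Ioi (0 : ℝ), ENNReal.ofReal (r ^ 2) *
        (G (x - r • (ω : E3)) * (‖vr m φ ‖r • (ω : E3)‖ x‖ₑ ^ 2 * (‖r • (ω : E3)‖ₑ ^ 2)⁻¹)) =
        ∫⁻ r in Ioi (0 : ℝ), ‖vr m φ r x‖ₑ ^ 2 * G (x - r • (ω : E3)) := by
      intro ω
      apply setLIntegral_congr_fun measurableSet_Ioi
      intro r hr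
      have hω : ‖(ω : E3)‖ = 1 := by simp
      have hr0 : (0 : ℝ) < r := hr
      have hn : ‖r • (ω : E3)‖ = r := by rw [norm_smul, hω, mul_one, Real.norm_eq_abs, abs_of_pos hr0]
      have hne : ‖r • (ω : E3)‖ₑ = ENNReal.ofReal r := by rw [← ofReal_norm, hn]
      simp only
      rw [hn, hne, ← ENNReal.ofReal_pow hr0.le]
      have hc : ENNReal.ofReal (r ^ 2) * (ENNReal.ofReal (r ^ 2))⁻¹ = 1 :=
        ENNReal.mul_inv_cancel (by simp [hr0.ne']) (by simp)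
      calc ENNReal.ofReal (r ^ 2) * (G (x - r • (ω : E3)) * (‖vr m φ r x‖ₑ ^ 2 * (ENNReal.ofReal (r ^ 2))⁻¹))
          = (ENNReal.ofReal (r ^ 2) * (ENNReal.ofReal (r ^ 2))⁻¹) * (‖vr m φ r x‖ₑ ^ 2 * G (x - r • (ω : E3))) := by
            ring
        _ = _ := by rw [hc, one_mul]
    simp_rw [e2]
    rw [lintegral_lintegral_swap]
    · apply lintegral_congr
      intro t
      rw [lintegral_const_mul]
      exact hG.comp (by fun_prop)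
    · apply Measurable.aemeasurable
      simp only [Function.uncurry_def]
      exact hjoint3.comp (f := fun z : sphere (0 : E3) 1 × ℝ => ((x, z.2), z.1)) (by fun_prop)
  rw [s1, s2, s3]
  simp_rw [s4]
  rw [lintegral_lintegral_swap]
  apply Measurable.aemeasurable
  simp only [Function.uncurry_def]
  have h4 : Measurable (fun z : E3 × ℝ => ∫⁻ ω : sphere (0 : E3) 1,
      ‖vr m φ z.2 z.1‖ₑ ^ 2 * G (z.1 - z.2 • (ω : E3)) ∂sg) := hjoint3.lintegral_prod_right'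
  have h5 : ∀ z : E3 × ℝ, ∫⁻ ω : sphere (0 : E3) 1,
      ‖vr m φ z.2 z.1‖ₑ ^ 2 * G (z.1 - z.2 • (ω : E3)) ∂sg =
      ‖vr m φ z.2 z.1‖ₑ ^ 2 * ∫⁻ ω : sphere (0 : E3) 1, G (z.1 - z.2 • (ω : E3)) ∂sg := by
    intro z
    rw [lintegral_const_mul]
    exact hG.comp (by fun_prop)
  simp_rw [h5] at h4
  exact h4.comp (f := fun z : ℝ × E3 => (z.2, z.1)) (by fun_prop)

end Pool.Agent.H79.Wave
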