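import Mathlib
import Pool.Agent.H79.Wave.Weight
import Pool.Agent.H79.Wave.Major

/-!
The `L^p` inequality, `p ≥ 3`, for all solutions of the wave equation in `ℝ³`.
-/

set_option autoImplicit false

namespace Pool.Agent.H79.Wave

open MeasureTheory Set Metric FourierTransform RealInnerProductSpace Filter Topology SchwartzMap

lemma sg_univ : (sg : Measure (sphere (0 : E3) 1)) univ = ENNReal.ofReal (4 * Real.pi) := by
  have hpi := Real.pi_pos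
  rw [Measure.toSphere_apply_univ]
  have h : volume (ball (0 : E3) 1) = ENNReal.ofReal (Real.pi * 4 / 3) := by
    rw [EuclideanSpace.volume_ball_fin_three]
    simp
  rw [h]
  simp only [finrank_euclideanSpace, Fintype.card_fin]
  rw [show ((3 : ℕ) : ENNReal) = ENNReal.ofReal (3 : ℝ) by simp, ← ENNReal.ofReal_mul (by norm_num)]
  congr 1
  ring

/-- Jensen on the sphere -/
lemma jensen_sphere (h : sphere (0 : E3) 1 → ENNReal) (hh : Measurable h) (q : ℝ) (hq : 1 ≤ q) :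
    (ENNReal.ofReal (4 * Real.pi)⁻¹ * ∫⁻ ω, h ω ∂sg) ^ q ≤ ENNReal.ofReal (4 * Real.pi)⁻¹ * ∫⁻ ω, h ω ^ q ∂sg := by
  have hpi := Real.pi_pos
  set c := ENNReal.ofReal (4 * Real.pi)⁻¹ with hc
  have hc0 : c ≠ 0 := by rw [hc]; simpa using hpi
  have hct : c ≠ ⊤ := ENNReal.ofReal_ne_top
  set μ : Measure (sphere (0 : E3) 1) := c • sg with hμ
  have hμu : μ univ = 1 := by
    rw [hμ, Measure.smul_apply, sg_univ, smul_eq_mul, hc, ← ENNReal.ofReal_mul (by positivity),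
      inv_mul_cancel₀ (by positivity)]
    simp
  have e1 : c * ∫⁻ ω, h ω ∂sg = ∫⁻ ω, h ω ∂μ := by rw [hμ, lintegral_smul_measure, smul_eq_mul]
  have e2 : c * ∫⁻ ω, h ω ^ q ∂sg = ∫⁻ ω, h ω ^ q ∂μ := by rw [hμ, lintegral_smul_measure, smul_eq_mul]
  rw [e1, e2]
  rcases eq_or_lt_of_le hq with h1 | h1
  · rw [← h1]; simp
  · have hconj := Real.HolderConjugate.conjExponent h1
    have hh2 := ENNReal.lintegral_mul_le_Lp_mul_Lq μ hconj hh.aemeasurable (g := fun _ => 1)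
      aemeasurable_const
    simp only [Pi.mul_apply, mul_one, ENNReal.one_rpow, lintegral_one, hμu] at hh2
    calc (∫⁻ ω, h ω ∂μ) ^ q ≤ ((∫⁻ ω, h ω ^ q ∂μ) ^ (1 / q)) ^ q := by
          gcongr
      _ = ∫⁻ ω, h ω ^ q ∂μ := by
          rw [← ENNReal.rpow_mul, one_div, inv_mul_cancel₀ (by linarith), ENNReal.rpow_one]

lemma Av_lint (g : E3 → ℝ) (hgc : Continuous g) (hg0 : ∀ x, 0 ≤ g x) (t : ℝ) (x : E3) :
    ENNReal.ofReal (Av g t x) = ENNReal.ofReal (4 * Real.pi)⁻¹ *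
      ∫⁻ ω : sphere (0 : E3) 1, ENNReal.ofReal (g (x - t • (ω : E3))) ∂sg := by
  have hpi := Real.pi_pos
  have cg : Continuous (fun ω : sphere (0 : E3) 1 => g (x - t • (ω : E3))) := hgc.comp (by fun_prop)
  unfold Av
  rw [ENNReal.ofReal_mul (by positivity), ofReal_integral_eq_lintegral_ofReal
    (int_sphere_cont _ cg) (ae_of_all _ (fun ω => hg0 _))]

lemma cosSol_vr (f : E3 → ℂ) (t : ℝ) (x : E3) : cosSol f t x = vr Real.cos (𝓕 f) t x := by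
  rw [cosSol, fourierInv_ch, vr, Vf]
  congr 1; ext ξ
  rw [show 2 * Real.pi * t * ‖ξ‖ = 2 * Real.pi * ‖ξ‖ * t by ring]

lemma waveSol_vr (f : E3 → ℂ) (t : ℝ) (x : E3) : waveSol f t x = vr Real.sin (rH f) t x := by
  rw [waveSol, fourierInv_ch, vr, Vf]
  congr 1; ext ξ
  unfold rH
  rw [show 2 * Real.pi * t * ‖ξ‖ = 2 * Real.pi * ‖ξ‖ * t by ring, div_eq_mul_inv]
  push_cast
  ring

lemma Vf_fourier (f : 𝓢(E3, ℂ)) (x : E3) : Vf (𝓕 (f : E3 → ℂ)) x = f x := by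
  have h := f.continuous.fourierInv_fourier_eq f.integrable (schC_fint f)
  have h2 : 𝓕⁻ (𝓕 (f : E3 → ℂ)) x = f x := by rw [h]
  rw [← h2, fourierInv_ch]
  rfl

/-- the two weighted identities for the cosine and the sine part -/
lemma weight_cos (f : 𝓢(E3, ℂ)) (G : E3 → ENNReal) (hG : Measurable G) :
    ∫⁻ t in Ioi (0 : ℝ), ∫⁻ x, ‖cosSol f t x‖ₑ ^ 2 * (∫⁻ ω : sphere (0 : E3) 1, G (x - t • (ω : E3)) ∂sg) =
      2⁻¹ * ∫⁻ x, ∫⁻ y, ‖f x‖ₑ ^ 2 * G y * (‖x - y‖ₑ ^ 2)⁻¹ := by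
  obtain ⟨hm, ⟨C, hC⟩, h1, h2⟩ := sch_props (𝓕 f)
  rw [SchwartzMap.fourier_coe] at hm h1 h2
  have h := weight_all Real.cos adm2_cos (𝓕 (f : E3 → ℂ)) hm h1 h2 G hG
  simp_rw [Vf_fourier, ← cosSol_vr] at h
  exact h

lemma weight_sin (f : 𝓢(E3, ℂ)) (G : E3 → ENNReal) (hG : Measurable G) :
    ∫⁻ t in Ioi (0 : ℝ), ∫⁻ x, ‖waveSol f t x‖ₑ ^ 2 * (∫⁻ ω : sphere (0 : E3) 1, G (x - t • (ω : E3)) ∂sg) =
      2⁻¹ * ∫⁻ x, ∫⁻ y, ‖riesz f x‖ₑ ^ 2 * G y * (‖x - y‖ₑ ^ 2)⁻¹ := by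
  obtain ⟨hm, ⟨C, hC⟩, h1, h2⟩ := sch_props (𝓕 f)
  obtain ⟨ha, hb, hc⟩ := rH_props _ hm C hC h1 h2
  have e : rH (f : E3 → ℂ) = fun ζ => (((2 * Real.pi * ‖ζ‖)⁻¹ : ℝ) : ℂ) * (𝓕 f : 𝓢(E3, ℂ)) ζ := by
    ext ζ
    rw [rH, SchwartzMap.fourier_coe]
  have hmr : Measurable (rH (f : E3 → ℂ)) := by rw [e]; fun_prop
  have h := weight_all Real.sin adm2_sin (rH (f : E3 → ℂ)) hmr (by rw [e]; exact ha) (by rw [e]; exact hb) G hG
  simp_rw [← riesz_eq, ← waveSol_vr] at h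
  exact h

/-- the joint measurability of the solution -/
lemma cos_meas (f : 𝓢(E3, ℂ)) : Measurable (fun z : ℝ × E3 => cosSol f z.1 z.2) := by
  simp_rw [cosSol_vr]
  apply vr_meas _ Real.measurable_cos
  rw [← SchwartzMap.fourier_coe]
  exact (𝓕 f).continuous.measurable

lemma sin_meas (f : 𝓢(E3, ℂ)) : Measurable (fun z : ℝ × E3 => waveSol f z.1 z.2) := by
  simp_rw [waveSol_vr]
  apply vr_meas _ Real.measurable_sin
  have e : rH (f : E3 → ℂ) = fun ζ => (((2 * Real.pi * ‖ζ‖)⁻¹ : ℝ) : ℂ) * (𝓕 f : 𝓢(E3, ℂ)) ζ := by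
    ext ζ
    rw [rH, SchwartzMap.fourier_coe]
  rw [e]; fun_prop

/-- the main inequality -/
theorem thmA (p : ℝ) (hp : 3 ≤ p) (u₀ u₁ : 𝓢(E3, ℂ)) :
    ∫⁻ t in Icc (1 : ℝ) 2, ∫⁻ x, ‖cosSol u₀ t x + waveSol u₁ t x‖ₑ ^ p ≤
      ENNReal.ofReal (2 ^ (p - 2) / (4 * Real.pi)) *
        ∫⁻ x, ∫⁻ y, (‖u₀ x‖ₑ ^ 2 + ‖riesz u₁ x‖ₑ ^ 2) * (‖u₀ y‖ₑ + ‖fderiv ℝ u₀ y‖ₑ + ‖u₁ y‖ₑ) ^ (p - 2) *
          (‖x - y‖ₑ ^ 2)⁻¹ := by
  have hpi := Real.pi_pos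
  have hfc : Continuous (fderiv ℝ (u₀ : E3 → ℂ)) := (u₀.smooth 1).continuous_fderiv (by norm_num)
  set g : E3 → ℝ := fun x => ‖u₀ x‖ + ‖fderiv ℝ u₀ x‖ + ‖u₁ x‖ with hg
  have hgc : Continuous g := (u₀.continuous.norm.add hfc.norm).add u₁.continuous.norm
  have hg0 : ∀ x, 0 ≤ g x := fun x => by rw [hg]; positivity
  set G : E3 → ENNReal := fun y => (‖u₀ y‖ₑ + ‖fderiv ℝ u₀ y‖ₑ + ‖u₁ y‖ₑ) ^ (p - 2) with hG
  have hGg : ∀ y, G y = ENNReal.ofReal (g y) ^ (p - 2) := by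
    intro y
    rw [hG, hg]
    simp only
    rw [ENNReal.ofReal_add (by positivity) (by positivity), ENNReal.ofReal_add (by positivity) (by positivity),
      ofReal_norm, ofReal_norm, ofReal_norm]
  have hGm : Measurable G := by
    have : G = fun y => ENNReal.ofReal (g y) ^ (p - 2) := funext hGg
    rw [this]
    exact (hgc.measurable.ennreal_ofReal).pow_const _
  have hp2 : (1 : ℝ) ≤ p - 2 := by linarith
  -- pointwise bound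
  have hpt : ∀ t ∈ Icc (1 : ℝ) 2, ∀ x : E3, ‖cosSol u₀ t x + waveSol u₁ t x‖ₑ ^ p ≤
      ENNReal.ofReal (2 ^ (p - 2) / (2 * Real.pi)) *
        (‖cosSol u₀ t x‖ₑ ^ 2 * (∫⁻ ω : sphere (0 : E3) 1, G (x - t • (ω : E3)) ∂sg) +
          ‖waveSol u₁ t x‖ₑ ^ 2 * (∫⁻ ω : sphere (0 : E3) 1, G (x - t • (ω : E3)) ∂sg)) := by
    intro t ht x
    have ht0 : 0 < t := by linarith [ht.1]
    set U := cosSol u₀ t x + waveSol u₁ t x with hU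
    have h1 : ‖U‖ ≤ t * Av g t x := sol_major u₀ u₁ g hgc (fun x => le_rfl) t ht.1 x
    have h2 : ‖U‖ₑ ≤ 2 * (ENNReal.ofReal (4 * Real.pi)⁻¹ *
        ∫⁻ ω : sphere (0 : E3) 1, ENNReal.ofReal (g (x - t • (ω : E3))) ∂sg) := by
      rw [← Av_lint g hgc hg0, ← ofReal_norm]
      calc ENNReal.ofReal ‖U‖ ≤ ENNReal.ofReal (2 * Av g t x) := by
            apply ENNReal.ofReal_le_ofReal
            have := Av_nonneg g hg0 t x
            nlinarith [ht.2]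
        _ = _ := by rw [ENNReal.ofReal_mul (by norm_num), ENNReal.ofReal_ofNat]
    have h3 : ‖U‖ₑ ^ (p - 2) ≤ ENNReal.ofReal (2 ^ (p - 2) / (4 * Real.pi)) *
        ∫⁻ ω : sphere (0 : E3) 1, G (x - t • (ω : E3)) ∂sg := by
      calc ‖U‖ₑ ^ (p - 2) ≤ (2 * (ENNReal.ofReal (4 * Real.pi)⁻¹ *
        ∫⁻ ω : sphere (0 : E3) 1, ENNReal.ofReal (g (x - t • (ω : E3))) ∂sg)) ^ (p - 2) := by
            apply ENNReal.rpow_le_rpow h2 (by linarith)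
        _ = 2 ^ (p - 2) * (ENNReal.ofReal (4 * Real.pi)⁻¹ *
        ∫⁻ ω : sphere (0 : E3) 1, ENNReal.ofReal (g (x - t • (ω : E3))) ∂sg) ^ (p - 2) :=
            ENNReal.mul_rpow_of_nonneg _ _ (by linarith)
        _ ≤ 2 ^ (p - 2) * (ENNReal.ofReal (4 * Real.pi)⁻¹ *
        ∫⁻ ω : sphere (0 : E3) 1, ENNReal.ofReal (g (x - t • (ω : E3))) ^ (p - 2) ∂sg) := by
            gcongr
            apply jensen_sphere _ _ _ hp2
            exact (hgc.measurable.comp (by fun_prop)).ennreal_ofReal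
        _ = _ := by
            rw [← mul_assoc]
            congr 1
            · rw [div_eq_mul_inv, ENNReal.ofReal_mul (by positivity),
                ← ENNReal.ofReal_rpow_of_pos (by norm_num : (0 : ℝ) < 2)]
              simp
            · simp_rw [hGg]
    have h4 : ‖U‖ₑ ^ 2 ≤ 2 * (‖cosSol u₀ t x‖ₑ ^ 2 + ‖waveSol u₁ t x‖ₑ ^ 2) := by
      have h5 : ‖U‖ₑ ≤ ‖cosSol u₀ t x‖ₑ + ‖waveSol u₁ t x‖ₑ := enorm_add_le _ _
      calc ‖U‖ₑ ^ 2 ≤ (‖cosSol u₀ t x‖ₑ + ‖waveSol u₁ t x‖ₑ) ^ 2 := by gcongr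
        _ ≤ 2 * (‖cosSol u₀ t x‖ₑ ^ 2 + ‖waveSol u₁ t x‖ₑ ^ 2) := by
            have h8 := ENNReal.rpow_add_le_mul_rpow_add_rpow (‖cosSol u₀ t x‖ₑ) (‖waveSol u₁ t x‖ₑ)
              (by norm_num : (1 : ℝ) ≤ 2)
            have h9 : (2 : ENNReal) ^ ((2 : ℝ) - 1) = 2 := by
              rw [show ((2 : ℝ) - 1) = 1 by norm_num, ENNReal.rpow_one]
            rw [h9] at h8
            have h10 : ∀ a : ENNReal, a ^ (2 : ℝ) = a ^ 2 := fun a => by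
              rw [← ENNReal.rpow_natCast]; norm_num
            rw [h10, h10, h10] at h8
            exact h8
    have h6 : ‖U‖ₑ ^ p = ‖U‖ₑ ^ 2 * ‖U‖ₑ ^ (p - 2) := by
      have h7 : ‖U‖ₑ ^ 2 = ‖U‖ₑ ^ (2 : ℝ) := by rw [← ENNReal.rpow_natCast]; norm_num
      rw [h7, ← ENNReal.rpow_add_of_nonneg _ _ (by norm_num) (by linarith)]
      congr 1
      ring
    rw [h6]
    calc ‖U‖ₑ ^ 2 * ‖U‖ₑ ^ (p - 2) ≤ (2 * (‖cosSol u₀ t x‖ₑ ^ 2 + ‖waveSol u₁ t x‖ₑ ^ 2)) *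
        (ENNReal.ofReal (2 ^ (p - 2) / (4 * Real.pi)) *
        ∫⁻ ω : sphere (0 : E3) 1, G (x - t • (ω : E3)) ∂sg) := by gcongr
      _ = (2 * ENNReal.ofReal (2 ^ (p - 2) / (4 * Real.pi))) *
        (‖cosSol u₀ t x‖ₑ ^ 2 * (∫⁻ ω : sphere (0 : E3) 1, G (x - t • (ω : E3)) ∂sg) +
          ‖waveSol u₁ t x‖ₑ ^ 2 * (∫⁻ ω : sphere (0 : E3) 1, G (x - t • (ω : E3)) ∂sg)) := by ring
      _ = _ := by
        congr 1
        rw [show (2 : ENNReal) = ENNReal.ofReal 2 by simp, ← ENNReal.ofReal_mul (by norm_num)]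
        congr 1
        field_simp
        ring
  -- integrate
  have hAm : Measurable (fun z : ℝ × E3 => ∫⁻ ω : sphere (0 : E3) 1, G (z.2 - z.1 • (ω : E3)) ∂sg) := by
    have h : Measurable (fun w : (ℝ × E3) × sphere (0 : E3) 1 => G (w.1.2 - w.1.1 • (w.2 : E3))) :=
      hGm.comp (by fun_prop)
    exact h.lintegral_prod_right'
  have hCm : Measurable (fun z : ℝ × E3 => ‖cosSol u₀ z.1 z.2‖ₑ ^ 2 *
      ∫⁻ ω : sphere (0 : E3) 1, G (z.2 - z.1 • (ω : E3)) ∂sg) := ((cos_meas u₀).enorm.pow_const 2).mul hAm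
  have hSm : Measurable (fun z : ℝ × E3 => ‖waveSol u₁ z.1 z.2‖ₑ ^ 2 *
      ∫⁻ ω : sphere (0 : E3) 1, G (z.2 - z.1 • (ω : E3)) ∂sg) := ((sin_meas u₁).enorm.pow_const 2).mul hAm
  have hinner : ∀ t : ℝ, ∫⁻ x, (‖cosSol u₀ t x‖ₑ ^ 2 * (∫⁻ ω : sphere (0 : E3) 1, G (x - t • (ω : E3)) ∂sg) +
          ‖waveSol u₁ t x‖ₑ ^ 2 * (∫⁻ ω : sphere (0 : E3) 1, G (x - t • (ω : E3)) ∂sg)) =
      (∫⁻ x, ‖cosSol u₀ t x‖ₑ ^ 2 * (∫⁻ ω : sphere (0 : E3) 1, G (x - t • (ω : E3)) ∂sg)) +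
        ∫⁻ x, ‖waveSol u₁ t x‖ₑ ^ 2 * (∫⁻ ω : sphere (0 : E3) 1, G (x - t • (ω : E3)) ∂sg) := by
    intro t
    exact lintegral_add_left (hCm.comp (f := fun x : E3 => (t, x)) (by fun_prop)) _
  calc ∫⁻ t in Icc (1 : ℝ) 2, ∫⁻ x, ‖cosSol u₀ t x + waveSol u₁ t x‖ₑ ^ p
      ≤ ∫⁻ t in Icc (1 : ℝ) 2, ENNReal.ofReal (2 ^ (p - 2) / (2 * Real.pi)) *
        ((∫⁻ x, ‖cosSol u₀ t x‖ₑ ^ 2 * (∫⁻ ω : sphere (0 : E3) 1, G (x - t • (ω : E3)) ∂sg)) +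
        ∫⁻ x, ‖waveSol u₁ t x‖ₑ ^ 2 * (∫⁻ ω : sphere (0 : E3) 1, G (x - t • (ω : E3)) ∂sg)) := by
        apply setLIntegral_mono' measurableSet_Icc
        intro t ht
        rw [← hinner, ← lintegral_const_mul' _ _ ENNReal.ofReal_ne_top]
        apply lintegral_mono
        intro x
        exact hpt t ht x
    _ = ENNReal.ofReal (2 ^ (p - 2) / (2 * Real.pi)) * ∫⁻ t in Icc (1 : ℝ) 2,
        ((∫⁻ x, ‖cosSol u₀ t x‖ₑ ^ 2 * (∫⁻ ω : sphere (0 : E3) 1, G (x - t • (ω : E3)) ∂sg)) +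
        ∫⁻ x, ‖waveSol u₁ t x‖ₑ ^ 2 * (∫⁻ ω : sphere (0 : E3) 1, G (x - t • (ω : E3)) ∂sg)) :=
        lintegral_const_mul' _ _ ENNReal.ofReal_ne_top
    _ ≤ ENNReal.ofReal (2 ^ (p - 2) / (2 * Real.pi)) * ∫⁻ t in Ioi (0 : ℝ),
        ((∫⁻ x, ‖cosSol u₀ t x‖ₑ ^ 2 * (∫⁻ ω : sphere (0 : E3) 1, G (x - t • (ω : E3)) ∂sg)) +
        ∫⁻ x, ‖waveSol u₁ t x‖ₑ ^ 2 * (∫⁻ ω : sphere (0 : E3) 1, G (x - t • (ω : E3)) ∂sg)) := by
        gcongr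
        intro t ht
        exact lt_of_lt_of_le one_pos ht.1
    _ = ENNReal.ofReal (2 ^ (p - 2) / (2 * Real.pi)) *
        ((∫⁻ t in Ioi (0 : ℝ), ∫⁻ x, ‖cosSol u₀ t x‖ₑ ^ 2 * (∫⁻ ω : sphere (0 : E3) 1, G (x - t • (ω : E3)) ∂sg)) +
        ∫⁻ t in Ioi (0 : ℝ), ∫⁻ x, ‖waveSol u₁ t x‖ₑ ^ 2 *
          (∫⁻ ω : sphere (0 : E3) 1, G (x - t • (ω : E3)) ∂sg)) := by
        congr 1
        exact lintegral_add_left hCm.lintegral_prod_right' _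
    _ = ENNReal.ofReal (2 ^ (p - 2) / (2 * Real.pi)) *
        (2⁻¹ * (∫⁻ x, ∫⁻ y, ‖u₀ x‖ₑ ^ 2 * G y * (‖x - y‖ₑ ^ 2)⁻¹) +
          2⁻¹ * ∫⁻ x, ∫⁻ y, ‖riesz u₁ x‖ₑ ^ 2 * G y * (‖x - y‖ₑ ^ 2)⁻¹) := by
        rw [weight_cos u₀ G hGm, weight_sin u₁ G hGm]
    _ = ENNReal.ofReal (2 ^ (p - 2) / (4 * Real.pi)) *
        ((∫⁻ x, ∫⁻ y, ‖u₀ x‖ₑ ^ 2 * G y * (‖x - y‖ₑ ^ 2)⁻¹) +
          ∫⁻ x, ∫⁻ y, ‖riesz u₁ x‖ₑ ^ 2 * G y * (‖x - y‖ₑ ^ 2)⁻¹) := by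
        rw [← mul_add, ← mul_assoc]
        congr 1
        rw [show (2 : ENNReal)⁻¹ = ENNReal.ofReal (2⁻¹ : ℝ) by
          rw [ENNReal.ofReal_inv_of_pos (by norm_num)]; simp, ← ENNReal.ofReal_mul (by positivity)]
        congr 1
        field_simp
        ring
    _ = _ := by
        congr 1
        have k2 : Measurable (fun z : E3 × E3 => ‖u₀ z.1‖ₑ ^ 2 * G z.2 * (‖z.1 - z.2‖ₑ ^ 2)⁻¹) := by
          have := u₀.continuous.measurable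
          fun_prop
        rw [← lintegral_add_left k2.lintegral_prod_right']
        apply lintegral_congr
        intro x
        simp only
        have k3 : Measurable (fun y : E3 => ‖u₀ x‖ₑ ^ 2 * G y * (‖x - y‖ₑ ^ 2)⁻¹) :=
          k2.comp (f := fun y : E3 => (x, y)) (by fun_prop)
        rw [← lintegral_add_left k3]
        apply lintegral_congr
        intro y
        ring

end Pool.Agent.H79.Wave
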