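import Mathlib
import Pool.Agent.H79.Wave.ThmA

/-!
The Poisson kernel in `ℝ³` and its Fourier transform.
-/

set_option autoImplicit false

namespace Pool.Agent.H79.Wave

open MeasureTheory Set Metric FourierTransform RealInnerProductSpace Filter Topology SchwartzMap

lemma texp_int (κ : ℝ) (hκ : 0 < κ) : IntegrableOn (fun t : ℝ => t * Real.exp (-κ * t)) (Ioi 0) := by
  have h := integrableOn_rpow_mul_exp_neg_mul_rpow (p := 1) (s := 1) (b := κ) (by norm_num) (by norm_num) hκ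
  refine h.congr_fun (fun t _ => ?_) measurableSet_Ioi
  simp only [Real.rpow_one]

lemma t2exp_int (κ : ℝ) (hκ : 0 < κ) : IntegrableOn (fun t : ℝ => t ^ 2 * Real.exp (-κ * t)) (Ioi 0) := by
  have h := integrableOn_rpow_mul_exp_neg_mul_rpow (p := 1) (s := 2) (b := κ) (by norm_num) (by norm_num) hκ
  refine h.congr_fun (fun t _ => ?_) measurableSet_Ioi
  simp only [Real.rpow_one]
  rw [← Real.rpow_natCast]
  norm_num

lemma texp_sin (κ k : ℝ) (hκ : 0 < κ) :
    ∫ t in Ioi (0 : ℝ), t * Real.exp (-κ * t) * Real.sin (k * t) = 2 * κ * k / (κ ^ 2 + k ^ 2) ^ 2 := by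
  have h1 : HasDerivAt (fun k : ℝ => ∫ t in Ioi (0 : ℝ), Real.exp (-κ * t) * Real.cos (k * t))
      (∫ t in Ioi (0 : ℝ), -(t * Real.exp (-κ * t) * Real.sin (k * t))) k := by
    refine (hasDerivAt_integral_of_dominated_loc_of_deriv_le
      (F := fun (k t : ℝ) => Real.exp (-κ * t) * Real.cos (k * t))
      (F' := fun (k t : ℝ) => -(t * Real.exp (-κ * t) * Real.sin (k * t)))
      (bound := fun t => t * Real.exp (-κ * t)) (s := univ) univ_mem ?_ ?_ ?_ ?_ ?_ ?_).2
    · filter_upwards with s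
      apply Continuous.aestronglyMeasurable
      fun_prop
    · have h := (expint κ hκ).integrable.mul_bdd (c := 1) (g := fun t : ℝ => Real.cos (k * t))
        (by
          apply Continuous.aestronglyMeasurable
          fun_prop)
        (by
          filter_upwards with t
          exact Real.abs_cos_le_one _)
      exact h
    · apply Continuous.aestronglyMeasurable
      fun_prop
    · filter_upwards [ae_restrict_mem measurableSet_Ioi] with t ht s _
      have ht0 : (0 : ℝ) < t := ht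
      rw [norm_neg, norm_mul, norm_mul, Real.norm_eq_abs, Real.norm_eq_abs, Real.norm_eq_abs, Real.abs_exp,
        abs_of_pos ht0]
      calc _ ≤ t * Real.exp (-κ * t) * 1 := by
            gcongr
            exact Real.abs_sin_le_one _
        _ = _ := mul_one _
    · exact texp_int κ hκ
    · filter_upwards [ae_restrict_mem measurableSet_Ioi] with t ht s _
      have h2 : HasDerivAt (fun s : ℝ => s * t) t s := by
        simpa using (hasDerivAt_id s).mul_const t
      have h3 := (h2.cos).const_mul (Real.exp (-κ * t))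
      convert! h3 using 1
      ring
  have h2 : HasDerivAt (fun k : ℝ => κ / (κ ^ 2 + k ^ 2)) (-(2 * κ * k / (κ ^ 2 + k ^ 2) ^ 2)) k := by
    have hne : κ ^ 2 + k ^ 2 ≠ 0 := by positivity
    have h3 : HasDerivAt (fun k : ℝ => κ ^ 2 + k ^ 2) (2 * k) k := by
      have := (hasDerivAt_pow 2 k).const_add (κ ^ 2)
      simpa using this
    have h4 := (hasDerivAt_const k κ).div h3 hne
    convert! h4 using 1
    ring
  have h3 : (fun k : ℝ => ∫ t in Ioi (0 : ℝ), Real.exp (-κ * t) * Real.cos (k * t)) =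
      fun k : ℝ => κ / (κ ^ 2 + k ^ 2) := by
    ext k
    exact damped_cos κ k hκ
  rw [h3] at h1
  have h4 := h1.unique h2
  rw [integral_neg] at h4
  linarith

/-- the Poisson kernel of `ℝ³` -/
noncomputable def pk (r : ℝ) (x : E3) : ℝ := r / (Real.pi ^ 2 * (r ^ 2 + ‖x‖ ^ 2) ^ 2)

lemma pk_pos (r : ℝ) (hr : 0 < r) (x : E3) : 0 < pk r x := by
  unfold pk
  have := Real.pi_pos
  positivity

lemma exp_norm_int (κ : ℝ) (hκ : 0 < κ) : Integrable (fun x : E3 => Real.exp (-κ * ‖x‖)) := by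
  have h := (integrable_fun_norm_addHaar (μ := (volume : Measure E3)) (F := ℝ)
    (f := fun r : ℝ => Real.exp (-κ * r))).mpr (by
      refine (t2exp_int κ hκ).congr_fun (fun r hr => ?_) measurableSet_Ioi
      simp only [finrank_euclideanSpace, Fintype.card_fin, smul_eq_mul])
  exact h

/-- Fourier transform of `exp(-2πr|x|)` -/
lemma fourier_exp_norm (r : ℝ) (hr : 0 < r) (ζ : E3) (hζ : ζ ≠ 0) :
    ∫ x : E3, ((Real.exp (-(2 * Real.pi * r) * ‖x‖) : ℝ) : ℂ) *
      Complex.exp (((-(2 * Real.pi * ⟪x, ζ⟫) : ℝ) : ℂ) * Complex.I) = ((pk r ζ : ℝ) : ℂ) := by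
  have hpi := Real.pi_pos
  have hz : 0 < ‖ζ‖ := norm_pos_iff.mpr hζ
  set κ : ℝ := 2 * Real.pi * r with hκd
  have hκ : 0 < κ := by positivity
  have hint : Integrable (fun x : E3 => ((Real.exp (-κ * ‖x‖) : ℝ) : ℂ) *
      Complex.exp (((-(2 * Real.pi * ⟪x, ζ⟫) : ℝ) : ℂ) * Complex.I)) := by
    have h1 := (exp_norm_int κ hκ).ofReal (𝕜 := ℂ)
    have h2 := h1.mul_bdd (c := 1) (g := fun x : E3 =>
      Complex.exp (((-(2 * Real.pi * ⟪x, ζ⟫) : ℝ) : ℂ) * Complex.I))
      (by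
        apply Continuous.aestronglyMeasurable; fun_prop)
      (by
        filter_upwards with x
        rw [Complex.norm_exp_ofReal_mul_I])
    exact h2
  rw [polar_int _ hint]
  have e1 : ∀ ω : sphere (0 : E3) 1, ∫ s in Ioi (0 : ℝ), ((s ^ 2 : ℝ) : ℂ) *
      (((Real.exp (-κ * ‖s • (ω : E3)‖) : ℝ) : ℂ) *
      Complex.exp (((-(2 * Real.pi * ⟪s • (ω : E3), ζ⟫) : ℝ) : ℂ) * Complex.I)) =
      ∫ s in Ioi (0 : ℝ), ((s ^ 2 * Real.exp (-κ * s) : ℝ) : ℂ) *
        Complex.exp (((-(2 * Real.pi * ⟪s • (ω : E3), ζ⟫) : ℝ) : ℂ) * Complex.I) := by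
    intro ω
    apply setIntegral_congr_fun measurableSet_Ioi
    intro s hs
    have hω : ‖(ω : E3)‖ = 1 := by simp
    have hs0 : (0 : ℝ) < s := hs
    have hn : ‖s • (ω : E3)‖ = s := by rw [norm_smul, hω, mul_one, Real.norm_eq_abs, abs_of_pos hs0]
    simp only
    rw [← mul_assoc, ← Complex.ofReal_mul, hn]
  simp_rw [e1]
  rw [integral_integral_swap]
  · have e2 : ∀ s ∈ Ioi (0 : ℝ), ∫ ω : sphere (0 : E3) 1, ((s ^ 2 * Real.exp (-κ * s) : ℝ) : ℂ) *
        Complex.exp (((-(2 * Real.pi * ⟪s • (ω : E3), ζ⟫) : ℝ) : ℂ) * Complex.I) ∂sg =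
        ((2 * ‖ζ‖⁻¹ * (s * Real.exp (-κ * s) * Real.sin (2 * Real.pi * ‖ζ‖ * s)) : ℝ) : ℂ) := by
      intro s hs
      have hs0 : (0 : ℝ) < s := hs
      rw [integral_const_mul]
      change _ * chs s ζ = _
      rw [chs_eq s hs0 ζ hζ, ← Complex.ofReal_mul]
      congr 1
      unfold am
      rw [show 2 * Real.pi * s * ‖ζ‖ = 2 * Real.pi * ‖ζ‖ * s by ring]
      field_simp
      ring
    rw [setIntegral_congr_fun measurableSet_Ioi e2, integral_complex_ofReal, integral_const_mul,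
      texp_sin κ _ hκ]
    congr 1
    unfold pk
    rw [hκd]
    have h1 : r ^ 2 + ‖ζ‖ ^ 2 ≠ 0 := by positivity
    have h2 : (2 * Real.pi * r) ^ 2 + (2 * Real.pi * ‖ζ‖) ^ 2 = 4 * Real.pi ^ 2 * (r ^ 2 + ‖ζ‖ ^ 2) := by ring
    rw [h2]
    field_simp
    ring
  · have h1 : Integrable (fun z : sphere (0 : E3) 1 × ℝ => (1 : ℂ) * ((z.2 ^ 2 * Real.exp (-κ * z.2) : ℝ) : ℂ))
        (sg.prod (volume.restrict (Ioi (0 : ℝ)))) :=
      Integrable.mul_prod (f := fun _ : sphere (0 : E3) 1 => (1 : ℂ))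
        (g := fun t : ℝ => ((t ^ 2 * Real.exp (-κ * t) : ℝ) : ℂ)) (integrable_const _) (t2exp_int κ hκ).ofReal
    have h2 := h1.mul_bdd (c := 1) (g := fun z : sphere (0 : E3) 1 × ℝ =>
      Complex.exp (((-(2 * Real.pi * ⟪z.2 • (z.1 : E3), ζ⟫) : ℝ) : ℂ) * Complex.I))
      (by
        apply Continuous.aestronglyMeasurable; fun_prop)
      (by
        filter_upwards with z
        rw [Complex.norm_exp_ofReal_mul_I])
    refine h2.congr ?_
    filter_upwards with z
    simp only [Function.uncurry, one_mul]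

/-- the Poisson semigroup acting on integrable functions -/
lemma poisson_formula (f : E3 → ℂ) (hf : Integrable f) (r : ℝ) (hr : 0 < r) (x : E3) :
    ∫ ξ, ch x ξ * (((Real.exp (-(2 * Real.pi * r) * ‖ξ‖) : ℝ) : ℂ) * 𝓕 f ξ) =
      ∫ y, ((pk r (x - y) : ℝ) : ℂ) * f y := by
  have hpi := Real.pi_pos
  set g : E3 → ℂ := fun ξ => ch x ξ * ((Real.exp (-(2 * Real.pi * r) * ‖ξ‖) : ℝ) : ℂ) with hg
  have hch : Continuous (fun ξ => ch x ξ) :=
    continuous_ch.comp (f := fun ξ : E3 => (x, ξ)) (by fun_prop)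
  have J : Integrable g := by
    have h1 := (exp_norm_int (2 * Real.pi * r) (by positivity)).ofReal (𝕜 := ℂ)
    have h2 := h1.bdd_mul (c := 1) (f := fun ξ => ch x ξ) hch.aestronglyMeasurable (by
      filter_upwards with ξ
      rw [norm_ch])
    exact h2
  have h1 := (VectorFourier.integral_fourierIntegral_smul_eq_flip (L := innerₗ E3)
      Real.continuous_fourierChar continuous_inner J hf)
  have h2 : ∫ ξ, ch x ξ * (((Real.exp (-(2 * Real.pi * r) * ‖ξ‖) : ℝ) : ℂ) * 𝓕 f ξ) =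
      ∫ w : E3, g w * 𝓕 f w := by
    congr 1; ext w
    rw [hg]
    simp only
    ring
  have h3 : ∫ w : E3, g w * 𝓕 f w = ∫ w : E3, 𝓕 g w * f w := by
    simpa using! h1.symm
  rw [h2, h3]
  apply integral_congr_ae
  have hne : ∀ᵐ y : E3, y ≠ x := by
    rw [ae_iff]; simp
  filter_upwards [hne] with w hw
  congr 1
  have hz : w - x ≠ 0 := sub_ne_zero.mpr hw
  have e : 𝓕 g w = ∫ v : E3, ((Real.exp (-(2 * Real.pi * r) * ‖v‖) : ℝ) : ℂ) *
      Complex.exp (((-(2 * Real.pi * ⟪v, w - x⟫) : ℝ) : ℂ) * Complex.I) := by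
    rw [Real.fourier_eq']
    congr 1; ext v
    rw [hg]
    simp only [smul_eq_mul]
    unfold ch
    rw [← mul_assoc, ← Complex.exp_add, mul_comm]
    congr 2
    rw [inner_sub_right]
    push_cast
    ring
  rw [e, fourier_exp_norm r hr _ hz]
  unfold pk
  rw [norm_sub_rev]

end Pool.Agent.H79.Wave
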