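import Mathlib
import Pool.Agent.H79.Wave.OSP

/-!
Poisson regularisation of solutions of the wave equation with non-negative velocity.
-/

set_option autoImplicit false

namespace Pool.Agent.H79.Wave

open MeasureTheory Set Metric FourierTransform RealInnerProductSpace Filter Topology SchwartzMap

lemma pk_cont (r : ℝ) (hr : 0 < r) : Continuous (fun x : E3 => pk r x) := by
  unfold pk
  have := Real.pi_pos
  apply Continuous.div continuous_const (by fun_prop)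
  intro x
  positivity

lemma pk_meas : Measurable (fun w : ℝ × E3 => pk w.1 w.2) := by
  unfold pk; fun_prop

lemma pk_bdd (r : ℝ) (hr : 0 < r) (x : E3) : pk r x ≤ r / (Real.pi ^ 2 * (r ^ 2) ^ 2) := by
  unfold pk
  have := Real.pi_pos
  gcongr
  nlinarith [sq_nonneg ‖x‖]

lemma pk_mid (r s : ℝ) (hs : r / 2 ≤ s) (hsr : s ≤ r) (hr : 0 < r) (x : E3) : pk s x ≤ 16 * pk r x := by
  have hpi := Real.pi_pos
  have hs0 : 0 < s := by linarith
  unfold pk
  rw [← mul_div_assoc, div_le_div_iff₀ (by positivity) (by positivity)]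
  have h1 : r ^ 2 + ‖x‖ ^ 2 ≤ 4 * (s ^ 2 + ‖x‖ ^ 2) := by nlinarith [sq_nonneg ‖x‖]
  have h2 : (r ^ 2 + ‖x‖ ^ 2) ^ 2 ≤ 16 * (s ^ 2 + ‖x‖ ^ 2) ^ 2 := by
    have := pow_le_pow_left₀ (by positivity) h1 2
    nlinarith
  have h3 : 0 ≤ Real.pi ^ 2 := by positivity
  calc s * (Real.pi ^ 2 * (r ^ 2 + ‖x‖ ^ 2) ^ 2) ≤ r * (Real.pi ^ 2 * (16 * (s ^ 2 + ‖x‖ ^ 2) ^ 2)) := by
        gcongr
    _ = _ := by ring

lemma pk_half (r : ℝ) (hr : 0 < r) (x : E3) : pk (r / 2) x ≤ 8 * pk r x := by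
  have hpi := Real.pi_pos
  unfold pk
  rw [← mul_div_assoc, div_le_div_iff₀ (by positivity) (by positivity)]
  have h1 : r ^ 2 + ‖x‖ ^ 2 ≤ 4 * ((r / 2) ^ 2 + ‖x‖ ^ 2) := by nlinarith [sq_nonneg ‖x‖]
  have h2 : (r ^ 2 + ‖x‖ ^ 2) ^ 2 ≤ 16 * ((r / 2) ^ 2 + ‖x‖ ^ 2) ^ 2 := by
    have := pow_le_pow_left₀ (by positivity) h1 2
    nlinarith
  calc r / 2 * (Real.pi ^ 2 * (r ^ 2 + ‖x‖ ^ 2) ^ 2) ≤
      r / 2 * (Real.pi ^ 2 * (16 * ((r / 2) ^ 2 + ‖x‖ ^ 2) ^ 2)) := by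
        gcongr
    _ = _ := by ring

lemma pk_harnack (r : ℝ) (hr : 0 < r) (x z : E3) (h : ‖z - x‖ ≤ r) : pk r x ≤ 9 * pk r z := by
  have hpi := Real.pi_pos
  unfold pk
  rw [← mul_div_assoc, div_le_div_iff₀ (by positivity) (by positivity)]
  have h0 : ‖z‖ ≤ ‖x‖ + r := by
    calc ‖z‖ = ‖x + (z - x)‖ := by congr 1; abel
      _ ≤ ‖x‖ + ‖z - x‖ := norm_add_le _ _
      _ ≤ _ := by linarith
  have h1 : r ^ 2 + ‖z‖ ^ 2 ≤ 3 * (r ^ 2 + ‖x‖ ^ 2) := by
    have h2 : ‖z‖ ^ 2 ≤ (‖x‖ + r) ^ 2 := pow_le_pow_left₀ (norm_nonneg _) h0 2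
    nlinarith [sq_nonneg (‖x‖ - r)]
  have h2 : (r ^ 2 + ‖z‖ ^ 2) ^ 2 ≤ 9 * (r ^ 2 + ‖x‖ ^ 2) ^ 2 := by
    have := pow_le_pow_left₀ (by positivity) h1 2
    nlinarith
  calc r * (Real.pi ^ 2 * (r ^ 2 + ‖z‖ ^ 2) ^ 2) ≤
      r * (Real.pi ^ 2 * (9 * (r ^ 2 + ‖x‖ ^ 2) ^ 2)) := by
        gcongr
    _ = _ := by ring

/-- the total mass of the Poisson kernel -/
noncomputable def cP : ENNReal := ∫⁻ x : E3, ENNReal.ofReal (pk 1 x)

lemma cP_ne_top : cP ≠ ⊤ := by
  have hpi := Real.pi_pos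
  have h : Integrable (fun x : E3 => 4 / Real.pi ^ 2 * (1 + ‖x‖) ^ (-(4 : ℝ))) :=
    (integrable_one_add_norm (by simp; norm_num)).const_mul _
  have h2 := h.2
  rw [hasFiniteIntegral_iff_enorm] at h2
  refine ne_of_lt (lt_of_le_of_lt (lintegral_mono (fun x => ?_)) h2)
  rw [← ofReal_norm]
  apply ENNReal.ofReal_le_ofReal
  rw [Real.norm_eq_abs, abs_of_nonneg (by positivity)]
  unfold pk
  rw [Real.rpow_neg (by positivity), show (4 : ℝ) = ((4 : ℕ) : ℝ) by norm_num, Real.rpow_natCast]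
  have h3 : (1 + ‖x‖) ^ 2 ≤ 2 * (1 ^ 2 + ‖x‖ ^ 2) := by nlinarith [sq_nonneg (1 - ‖x‖)]
  have h4 : (1 + ‖x‖) ^ 4 ≤ 4 * (1 ^ 2 + ‖x‖ ^ 2) ^ 2 := by
    have := pow_le_pow_left₀ (by positivity) h3 2
    nlinarith
  rw [← div_eq_mul_inv, div_div, div_le_div_iff₀ (by positivity) (by positivity)]
  push_cast
  calc 1 * (Real.pi ^ 2 * (1 + ‖x‖) ^ 4) ≤ 1 * (Real.pi ^ 2 * (4 * (1 ^ 2 + ‖x‖ ^ 2) ^ 2)) := by gcongr
    _ = _ := by ring

lemma lint_pk (r : ℝ) (hr : 0 < r) : ∫⁻ x : E3, ENNReal.ofReal (pk r x) = cP := by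
  have hpi := Real.pi_pos
  have h := Measure.map_addHaar_smul (volume : Measure E3) hr.ne'
  have hd : Module.finrank ℝ E3 = 3 := by simp
  rw [hd] at h
  have hm : Measurable (fun y : E3 => r • y) := measurable_const_smul r
  have hpm : Measurable (fun y : E3 => ENNReal.ofReal (pk r y)) :=
    (pk_cont r hr).measurable.ennreal_ofReal
  have h1 : ∫⁻ z : E3, ENNReal.ofReal (pk r (r • z)) =
      ENNReal.ofReal |(r ^ 3)⁻¹| * ∫⁻ y : E3, ENNReal.ofReal (pk r y) := by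
    rw [← lintegral_map (μ := (volume : Measure E3)) (f := fun y => ENNReal.ofReal (pk r y)) hpm hm, h,
      lintegral_smul_measure, smul_eq_mul]
  have h2 : ∀ z : E3, ENNReal.ofReal (pk r (r • z)) = ENNReal.ofReal ((r ^ 3)⁻¹) * ENNReal.ofReal (pk 1 z) := by
    intro z
    rw [← ENNReal.ofReal_mul (by positivity)]
    congr 1
    unfold pk
    have e : ‖r • z‖ = r * ‖z‖ := by rw [norm_smul, Real.norm_eq_abs, abs_of_pos hr]
    have hz : (1 : ℝ) ^ 2 + ‖z‖ ^ 2 ≠ 0 := by positivity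
    rw [e, show r ^ 2 + (r * ‖z‖) ^ 2 = r ^ 2 * (1 ^ 2 + ‖z‖ ^ 2) by ring]
    field_simp
  simp_rw [h2] at h1
  rw [lintegral_const_mul' _ _ (by simp), abs_of_pos (by positivity)] at h1
  have h3 : ENNReal.ofReal ((r ^ 3)⁻¹) ≠ 0 := by
    simp only [ne_eq, ENNReal.ofReal_eq_zero, not_le]
    positivity
  unfold cP
  exact ((ENNReal.mul_right_inj h3 ENNReal.ofReal_ne_top).mp h1).symm

/-- Poisson integral of a real function -/
noncomputable def Pf (r : ℝ) (f : E3 → ℝ) (x : E3) : ℝ := ∫ y, pk r (x - y) * f y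

/-- Poisson integral of a nonnegative extended function -/
noncomputable def PE (r : ℝ) (f : E3 → ENNReal) (x : E3) : ENNReal := ∫⁻ y, ENNReal.ofReal (pk r (x - y)) * f y

lemma Pf_int (r : ℝ) (hr : 0 < r) (f : E3 → ℝ) (hf : Integrable f) (x : E3) :
    Integrable (fun y => pk r (x - y) * f y) := by
  have hpi := Real.pi_pos
  apply hf.bdd_mul (c := r / (Real.pi ^ 2 * (r ^ 2) ^ 2))
  · apply Continuous.aestronglyMeasurable
    exact (pk_cont r hr).comp (by fun_prop)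
  · filter_upwards with y
    rw [Real.norm_eq_abs, abs_of_pos (pk_pos r hr _)]
    exact pk_bdd r hr _

lemma PE_eq (r : ℝ) (hr : 0 < r) (f : E3 → ℝ) (hf0 : ∀ x, 0 ≤ f x) (hf : Integrable f) (x : E3) :
    ENNReal.ofReal (Pf r f x) = PE r (fun y => ENNReal.ofReal (f y)) x := by
  unfold Pf PE
  rw [ofReal_integral_eq_lintegral_ofReal (Pf_int r hr f hf x)
    (ae_of_all _ (fun y => mul_nonneg (pk_pos r hr _).le (hf0 y)))]
  congr 1; ext y
  rw [ENNReal.ofReal_mul (pk_pos r hr _).le]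

lemma Pf_nonneg (r : ℝ) (hr : 0 < r) (f : E3 → ℝ) (hf0 : ∀ x, 0 ≤ f x) (x : E3) : 0 ≤ Pf r f x :=
  integral_nonneg (fun y => mul_nonneg (pk_pos r hr _).le (hf0 y))

lemma Pf_cont (r : ℝ) (hr : 0 < r) (f : E3 → ℝ) (hf : Integrable f) : Continuous (Pf r f) := by
  have hpi := Real.pi_pos
  unfold Pf
  apply continuous_of_dominated (bound := fun y => r / (Real.pi ^ 2 * (r ^ 2) ^ 2) * ‖f y‖)
  · intro x
    exact (Pf_int r hr f hf x).aestronglyMeasurable
  · intro x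
    filter_upwards with y
    rw [norm_mul]
    gcongr
    rw [Real.norm_eq_abs, abs_of_pos (pk_pos r hr _)]
    exact pk_bdd r hr _
  · exact hf.norm.const_mul _
  · filter_upwards with y
    exact ((pk_cont r hr).comp (by fun_prop : Continuous (fun x : E3 => x - y))).mul continuous_const

/-- comparison of Poisson integrals at comparable scales -/
lemma Pf_mid (r s : ℝ) (hs : r / 2 ≤ s) (hsr : s ≤ r) (hr : 0 < r) (f : E3 → ℝ) (hf0 : ∀ x, 0 ≤ f x)
    (hf : Integrable f) (x : E3) : Pf s f x ≤ 16 * Pf r f x := by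
  unfold Pf
  rw [← integral_const_mul]
  apply integral_mono (Pf_int s (by linarith) f hf x) ((Pf_int r hr f hf x).const_mul _)
  intro y
  simp only
  rw [← mul_assoc]
  exact mul_le_mul_of_nonneg_right (pk_mid r s hs hsr hr _) (hf0 y)

lemma Pf_half (r : ℝ) (hr : 0 < r) (f : E3 → ℝ) (hf0 : ∀ x, 0 ≤ f x)
    (hf : Integrable f) (x : E3) : Pf (r / 2) f x ≤ 8 * Pf r f x := by
  unfold Pf
  rw [← integral_const_mul]
  apply integral_mono (Pf_int (r / 2) (by linarith) f hf x) ((Pf_int r hr f hf x).const_mul _)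
  intro y
  simp only
  rw [← mul_assoc]
  exact mul_le_mul_of_nonneg_right (pk_half r hr _) (hf0 y)

lemma Av_mono (g h : E3 → ℝ) (hg : Continuous g) (hh : Continuous h) (hle : ∀ x, g x ≤ h x) (t : ℝ) (x : E3) :
    Av g t x ≤ Av h t x := by
  have hpi := Real.pi_pos
  unfold Av
  apply mul_le_mul_of_nonneg_left _ (by positivity)
  apply integral_mono (int_sphere_cont _ (hg.comp (by fun_prop))) (int_sphere_cont _ (hh.comp (by fun_prop)))
  intro ω
  exact hle _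

lemma Av_const_mul (c : ℝ) (g : E3 → ℝ) (t : ℝ) (x : E3) : Av (fun x => c * g x) t x = c * Av g t x := by
  unfold Av
  rw [integral_const_mul]
  ring

/-- the regularised solution -/
noncomputable def Us (r : ℝ) (f : E3 → ℝ) (t : ℝ) (x : E3) : ℝ := t * Av (Pf r f) t x

/-- Poisson integrals commute with spherical means -/
lemma Av_Pf (r : ℝ) (hr : 0 < r) (f : E3 → ℝ) (hfc : Continuous f) (hf : Integrable f) (t : ℝ) (x : E3) :
    Av (Pf r f) t x = ∫ y, pk r (x - y) * Av f t y := by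
  have hpi := Real.pi_pos
  unfold Av Pf
  have e1 : ∀ ω : sphere (0 : E3) 1, ∫ y, pk r (x - t • (ω : E3) - y) * f y =
      ∫ y, pk r (x - y) * f (y - t • (ω : E3)) := by
    intro ω
    rw [← integral_sub_right_eq_self (fun y => pk r (x - t • (ω : E3) - y) * f y) (t • (ω : E3))]
    congr 1; ext y
    congr 2
    abel
  simp_rw [e1]
  rw [integral_integral_swap]
  · rw [← integral_const_mul]
    congr 1; ext y
    rw [integral_const_mul]
    ring
  · simp only [Function.uncurry_def]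
    have hF : Integrable (fun w : sphere (0 : E3) 1 × E3 => f (w.2 - t • (w.1 : E3))) (sg.prod volume) := by
      rw [integrable_prod_iff]
      · constructor
        · filter_upwards with ω
          exact hf.comp_sub_right _
        · have e : ∀ ω : sphere (0 : E3) 1, ∫ x : E3, ‖f (x - t • (ω : E3))‖ = ∫ x : E3, ‖f x‖ := by
            intro ω
            exact integral_sub_right_eq_self (fun x => ‖f x‖) _
          simp_rw [e]
          exact integrable_const _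
      · apply Continuous.aestronglyMeasurable
        exact hfc.comp (by fun_prop)
    apply hF.bdd_mul (c := r / (Real.pi ^ 2 * (r ^ 2) ^ 2))
    · apply Continuous.aestronglyMeasurable
      exact (pk_cont r hr).comp (by fun_prop)
    · filter_upwards with w
      rw [Real.norm_eq_abs, abs_of_pos (pk_pos r hr _)]
      exact pk_bdd r hr _

/-- the Fourier side of the regularised solution -/
noncomputable def rP (r : ℝ) (f : E3 → ℂ) (ξ : E3) : ℂ :=
  ((Real.exp (-(2 * Real.pi * r) * ‖ξ‖) : ℝ) : ℂ) * rH f ξ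

lemma Us_eq (r : ℝ) (hr : 0 < r) (f : 𝓢(E3, ℝ)) (t : ℝ) (ht : 0 < t) (x : E3) :
    ((Us r (fun x => f x) t x : ℝ) : ℂ) = vr Real.sin (rP r (fun x => (f x : ℂ))) t x := by
  have hpi := Real.pi_pos
  set h : E3 → ℂ := fun x => ((Av (fun x => f x) t x : ℝ) : ℂ) with hh
  have hi : Integrable h := (Av_integrable (fun x => f x) f.continuous f.integrable t).ofReal
  have e1 : ((Av (Pf r (fun x => f x)) t x : ℝ) : ℂ) = ∫ y, ((pk r (x - y) : ℝ) : ℂ) * h y := by
    rw [Av_Pf r hr (fun x => f x) f.continuous f.integrable t x, ← integral_complex_ofReal]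
    congr 1; ext y
    rw [hh]
    push_cast
    rfl
  have e2 := poisson_formula h hi r hr x
  unfold Us
  rw [Complex.ofReal_mul, e1, ← e2, ← integral_const_mul, vr, Vf]
  apply integral_congr_ae
  have hne : ∀ᵐ ξ : E3, ξ ≠ 0 := by
    rw [ae_iff]; simp
  filter_upwards [hne] with ξ hξ
  have hz : 0 < ‖ξ‖ := norm_pos_iff.mpr hξ
  rw [hh, fourier_Av f t ht ξ hξ]
  unfold rP rH am
  rw [show 2 * Real.pi * t * ‖ξ‖ = (2 * Real.pi * ‖ξ‖) * t by ring]
  have h0 : (2 * Real.pi * ‖ξ‖ : ℂ) ≠ 0 := by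
    have h0 : (2 * Real.pi * ‖ξ‖ : ℝ) ≠ 0 := by positivity
    exact_mod_cast h0
  have h1 : (t : ℂ) ≠ 0 := by exact_mod_cast ht.ne'
  push_cast
  field_simp

lemma rP_bound (r : ℝ) (hr : 0 < r) (f : E3 → ℂ) (ξ : E3) : ‖rP r f ξ‖ₑ ≤ ‖rH f ξ‖ₑ := by
  have hpi := Real.pi_pos
  unfold rP
  rw [enorm_mul]
  have : ‖((Real.exp (-(2 * Real.pi * r) * ‖ξ‖) : ℝ) : ℂ)‖ₑ ≤ 1 := by
    rw [← ofReal_norm, Complex.norm_real, Real.norm_eq_abs, Real.abs_exp]
    rw [← ENNReal.ofReal_one]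
    apply ENNReal.ofReal_le_ofReal
    rw [Real.exp_le_one_iff]
    have : 0 ≤ 2 * Real.pi * r * ‖ξ‖ := by positivity
    linarith
  calc _ ≤ 1 * ‖rH f ξ‖ₑ := by gcongr
    _ = _ := one_mul _

end Pool.Agent.H79.Wave
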