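import Mathlib
import Pool.Agent.H79.Wave.OSA

/-!
The kernel inequality for dyadic pieces of the Poisson decomposition.
-/

set_option autoImplicit false

namespace Pool.Agent.H79.Wave

open MeasureTheory Set Metric FourierTransform RealInnerProductSpace Filter Topology SchwartzMap

/-- difference of two regularisations on the Fourier side -/
noncomputable def rD (r : ℝ) (f : E3 → ℂ) (ξ : E3) : ℂ := rP (r / 2) f ξ - rP r f ξ

lemma rP_meas (r : ℝ) (f : 𝓢(E3, ℝ)) : Measurable (rP r (fun x => (f x : ℂ))) := by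
  unfold rP rH
  rw [four_coe]
  fun_prop

lemma rH_fin (f : 𝓢(E3, ℝ)) : (∫⁻ ξ, ‖rH (fun x => (f x : ℂ)) ξ‖ₑ ≠ ⊤) ∧
    (∫⁻ ξ, ‖rH (fun x => (f x : ℂ)) ξ‖ₑ ^ 2 ≠ ⊤) := by
  obtain ⟨hm, ⟨C, hC⟩, h1, h2⟩ := sch_props (𝓕 (cplx f))
  obtain ⟨a, b, c⟩ := rH_props _ hm C hC h1 h2
  unfold rH
  rw [four_coe]
  exact ⟨a, b⟩

lemma rP_int (r : ℝ) (hr : 0 < r) (f : 𝓢(E3, ℝ)) : Integrable (rP r (fun x => (f x : ℂ))) := by
  refine ⟨(rP_meas r f).aestronglyMeasurable, ?_⟩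
  rw [hasFiniteIntegral_iff_enorm]
  exact lt_of_le_of_lt (lintegral_mono (fun ξ => rP_bound r hr _ ξ)) (rH_fin f).1.lt_top

lemma ch_mul_int (x : E3) (φ : E3 → ℂ) (hφ : Integrable φ) : Integrable (fun ξ => ch x ξ * φ ξ) := by
  have hch : Continuous (fun ξ => ch x ξ) :=
    continuous_ch.comp (f := fun ξ : E3 => (x, ξ)) (by fun_prop)
  exact hφ.bdd_mul (c := 1) hch.aestronglyMeasurable (by
    filter_upwards with ξ
    rw [norm_ch])

lemma rD_meas (r : ℝ) (f : 𝓢(E3, ℝ)) : Measurable (rD r (fun x => (f x : ℂ))) :=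
  (rP_meas _ f).sub (rP_meas _ f)

lemma rD_bound (r : ℝ) (hr : 0 < r) (f : E3 → ℂ) (ξ : E3) : ‖rD r f ξ‖ₑ ≤ 2 * ‖rH f ξ‖ₑ := by
  unfold rD
  calc _ ≤ ‖rP (r / 2) f ξ‖ₑ + ‖rP r f ξ‖ₑ := enorm_sub_le
    _ ≤ ‖rH f ξ‖ₑ + ‖rH f ξ‖ₑ := add_le_add (rP_bound _ (by linarith) _ _) (rP_bound _ hr _ _)
    _ = _ := by ring

lemma rD_fin (r : ℝ) (hr : 0 < r) (f : 𝓢(E3, ℝ)) : (∫⁻ ξ, ‖rD r (fun x => (f x : ℂ)) ξ‖ₑ ≠ ⊤) ∧
    (∫⁻ ξ, ‖rD r (fun x => (f x : ℂ)) ξ‖ₑ ^ 2 ≠ ⊤) := by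
  obtain ⟨h1, h2⟩ := rH_fin f
  constructor
  · refine ne_of_lt (lt_of_le_of_lt (lintegral_mono (fun ξ => rD_bound r hr _ ξ)) ?_)
    rw [lintegral_const_mul' _ _ (by norm_num)]
    exact ENNReal.mul_lt_top (by norm_num) h1.lt_top
  · refine ne_of_lt (lt_of_le_of_lt (lintegral_mono (g := fun ξ => 4 * ‖rH (fun x => (f x : ℂ)) ξ‖ₑ ^ 2)
      (fun ξ => ?_)) ?_)
    · calc ‖rD r (fun x => (f x : ℂ)) ξ‖ₑ ^ 2 ≤ (2 * ‖rH (fun x => (f x : ℂ)) ξ‖ₑ) ^ 2 :=
            pow_le_pow_left' (rD_bound r hr _ ξ) 2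
        _ = _ := by ring
    · rw [lintegral_const_mul' _ _ (by norm_num)]
      exact ENNReal.mul_lt_top (by norm_num) h2.lt_top

lemma vr_sub (φ ψ : E3 → ℂ) (hφ : Integrable φ) (hψ : Integrable ψ) (t : ℝ) (x : E3) :
    vr Real.sin (fun ξ => φ ξ - ψ ξ) t x = vr Real.sin φ t x - vr Real.sin ψ t x := by
  have hb : ∀ χ : E3 → ℂ, Integrable χ → Integrable (fun ξ => ch x ξ * (((Real.sin (2 * Real.pi * ‖ξ‖ * t) : ℝ) : ℂ) * χ ξ)) := by
    intro χ hχ
    apply ch_mul_int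
    apply hχ.bdd_mul (c := 1)
    · apply Measurable.aestronglyMeasurable
      fun_prop
    · filter_upwards with ξ
      rw [Complex.norm_real]
      exact Real.abs_sin_le_one _
  unfold vr Vf
  rw [← integral_sub (hb φ hφ) (hb ψ hψ)]
  congr 1; ext ξ
  ring

/-- the dyadic piece of the solution -/
lemma vr_rD (r : ℝ) (hr : 0 < r) (f : 𝓢(E3, ℝ)) (t : ℝ) (ht : 0 < t) (x : E3) :
    vr Real.sin (rD r (fun x => (f x : ℂ))) t x =
      ((Us (r / 2) (fun x => f x) t x - Us r (fun x => f x) t x : ℝ) : ℂ) := by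
  rw [Complex.ofReal_sub, Us_eq (r / 2) (by linarith) f t ht x, Us_eq r hr f t ht x]
  exact vr_sub _ _ (rP_int _ (by linarith) f) (rP_int _ hr f) t x

lemma exp_diff (r k : ℝ) (hk : 0 < k) :
    (Real.exp (-(2 * Real.pi * (r / 2)) * k) - Real.exp (-(2 * Real.pi * r) * k)) * (2 * Real.pi * k)⁻¹ =
      ∫ s in (r / 2)..r, Real.exp (-(2 * Real.pi * s) * k) := by
  have hpi := Real.pi_pos
  have h : ∀ s ∈ uIcc (r / 2) r, HasDerivAt (fun s : ℝ => -Real.exp (-(2 * Real.pi * s) * k) * (2 * Real.pi * k)⁻¹)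
      (Real.exp (-(2 * Real.pi * s) * k)) s := by
    intro s _
    have h1 : HasDerivAt (fun s : ℝ => -(2 * Real.pi * s) * k) (-(2 * Real.pi) * k) s := by
      have := ((hasDerivAt_id s).const_mul (2 * Real.pi)).neg.mul_const k
      simpa using this
    have h2 := (h1.exp.neg).mul_const ((2 * Real.pi * k)⁻¹)
    convert! h2 using 1
    field_simp
  rw [intervalIntegral.integral_eq_sub_of_hasDerivAt h (by
    apply Continuous.intervalIntegrable
    fun_prop)]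
  ring

/-- the potential of the dyadic piece -/
lemma Vf_rD (r : ℝ) (hr : 0 < r) (f : 𝓢(E3, ℝ)) (x : E3) :
    Vf (rD r (fun x => (f x : ℂ))) x = ((∫ s in (r / 2)..r, Pf s (fun x => f x) x : ℝ) : ℂ) := by
  have hpi := Real.pi_pos
  have hle : r / 2 ≤ r := by linarith
  set F : E3 → ℂ := 𝓕 (fun x => (f x : ℂ)) with hF
  have e1 : Vf (rD r (fun x => (f x : ℂ))) x = ∫ ξ, ∫ s in Ioc (r / 2) r,
      ch x ξ * (((Real.exp (-(2 * Real.pi * s) * ‖ξ‖) : ℝ) : ℂ) * F ξ) := by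
    unfold Vf
    apply integral_congr_ae
    have hne : ∀ᵐ ξ : E3, ξ ≠ 0 := by
      rw [ae_iff]; simp
    filter_upwards [hne] with ξ hξ
    have hz : 0 < ‖ξ‖ := norm_pos_iff.mpr hξ
    rw [integral_const_mul, integral_mul_const, integral_complex_ofReal,
      ← intervalIntegral.integral_of_le hle, ← exp_diff r ‖ξ‖ hz]
    unfold rD rP rH
    push_cast
    ring
  rw [e1, integral_integral_swap]
  · rw [intervalIntegral.integral_of_le hle, ← integral_complex_ofReal]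
    apply setIntegral_congr_fun measurableSet_Ioc
    intro s hs
    have hs0 : 0 < s := by linarith [hs.1]
    simp only
    rw [poisson_formula (fun x => (f x : ℂ)) f.integrable.ofReal s hs0 x]
    unfold Pf
    rw [← integral_complex_ofReal]
    congr 1; ext y
    push_cast
    rfl
  · simp only [Function.uncurry_def]
    have h1 : Integrable (fun w : E3 × ℝ => F w.1 * (1 : ℂ))
        ((volume : Measure E3).prod (volume.restrict (Ioc (r / 2) r))) :=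
      Integrable.mul_prod (f := F) (g := fun _ : ℝ => (1 : ℂ)) (sch_fint f) (integrable_const _)
    have hch : Continuous (fun w : E3 × ℝ => ch x w.1) :=
      continuous_ch.comp (f := fun w : E3 × ℝ => (x, w.1)) (by fun_prop)
    have hae : ∀ᵐ w : E3 × ℝ ∂((volume : Measure E3).prod (volume.restrict (Ioc (r / 2) r))),
        w.2 ∈ Ioc (r / 2) r :=
      (Measure.quasiMeasurePreserving_snd (μ := (volume : Measure E3))
        (ν := volume.restrict (Ioc (r / 2) r))).ae (ae_restrict_mem measurableSet_Ioc)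
    have h2 := h1.bdd_mul (c := 1) (f := fun w : E3 × ℝ => ch x w.1 *
      (((Real.exp (-(2 * Real.pi * w.2) * ‖w.1‖)) : ℝ) : ℂ))
      (by
        apply Continuous.aestronglyMeasurable
        apply hch.mul
        fun_prop)
      (by
        filter_upwards [hae] with w hw
        have hw' : 0 < w.2 := by linarith [hw.1]
        rw [norm_mul, norm_ch, one_mul, Complex.norm_real, Real.norm_eq_abs, Real.abs_exp,
          Real.exp_le_one_iff]
        have : 0 ≤ 2 * Real.pi * w.2 * ‖w.1‖ := by positivity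
        linarith)
    refine h2.congr ?_
    filter_upwards with w
    ring

lemma Pf_meas_s (f : 𝓢(E3, ℝ)) (x : E3) : Measurable (fun s => Pf s (fun x => f x) x) := by
  unfold Pf
  apply StronglyMeasurable.measurable
  apply StronglyMeasurable.integral_prod_right (f := fun (s : ℝ) (y : E3) => pk s (x - y) * f y)
  apply Measurable.stronglyMeasurable
  simp only [Function.uncurry_def]
  have h1 : Measurable (fun w : ℝ × E3 => pk w.1 (x - w.2)) :=
    pk_meas.comp (f := fun w : ℝ × E3 => (w.1, x - w.2)) (by fun_prop)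
  have h2 := f.continuous.measurable
  fun_prop

/-- bound for the potential of the dyadic piece -/
lemma Vf_rD_bound (r : ℝ) (hr : 0 < r) (f : 𝓢(E3, ℝ)) (hf0 : ∀ x, 0 ≤ f x) (x : E3) :
    ‖Vf (rD r (fun x => (f x : ℂ))) x‖ₑ ≤ ENNReal.ofReal (8 * r) * ENNReal.ofReal (Pf r (fun x => f x) x) := by
  have hle : r / 2 ≤ r := by linarith
  rw [Vf_rD r hr f x, ← ofReal_norm, Complex.norm_real, ← ENNReal.ofReal_mul (by positivity)]
  apply ENNReal.ofReal_le_ofReal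
  have h := intervalIntegral.norm_integral_le_of_norm_le_const (a := r / 2) (b := r)
    (C := 16 * Pf r (fun x => f x) x) (f := fun s => Pf s (fun x => f x) x) (by
      intro s hs
      rw [uIoc_of_le hle] at hs
      rw [Real.norm_eq_abs, abs_of_nonneg (Pf_nonneg s (by linarith [hs.1]) _ hf0 x)]
      exact Pf_mid r s hs.1.le hs.2 hr _ hf0 f.integrable x)
  refine h.trans (le_of_eq ?_)
  rw [abs_of_pos (by linarith)]
  ring

/-- pointwise bound for the dyadic piece -/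
lemma Us_diff_bound (r : ℝ) (hr : 0 < r) (f : 𝓢(E3, ℝ)) (hf0 : ∀ x, 0 ≤ f x) (t : ℝ) (ht : 0 < t) (x : E3) :
    |Us (r / 2) (fun x => f x) t x - Us r (fun x => f x) t x| ≤ 8 * (t * Av (Pf r (fun x => f x)) t x) := by
  have c1 := Pf_cont r hr (fun x => f x) f.integrable
  have c2 := Pf_cont (r / 2) (by linarith) (fun x => f x) f.integrable
  have h1 : 0 ≤ Av (Pf r (fun x => f x)) t x := Av_nonneg _ (Pf_nonneg r hr _ hf0) t x
  have h2 : 0 ≤ Av (Pf (r / 2) (fun x => f x)) t x := Av_nonneg _ (Pf_nonneg (r / 2) (by linarith) _ hf0) t x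
  have h3 : Av (Pf (r / 2) (fun x => f x)) t x ≤ 8 * Av (Pf r (fun x => f x)) t x := by
    rw [← Av_const_mul]
    apply Av_mono _ _ c2 (by fun_prop)
    intro y
    exact Pf_half r hr _ hf0 f.integrable y
  unfold Us
  rw [abs_le]
  constructor
  · nlinarith [mul_nonneg ht.le h1, mul_nonneg ht.le h2]
  · nlinarith [mul_nonneg ht.le h1, mul_nonneg ht.le h2]

/-- the kernel inequality for a dyadic piece -/
theorem kernel_piece (p : ℝ) (hp : 3 ≤ p) (r : ℝ) (hr : 0 < r) (f : 𝓢(E3, ℝ)) (hf0 : ∀ x, 0 ≤ f x) :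
    ∫⁻ t in Icc (1 : ℝ) 2, ∫⁻ x, ‖Us (r / 2) (fun x => f x) t x - Us r (fun x => f x) t x‖ₑ ^ p ≤
      (16 : ENNReal) ^ (p - 2) * (ENNReal.ofReal (64 * r ^ 2)) *
        ∫⁻ x, ∫⁻ y, ENNReal.ofReal (Pf r (fun x => f x) x) ^ 2 *
          ENNReal.ofReal (Pf r (fun x => f x) y) ^ (p - 2) * (‖x - y‖ₑ ^ 2)⁻¹ := by
  have hpi := Real.pi_pos
  set g : E3 → ℝ := Pf r (fun x => f x) with hg
  have hgc : Continuous g := Pf_cont r hr _ f.integrable
  have hg0 : ∀ x, 0 ≤ g x := Pf_nonneg r hr _ hf0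
  set φ : E3 → ℂ := rD r (fun x => (f x : ℂ)) with hφ
  set G : E3 → ENNReal := fun y => ENNReal.ofReal (g y) ^ (p - 2) with hG
  have hGm : Measurable G := (hgc.measurable.ennreal_ofReal).pow_const _
  have hp2 : (1 : ℝ) ≤ p - 2 := by linarith
  obtain ⟨f1, f2⟩ := rD_fin r hr f
  have hpt : ∀ t ∈ Icc (1 : ℝ) 2, ∀ x : E3, ‖Us (r / 2) (fun x => f x) t x - Us r (fun x => f x) t x‖ₑ ^ p ≤
      (16 : ENNReal) ^ (p - 2) * (‖vr Real.sin φ t x‖ₑ ^ 2 *
        (∫⁻ ω : sphere (0 : E3) 1, G (x - t • (ω : E3)) ∂sg)) := by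
    intro t ht x
    have ht0 : 0 < t := by linarith [ht.1]
    have hv : ‖vr Real.sin φ t x‖ₑ = ‖Us (r / 2) (fun x => f x) t x - Us r (fun x => f x) t x‖ₑ := by
      rw [hφ, vr_rD r hr f t ht0 x, ← ofReal_norm, ← ofReal_norm, Complex.norm_real]
    rw [hv]
    set U := Us (r / 2) (fun x => f x) t x - Us r (fun x => f x) t x with hU
    have h1 : |U| ≤ 8 * (t * Av g t x) := Us_diff_bound r hr f hf0 t ht0 x
    have h2 : ‖U‖ₑ ≤ 16 * (ENNReal.ofReal (4 * Real.pi)⁻¹ *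
        ∫⁻ ω : sphere (0 : E3) 1, ENNReal.ofReal (g (x - t • (ω : E3))) ∂sg) := by
      rw [← Av_lint g hgc hg0, ← ofReal_norm, Real.norm_eq_abs]
      calc ENNReal.ofReal |U| ≤ ENNReal.ofReal (16 * Av g t x) := by
            apply ENNReal.ofReal_le_ofReal
            have := Av_nonneg g hg0 t x
            nlinarith [ht.2]
        _ = _ := by rw [ENNReal.ofReal_mul (by norm_num), ENNReal.ofReal_ofNat]
    have hc1 : ENNReal.ofReal (4 * Real.pi)⁻¹ ≤ 1 := by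
      rw [← ENNReal.ofReal_one]
      apply ENNReal.ofReal_le_ofReal
      apply inv_le_one_of_one_le₀
      nlinarith [Real.pi_gt_three]
    have h3 : ‖U‖ₑ ^ (p - 2) ≤ (16 : ENNReal) ^ (p - 2) *
        ∫⁻ ω : sphere (0 : E3) 1, G (x - t • (ω : E3)) ∂sg := by
      calc ‖U‖ₑ ^ (p - 2) ≤ (16 * (ENNReal.ofReal (4 * Real.pi)⁻¹ *
        ∫⁻ ω : sphere (0 : E3) 1, ENNReal.ofReal (g (x - t • (ω : E3))) ∂sg)) ^ (p - 2) := by
            apply ENNReal.rpow_le_rpow h2 (by linarith)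
        _ = 16 ^ (p - 2) * (ENNReal.ofReal (4 * Real.pi)⁻¹ *
        ∫⁻ ω : sphere (0 : E3) 1, ENNReal.ofReal (g (x - t • (ω : E3))) ∂sg) ^ (p - 2) :=
            ENNReal.mul_rpow_of_nonneg _ _ (by linarith)
        _ ≤ 16 ^ (p - 2) * (ENNReal.ofReal (4 * Real.pi)⁻¹ *
        ∫⁻ ω : sphere (0 : E3) 1, ENNReal.ofReal (g (x - t • (ω : E3))) ^ (p - 2) ∂sg) := by
            gcongr
            apply jensen_sphere _ _ _ hp2
            exact (hgc.measurable.comp (by fun_prop)).ennreal_ofReal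
        _ ≤ 16 ^ (p - 2) * (1 *
        ∫⁻ ω : sphere (0 : E3) 1, ENNReal.ofReal (g (x - t • (ω : E3))) ^ (p - 2) ∂sg) := by
            gcongr
        _ = _ := by rw [one_mul]
    have h6 : ‖U‖ₑ ^ p = ‖U‖ₑ ^ 2 * ‖U‖ₑ ^ (p - 2) := by
      have h7 : ‖U‖ₑ ^ 2 = ‖U‖ₑ ^ (2 : ℝ) := by rw [← ENNReal.rpow_natCast]; norm_num
      rw [h7, ← ENNReal.rpow_add_of_nonneg _ _ (by norm_num) (by linarith)]
      congr 1
      ring
    rw [h6]
    calc ‖U‖ₑ ^ 2 * ‖U‖ₑ ^ (p - 2) ≤ ‖U‖ₑ ^ 2 * ((16 : ENNReal) ^ (p - 2) *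
        ∫⁻ ω : sphere (0 : E3) 1, G (x - t • (ω : E3)) ∂sg) := by gcongr
      _ = _ := by ring
  have h16 : (16 : ENNReal) ^ (p - 2) ≠ ⊤ := ENNReal.rpow_ne_top_of_nonneg (by linarith) (by norm_num)
  calc ∫⁻ t in Icc (1 : ℝ) 2, ∫⁻ x, ‖Us (r / 2) (fun x => f x) t x - Us r (fun x => f x) t x‖ₑ ^ p
      ≤ ∫⁻ t in Icc (1 : ℝ) 2, (16 : ENNReal) ^ (p - 2) * ∫⁻ x, (‖vr Real.sin φ t x‖ₑ ^ 2 *
        (∫⁻ ω : sphere (0 : E3) 1, G (x - t • (ω : E3)) ∂sg)) := by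
        apply setLIntegral_mono' measurableSet_Icc
        intro t ht
        rw [← lintegral_const_mul' _ _ h16]
        apply lintegral_mono
        intro x
        exact hpt t ht x
    _ = (16 : ENNReal) ^ (p - 2) * ∫⁻ t in Icc (1 : ℝ) 2, ∫⁻ x, (‖vr Real.sin φ t x‖ₑ ^ 2 *
        (∫⁻ ω : sphere (0 : E3) 1, G (x - t • (ω : E3)) ∂sg)) := lintegral_const_mul' _ _ h16
    _ ≤ (16 : ENNReal) ^ (p - 2) * ∫⁻ t in Ioi (0 : ℝ), ∫⁻ x, (‖vr Real.sin φ t x‖ₑ ^ 2 *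
        (∫⁻ ω : sphere (0 : E3) 1, G (x - t • (ω : E3)) ∂sg)) := by
        gcongr
        intro t ht
        exact lt_of_lt_of_le one_pos ht.1
    _ = (16 : ENNReal) ^ (p - 2) * (2⁻¹ * ∫⁻ x, ∫⁻ y, ‖Vf φ x‖ₑ ^ 2 * G y * (‖x - y‖ₑ ^ 2)⁻¹) := by
        rw [weight_all Real.sin adm2_sin φ (rD_meas r f) f1 f2 G hGm]
    _ ≤ (16 : ENNReal) ^ (p - 2) * (1 * ∫⁻ x, ∫⁻ y, (ENNReal.ofReal (8 * r) * ENNReal.ofReal (g x)) ^ 2 * G y *
        (‖x - y‖ₑ ^ 2)⁻¹) := by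
        gcongr with x y
        · norm_num
        · exact Vf_rD_bound r hr f hf0 x
    _ = (16 : ENNReal) ^ (p - 2) * (∫⁻ x, ∫⁻ y, ENNReal.ofReal (64 * r ^ 2) * (ENNReal.ofReal (g x) ^ 2 * G y *
        (‖x - y‖ₑ ^ 2)⁻¹)) := by
        rw [one_mul]
        congr 1
        apply lintegral_congr; intro x
        apply lintegral_congr; intro y
        rw [mul_pow, ← ENNReal.ofReal_pow (by positivity), show (8 * r) ^ 2 = 64 * r ^ 2 by ring]
        ring
    _ = _ := by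
        simp_rw [lintegral_const_mul' _ _ ENNReal.ofReal_ne_top]
        rw [mul_assoc]

end Pool.Agent.H79.Wave
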