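import Mathlib
import Pool.Agent.H79.Wave.OSB

/-!
Real variable lemmas: convolutions with nonnegative kernels and local averages.
-/

set_option autoImplicit false

namespace Pool.Agent.H79.Wave

open MeasureTheory Set Metric Filter Topology

/-- Jensen's inequality with a weight -/
lemma jensen_wt {α : Type*} [MeasurableSpace α] (μ : Measure α) (k w : α → ENNReal) (hk : Measurable k)
    (hw : Measurable w) (q : ℝ) (hq : 1 ≤ q) :
    (∫⁻ a, k a * w a ∂μ) ^ q ≤ (∫⁻ a, k a ∂μ) ^ (q - 1) * ∫⁻ a, k a * w a ^ q ∂μ := by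
  have hq0 : 0 < q := by linarith
  have h1 : (0 : ℝ) ≤ 1 / q := by positivity
  have h2 : 0 ≤ 1 - 1 / q := by
    rw [sub_nonneg, div_le_one hq0]
    exact hq
  have h := ENNReal.lintegral_mul_norm_pow_le (μ := μ) (f := fun a => k a * w a ^ q) (g := k)
    (hk.mul (hw.pow_const q)).aemeasurable hk.aemeasurable h1 h2 (by ring)
  have e : ∀ a, (k a * w a ^ q) ^ (1 / q) * k a ^ (1 - 1 / q) = k a * w a := by
    intro a
    rw [ENNReal.mul_rpow_of_nonneg _ _ h1, ← ENNReal.rpow_mul, mul_one_div_cancel hq0.ne', ENNReal.rpow_one,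
      mul_right_comm, ← ENNReal.rpow_add_of_nonneg _ _ h1 h2]
    simp
  simp_rw [e] at h
  calc (∫⁻ a, k a * w a ∂μ) ^ q ≤ ((∫⁻ a, k a * w a ^ q ∂μ) ^ (1 / q) * (∫⁻ a, k a ∂μ) ^ (1 - 1 / q)) ^ q :=
        ENNReal.rpow_le_rpow h hq0.le
    _ = _ := by
        rw [ENNReal.mul_rpow_of_nonneg _ _ hq0.le, ← ENNReal.rpow_mul, ← ENNReal.rpow_mul,
          one_div_mul_cancel hq0.ne', ENNReal.rpow_one, mul_comm]
        congr 2
        field_simp

/-- convolution of nonnegative functions -/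
noncomputable def cv (k h : E3 → ENNReal) (x : E3) : ENNReal := ∫⁻ y, k (x - y) * h y

lemma cv_meas (k h : E3 → ENNReal) (hk : Measurable k) (hh : Measurable h) : Measurable (cv k h) := by
  unfold cv
  have h1 : Measurable (fun w : E3 × E3 => k (w.1 - w.2) * h w.2) :=
    (hk.comp (by fun_prop)).mul (hh.comp measurable_snd)
  exact h1.lintegral_prod_right'

lemma cv_mono (k h h' : E3 → ENNReal) (hle : ∀ x, h x ≤ h' x) (x : E3) : cv k h x ≤ cv k h' x := by
  unfold cv
  gcongr with y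
  exact hle y

lemma cv_const_mul (k h : E3 → ENNReal) (c : ENNReal) (hc : c ≠ ⊤) (x : E3) :
    cv k (fun y => c * h y) x = c * cv k h x := by
  unfold cv
  rw [← lintegral_const_mul' _ _ hc]
  congr 1; ext y
  ring

lemma cv_lint (k h : E3 → ENNReal) (hk : Measurable k) (hh : Measurable h) :
    ∫⁻ x, cv k h x = (∫⁻ z, k z) * ∫⁻ y, h y := by
  unfold cv
  rw [lintegral_lintegral_swap]
  · have e : ∀ y : E3, ∫⁻ x, k (x - y) * h y = (∫⁻ z, k z) * h y := by
      intro y
      have hky : Measurable (fun x : E3 => k (x - y)) := hk.comp (by fun_prop)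
      rw [lintegral_mul_const _ hky, lintegral_sub_right_eq_self (fun z => k z) y]
    simp_rw [e]
    rw [lintegral_const_mul _ hh]
  · apply Measurable.aemeasurable
    exact (hk.comp (by fun_prop)).mul (hh.comp measurable_snd)

lemma cv_young (k h : E3 → ENNReal) (hk : Measurable k) (hh : Measurable h) (q : ℝ) (hq : 1 ≤ q) :
    ∫⁻ x, cv k h x ^ q ≤ (∫⁻ z, k z) ^ q * ∫⁻ y, h y ^ q := by
  have h1 : ∀ x, cv k h x ^ q ≤ (∫⁻ z, k z) ^ (q - 1) * cv k (fun y => h y ^ q) x := by
    intro x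
    have h2 := jensen_wt volume (fun y => k (x - y)) h (hk.comp (by fun_prop)) hh q hq
    rw [lintegral_sub_left_eq_self (fun z => k z) x] at h2
    exact h2
  calc ∫⁻ x, cv k h x ^ q ≤ ∫⁻ x, (∫⁻ z, k z) ^ (q - 1) * cv k (fun y => h y ^ q) x := lintegral_mono h1
    _ = (∫⁻ z, k z) ^ (q - 1) * ((∫⁻ z, k z) * ∫⁻ y, h y ^ q) := by
        rw [lintegral_const_mul _ (cv_meas k _ hk (hh.pow_const q)), cv_lint k _ hk (hh.pow_const q)]
    _ = _ := by
        rw [← mul_assoc]
        congr 1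
        nth_rewrite 2 [← ENNReal.rpow_one (∫⁻ z, k z)]
        rw [← ENNReal.rpow_add_of_nonneg _ _ (by linarith) (by norm_num)]
        congr 1
        ring

lemma cv_swap (k l h : E3 → ENNReal) (hk : Measurable k) (hl : Measurable l) (hh : Measurable h) (x : E3) :
    cv k (cv l h) x = cv l (cv k h) x := by
  have key : ∀ k l : E3 → ENNReal, Measurable k → Measurable l →
      cv k (cv l h) x = ∫⁻ z, h z * ∫⁻ y, k (x - y) * l (y - z) := by
    intro k l hk hl
    unfold cv
    have e : ∀ y, k (x - y) * ∫⁻ z, l (y - z) * h z = ∫⁻ z, k (x - y) * (l (y - z) * h z) := by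
      intro y
      rw [lintegral_const_mul]
      exact (hl.comp (by fun_prop)).mul hh
    simp_rw [e]
    rw [lintegral_lintegral_swap]
    · apply lintegral_congr
      intro z
      rw [← lintegral_const_mul]
      · apply lintegral_congr
        intro y
        ring
      · exact (hk.comp (by fun_prop)).mul (hl.comp (by fun_prop))
    · apply Measurable.aemeasurable
      exact (hk.comp (by fun_prop)).mul ((hl.comp (by fun_prop)).mul (hh.comp measurable_snd))
  rw [key k l hk hl, key l k hl hk]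
  apply lintegral_congr
  intro z
  congr 1
  rw [← lintegral_sub_left_eq_self (fun y => l (x - y) * k (y - z)) (x + z)]
  apply lintegral_congr
  intro y
  rw [mul_comm]
  congr 2
  · abel
  · abel

/-- indicator of the ball -/
noncomputable def bk (s : ℝ) (z : E3) : ENNReal := if ‖z‖ < s then 1 else 0

lemma bk_meas (s : ℝ) : Measurable (bk s) := by
  unfold bk
  exact Measurable.ite (measurableSet_lt measurable_norm measurable_const) measurable_const measurable_const

lemma bk_neg (s : ℝ) (z : E3) : bk s (-z) = bk s z := by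
  unfold bk; rw [norm_neg]

lemma lint_bk (s : ℝ) : ∫⁻ z, bk s z = volume (ball (0 : E3) s) := by
  have : bk s = (ball (0 : E3) s).indicator (fun _ => 1) := by
    ext z
    unfold bk
    by_cases h : ‖z‖ < s
    · rw [if_pos h, Set.indicator_of_mem (by simpa using h)]
    · rw [if_neg h, Set.indicator_of_notMem (by simpa using h)]
  rw [this, lintegral_indicator measurableSet_ball]
  simp

lemma pair_ball (a b : E3 → ENNReal) (ha : Measurable a) (hb : Measurable b) (s : ℝ) :
    volume (ball (0 : E3) s) * ∫⁻ x, ∫⁻ y, a x * b y * bk s (x - y) ≤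
      ∫⁻ z, cv (bk (2 * s)) a z * cv (bk (2 * s)) b z := by
  have hv : volume (ball (0 : E3) s) ≠ ⊤ := measure_ball_lt_top.ne
  have hb2 := bk_meas (2 * s)
  have hb1 := bk_meas s
  have m1 : ∀ x : E3, Measurable (fun z => bk (2 * s) (z - x)) := fun x => hb2.comp (by fun_prop)
  have m1' : ∀ z : E3, Measurable (fun x => bk (2 * s) (z - x)) := fun x => hb2.comp (by fun_prop)
  have e1 : ∀ z, cv (bk (2 * s)) a z * cv (bk (2 * s)) b z =
      ∫⁻ x, ∫⁻ y, (a x * b y) * (bk (2 * s) (z - x) * bk (2 * s) (z - y)) := by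
    intro z
    unfold cv
    have c1 : Measurable (fun y => bk (2 * s) (z - y) * a y) := (m1' z).mul ha
    have c2 : Measurable (fun y => bk (2 * s) (z - y) * b y) := (m1' z).mul hb
    rw [← lintegral_mul_const _ c1]
    apply lintegral_congr
    intro x
    rw [← lintegral_const_mul _ c2]
    apply lintegral_congr
    intro y
    ring
  have hm3 : Measurable (fun w : (E3 × E3) × E3 => (a w.1.2 * b w.2) * (bk (2 * s) (w.1.1 - w.1.2) *
      bk (2 * s) (w.1.1 - w.2))) := by
    have c1 : Measurable (fun w : (E3 × E3) × E3 => bk (2 * s) (w.1.1 - w.1.2)) := hb2.comp (by fun_prop)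
    have c2 : Measurable (fun w : (E3 × E3) × E3 => bk (2 * s) (w.1.1 - w.2)) := hb2.comp (by fun_prop)
    fun_prop
  have e2 : ∫⁻ z, cv (bk (2 * s)) a z * cv (bk (2 * s)) b z =
      ∫⁻ x, ∫⁻ y, (a x * b y) * ∫⁻ z, bk (2 * s) (z - x) * bk (2 * s) (z - y) := by
    simp_rw [e1]
    rw [lintegral_lintegral_swap]
    · apply lintegral_congr
      intro x
      rw [lintegral_lintegral_swap]
      · apply lintegral_congr
        intro y
        have c1 : Measurable (fun z => bk (2 * s) (z - x) * bk (2 * s) (z - y)) := (m1 x).mul (m1 y)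
        rw [lintegral_const_mul _ c1]
      · apply Measurable.aemeasurable
        exact hm3.comp (f := fun w : E3 × E3 => ((w.1, x), w.2)) (by fun_prop)
    · apply Measurable.aemeasurable
      exact hm3.lintegral_prod_right'
  rw [e2, ← lintegral_const_mul' _ _ hv]
  apply lintegral_mono
  intro x
  simp only
  rw [← lintegral_const_mul' _ _ hv]
  apply lintegral_mono
  intro y
  simp only
  have h3 : volume (ball (0 : E3) s) * bk s (x - y) ≤ ∫⁻ z, bk (2 * s) (z - x) * bk (2 * s) (z - y) := by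
    by_cases hxy : ‖x - y‖ < s
    · have : bk s (x - y) = 1 := by unfold bk; rw [if_pos hxy]
      rw [this, mul_one, ← lint_bk, ← lintegral_sub_right_eq_self (bk s) x]
      apply lintegral_mono
      intro z
      simp only
      by_cases hz : ‖z - x‖ < s
      · have h0 : 0 ≤ ‖z - x‖ := norm_nonneg _
        have h1 : ‖z - x‖ < 2 * s := by linarith
        have h2 : ‖z - y‖ < 2 * s := by
          calc ‖z - y‖ = ‖(z - x) + (x - y)‖ := by congr 1; abel
            _ ≤ ‖z - x‖ + ‖x - y‖ := norm_add_le _ _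
            _ < _ := by linarith
        unfold bk
        rw [if_pos hz, if_pos h1, if_pos h2, one_mul]
      · unfold bk
        rw [if_neg hz]
        exact zero_le
    · have : bk s (x - y) = 0 := by unfold bk; rw [if_neg hxy]
      rw [this, mul_zero]
      exact zero_le
  calc volume (ball (0 : E3) s) * (a x * b y * bk s (x - y)) =
      (a x * b y) * (volume (ball (0 : E3) s) * bk s (x - y)) := by ring
    _ ≤ _ := by gcongr

/-- interpolation of integrals of powers -/
lemma lyap {α : Type*} [MeasurableSpace α] (μ : Measure α) (h : α → ENNReal) (hm : Measurable h) (p θ : ℝ)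
    (hp : 0 ≤ p) (h0 : 0 ≤ θ) (h1 : θ ≤ 1) :
    ∫⁻ a, h a ^ (θ + (1 - θ) * p) ∂μ ≤ (∫⁻ a, h a ∂μ) ^ θ * (∫⁻ a, h a ^ p ∂μ) ^ (1 - θ) := by
  have h2 : 0 ≤ 1 - θ := by linarith
  have h3 := ENNReal.lintegral_mul_norm_pow_le (μ := μ) (f := h) (g := fun a => h a ^ p)
    hm.aemeasurable (hm.pow_const p).aemeasurable h0 h2 (by ring)
  refine le_trans (le_of_eq ?_) h3
  apply lintegral_congr
  intro a
  rw [← ENNReal.rpow_mul, ← ENNReal.rpow_add_of_nonneg _ _ h0 (by positivity)]
  congr 1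
  ring

lemma two_lyap {α : Type*} [MeasurableSpace α] (μ : Measure α) (h : α → ENNReal) (hm : Measurable h) (p : ℝ)
    (hp : 3 ≤ p) :
    (∫⁻ a, h a ^ 2 ∂μ) * (∫⁻ a, h a ^ (p - 2) ∂μ) ≤
      ((∫⁻ a, h a ∂μ) ^ p) ^ (1 / (p - 1)) * (∫⁻ a, h a ^ p ∂μ) ^ ((p - 2) / (p - 1)) := by
  have hp1 : 0 < p - 1 := by linarith
  have a1 := lyap μ h hm p ((p - 2) / (p - 1)) (by linarith) (div_nonneg (by linarith) hp1.le)
    (by rw [div_le_one hp1]; linarith)
  have a2 := lyap μ h hm p (2 / (p - 1)) (by linarith) (by positivity)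
    (by rw [div_le_one hp1]; linarith)
  have e1 : (p - 2) / (p - 1) + (1 - (p - 2) / (p - 1)) * p = 2 := by field_simp; ring
  have e2 : 2 / (p - 1) + (1 - 2 / (p - 1)) * p = p - 2 := by field_simp; ring
  rw [e1] at a1
  rw [e2] at a2
  have e3 : ∀ c : ENNReal, c ^ (2 : ℝ) = c ^ 2 := fun c => by
    rw [← ENNReal.rpow_natCast]; norm_num
  simp_rw [e3] at a1
  refine (mul_le_mul' a1 a2).trans (le_of_eq ?_)
  set A := ∫⁻ a, h a ∂μ
  set B := ∫⁻ a, h a ^ p ∂μ
  calc A ^ ((p - 2) / (p - 1)) * B ^ (1 - (p - 2) / (p - 1)) * (A ^ (2 / (p - 1)) * B ^ (1 - 2 / (p - 1)))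
      = (A ^ ((p - 2) / (p - 1)) * A ^ (2 / (p - 1))) *
        (B ^ (1 - (p - 2) / (p - 1)) * B ^ (1 - 2 / (p - 1))) := by ring
    _ = _ := by
        rw [← ENNReal.rpow_mul,
          ← ENNReal.rpow_add_of_nonneg _ _ (div_nonneg (by linarith) hp1.le) (by positivity),
          ← ENNReal.rpow_add_of_nonneg _ _ (by
            rw [sub_nonneg, div_le_one hp1]; linarith) (by
            rw [sub_nonneg, div_le_one hp1]; linarith)]
        congr 2
        · field_simp; ring
        · field_simp; ring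

/-- interaction at distances less than `s` -/
lemma mid_ball (h : E3 → ENNReal) (hm : Measurable h) (p : ℝ) (hp : 3 ≤ p) (s : ℝ) :
    volume (ball (0 : E3) s) * ∫⁻ x, ∫⁻ y, h x ^ 2 * h y ^ (p - 2) * bk s (x - y) ≤
      (∫⁻ z, cv (bk (2 * s)) h z ^ p) ^ (1 / (p - 1)) *
        (volume (ball (0 : E3) (2 * s)) * ∫⁻ y, h y ^ p) ^ ((p - 2) / (p - 1)) := by
  have hp1 : 0 < p - 1 := by linarith
  have hb2 := bk_meas (2 * s)
  refine (pair_ball (fun x => h x ^ 2) (fun y => h y ^ (p - 2)) (hm.pow_const 2) (hm.pow_const _) s).trans ?_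
  have h1 : ∀ z, cv (bk (2 * s)) (fun x => h x ^ 2) z * cv (bk (2 * s)) (fun y => h y ^ (p - 2)) z ≤
      (cv (bk (2 * s)) h z ^ p) ^ (1 / (p - 1)) * (cv (bk (2 * s)) (fun y => h y ^ p) z) ^ ((p - 2) / (p - 1)) := by
    intro z
    have e : ∀ g : E3 → ENNReal, Measurable g → cv (bk (2 * s)) g z =
        ∫⁻ y, g y ∂(volume.withDensity (fun y => bk (2 * s) (z - y))) := by
      intro g hg
      have c1 : Measurable (fun y => bk (2 * s) (z - y)) := hb2.comp (by fun_prop)
      rw [lintegral_withDensity_eq_lintegral_mul _ c1 hg]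
      rfl
    rw [e _ (hm.pow_const 2), e _ (hm.pow_const (p - 2)), e _ hm, e _ (hm.pow_const p)]
    exact two_lyap _ h hm p hp
  refine (lintegral_mono h1).trans ?_
  have h2 := ENNReal.lintegral_mul_norm_pow_le (μ := (volume : Measure E3))
    (f := fun z => cv (bk (2 * s)) h z ^ p) (g := fun z => cv (bk (2 * s)) (fun y => h y ^ p) z)
    ((cv_meas _ _ hb2 hm).pow_const p).aemeasurable (cv_meas _ _ hb2 (hm.pow_const p)).aemeasurable
    (p := 1 / (p - 1)) (q := (p - 2) / (p - 1)) (by positivity) (div_nonneg (by linarith) hp1.le)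
    (by field_simp; ring)
  refine h2.trans (le_of_eq ?_)
  rw [cv_lint _ _ hb2 (hm.pow_const p), lint_bk]

/-- crude bound for a convolution type interaction -/
lemma near_ball (k h : E3 → ENNReal) (hk : Measurable k) (hm : Measurable h) (p : ℝ)
    (hp : 3 ≤ p) :
    ∫⁻ x, ∫⁻ y, h x ^ 2 * h y ^ (p - 2) * k (x - y) ≤ 2 * ((∫⁻ z, k z) * ∫⁻ y, h y ^ p) := by
  have key : ∀ a b : ENNReal, a ^ 2 * b ^ (p - 2) ≤ a ^ p + b ^ p := by
    intro a b
    have e : ∀ c : ENNReal, c ^ p = c ^ 2 * c ^ (p - 2) := by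
      intro c
      rw [← ENNReal.rpow_natCast, ← ENNReal.rpow_add_of_nonneg _ _ (by norm_num) (by linarith)]
      congr 1
      push_cast
      ring
    rcases le_total a b with h | h
    · calc a ^ 2 * b ^ (p - 2) ≤ b ^ 2 * b ^ (p - 2) := by gcongr
        _ = b ^ p := (e b).symm
        _ ≤ _ := le_add_self
    · calc a ^ 2 * b ^ (p - 2) ≤ a ^ 2 * a ^ (p - 2) := by
            gcongr
            linarith
        _ = a ^ p := (e a).symm
        _ ≤ _ := le_self_add
  have hkm : Measurable (fun w : E3 × E3 => k (w.1 - w.2)) := hk.comp (by fun_prop)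
  have hkx : ∀ x : E3, Measurable (fun y => k (x - y)) := fun x => hk.comp (by fun_prop)
  calc ∫⁻ x, ∫⁻ y, h x ^ 2 * h y ^ (p - 2) * k (x - y)
      ≤ ∫⁻ x, ∫⁻ y, (h x ^ p * k (x - y) + k (x - y) * h y ^ p) := by
        gcongr with x y
        calc h x ^ 2 * h y ^ (p - 2) * k (x - y) ≤ (h x ^ p + h y ^ p) * k (x - y) := by
              gcongr
              exact key _ _
          _ = _ := by ring
    _ = ∫⁻ x, ((∫⁻ z, k z) * h x ^ p + cv k (fun y => h y ^ p) x) := by
        apply lintegral_congr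
        intro x
        rw [lintegral_add_left ((hkx x).const_mul _), lintegral_const_mul _ (hkx x),
          lintegral_sub_left_eq_self (fun z => k z) x, mul_comm]
        rfl
    _ = _ := by
        rw [lintegral_add_left ((hm.pow_const p).const_mul _), lintegral_const_mul _ (hm.pow_const p),
          cv_lint k _ hk (hm.pow_const p)]
        ring

/-- the singular kernel on a ball -/
lemma lint_sing (r : ℝ) (hr : 0 < r) :
    ∫⁻ z, bk r z * (‖z‖ₑ ^ 2)⁻¹ = ENNReal.ofReal (4 * Real.pi * r) := by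
  have hpi := Real.pi_pos
  have hm : Measurable (fun z : E3 => bk r z * (‖z‖ₑ ^ 2)⁻¹) := by
    have := bk_meas r
    fun_prop
  rw [polar_lint _ hm]
  have e : ∀ ω : sphere (0 : E3) 1, ∫⁻ s in Ioi (0 : ℝ), ENNReal.ofReal (s ^ 2) *
      (bk r (s • (ω : E3)) * (‖s • (ω : E3)‖ₑ ^ 2)⁻¹) = ENNReal.ofReal r := by
    intro ω
    have hω : ‖(ω : E3)‖ = 1 := by simp
    have e1 : ∀ s ∈ Ioi (0 : ℝ), ENNReal.ofReal (s ^ 2) * (bk r (s • (ω : E3)) * (‖s • (ω : E3)‖ₑ ^ 2)⁻¹) =
        (Ioo 0 r).indicator (fun _ => (1 : ENNReal)) s := by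
      intro s hs
      have hs0 : (0 : ℝ) < s := hs
      have hn : ‖s • (ω : E3)‖ = s := by rw [norm_smul, hω, mul_one, Real.norm_eq_abs, abs_of_pos hs0]
      have hne : ‖s • (ω : E3)‖ₑ = ENNReal.ofReal s := by rw [← ofReal_norm, hn]
      have hc : ENNReal.ofReal (s ^ 2) * (ENNReal.ofReal (s ^ 2))⁻¹ = 1 :=
        ENNReal.mul_inv_cancel (by simp [hs0.ne']) (by simp)
      rw [hne, ← ENNReal.ofReal_pow hs0.le]
      unfold bk
      rw [hn]
      by_cases h : s < r
      · rw [if_pos h, one_mul, hc, Set.indicator_of_mem (show s ∈ Ioo 0 r from ⟨hs0, h⟩)]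
      · rw [if_neg h, zero_mul, mul_zero, Set.indicator_of_notMem (fun hh => h hh.2)]
    rw [setLIntegral_congr_fun measurableSet_Ioi e1, lintegral_indicator measurableSet_Ioo,
      Measure.restrict_restrict measurableSet_Ioo]
    have : Ioo 0 r ∩ Ioi (0 : ℝ) = Ioo 0 r := by
      ext s
      simp only [mem_inter_iff, mem_Ioo, mem_Ioi]
      tauto
    rw [this]
    simp
  simp_rw [e]
  rw [lintegral_const, sg_univ, ← ENNReal.ofReal_mul hr.le]
  congr 1
  ring

/-- dyadic decomposition of the singular kernel -/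
lemma kdec (j : ℕ) (z : E3) : (‖z‖ₑ ^ 2)⁻¹ ≤
    1 + (∑ k ∈ Finset.range j, (4 : ENNReal) ^ (k + 1) * bk ((1 / 2) ^ k) z) +
      bk ((1 / 2) ^ j) z * (‖z‖ₑ ^ 2)⁻¹ := by
  have hsm : ∀ n : ℕ, ¬ ‖z‖ < (1 / 2 : ℝ) ^ n → (‖z‖ₑ ^ 2)⁻¹ ≤ (4 : ENNReal) ^ n := by
    intro n hn
    rw [not_lt] at hn
    have h1 : ENNReal.ofReal ((1 / 2 : ℝ) ^ n) ≤ ‖z‖ₑ := by
      rw [← ofReal_norm]
      exact ENNReal.ofReal_le_ofReal hn
    have h2 : ((ENNReal.ofReal ((1 / 2 : ℝ) ^ n)) ^ 2)⁻¹ = (4 : ENNReal) ^ n := by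
      rw [← ENNReal.ofReal_pow (by positivity), ← ENNReal.ofReal_inv_of_pos (by positivity)]
      have : (((1 / 2 : ℝ) ^ n) ^ 2)⁻¹ = 4 ^ n := by
        rw [← pow_mul, mul_comm, pow_mul, ← inv_pow]
        norm_num
      rw [this, ENNReal.ofReal_pow (by norm_num)]
      norm_num
    rw [← h2]
    gcongr
  induction j with
  | zero =>
    simp only [Finset.range_zero, Finset.sum_empty, add_zero, pow_zero]
    by_cases h : ‖z‖ < 1
    · have : bk 1 z = 1 := by unfold bk; rw [if_pos h]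
      rw [this, one_mul]
      exact le_add_self
    · have := hsm 0 (by simpa using h)
      rw [pow_zero] at this
      exact this.trans le_self_add
  | succ j ih =>
    refine ih.trans ?_
    rw [Finset.sum_range_succ]
    have h1 : bk ((1 / 2) ^ j) z * (‖z‖ₑ ^ 2)⁻¹ ≤ (4 : ENNReal) ^ (j + 1) * bk ((1 / 2) ^ j) z +
        bk ((1 / 2) ^ (j + 1)) z * (‖z‖ₑ ^ 2)⁻¹ := by
      by_cases h2 : ‖z‖ < (1 / 2 : ℝ) ^ j
      · have e : bk ((1 / 2) ^ j) z = 1 := by unfold bk; rw [if_pos h2]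
        rw [e, one_mul, mul_one]
        by_cases h3 : ‖z‖ < (1 / 2 : ℝ) ^ (j + 1)
        · have e2 : bk ((1 / 2) ^ (j + 1)) z = 1 := by unfold bk; rw [if_pos h3]
          rw [e2, one_mul]
          exact le_add_self
        · exact (hsm (j + 1) h3).trans le_self_add
      · have e : bk ((1 / 2) ^ j) z = 0 := by unfold bk; rw [if_neg h2]
        rw [e, zero_mul]
        exact zero_le
    calc _ ≤ 1 + (∑ k ∈ Finset.range j, (4 : ENNReal) ^ (k + 1) * bk ((1 / 2) ^ k) z) +
          ((4 : ENNReal) ^ (j + 1) * bk ((1 / 2) ^ j) z + bk ((1 / 2) ^ (j + 1)) z * (‖z‖ₑ ^ 2)⁻¹) := by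
          gcongr
      _ = _ := by ring

end Pool.Agent.H79.Wave
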