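import Mathlib
import Pool.Agent.H79.Wave.OSC

/-!
The bound for the interaction integral at a dyadic scale.
-/

set_option autoImplicit false

namespace Pool.Agent.H79.Wave

open MeasureTheory Set Metric Filter Topology

/-- the real inequality behind the bound at distance `ρ` -/
lemma real_mid (p a ε ρ r : ℝ) (hp : 3 ≤ p) (hr : 0 < r) (hrρ : r ≤ ρ) (hρ : ρ ≤ 1)
    (h1 : ε ≤ 2 - a * p * ((p - 2) / (p - 1))) (h2 : ε ≤ 3 - a * p) :
    r ^ 2 * ((4 * (ρ ^ 2)⁻¹) * ((ρ ^ 3)⁻¹ * ((ρ ^ ((3 - a) * p)) ^ (1 / (p - 1)) *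
      (64 * ρ ^ 3 * r ^ (-(a * p))) ^ ((p - 2) / (p - 1))))) ≤ 256 * r ^ ε := by
  have hρ0 : 0 < ρ := lt_of_lt_of_le hr hrρ
  have hp1 : 0 < p - 1 := by linarith
  have hβ0 : 0 ≤ (p - 2) / (p - 1) := div_nonneg (by linarith) hp1.le
  have hβ1 : (p - 2) / (p - 1) ≤ 1 := by rw [div_le_one hp1]; linarith
  set β := (p - 2) / (p - 1) with hβ
  have e0 : r ^ 2 = r ^ (2 : ℝ) := by rw [← Real.rpow_natCast]; norm_num
  have e1 : (ρ ^ 2)⁻¹ = ρ ^ (-2 : ℝ) := by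
    rw [Real.rpow_neg hρ0.le, ← Real.rpow_natCast]; norm_num
  have e2 : (ρ ^ 3)⁻¹ = ρ ^ (-3 : ℝ) := by
    rw [Real.rpow_neg hρ0.le, ← Real.rpow_natCast]; norm_num
  have e3 : (ρ ^ ((3 - a) * p)) ^ (1 / (p - 1)) = ρ ^ ((3 - a) * p * (1 / (p - 1))) := by
    rw [← Real.rpow_mul hρ0.le]
  have e4 : (64 * ρ ^ 3 * r ^ (-(a * p))) ^ β = 64 ^ β * (ρ ^ (3 * β) * r ^ (-(a * p) * β)) := by
    rw [Real.mul_rpow (by positivity) (by positivity), Real.mul_rpow (by norm_num) (by positivity),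
      ← Real.rpow_mul hr.le, ← Real.rpow_natCast ρ 3, ← Real.rpow_mul hρ0.le]
    push_cast
    ring
  have e5 : (64 : ℝ) ^ β ≤ 64 := by
    calc (64 : ℝ) ^ β ≤ 64 ^ (1 : ℝ) := Real.rpow_le_rpow_of_exponent_le (by norm_num) hβ1
      _ = 64 := Real.rpow_one _
  set e : ℝ := 1 - a * p / (p - 1) with he
  have e6 : ρ ^ (-2 : ℝ) * (ρ ^ (-3 : ℝ) * (ρ ^ ((3 - a) * p * (1 / (p - 1))) * ρ ^ (3 * β))) = ρ ^ e := by
    rw [← Real.rpow_add hρ0, ← Real.rpow_add hρ0, ← Real.rpow_add hρ0]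
    congr 1
    rw [hβ, he]
    field_simp
    ring
  have e7 : r ^ (2 : ℝ) * r ^ (-(a * p) * β) = r ^ (2 - a * p * β) := by
    rw [← Real.rpow_add hr]
    congr 1
    ring
  have e8 : ρ ^ e * r ^ (2 - a * p * β) ≤ r ^ ε := by
    have hr1 : r ≤ 1 := hrρ.trans hρ
    rcases le_total 0 e with h | h
    · calc ρ ^ e * r ^ (2 - a * p * β) ≤ 1 * r ^ ε := by
            apply mul_le_mul (Real.rpow_le_one hρ0.le hρ h) _ (by positivity) (by norm_num)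
            exact Real.rpow_le_rpow_of_exponent_ge hr hr1 h1
        _ = _ := one_mul _
    · calc ρ ^ e * r ^ (2 - a * p * β) ≤ r ^ e * r ^ (2 - a * p * β) :=
            mul_le_mul_of_nonneg_right (Real.rpow_le_rpow_of_nonpos hr hrρ h) (by positivity)
        _ = r ^ (3 - a * p) := by
            rw [← Real.rpow_add hr]
            congr 1
            rw [he, hβ]
            field_simp
            ring
        _ ≤ _ := Real.rpow_le_rpow_of_exponent_ge hr hr1 h2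
  rw [e0, e1, e2, e3, e4]
  calc r ^ (2 : ℝ) * ((4 * ρ ^ (-2 : ℝ)) * (ρ ^ (-3 : ℝ) * (ρ ^ ((3 - a) * p * (1 / (p - 1))) *
        (64 ^ β * (ρ ^ (3 * β) * r ^ (-(a * p) * β))))))
      = 4 * 64 ^ β * ((ρ ^ (-2 : ℝ) * (ρ ^ (-3 : ℝ) * (ρ ^ ((3 - a) * p * (1 / (p - 1))) * ρ ^ (3 * β)))) *
        (r ^ (2 : ℝ) * r ^ (-(a * p) * β))) := by ring
    _ = 4 * 64 ^ β * (ρ ^ e * r ^ (2 - a * p * β)) := by rw [e6, e7]
    _ ≤ 4 * 64 * r ^ ε := by gcongr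
    _ = _ := by ring

lemma vol_ball_eq (s : ℝ) (hs : 0 ≤ s) : volume (ball (0 : E3) s) = ENNReal.ofReal (s ^ 3 * (Real.pi * 4 / 3)) := by
  rw [EuclideanSpace.volume_ball_fin_three, ENNReal.ofReal_mul (by positivity), ENNReal.ofReal_pow hs]

/-- contribution of the pairs of points at distance about `ρ` -/
lemma mid_bound (h : E3 → ENNReal) (hm : Measurable h) (p a ε ρ r : ℝ) (hp : 3 ≤ p) (hr : 0 < r) (hrρ : r ≤ ρ)
    (hρ : ρ ≤ 1) (h1 : ε ≤ 2 - a * p * ((p - 2) / (p - 1))) (h2 : ε ≤ 3 - a * p) (M : ENNReal)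
    (H2 : ∫⁻ y, h y ^ p ≤ ENNReal.ofReal (r ^ (-(a * p))) * M)
    (H3 : ∫⁻ z, cv (bk (2 * ρ)) h z ^ p ≤ ENNReal.ofReal (ρ ^ ((3 - a) * p)) * M) :
    ENNReal.ofReal (r ^ 2) * (ENNReal.ofReal (4 * (ρ ^ 2)⁻¹) *
      ∫⁻ x, ∫⁻ y, h x ^ 2 * h y ^ (p - 2) * bk ρ (x - y)) ≤ ENNReal.ofReal (256 * r ^ ε) * M := by
  have hpi := Real.pi_pos
  have hpi3 := Real.pi_gt_three
  have hpi4 := Real.pi_le_four
  have hρ0 : 0 < ρ := lt_of_lt_of_le hr hrρ
  have hp1 : 0 < p - 1 := by linarith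
  have hα0 : 0 ≤ 1 / (p - 1) := by positivity
  have hβ0 : 0 ≤ (p - 2) / (p - 1) := div_nonneg (by linarith) hp1.le
  have hαβ : 1 / (p - 1) + (p - 2) / (p - 1) = 1 := by field_simp; ring
  set I := ∫⁻ x, ∫⁻ y, h x ^ 2 * h y ^ (p - 2) * bk ρ (x - y) with hI
  have hmid := mid_ball h hm p hp ρ
  rw [← hI, vol_ball_eq ρ hρ0.le, vol_ball_eq (2 * ρ) (by positivity)] at hmid
  have b1 : I ≤ ENNReal.ofReal ((ρ ^ 3)⁻¹) * (ENNReal.ofReal (ρ ^ 3 * (Real.pi * 4 / 3)) * I) := by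
    rw [← mul_assoc, ← ENNReal.ofReal_mul (by positivity)]
    have : (ρ ^ 3)⁻¹ * (ρ ^ 3 * (Real.pi * 4 / 3)) = Real.pi * 4 / 3 := by field_simp
    rw [this]
    calc I = 1 * I := (one_mul _).symm
      _ ≤ _ := by
        gcongr
        rw [← ENNReal.ofReal_one]
        apply ENNReal.ofReal_le_ofReal
        linarith
  have b2 : (∫⁻ z, cv (bk (2 * ρ)) h z ^ p) ^ (1 / (p - 1)) ≤
      ENNReal.ofReal ((ρ ^ ((3 - a) * p)) ^ (1 / (p - 1))) * M ^ (1 / (p - 1)) := by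
    calc _ ≤ (ENNReal.ofReal (ρ ^ ((3 - a) * p)) * M) ^ (1 / (p - 1)) := ENNReal.rpow_le_rpow H3 hα0
      _ = _ := by
        rw [ENNReal.mul_rpow_of_nonneg _ _ hα0, ENNReal.ofReal_rpow_of_pos (by positivity)]
  have b3 : (ENNReal.ofReal ((2 * ρ) ^ 3 * (Real.pi * 4 / 3)) * ∫⁻ y, h y ^ p) ^ ((p - 2) / (p - 1)) ≤
      ENNReal.ofReal ((64 * ρ ^ 3 * r ^ (-(a * p))) ^ ((p - 2) / (p - 1))) * M ^ ((p - 2) / (p - 1)) := by
    calc _ ≤ (ENNReal.ofReal (64 * ρ ^ 3) * (ENNReal.ofReal (r ^ (-(a * p))) * M)) ^ ((p - 2) / (p - 1)) := by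
          apply ENNReal.rpow_le_rpow _ hβ0
          apply mul_le_mul' (ENNReal.ofReal_le_ofReal _) H2
          have : 0 < ρ ^ 3 := by positivity
          nlinarith
      _ = _ := by
        rw [← mul_assoc, ← ENNReal.ofReal_mul (by positivity), ENNReal.mul_rpow_of_nonneg _ _ hβ0,
          ENNReal.ofReal_rpow_of_pos (by positivity)]
  calc ENNReal.ofReal (r ^ 2) * (ENNReal.ofReal (4 * (ρ ^ 2)⁻¹) * I)
      ≤ ENNReal.ofReal (r ^ 2) * (ENNReal.ofReal (4 * (ρ ^ 2)⁻¹) * (ENNReal.ofReal ((ρ ^ 3)⁻¹) *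
        ((ENNReal.ofReal ((ρ ^ ((3 - a) * p)) ^ (1 / (p - 1))) * M ^ (1 / (p - 1))) *
        (ENNReal.ofReal ((64 * ρ ^ 3 * r ^ (-(a * p))) ^ ((p - 2) / (p - 1))) * M ^ ((p - 2) / (p - 1)))))) := by
        apply mul_le_mul' le_rfl
        apply mul_le_mul' le_rfl
        refine b1.trans ?_
        apply mul_le_mul' le_rfl
        exact hmid.trans (mul_le_mul' b2 b3)
    _ = (ENNReal.ofReal (r ^ 2) * (ENNReal.ofReal (4 * (ρ ^ 2)⁻¹) * (ENNReal.ofReal ((ρ ^ 3)⁻¹) *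
        (ENNReal.ofReal ((ρ ^ ((3 - a) * p)) ^ (1 / (p - 1))) *
        ENNReal.ofReal ((64 * ρ ^ 3 * r ^ (-(a * p))) ^ ((p - 2) / (p - 1))))))) *
        (M ^ (1 / (p - 1)) * M ^ ((p - 2) / (p - 1))) := by ring
    _ = ENNReal.ofReal (r ^ 2 * ((4 * (ρ ^ 2)⁻¹) * ((ρ ^ 3)⁻¹ * ((ρ ^ ((3 - a) * p)) ^ (1 / (p - 1)) *
      (64 * ρ ^ 3 * r ^ (-(a * p))) ^ ((p - 2) / (p - 1)))))) * M := by
        rw [← ENNReal.rpow_add_of_nonneg _ _ hα0 hβ0, hαβ, ENNReal.rpow_one,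
          ← ENNReal.ofReal_mul (by positivity), ← ENNReal.ofReal_mul (by positivity),
          ← ENNReal.ofReal_mul (by positivity), ← ENNReal.ofReal_mul (by positivity)]
    _ ≤ _ := by
        apply mul_le_mul' (ENNReal.ofReal_le_ofReal _) le_rfl
        exact real_mid p a ε ρ r hp hr hrρ hρ h1 h2

/-- the bound for the interaction integral at the dyadic scale `2^{-j}` -/
theorem dyadic_bound (h : E3 → ENNReal) (hm : Measurable h) (p a ε : ℝ) (j : ℕ) (hp : 3 ≤ p)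
    (h1 : ε ≤ 2 - a * p * ((p - 2) / (p - 1))) (h2 : ε ≤ 3 - a * p) (M : ENNReal)
    (H1 : (∫⁻ y, h y) ^ p ≤ M)
    (H2 : ∫⁻ y, h y ^ p ≤ ENNReal.ofReal (((1 / 2 : ℝ) ^ j) ^ (-(a * p))) * M)
    (H3 : ∀ k : ℕ, k < j → ∫⁻ z, cv (bk (2 * (1 / 2) ^ k)) h z ^ p ≤
      ENNReal.ofReal (((1 / 2 : ℝ) ^ k) ^ ((3 - a) * p)) * M) :
    ENNReal.ofReal (((1 / 2 : ℝ) ^ j) ^ 2) * ∫⁻ x, ∫⁻ y, h x ^ 2 * h y ^ (p - 2) * (‖x - y‖ₑ ^ 2)⁻¹ ≤
      ENNReal.ofReal (283 * (j + 1) * ((1 / 2 : ℝ) ^ j) ^ ε) * M := by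
  have hpi := Real.pi_pos
  have hpi4 := Real.pi_lt_d2
  set r : ℝ := (1 / 2 : ℝ) ^ j with hr
  have hr0 : 0 < r := by positivity
  have hr1 : r ≤ 1 := pow_le_one₀ (by norm_num) (by norm_num)
  have hp1 : 0 < p - 1 := by linarith
  have hα0 : 0 ≤ 1 / (p - 1) := by positivity
  have hβ0 : 0 ≤ (p - 2) / (p - 1) := div_nonneg (by linarith) hp1.le
  have hαβ : 1 / (p - 1) + (p - 2) / (p - 1) = 1 := by field_simp; ring
  have hm2 : Measurable (fun w : E3 × E3 => h w.1 ^ 2 * h w.2 ^ (p - 2)) := by fun_prop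
  have hbm := bk_meas
  -- far part
  have far : ENNReal.ofReal (r ^ 2) * ∫⁻ x, ∫⁻ y, h x ^ 2 * h y ^ (p - 2) ≤ ENNReal.ofReal (r ^ ε) * M := by
    have e1 : ∫⁻ x, ∫⁻ y, h x ^ 2 * h y ^ (p - 2) = (∫⁻ x, h x ^ 2) * ∫⁻ y, h y ^ (p - 2) := by
      have : ∀ x, ∫⁻ y, h x ^ 2 * h y ^ (p - 2) = h x ^ 2 * ∫⁻ y, h y ^ (p - 2) := fun x =>
        lintegral_const_mul _ (hm.pow_const _)
      simp_rw [this]
      rw [lintegral_mul_const _ (hm.pow_const 2)]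
    rw [e1]
    calc ENNReal.ofReal (r ^ 2) * ((∫⁻ x, h x ^ 2) * ∫⁻ y, h y ^ (p - 2))
        ≤ ENNReal.ofReal (r ^ 2) * (M ^ (1 / (p - 1)) *
          (ENNReal.ofReal (r ^ (-(a * p))) * M) ^ ((p - 2) / (p - 1))) := by
          apply mul_le_mul' le_rfl
          refine (two_lyap volume h hm p hp).trans ?_
          exact mul_le_mul' (ENNReal.rpow_le_rpow H1 hα0) (ENNReal.rpow_le_rpow H2 hβ0)
      _ = ENNReal.ofReal (r ^ 2 * (r ^ (-(a * p))) ^ ((p - 2) / (p - 1))) *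
          (M ^ (1 / (p - 1)) * M ^ ((p - 2) / (p - 1))) := by
          rw [ENNReal.mul_rpow_of_nonneg _ _ hβ0, ENNReal.ofReal_rpow_of_pos (by positivity),
            ENNReal.ofReal_mul (by positivity)]
          ring
      _ = ENNReal.ofReal (r ^ (2 - a * p * ((p - 2) / (p - 1)))) * M := by
          rw [← ENNReal.rpow_add_of_nonneg _ _ hα0 hβ0, hαβ, ENNReal.rpow_one]
          congr 2
          have e0 : r ^ 2 = r ^ (2 : ℝ) := by rw [← Real.rpow_natCast]; norm_num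
          rw [← Real.rpow_mul hr0.le, e0, ← Real.rpow_add hr0]
          congr 1
          ring
      _ ≤ _ := by
          apply mul_le_mul' (ENNReal.ofReal_le_ofReal _) le_rfl
          exact Real.rpow_le_rpow_of_exponent_ge hr0 hr1 h1
  -- near part
  have near : ENNReal.ofReal (r ^ 2) * ∫⁻ x, ∫⁻ y, h x ^ 2 * h y ^ (p - 2) * (bk r (x - y) * (‖x - y‖ₑ ^ 2)⁻¹) ≤
      ENNReal.ofReal (26 * r ^ ε) * M := by
    have hkm : Measurable (fun z : E3 => bk r z * (‖z‖ₑ ^ 2)⁻¹) := by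
      have := hbm r
      fun_prop
    have h3 := near_ball (fun z => bk r z * (‖z‖ₑ ^ 2)⁻¹) h hkm hm p hp
    rw [lint_sing r hr0] at h3
    calc _ ≤ ENNReal.ofReal (r ^ 2) * (2 * (ENNReal.ofReal (4 * Real.pi * r) *
          (ENNReal.ofReal (r ^ (-(a * p))) * M))) := by
          apply mul_le_mul' le_rfl
          refine h3.trans ?_
          gcongr
      _ = ENNReal.ofReal (8 * Real.pi * (r ^ 2 * r * r ^ (-(a * p)))) * M := by
          rw [show (2 : ENNReal) = ENNReal.ofReal 2 by simp]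
          rw [← mul_assoc (ENNReal.ofReal (4 * Real.pi * r)), ← mul_assoc, ← mul_assoc,
            ← ENNReal.ofReal_mul (by positivity), ← ENNReal.ofReal_mul (by positivity),
            ← ENNReal.ofReal_mul (by positivity)]
          congr 2
          ring
      _ ≤ _ := by
          apply mul_le_mul' (ENNReal.ofReal_le_ofReal _) le_rfl
          have e0 : r ^ 2 * r * r ^ (-(a * p)) = r ^ (3 - a * p) := by
            have : r ^ 2 * r = r ^ (3 : ℝ) := by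
              rw [← pow_succ, ← Real.rpow_natCast]; norm_num
            rw [this, ← Real.rpow_add hr0]
            congr 1
          rw [e0]
          have e1 : r ^ (3 - a * p) ≤ r ^ ε := Real.rpow_le_rpow_of_exponent_ge hr0 hr1 h2
          have e2 : 0 < r ^ ε := by positivity
          have e3 : 0 < r ^ (3 - a * p) := by positivity
          calc 8 * Real.pi * r ^ (3 - a * p) ≤ 26 * r ^ (3 - a * p) := by
                apply mul_le_mul_of_nonneg_right _ e3.le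
                linarith
            _ ≤ _ := by linarith
  -- middle part
  have mid : ∀ k ∈ Finset.range j, ENNReal.ofReal (r ^ 2) * ∫⁻ x, ∫⁻ y, h x ^ 2 * h y ^ (p - 2) *
      ((4 : ENNReal) ^ (k + 1) * bk ((1 / 2) ^ k) (x - y)) ≤ ENNReal.ofReal (256 * r ^ ε) * M := by
    intro k hk
    rw [Finset.mem_range] at hk
    have hρ0 : (0 : ℝ) < (1 / 2) ^ k := by positivity
    have e4 : (4 : ENNReal) ^ (k + 1) = ENNReal.ofReal (4 * (((1 / 2 : ℝ) ^ k) ^ 2)⁻¹) := by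
      have : 4 * (((1 / 2 : ℝ) ^ k) ^ 2)⁻¹ = 4 ^ (k + 1) := by
        rw [← pow_mul, mul_comm k 2, pow_mul, ← inv_pow, pow_succ]
        norm_num
        ring
      rw [this, ENNReal.ofReal_pow (by norm_num)]
      norm_num
    have e5 : ∫⁻ x, ∫⁻ y, h x ^ 2 * h y ^ (p - 2) * ((4 : ENNReal) ^ (k + 1) * bk ((1 / 2) ^ k) (x - y)) =
        ENNReal.ofReal (4 * (((1 / 2 : ℝ) ^ k) ^ 2)⁻¹) *
          ∫⁻ x, ∫⁻ y, h x ^ 2 * h y ^ (p - 2) * bk ((1 / 2) ^ k) (x - y) := by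
      rw [e4]
      simp_rw [← lintegral_const_mul' _ _ ENNReal.ofReal_ne_top]
      apply lintegral_congr; intro x
      apply lintegral_congr; intro y
      ring
    rw [e5]
    exact mid_bound h hm p a ε ((1 / 2) ^ k) r hp hr0
      (pow_le_pow_of_le_one (by norm_num) (by norm_num) hk.le) (pow_le_one₀ (by norm_num) (by norm_num))
      h1 h2 M H2 (H3 k hk)
  -- assembling
  have step : ∫⁻ x, ∫⁻ y, h x ^ 2 * h y ^ (p - 2) * (‖x - y‖ₑ ^ 2)⁻¹ ≤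
      (∫⁻ x, ∫⁻ y, h x ^ 2 * h y ^ (p - 2)) +
      (∑ k ∈ Finset.range j, ∫⁻ x, ∫⁻ y, h x ^ 2 * h y ^ (p - 2) *
        ((4 : ENNReal) ^ (k + 1) * bk ((1 / 2) ^ k) (x - y))) +
      ∫⁻ x, ∫⁻ y, h x ^ 2 * h y ^ (p - 2) * (bk r (x - y) * (‖x - y‖ₑ ^ 2)⁻¹) := by
    have mA : ∀ x, Measurable (fun y => h x ^ 2 * h y ^ (p - 2)) := fun x => by fun_prop
    have mB : ∀ (k : ℕ), Measurable (fun w : E3 × E3 => h w.1 ^ 2 * h w.2 ^ (p - 2) *
        ((4 : ENNReal) ^ (k + 1) * bk ((1 / 2) ^ k) (w.1 - w.2))) := by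
      intro k
      have := (hbm ((1 / 2) ^ k)).comp (f := fun w : E3 × E3 => w.1 - w.2) (by fun_prop)
      exact hm2.mul (this.const_mul _)
    have mBx : ∀ (k : ℕ) (x : E3), Measurable (fun y => h x ^ 2 * h y ^ (p - 2) *
        ((4 : ENNReal) ^ (k + 1) * bk ((1 / 2) ^ k) (x - y))) := fun k x =>
      (mB k).comp (f := fun y : E3 => (x, y)) (by fun_prop)
    calc ∫⁻ x, ∫⁻ y, h x ^ 2 * h y ^ (p - 2) * (‖x - y‖ₑ ^ 2)⁻¹
        ≤ ∫⁻ x, ∫⁻ y, ((h x ^ 2 * h y ^ (p - 2) + ∑ k ∈ Finset.range j, h x ^ 2 * h y ^ (p - 2) *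
          ((4 : ENNReal) ^ (k + 1) * bk ((1 / 2) ^ k) (x - y))) +
          h x ^ 2 * h y ^ (p - 2) * (bk r (x - y) * (‖x - y‖ₑ ^ 2)⁻¹)) := by
          gcongr with x y
          calc h x ^ 2 * h y ^ (p - 2) * (‖x - y‖ₑ ^ 2)⁻¹ ≤ h x ^ 2 * h y ^ (p - 2) *
              (1 + (∑ k ∈ Finset.range j, (4 : ENNReal) ^ (k + 1) * bk ((1 / 2) ^ k) (x - y)) +
                bk ((1 / 2) ^ j) (x - y) * (‖x - y‖ₑ ^ 2)⁻¹) := by
                gcongr
                exact kdec j (x - y)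
            _ = _ := by
                rw [mul_add, mul_add, mul_one, Finset.mul_sum]
      _ = ∫⁻ x, (((∫⁻ y, h x ^ 2 * h y ^ (p - 2)) + ∑ k ∈ Finset.range j, ∫⁻ y, h x ^ 2 * h y ^ (p - 2) *
          ((4 : ENNReal) ^ (k + 1) * bk ((1 / 2) ^ k) (x - y))) +
          ∫⁻ y, h x ^ 2 * h y ^ (p - 2) * (bk r (x - y) * (‖x - y‖ₑ ^ 2)⁻¹)) := by
          apply lintegral_congr
          intro x
          rw [lintegral_add_left, lintegral_add_left (mA x), lintegral_finsetSum _ (fun k _ => mBx k x)]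
          exact (mA x).add (Finset.measurable_fun_sum _ (fun k _ => mBx k x))
      _ = _ := by
          rw [lintegral_add_left, lintegral_add_left hm2.lintegral_prod_right',
            lintegral_finsetSum _ (fun k _ => (mB k).lintegral_prod_right')]
          exact hm2.lintegral_prod_right'.add
            (Finset.measurable_fun_sum _ (fun k _ => (mB k).lintegral_prod_right'))
  calc ENNReal.ofReal (r ^ 2) * ∫⁻ x, ∫⁻ y, h x ^ 2 * h y ^ (p - 2) * (‖x - y‖ₑ ^ 2)⁻¹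
      ≤ ENNReal.ofReal (r ^ 2) * ((∫⁻ x, ∫⁻ y, h x ^ 2 * h y ^ (p - 2)) +
      (∑ k ∈ Finset.range j, ∫⁻ x, ∫⁻ y, h x ^ 2 * h y ^ (p - 2) *
        ((4 : ENNReal) ^ (k + 1) * bk ((1 / 2) ^ k) (x - y))) +
      ∫⁻ x, ∫⁻ y, h x ^ 2 * h y ^ (p - 2) * (bk r (x - y) * (‖x - y‖ₑ ^ 2)⁻¹)) := by gcongr
    _ = ENNReal.ofReal (r ^ 2) * (∫⁻ x, ∫⁻ y, h x ^ 2 * h y ^ (p - 2)) +
      (∑ k ∈ Finset.range j, ENNReal.ofReal (r ^ 2) * ∫⁻ x, ∫⁻ y, h x ^ 2 * h y ^ (p - 2) *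
        ((4 : ENNReal) ^ (k + 1) * bk ((1 / 2) ^ k) (x - y))) +
      ENNReal.ofReal (r ^ 2) * ∫⁻ x, ∫⁻ y, h x ^ 2 * h y ^ (p - 2) * (bk r (x - y) * (‖x - y‖ₑ ^ 2)⁻¹) := by
        rw [mul_add, mul_add, Finset.mul_sum]
    _ ≤ ENNReal.ofReal (r ^ ε) * M + (∑ _k ∈ Finset.range j, ENNReal.ofReal (256 * r ^ ε) * M) +
        ENNReal.ofReal (26 * r ^ ε) * M := by
        exact add_le_add (add_le_add far (Finset.sum_le_sum mid)) near
    _ = (ENNReal.ofReal (r ^ ε) + j * ENNReal.ofReal (256 * r ^ ε) + ENNReal.ofReal (26 * r ^ ε)) * M := by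
        rw [Finset.sum_const, Finset.card_range, nsmul_eq_mul]
        ring
    _ ≤ _ := by
        gcongr
        rw [← ENNReal.ofReal_natCast j, ← ENNReal.ofReal_mul (by positivity),
          ← ENNReal.ofReal_add (by positivity) (by positivity), ← ENNReal.ofReal_add (by positivity) (by positivity)]
        apply ENNReal.ofReal_le_ofReal
        have e2 : 0 < r ^ ε := by positivity
        have e3 : (0 : ℝ) ≤ j := Nat.cast_nonneg j
        nlinarith [mul_nonneg e3 e2.le]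

end Pool.Agent.H79.Wave
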