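import Mathlib
import Pool.Agent.H79.Wave.OSD

/-!
Bounds for Poisson integrals by a potential which dominates local averages.
-/

set_option autoImplicit false

namespace Pool.Agent.H79.Wave

open MeasureTheory Set Metric Filter Topology

lemma cv_assoc (k l h : E3 → ENNReal) (hk : Measurable k) (hl : Measurable l) (hh : Measurable h) (x : E3) :
    cv (cv k l) h x = cv k (cv l h) x := by
  unfold cv
  have e : ∀ y, k (x - y) * ∫⁻ z, l (y - z) * h z = ∫⁻ z, k (x - y) * (l (y - z) * h z) := by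
    intro y
    rw [lintegral_const_mul]
    exact (hl.comp (by fun_prop)).mul hh
  simp_rw [e]
  rw [lintegral_lintegral_swap]
  · apply lintegral_congr
    intro z
    have e1 : ∫⁻ y, k (x - y) * (l (y - z) * h z) = (∫⁻ y, k (x - y) * l (y - z)) * h z := by
      have hm : Measurable (fun y => k (x - y) * l (y - z)) :=
        (hk.comp (by fun_prop)).mul (hl.comp (by fun_prop))
      rw [← lintegral_mul_const _ hm]
      apply lintegral_congr
      intro y
      ring
    rw [e1]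
    congr 1
    rw [← lintegral_sub_right_eq_self (fun y => k (x - z - y) * l y) z]
    apply lintegral_congr
    intro y
    congr 2
    abel
  · apply Measurable.aemeasurable
    exact (hk.comp (by fun_prop)).mul ((hl.comp (by fun_prop)).mul (hh.comp measurable_snd))

/-- the Poisson kernel as an extended function -/
noncomputable def pkE (r : ℝ) (z : E3) : ENNReal := ENNReal.ofReal (pk r z)

lemma pkE_meas (r : ℝ) : Measurable (pkE r) := by
  unfold pkE
  have h : Measurable (fun z : E3 => pk r z) := pk_meas.comp (f := fun z : E3 => (r, z)) (by fun_prop)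
  exact h.ennreal_ofReal

lemma PE_cv (r : ℝ) (f : E3 → ENNReal) (x : E3) : PE r f x = cv (pkE r) f x := rfl

lemma lint_pkE (r : ℝ) (hr : 0 < r) : ∫⁻ z, pkE r z = cP := lint_pk r hr

/-- the Poisson kernel is dominated by its averages -/
lemma pk_avg (r : ℝ) (hr : 0 < r) (z : E3) : ENNReal.ofReal (r ^ 3) * pkE r z ≤ 9 * cv (pkE r) (bk r) z := by
  have hpi := Real.pi_gt_three
  have h1 : volume (ball (0 : E3) r) * pkE r z ≤ 9 * cv (pkE r) (bk r) z := by
    rw [← lint_bk, mul_comm]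
    unfold cv
    rw [← lintegral_const_mul _ (bk_meas r), ← lintegral_const_mul' _ _ (by norm_num)]
    apply lintegral_mono
    intro y
    simp only
    by_cases hy : ‖y‖ < r
    · have : bk r y = 1 := by unfold bk; rw [if_pos hy]
      rw [this, mul_one, mul_one]
      unfold pkE
      have h9 : (9 : ENNReal) = ENNReal.ofReal 9 := by simp
      rw [h9, ← ENNReal.ofReal_mul (by norm_num)]
      apply ENNReal.ofReal_le_ofReal
      apply pk_harnack r hr
      rw [sub_sub_cancel_left, norm_neg]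
      exact hy.le
    · have : bk r y = 0 := by unfold bk; rw [if_neg hy]
      rw [this, mul_zero]
      exact zero_le
  refine le_trans ?_ h1
  gcongr
  rw [vol_ball_eq r hr.le]
  apply ENNReal.ofReal_le_ofReal
  have : 0 < r ^ 3 := by positivity
  nlinarith

section

variable (f w : E3 → ENNReal) (hf : Measurable f) (hw : Measurable w) (a : ℝ) (C0 : ENNReal)
  (hL : ∀ s : ℝ, 0 < s → s ≤ 3 → ∀ x, cv (bk s) f x ≤ C0 * ENNReal.ofReal (s ^ (3 - a)) * w x)

include hf hL in
lemma PE_le (hC : C0 ≠ ⊤) (r : ℝ) (hr : 0 < r) (hr1 : r ≤ 1) (x : E3) :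
    cv (pkE r) f x ≤ 9 * C0 * ENNReal.ofReal (r ^ (-a)) * cv (pkE r) w x := by
  have hpm := pkE_meas r
  have hbm := bk_meas r
  have h1 : ENNReal.ofReal (r ^ 3) * cv (pkE r) f x ≤ 9 * (C0 * ENNReal.ofReal (r ^ (3 - a))) * cv (pkE r) w x := by
    calc ENNReal.ofReal (r ^ 3) * cv (pkE r) f x ≤ cv (fun z => 9 * cv (pkE r) (bk r) z) f x := by
          unfold cv
          rw [← lintegral_const_mul' _ _ ENNReal.ofReal_ne_top]
          apply lintegral_mono
          intro y
          simp only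
          rw [← mul_assoc]
          exact mul_le_mul' (pk_avg r hr _) le_rfl
      _ = 9 * cv (cv (pkE r) (bk r)) f x := by
          unfold cv
          rw [← lintegral_const_mul' _ _ (by norm_num)]
          apply lintegral_congr
          intro y
          rw [mul_assoc]
      _ = 9 * cv (pkE r) (cv (bk r) f) x := by rw [cv_assoc _ _ _ hpm hbm hf]
      _ ≤ 9 * cv (pkE r) (fun y => C0 * ENNReal.ofReal (r ^ (3 - a)) * w y) x := by
          apply mul_le_mul' le_rfl
          exact cv_mono _ _ _ (fun y => hL r hr (by linarith) y) x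
      _ = _ := by
          rw [cv_const_mul _ _ _ (ENNReal.mul_ne_top hC ENNReal.ofReal_ne_top)]
          ring
  have e1 : cv (pkE r) f x = ENNReal.ofReal ((r ^ 3)⁻¹) * (ENNReal.ofReal (r ^ 3) * cv (pkE r) f x) := by
    rw [← mul_assoc, ← ENNReal.ofReal_mul (by positivity), inv_mul_cancel₀ (by positivity)]
    simp
  rw [e1]
  calc _ ≤ ENNReal.ofReal ((r ^ 3)⁻¹) * (9 * (C0 * ENNReal.ofReal (r ^ (3 - a))) * cv (pkE r) w x) :=
        mul_le_mul' le_rfl h1
    _ = 9 * C0 * (ENNReal.ofReal ((r ^ 3)⁻¹) * ENNReal.ofReal (r ^ (3 - a))) * cv (pkE r) w x := by ring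
    _ = _ := by
        rw [← ENNReal.ofReal_mul (by positivity)]
        congr 3
        have : (r ^ 3)⁻¹ = r ^ (-3 : ℝ) := by
          rw [Real.rpow_neg hr.le, ← Real.rpow_natCast]; norm_num
        rw [this, ← Real.rpow_add hr]
        congr 1
        ring

/-- the normalising quantity -/
noncomputable def MM (p : ℝ) (C0 : ENNReal) (w : E3 → ENNReal) : ENNReal := (27 * C0 * cP) ^ p * ∫⁻ x, w x ^ p

include hf hw hL in
lemma H2_bound (hC : C0 ≠ ⊤) (p : ℝ) (hp : 3 ≤ p) (r : ℝ) (hr : 0 < r) (hr1 : r ≤ 1) :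
    ∫⁻ y, cv (pkE r) f y ^ p ≤ ENNReal.ofReal (r ^ (-(a * p))) * MM p C0 w := by
  have hp0 : 0 ≤ p := by linarith
  calc ∫⁻ y, cv (pkE r) f y ^ p
      ≤ ∫⁻ y, (9 * C0 * ENNReal.ofReal (r ^ (-a))) ^ p * cv (pkE r) w y ^ p := by
        apply lintegral_mono
        intro y
        simp only
        rw [← ENNReal.mul_rpow_of_nonneg _ _ hp0]
        exact ENNReal.rpow_le_rpow (PE_le f w hf a C0 hL hC r hr hr1 y) hp0
    _ = (9 * C0 * ENNReal.ofReal (r ^ (-a))) ^ p * ∫⁻ y, cv (pkE r) w y ^ p := by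
        rw [lintegral_const_mul _ ((cv_meas _ _ (pkE_meas r) hw).pow_const p)]
    _ ≤ (9 * C0 * ENNReal.ofReal (r ^ (-a))) ^ p * (cP ^ p * ∫⁻ y, w y ^ p) := by
        apply mul_le_mul' le_rfl
        have := cv_young (pkE r) w (pkE_meas r) hw p (by linarith)
        rw [lint_pkE r hr] at this
        exact this
    _ = ENNReal.ofReal (r ^ (-(a * p))) * ((9 * C0 * cP) ^ p * ∫⁻ y, w y ^ p) := by
        rw [ENNReal.mul_rpow_of_nonneg _ _ hp0, ENNReal.mul_rpow_of_nonneg (9 * C0) cP hp0,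
          ENNReal.ofReal_rpow_of_pos (by positivity), ← Real.rpow_mul hr.le, neg_mul]
        ring
    _ ≤ _ := by
        unfold MM
        gcongr
        norm_num

include hf hw hL in
lemma H3_bound (hC : C0 ≠ ⊤) (ha : 0 ≤ a) (p : ℝ) (hp : 3 ≤ p) (r : ℝ) (hr : 0 < r)
    (ρ : ℝ) (hρ : 0 < ρ) (hρ1 : ρ ≤ 1) :
    ∫⁻ y, cv (bk (2 * ρ)) (cv (pkE r) f) y ^ p ≤ ENNReal.ofReal (ρ ^ ((3 - a) * p)) * MM p C0 w := by
  have hp0 : 0 ≤ p := by linarith
  have hpm := pkE_meas r
  have hbm := bk_meas (2 * ρ)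
  have h1 : ∀ y, cv (bk (2 * ρ)) (cv (pkE r) f) y ≤ (8 * C0 * ENNReal.ofReal (ρ ^ (3 - a))) * cv (pkE r) w y := by
    intro y
    rw [cv_swap _ _ _ hbm hpm hf]
    calc cv (pkE r) (cv (bk (2 * ρ)) f) y ≤ cv (pkE r) (fun y => C0 * ENNReal.ofReal ((2 * ρ) ^ (3 - a)) * w y) y :=
          cv_mono _ _ _ (fun y => hL (2 * ρ) (by positivity) (by linarith) y) y
      _ = C0 * ENNReal.ofReal ((2 * ρ) ^ (3 - a)) * cv (pkE r) w y :=
          cv_const_mul _ _ _ (ENNReal.mul_ne_top hC ENNReal.ofReal_ne_top) y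
      _ ≤ C0 * ENNReal.ofReal (8 * ρ ^ (3 - a)) * cv (pkE r) w y := by
          apply mul_le_mul' (mul_le_mul' le_rfl (ENNReal.ofReal_le_ofReal _)) le_rfl
          rw [Real.mul_rpow (by norm_num) hρ.le]
          apply mul_le_mul_of_nonneg_right _ (by positivity)
          calc (2 : ℝ) ^ (3 - a) ≤ 2 ^ (3 : ℝ) := Real.rpow_le_rpow_of_exponent_le (by norm_num) (by linarith)
            _ = 8 := by norm_num
      _ = _ := by
          rw [ENNReal.ofReal_mul (by norm_num), ENNReal.ofReal_ofNat]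
          ring
  calc ∫⁻ y, cv (bk (2 * ρ)) (cv (pkE r) f) y ^ p
      ≤ ∫⁻ y, (8 * C0 * ENNReal.ofReal (ρ ^ (3 - a))) ^ p * cv (pkE r) w y ^ p := by
        apply lintegral_mono
        intro y
        simp only
        rw [← ENNReal.mul_rpow_of_nonneg _ _ hp0]
        exact ENNReal.rpow_le_rpow (h1 y) hp0
    _ = (8 * C0 * ENNReal.ofReal (ρ ^ (3 - a))) ^ p * ∫⁻ y, cv (pkE r) w y ^ p := by
        rw [lintegral_const_mul _ ((cv_meas _ _ (pkE_meas r) hw).pow_const p)]
    _ ≤ (8 * C0 * ENNReal.ofReal (ρ ^ (3 - a))) ^ p * (cP ^ p * ∫⁻ y, w y ^ p) := by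
        apply mul_le_mul' le_rfl
        have := cv_young (pkE r) w (pkE_meas r) hw p (by linarith)
        rw [lint_pkE r hr] at this
        exact this
    _ = ENNReal.ofReal (ρ ^ ((3 - a) * p)) * ((8 * C0 * cP) ^ p * ∫⁻ y, w y ^ p) := by
        rw [ENNReal.mul_rpow_of_nonneg _ _ hp0, ENNReal.mul_rpow_of_nonneg (8 * C0) cP hp0,
          ENNReal.ofReal_rpow_of_pos (by positivity), ← Real.rpow_mul hρ.le]
        ring
    _ ≤ _ := by
        unfold MM
        gcongr
        norm_num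

include hf hw hL in
lemma H1_bound (ha : 0 ≤ a) (z0 : E3) (hsupp : ∀ y, 1 < ‖y - z0‖ → f y = 0)
    (p : ℝ) (hp : 3 ≤ p) (r : ℝ) (hr : 0 < r) :
    (∫⁻ y, cv (pkE r) f y) ^ p ≤ MM p C0 w := by
  have hp0 : 0 ≤ p := by linarith
  have hpi := Real.pi_gt_three
  rw [cv_lint _ _ (pkE_meas r) hf, lint_pkE r hr]
  have h1 : ∀ x, ‖x - z0‖ < 1 → ∫⁻ y, f y ≤ 27 * C0 * w x := by
    intro x hx
    have h2 : ∫⁻ y, f y = cv (bk 3) f x := by
      unfold cv
      apply lintegral_congr
      intro y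
      by_cases hy : 1 < ‖y - z0‖
      · rw [hsupp y hy, mul_zero]
      · rw [not_lt] at hy
        have : ‖x - y‖ < 3 := by
          calc ‖x - y‖ = ‖(x - z0) - (y - z0)‖ := by congr 1; abel
            _ ≤ ‖x - z0‖ + ‖y - z0‖ := norm_sub_le _ _
            _ < 3 := by linarith
        unfold bk
        rw [if_pos this, one_mul]
    rw [h2]
    refine (hL 3 (by norm_num) le_rfl x).trans ?_
    rw [mul_comm (27 : ENNReal) C0]
    apply mul_le_mul' (mul_le_mul' le_rfl _) le_rfl
    have h27 : (27 : ENNReal) = ENNReal.ofReal 27 := by simp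
    rw [h27]
    apply ENNReal.ofReal_le_ofReal
    calc (3 : ℝ) ^ (3 - a) ≤ 3 ^ (3 : ℝ) := Real.rpow_le_rpow_of_exponent_le (by norm_num) (by linarith)
      _ = 27 := by norm_num
  have h3 : (∫⁻ y, f y) ^ p ≤ (27 * C0) ^ p * ∫⁻ x, w x ^ p := by
    calc (∫⁻ y, f y) ^ p ≤ volume (ball z0 1) * (∫⁻ y, f y) ^ p := by
          nth_rewrite 1 [← one_mul ((∫⁻ y, f y) ^ p)]
          apply mul_le_mul' _ le_rfl
          rw [EuclideanSpace.volume_ball_fin_three, ENNReal.ofReal_one, one_pow, one_mul, ← ENNReal.ofReal_one]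
          apply ENNReal.ofReal_le_ofReal
          linarith
      _ = ∫⁻ _x in ball z0 1, (∫⁻ y, f y) ^ p := by
          rw [setLIntegral_const, mul_comm]
      _ ≤ ∫⁻ x in ball z0 1, (27 * C0) ^ p * w x ^ p := by
          apply setLIntegral_mono' measurableSet_ball
          intro x hx
          rw [mem_ball_iff_norm] at hx
          rw [← ENNReal.mul_rpow_of_nonneg _ _ hp0]
          exact ENNReal.rpow_le_rpow (h1 x hx) hp0
      _ ≤ ∫⁻ x, (27 * C0) ^ p * w x ^ p := setLIntegral_le_lintegral _ _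
      _ = _ := by
          rw [lintegral_const_mul _ (hw.pow_const p)]
  rw [ENNReal.mul_rpow_of_nonneg _ _ hp0]
  calc cP ^ p * (∫⁻ y, f y) ^ p ≤ cP ^ p * ((27 * C0) ^ p * ∫⁻ x, w x ^ p) := mul_le_mul' le_rfl h3
    _ = _ := by
        unfold MM
        rw [ENNReal.mul_rpow_of_nonneg (27 * C0) cP hp0]
        ring

end

end Pool.Agent.H79.Wave
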