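import Mathlib
import Pool.Agent.H79.Wave.OSE

/-!
Local smoothing for non-negative velocities supported in a unit ball.
-/

set_option autoImplicit false

namespace Pool.Agent.H79.Wave

open MeasureTheory Set Metric FourierTransform RealInnerProductSpace Filter Topology SchwartzMap

lemma Us_meas (r : ℝ) (hr : 0 < r) (f : 𝓢(E3, ℝ)) : Measurable (fun z : ℝ × E3 => Us r (fun x => f x) z.1 z.2) := by
  have hc := Pf_cont r hr (fun x => f x) f.integrable
  have h1 : StronglyMeasurable (fun z : ℝ × E3 => ∫ ω : sphere (0 : E3) 1, Pf r (fun x => f x) (z.2 - z.1 • (ω : E3)) ∂sg) := by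
    apply StronglyMeasurable.integral_prod_right' (f := fun w : (ℝ × E3) × sphere (0 : E3) 1 =>
      Pf r (fun x => f x) (w.1.2 - w.1.1 • (w.2 : E3)))
    apply Continuous.stronglyMeasurable
    exact hc.comp (by fun_prop)
  unfold Us Av
  exact measurable_fst.mul (h1.measurable.const_mul _)

/-- the regularised solutions converge -/
lemma Us_tendsto (f : 𝓢(E3, ℝ)) (t : ℝ) (ht : 0 < t) (x : E3) :
    Tendsto (fun j : ℕ => ((Us ((1 / 2 : ℝ) ^ j) (fun x => f x) t x : ℝ) : ℂ)) atTop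
      (𝓝 (waveSol (fun x => (f x : ℂ)) t x)) := by
  have hpi := Real.pi_pos
  have e : ∀ j : ℕ, ((Us ((1 / 2 : ℝ) ^ j) (fun x => f x) t x : ℝ) : ℂ) =
      ∫ ξ, ch x ξ * (((Real.sin (2 * Real.pi * ‖ξ‖ * t) : ℝ) : ℂ) * rP ((1 / 2 : ℝ) ^ j) (fun x => (f x : ℂ)) ξ) :=
    fun j => Us_eq _ (by positivity) f t ht x
  have e2 : waveSol (fun x => (f x : ℂ)) t x =
      ∫ ξ, ch x ξ * (((Real.sin (2 * Real.pi * ‖ξ‖ * t) : ℝ) : ℂ) * rH (fun x => (f x : ℂ)) ξ) :=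
    waveSol_vr _ t x
  simp_rw [e]
  rw [e2]
  have hch : Continuous (fun ξ => ch x ξ) :=
    continuous_ch.comp (f := fun ξ : E3 => (x, ξ)) (by fun_prop)
  apply tendsto_integral_of_dominated_convergence (fun ξ => ‖rH (fun x => (f x : ℂ)) ξ‖)
  · intro j
    apply hch.aestronglyMeasurable.mul
    apply AEStronglyMeasurable.mul _ (rP_int _ (by positivity) f).aestronglyMeasurable
    apply Measurable.aestronglyMeasurable
    fun_prop
  · exact (rH_integrable f).norm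
  · intro j
    filter_upwards with ξ
    rw [norm_mul, norm_ch, one_mul, norm_mul, Complex.norm_real]
    have h1 : ‖rP ((1 / 2 : ℝ) ^ j) (fun x => (f x : ℂ)) ξ‖ ≤ ‖rH (fun x => (f x : ℂ)) ξ‖ := by
      have := rP_bound ((1 / 2 : ℝ) ^ j) (by positivity) (fun x => (f x : ℂ)) ξ
      rw [← ofReal_norm, ← ofReal_norm] at this
      exact (ENNReal.ofReal_le_ofReal_iff (norm_nonneg _)).mp this
    calc _ ≤ 1 * ‖rH (fun x => (f x : ℂ)) ξ‖ := by
          apply mul_le_mul (Real.abs_sin_le_one _) h1 (norm_nonneg _) (by norm_num)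
      _ = _ := one_mul _
  · filter_upwards with ξ
    apply Tendsto.const_mul
    apply Tendsto.const_mul
    unfold rP
    have h1 : Tendsto (fun j : ℕ => ((Real.exp (-(2 * Real.pi * (1 / 2 : ℝ) ^ j) * ‖ξ‖) : ℝ) : ℂ)) atTop (𝓝 ((1 : ℝ) : ℂ)) := by
      apply (Complex.continuous_ofReal.tendsto _).comp
      have h2 : Tendsto (fun j : ℕ => (1 / 2 : ℝ) ^ j) atTop (𝓝 0) :=
        tendsto_pow_atTop_nhds_zero_of_lt_one (by norm_num) (by norm_num)
      have h3 : Continuous (fun s : ℝ => Real.exp (-(2 * Real.pi * s) * ‖ξ‖)) := by fun_prop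
      have h4 : Tendsto (fun j : ℕ => Real.exp (-(2 * Real.pi * (1 / 2 : ℝ) ^ j) * ‖ξ‖)) atTop
          (𝓝 (Real.exp (-(2 * Real.pi * 0) * ‖ξ‖))) := (h3.tendsto 0).comp h2
      rw [mul_zero, neg_zero, zero_mul, Real.exp_zero] at h4
      exact h4
    have h5 := h1.mul_const (rH (fun x => (f x : ℂ)) ξ)
    simpa using h5

/-- the low frequency part -/
lemma low_part (p : ℝ) (hp : 3 ≤ p) (f : 𝓢(E3, ℝ)) (hf0 : ∀ x, 0 ≤ f x) :
    ∫⁻ t in Icc (1 : ℝ) 2, ∫⁻ x, ‖Us 1 (fun x => f x) t x‖ₑ ^ p ≤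
      2 ^ p * ∫⁻ x, ENNReal.ofReal (Pf 1 (fun x => f x) x) ^ p := by
  have hpi := Real.pi_pos
  have hp0 : 0 ≤ p := by linarith
  set g : E3 → ℝ := Pf 1 (fun x => f x) with hg
  have hgc : Continuous g := Pf_cont 1 one_pos _ f.integrable
  have hg0 : ∀ x, 0 ≤ g x := Pf_nonneg 1 one_pos _ hf0
  have h2p : (2 : ENNReal) ^ p ≠ ⊤ := ENNReal.rpow_ne_top_of_nonneg hp0 (by norm_num)
  have key : ∀ t ∈ Icc (1 : ℝ) 2, ∫⁻ x, ‖Us 1 (fun x => f x) t x‖ₑ ^ p ≤ 2 ^ p * ∫⁻ x, ENNReal.ofReal (g x) ^ p := by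
    intro t ht
    have ht0 : 0 < t := by linarith [ht.1]
    have h1 : ∀ x, ‖Us 1 (fun x => f x) t x‖ₑ ^ p ≤ 2 ^ p * (ENNReal.ofReal (4 * Real.pi)⁻¹ *
        ∫⁻ ω : sphere (0 : E3) 1, ENNReal.ofReal (g (x - t • (ω : E3))) ^ p ∂sg) := by
      intro x
      have h2 : ‖Us 1 (fun x => f x) t x‖ₑ ≤ 2 * (ENNReal.ofReal (4 * Real.pi)⁻¹ *
        ∫⁻ ω : sphere (0 : E3) 1, ENNReal.ofReal (g (x - t • (ω : E3))) ∂sg) := by
        have h0 := Av_nonneg g hg0 t x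
        rw [← Av_lint g hgc hg0, ← ofReal_norm, Real.norm_eq_abs]
        unfold Us
        rw [abs_of_nonneg (mul_nonneg ht0.le h0)]
        calc ENNReal.ofReal (t * Av g t x) ≤ ENNReal.ofReal (2 * Av g t x) := by
              apply ENNReal.ofReal_le_ofReal
              nlinarith [ht.2]
          _ = _ := by rw [ENNReal.ofReal_mul (by norm_num), ENNReal.ofReal_ofNat]
      calc _ ≤ (2 * (ENNReal.ofReal (4 * Real.pi)⁻¹ *
        ∫⁻ ω : sphere (0 : E3) 1, ENNReal.ofReal (g (x - t • (ω : E3))) ∂sg)) ^ p := ENNReal.rpow_le_rpow h2 hp0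
        _ = 2 ^ p * (ENNReal.ofReal (4 * Real.pi)⁻¹ *
        ∫⁻ ω : sphere (0 : E3) 1, ENNReal.ofReal (g (x - t • (ω : E3))) ∂sg) ^ p :=
            ENNReal.mul_rpow_of_nonneg _ _ hp0
        _ ≤ _ := by
            apply mul_le_mul' le_rfl
            apply jensen_sphere _ _ _ (by linarith)
            exact (hgc.measurable.comp (by fun_prop)).ennreal_ofReal
    calc ∫⁻ x, ‖Us 1 (fun x => f x) t x‖ₑ ^ p ≤ ∫⁻ x, 2 ^ p * (ENNReal.ofReal (4 * Real.pi)⁻¹ *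
        ∫⁻ ω : sphere (0 : E3) 1, ENNReal.ofReal (g (x - t • (ω : E3))) ^ p ∂sg) := lintegral_mono h1
      _ = 2 ^ p * (ENNReal.ofReal (4 * Real.pi)⁻¹ * ∫⁻ x,
        ∫⁻ ω : sphere (0 : E3) 1, ENNReal.ofReal (g (x - t • (ω : E3))) ^ p ∂sg) := by
          rw [lintegral_const_mul' _ _ h2p, lintegral_const_mul' _ _ ENNReal.ofReal_ne_top]
      _ = 2 ^ p * (ENNReal.ofReal (4 * Real.pi)⁻¹ * ∫⁻ ω : sphere (0 : E3) 1,
        ∫⁻ x, ENNReal.ofReal (g (x - t • (ω : E3))) ^ p ∂volume ∂sg) := by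
          congr 2
          rw [lintegral_lintegral_swap]
          apply Measurable.aemeasurable
          have : Measurable (fun z : E3 × sphere (0 : E3) 1 => g (z.1 - t • (z.2 : E3))) :=
            hgc.measurable.comp (by fun_prop)
          exact this.ennreal_ofReal.pow_const p
      _ = 2 ^ p * (ENNReal.ofReal (4 * Real.pi)⁻¹ * ∫⁻ ω : sphere (0 : E3) 1,
        (∫⁻ x, ENNReal.ofReal (g x) ^ p) ∂sg) := by
          congr 2
          apply lintegral_congr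
          intro ω
          exact lintegral_sub_right_eq_self (fun x => ENNReal.ofReal (g x) ^ p) _
      _ = _ := by
          rw [lintegral_const, sg_univ]
          congr 1
          rw [mul_comm (∫⁻ x, ENNReal.ofReal (g x) ^ p), ← mul_assoc, ← ENNReal.ofReal_mul (by positivity),
            inv_mul_cancel₀ (by positivity)]
          simp
  calc _ ≤ ∫⁻ _t in Icc (1 : ℝ) 2, 2 ^ p * ∫⁻ x, ENNReal.ofReal (g x) ^ p :=
        setLIntegral_mono' measurableSet_Icc key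
    _ = _ := by
        rw [setLIntegral_const, Real.volume_Icc]
        norm_num

/-- sum of the geometric type series -/
lemma geo_summable (q : ℝ) (hq0 : 0 ≤ q) (hq1 : q < 1) : Summable (fun j : ℕ => ((j : ℝ) + 1) * q ^ j) := by
  have h1 : Summable (fun j : ℕ => (j : ℝ) ^ 1 * q ^ j) :=
    summable_pow_mul_geometric_of_norm_lt_one 1 (by rwa [Real.norm_eq_abs, abs_of_nonneg hq0])
  have h2 : Summable (fun j : ℕ => q ^ j) := summable_geometric_of_lt_one hq0 hq1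
  refine (h1.add h2).congr (fun j => ?_)
  ring

/-- local theorem -/
theorem local_thm (p a : ℝ) (hp : 3 ≤ p) (ha : 0 ≤ a) (h1 : a * p * ((p - 2) / (p - 1)) < 2) (h2 : a * p < 3)
    (C0 : ENNReal) (hC : C0 ≠ ⊤) :
    ∃ K : ENNReal, K ≠ ⊤ ∧ ∀ (f : 𝓢(E3, ℝ)) (w : E3 → ENNReal) (z0 : E3), (∀ x, 0 ≤ f x) → Measurable w →
      (∀ y, 1 < ‖y - z0‖ → f y = 0) →
      (∀ s : ℝ, 0 < s → s ≤ 3 → ∀ x, cv (bk s) (fun y => ENNReal.ofReal (f y)) x ≤
        C0 * ENNReal.ofReal (s ^ (3 - a)) * w x) →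
      ∫⁻ t in Icc (1 : ℝ) 2, ∫⁻ x, ‖waveSol (fun x => (f x : ℂ)) t x‖ₑ ^ p ≤ K * ∫⁻ x, w x ^ p := by
  have hp0 : 0 < p := by linarith
  have h1p : 0 ≤ 1 / p := by positivity
  set ε : ℝ := min (2 - a * p * ((p - 2) / (p - 1))) (3 - a * p) with hε
  have hε0 : 0 < ε := lt_min (by linarith) (by linarith)
  set q : ℝ := (1 / 2 : ℝ) ^ (ε / p) with hq
  have hq0 : 0 ≤ q := by positivity
  have hq1 : q < 1 := Real.rpow_lt_one (by norm_num) (by norm_num) (by positivity)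
  set c : ℝ := 16 ^ (p - 2) * 64 * 283 with hc
  have hc1 : 1 ≤ c := by
    have : (1 : ℝ) ≤ 16 ^ (p - 2) := Real.one_le_rpow (by norm_num) (by linarith)
    rw [hc]; nlinarith
  set S : ℝ := ∑' j : ℕ, c * (((j : ℝ) + 1) * q ^ j) with hS
  have hsum : Summable (fun j : ℕ => c * (((j : ℝ) + 1) * q ^ j)) := (geo_summable q hq0 hq1).mul_left c
  refine ⟨((2 : ENNReal) + ENNReal.ofReal S) ^ p * (27 * C0 * cP) ^ p, ?_, ?_⟩
  · apply ENNReal.mul_ne_top
    · exact ENNReal.rpow_ne_top_of_nonneg hp0.le (ENNReal.add_ne_top.mpr ⟨by norm_num, ENNReal.ofReal_ne_top⟩)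
    · exact ENNReal.rpow_ne_top_of_nonneg hp0.le (ENNReal.mul_ne_top (ENNReal.mul_ne_top (by norm_num) hC) cP_ne_top)
  intro f w z0 hf0 hw hsupp hL
  set fE : E3 → ENNReal := fun y => ENNReal.ofReal (f y) with hfE
  have hfm : Measurable fE := f.continuous.measurable.ennreal_ofReal
  have hsuppE : ∀ y, 1 < ‖y - z0‖ → fE y = 0 := by
    intro y hy
    rw [hfE]
    simp only
    rw [hsupp y hy]
    simp
  set M : ENNReal := MM p C0 w with hM
  set μ : Measure (ℝ × E3) := (volume.restrict (Icc (1 : ℝ) 2)).prod volume with hμ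
  set u : ℕ → ℝ × E3 → ℝ := fun j z => Us ((1 / 2 : ℝ) ^ j) (fun x => f x) z.1 z.2 with hu
  have hum : ∀ j, Measurable (u j) := fun j => Us_meas _ (by positivity) f
  have hr0 : ∀ j : ℕ, (0 : ℝ) < (1 / 2) ^ j := fun j => by positivity
  have hr1 : ∀ j : ℕ, (1 / 2 : ℝ) ^ j ≤ 1 := fun j => pow_le_one₀ (by norm_num) (by norm_num)
  have hPE : ∀ j x, ENNReal.ofReal (Pf ((1 / 2 : ℝ) ^ j) (fun x => f x) x) = cv (pkE ((1 / 2 : ℝ) ^ j)) fE x :=
    fun j x => PE_eq _ (hr0 j) (fun x => f x) hf0 f.integrable x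
  -- pieces
  have piece : ∀ j, ∫⁻ z, ‖u (j + 1) z - u j z‖ₑ ^ p ∂μ ≤ ENNReal.ofReal (c * (j + 1) * ((1 / 2 : ℝ) ^ j) ^ ε) * M := by
    intro j
    have hk := kernel_piece p hp ((1 / 2 : ℝ) ^ j) (hr0 j) f hf0
    have hd := dyadic_bound (cv (pkE ((1 / 2 : ℝ) ^ j)) fE) (cv_meas _ _ (pkE_meas _) hfm) p a ε j hp
      (min_le_left _ _) (min_le_right _ _) M
      (H1_bound fE w hfm hw a C0 hL ha z0 hsuppE p hp _ (hr0 j))
      (H2_bound fE w hfm hw a C0 hL hC p hp _ (hr0 j) (hr1 j))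
      (fun k _ => H3_bound fE w hfm hw a C0 hL hC ha p hp _ (hr0 j) _ (hr0 k) (hr1 k))
    have e1 : ∫⁻ z, ‖u (j + 1) z - u j z‖ₑ ^ p ∂μ = ∫⁻ t in Icc (1 : ℝ) 2, ∫⁻ x,
        ‖Us ((1 / 2 : ℝ) ^ j / 2) (fun x => f x) t x - Us ((1 / 2 : ℝ) ^ j) (fun x => f x) t x‖ₑ ^ p := by
      have hmm : Measurable (fun z : ℝ × E3 => ‖u (j + 1) z - u j z‖ₑ ^ p) :=
        ((hum (j + 1)).sub (hum j)).enorm.pow_const p
      rw [hμ, lintegral_prod _ hmm.aemeasurable]
      have : (1 / 2 : ℝ) ^ (j + 1) = (1 / 2 : ℝ) ^ j / 2 := by rw [pow_succ]; ring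
      simp only [hu, this]
    rw [e1]
    refine hk.trans ?_
    simp_rw [hPE]
    calc (16 : ENNReal) ^ (p - 2) * ENNReal.ofReal (64 * ((1 / 2 : ℝ) ^ j) ^ 2) *
          (∫⁻ x, ∫⁻ y, cv (pkE ((1 / 2 : ℝ) ^ j)) fE x ^ 2 * cv (pkE ((1 / 2 : ℝ) ^ j)) fE y ^ (p - 2) *
            (‖x - y‖ₑ ^ 2)⁻¹)
        = (16 : ENNReal) ^ (p - 2) * 64 * (ENNReal.ofReal (((1 / 2 : ℝ) ^ j) ^ 2) *
          (∫⁻ x, ∫⁻ y, cv (pkE ((1 / 2 : ℝ) ^ j)) fE x ^ 2 * cv (pkE ((1 / 2 : ℝ) ^ j)) fE y ^ (p - 2) *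
            (‖x - y‖ₑ ^ 2)⁻¹)) := by
          rw [ENNReal.ofReal_mul (by norm_num), ENNReal.ofReal_ofNat]
          ring
      _ ≤ (16 : ENNReal) ^ (p - 2) * 64 * (ENNReal.ofReal (283 * (j + 1) * ((1 / 2 : ℝ) ^ j) ^ ε) * M) :=
          mul_le_mul' le_rfl hd
      _ = _ := by
          have e16 : (16 : ENNReal) ^ (p - 2) * 64 = ENNReal.ofReal (16 ^ (p - 2) * 64) := by
            rw [ENNReal.ofReal_mul (by positivity), ← ENNReal.ofReal_rpow_of_pos (by norm_num)]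
            simp
          rw [e16, ← mul_assoc, ← ENNReal.ofReal_mul (by positivity)]
          congr 2
          rw [hc]
          ring
  have pieceR : ∀ j, (∫⁻ z, ‖u (j + 1) z - u j z‖ₑ ^ p ∂μ) ^ (1 / p) ≤
      ENNReal.ofReal (c * (((j : ℝ) + 1) * q ^ j)) * M ^ (1 / p) := by
    intro j
    have hj : (0 : ℝ) ≤ j := Nat.cast_nonneg j
    calc _ ≤ (ENNReal.ofReal (c * (j + 1) * ((1 / 2 : ℝ) ^ j) ^ ε) * M) ^ (1 / p) :=
          ENNReal.rpow_le_rpow (piece j) h1p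
      _ = ENNReal.ofReal ((c * (j + 1) * ((1 / 2 : ℝ) ^ j) ^ ε) ^ (1 / p)) * M ^ (1 / p) := by
          rw [ENNReal.mul_rpow_of_nonneg _ _ h1p, ENNReal.ofReal_rpow_of_pos (by positivity)]
      _ ≤ _ := by
          apply mul_le_mul' (ENNReal.ofReal_le_ofReal _) le_rfl
          rw [Real.mul_rpow (by positivity) (by positivity)]
          have e1 : (((1 / 2 : ℝ) ^ j) ^ ε) ^ (1 / p) = q ^ j := by
            rw [hq, ← Real.rpow_natCast, ← Real.rpow_natCast, ← Real.rpow_mul (by norm_num),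
              ← Real.rpow_mul (by norm_num), ← Real.rpow_mul (by norm_num)]
            congr 1
            field_simp
          have e2 : (c * ((j : ℝ) + 1)) ^ (1 / p) ≤ c * ((j : ℝ) + 1) := by
            calc _ ≤ (c * ((j : ℝ) + 1)) ^ (1 : ℝ) := by
                  apply Real.rpow_le_rpow_of_exponent_le
                  · nlinarith
                  · rw [div_le_one hp0]; linarith
              _ = _ := Real.rpow_one _
          rw [e1]
          calc _ ≤ (c * ((j : ℝ) + 1)) * q ^ j := by gcongr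
            _ = _ := by ring
  -- low frequencies
  have low : (∫⁻ z, ‖u 0 z‖ₑ ^ p ∂μ) ^ (1 / p) ≤ 2 * M ^ (1 / p) := by
    have hmm : Measurable (fun z : ℝ × E3 => ‖u 0 z‖ₑ ^ p) := (hum 0).enorm.pow_const p
    have e1 : ∫⁻ z, ‖u 0 z‖ₑ ^ p ∂μ ≤ 2 ^ p * M := by
      rw [hμ, lintegral_prod _ hmm.aemeasurable]
      simp only [hu, pow_zero]
      refine (low_part p hp f hf0).trans ?_
      apply mul_le_mul' le_rfl
      have h3 := H2_bound fE w hfm hw a C0 hL hC p hp _ (hr0 0) (hr1 0)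
      simp_rw [← hPE] at h3
      simpa using h3
    calc _ ≤ (2 ^ p * M) ^ (1 / p) := ENNReal.rpow_le_rpow e1 h1p
      _ = _ := by
        rw [ENNReal.mul_rpow_of_nonneg _ _ h1p, ← ENNReal.rpow_mul, mul_one_div_cancel hp0.ne', ENNReal.rpow_one]
  -- partial sums
  have part : ∀ J : ℕ, (∫⁻ z, ‖u J z‖ₑ ^ p ∂μ) ^ (1 / p) ≤
      (2 + ENNReal.ofReal (∑ j ∈ Finset.range J, c * (((j : ℝ) + 1) * q ^ j))) * M ^ (1 / p) := by
    intro J
    induction J with
    | zero => simpa using low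
    | succ J ih =>
      have h3 : (∫⁻ z, ‖u (J + 1) z‖ₑ ^ p ∂μ) ^ (1 / p) ≤
          (∫⁻ z, ‖u J z‖ₑ ^ p ∂μ) ^ (1 / p) + (∫⁻ z, ‖u (J + 1) z - u J z‖ₑ ^ p ∂μ) ^ (1 / p) := by
        have h4 := ENNReal.lintegral_Lp_add_le (μ := μ) (f := fun z => ‖u J z‖ₑ)
          (g := fun z => ‖u (J + 1) z - u J z‖ₑ) (hum J).enorm.aemeasurable
          ((hum (J + 1)).sub (hum J)).enorm.aemeasurable (p := p) (by linarith)
        refine le_trans ?_ h4
        apply ENNReal.rpow_le_rpow _ h1p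
        apply lintegral_mono
        intro z
        simp only [Pi.add_apply]
        apply ENNReal.rpow_le_rpow _ hp0.le
        calc ‖u (J + 1) z‖ₑ = ‖u J z + (u (J + 1) z - u J z)‖ₑ := by congr 1; ring
          _ ≤ _ := enorm_add_le _ _
      rw [Finset.sum_range_succ, ENNReal.ofReal_add (Finset.sum_nonneg (fun j _ => by positivity)) (by positivity)]
      calc _ ≤ _ := h3
        _ ≤ _ := add_le_add ih (pieceR J)
        _ = _ := by ring
  have partS : ∀ J : ℕ, ∫⁻ z, ‖u J z‖ₑ ^ p ∂μ ≤ (2 + ENNReal.ofReal S) ^ p * M := by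
    intro J
    have h3 : (∫⁻ z, ‖u J z‖ₑ ^ p ∂μ) ^ (1 / p) ≤ (2 + ENNReal.ofReal S) * M ^ (1 / p) := by
      refine (part J).trans ?_
      apply mul_le_mul' (add_le_add le_rfl (ENNReal.ofReal_le_ofReal _)) le_rfl
      exact hsum.sum_le_tsum _ (fun j _ => by positivity)
    have h4 := ENNReal.rpow_le_rpow h3 hp0.le
    rw [← ENNReal.rpow_mul, one_div_mul_cancel hp0.ne', ENNReal.rpow_one, ENNReal.mul_rpow_of_nonneg _ _ hp0.le,
      ← ENNReal.rpow_mul, one_div_mul_cancel hp0.ne', ENNReal.rpow_one] at h4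
    exact h4
  -- limit
  have hwm : Measurable (fun z : ℝ × E3 => waveSol (fun x => (f x : ℂ)) z.1 z.2) := measurable_waveSol f
  have e5 : ∫⁻ t in Icc (1 : ℝ) 2, ∫⁻ x, ‖waveSol (fun x => (f x : ℂ)) t x‖ₑ ^ p =
      ∫⁻ z, ‖waveSol (fun x => (f x : ℂ)) z.1 z.2‖ₑ ^ p ∂μ := by
    rw [hμ, lintegral_prod _ (hwm.enorm.pow_const p).aemeasurable]
  rw [e5]
  have hae : ∀ᵐ z : ℝ × E3 ∂μ, z.1 ∈ Icc (1 : ℝ) 2 :=
    (Measure.quasiMeasurePreserving_fst (μ := volume.restrict (Icc (1 : ℝ) 2))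
      (ν := (volume : Measure E3))).ae (ae_restrict_mem measurableSet_Icc)
  calc ∫⁻ z, ‖waveSol (fun x => (f x : ℂ)) z.1 z.2‖ₑ ^ p ∂μ
      ≤ ∫⁻ z, liminf (fun J => ‖u J z‖ₑ ^ p) atTop ∂μ := by
        apply lintegral_mono_ae
        filter_upwards [hae] with z hz
        have ht0 : 0 < z.1 := by linarith [hz.1]
        have h6 := (Us_tendsto f z.1 ht0 z.2).enorm
        have h7 : Tendsto (fun J => ‖u J z‖ₑ ^ p) atTop (𝓝 (‖waveSol (fun x => (f x : ℂ)) z.1 z.2‖ₑ ^ p)) := by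
          have h8 := ((ENNReal.continuous_rpow_const (y := p)).tendsto _).comp h6
          refine h8.congr (fun J => ?_)
          simp only [Function.comp_apply, hu]
          congr 1
          rw [← ofReal_norm, ← ofReal_norm, Complex.norm_real]
        rw [h7.liminf_eq]
    _ ≤ liminf (fun J => ∫⁻ z, ‖u J z‖ₑ ^ p ∂μ) atTop :=
        lintegral_liminf_le (fun J => (hum J).enorm.pow_const p)
    _ ≤ liminf (fun _ : ℕ => (2 + ENNReal.ofReal S) ^ p * M) atTop :=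
        liminf_le_liminf (Eventually.of_forall partS)
    _ = _ := by
        rw [liminf_const, hM]
        unfold MM
        ring

end Pool.Agent.H79.Wave
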