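import Mathlib
import Pool.Agent.H79.Wave.OSF

/-!
Lower bound for Bessel potentials by local averages, and localisation.
-/

set_option autoImplicit false

namespace Pool.Agent.H79.Wave

open MeasureTheory Set Metric FourierTransform RealInnerProductSpace Filter Topology SchwartzMap

/-- constant -/
noncomputable def c1 : ℝ := (4 * Real.pi) ^ (-(3 / 2) : ℝ) * 2 ^ (-(5 / 2) : ℝ) * Real.exp (-19)

lemma c1_pos : 0 < c1 := by unfold c1; positivity

lemma kernel_lower2 (β : ℝ) (hβ : 0 < β) (hβ5 : β ≤ 5) (s τ : ℝ) (hs : 0 < s) (hs3 : s ≤ 3)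
    (h1 : s ^ 2 < τ) (h2 : τ < 2 * s ^ 2) (z : E3) (hz : ‖z‖ < s) :
    c1 * s ^ (β - 5) ≤ wt β τ * heatK τ z := by
  have hpi := Real.pi_pos
  have hτ : 0 < τ := lt_trans (by positivity) h1
  have hs2 : s ^ 2 ≤ 9 := by nlinarith
  have e1 : τ ^ (β / 2 - 1) * (4 * Real.pi * τ) ^ (-(3 / 2) : ℝ) =
      (4 * Real.pi) ^ (-(3 / 2) : ℝ) * τ ^ ((β - 5) / 2) := by
    rw [Real.mul_rpow (by positivity) hτ.le]
    have : τ ^ (β / 2 - 1) * τ ^ (-(3 / 2) : ℝ) = τ ^ ((β - 5) / 2) := by
      rw [← Real.rpow_add hτ]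
      congr 1
      ring
    calc τ ^ (β / 2 - 1) * ((4 * Real.pi) ^ (-(3 / 2) : ℝ) * τ ^ (-(3 / 2) : ℝ))
        = (4 * Real.pi) ^ (-(3 / 2) : ℝ) * (τ ^ (β / 2 - 1) * τ ^ (-(3 / 2) : ℝ)) := by ring
      _ = _ := by rw [this]
  have e2 : 2 ^ (-(5 / 2) : ℝ) * s ^ (β - 5) ≤ τ ^ ((β - 5) / 2) := by
    calc (2 : ℝ) ^ (-(5 / 2) : ℝ) * s ^ (β - 5) ≤ 2 ^ ((β - 5) / 2) * s ^ (β - 5) := by
          apply mul_le_mul_of_nonneg_right _ (by positivity)
          exact Real.rpow_le_rpow_of_exponent_le (by norm_num) (by linarith)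
      _ = (2 * s ^ 2) ^ ((β - 5) / 2) := by
          rw [Real.mul_rpow (by norm_num) (by positivity), ← Real.rpow_natCast s 2, ← Real.rpow_mul hs.le]
          congr 2
          push_cast
          ring
      _ ≤ _ := Real.rpow_le_rpow_of_nonpos hτ h2.le (by linarith)
  have e4 : Real.exp (-19) ≤ Real.exp (-τ) * Real.exp (-(‖z‖ ^ 2 / (4 * τ))) := by
    rw [← Real.exp_add]
    apply Real.exp_le_exp.mpr
    have hz2 : ‖z‖ ^ 2 ≤ s ^ 2 := pow_le_pow_left₀ (norm_nonneg _) hz.le 2
    have : ‖z‖ ^ 2 / (4 * τ) ≤ 1 := by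
      rw [div_le_one (by positivity)]
      linarith
    linarith
  unfold wt heatK
  calc c1 * s ^ (β - 5) = ((4 * Real.pi) ^ (-(3 / 2) : ℝ) * (2 ^ (-(5 / 2) : ℝ) * s ^ (β - 5))) * Real.exp (-19) := by
        unfold c1; ring
    _ ≤ ((4 * Real.pi) ^ (-(3 / 2) : ℝ) * τ ^ ((β - 5) / 2)) *
        (Real.exp (-τ) * Real.exp (-(‖z‖ ^ 2 / (4 * τ)))) := by gcongr
    _ = _ := by
        rw [← e1]; ring

lemma besK_lower2 (β : ℝ) (hβ : 0 < β) (hβ5 : β ≤ 5) (s : ℝ) (hs : 0 < s) (hs3 : s ≤ 3) (z : E3) (hz : ‖z‖ < s) :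
    ENNReal.ofReal (c1 * s ^ (β - 3)) ≤ besK β z := by
  calc ENNReal.ofReal (c1 * s ^ (β - 3)) = ENNReal.ofReal (c1 * s ^ (β - 5)) * ENNReal.ofReal (s ^ 2) := by
        have := c1_pos
        rw [← ENNReal.ofReal_mul (by positivity)]
        congr 1
        rw [mul_assoc, ← Real.rpow_natCast s 2, ← Real.rpow_add hs]
        congr 2
        push_cast
        ring
    _ = ∫⁻ τ in Ioo (s ^ 2) (2 * s ^ 2), ENNReal.ofReal (c1 * s ^ (β - 5)) := by
        rw [setLIntegral_const, Real.volume_Ioo]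
        congr 2
        ring
    _ ≤ ∫⁻ τ in Ioo (s ^ 2) (2 * s ^ 2), ENNReal.ofReal (wt β τ * heatK τ z) := by
        apply setLIntegral_mono' measurableSet_Ioo
        intro τ hτ
        exact ENNReal.ofReal_le_ofReal (kernel_lower2 β hβ hβ5 s τ hs hs3 hτ.1 hτ.2 z hz)
    _ ≤ besK β z := by
        unfold besK
        apply lintegral_mono_set
        intro τ hτ
        exact lt_trans (by positivity) hτ.1

lemma besK_meas (β : ℝ) : Measurable (besK β) := by
  unfold besK
  have h1 : Measurable (fun w : E3 × ℝ => ENNReal.ofReal (wt β w.2 * heatK w.2 w.1)) := by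
    have m1 : Measurable (fun w : E3 × ℝ => heatK w.2 w.1) :=
      measurable_heatK.comp (f := fun w : E3 × ℝ => (w.2, w.1)) (by fun_prop)
    have m2 : Measurable (fun w : E3 × ℝ => wt β w.2) := (measurable_wt β).comp measurable_snd
    exact (m2.mul m1).ennreal_ofReal
  exact h1.lintegral_prod_right'

/-- local averages are controlled by the potential -/
lemma avg_le_bessel (β : ℝ) (hβ : 0 < β) (hβ5 : β ≤ 5) (f : E3 → ENNReal) (hf : Measurable f)
    (s : ℝ) (hs : 0 < s) (hs3 : s ≤ 3) (x : E3) :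
    cv (bk s) f x ≤ ENNReal.ofReal c1⁻¹ * ENNReal.ofReal (s ^ (3 - β)) * cv (besK β) f x := by
  have hc := c1_pos
  unfold cv
  rw [← lintegral_const_mul]
  · apply lintegral_mono
    intro y
    simp only
    by_cases h : ‖x - y‖ < s
    · have e : bk s (x - y) = 1 := by unfold bk; rw [if_pos h]
      rw [e, one_mul, ← mul_assoc]
      calc f y = 1 * f y := (one_mul _).symm
        _ ≤ _ := by
          apply mul_le_mul' _ le_rfl
          calc (1 : ENNReal) = ENNReal.ofReal c1⁻¹ * ENNReal.ofReal (s ^ (3 - β)) *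
                ENNReal.ofReal (c1 * s ^ (β - 3)) := by
                rw [← ENNReal.ofReal_mul (by positivity), ← ENNReal.ofReal_mul (by positivity)]
                have : c1⁻¹ * s ^ (3 - β) * (c1 * s ^ (β - 3)) = (c1⁻¹ * c1) * (s ^ (3 - β) * s ^ (β - 3)) := by ring
                rw [this, inv_mul_cancel₀ hc.ne', ← Real.rpow_add hs]
                simp
            _ ≤ _ := by
                apply mul_le_mul' le_rfl
                exact besK_lower2 β hβ hβ5 s hs hs3 _ h
    · have e : bk s (x - y) = 0 := by unfold bk; rw [if_neg h]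
      rw [e, zero_mul]
      exact zero_le
  · have := besK_meas β
    exact (this.comp (by fun_prop)).mul hf

/-- a fixed smooth bump function -/
noncomputable def bump : ContDiffBump (0 : E3) where
  rIn := 1 / 2
  rOut := 1
  rIn_pos := by norm_num
  rIn_lt_rOut := by norm_num

/-- the mass of the bump function -/
noncomputable def m0 : ENNReal := ∫⁻ z : E3, ENNReal.ofReal (bump z)

lemma bump_meas : Measurable (fun z : E3 => bump z) := bump.continuous.measurable

lemma bump_zero (z : E3) (hz : 1 < ‖z‖) : bump z = 0 := by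
  apply bump.zero_of_le_dist
  rw [dist_zero_right]
  exact hz.le

lemma m0_ne_top : m0 ≠ ⊤ := by
  have h : ∀ z : E3, ENNReal.ofReal (bump z) ≤ bk 2 z := by
    intro z
    unfold bk
    by_cases hz : ‖z‖ < 2
    · rw [if_pos hz, ← ENNReal.ofReal_one]
      exact ENNReal.ofReal_le_ofReal bump.le_one
    · rw [if_neg hz, bump_zero z (by linarith)]
      simp
  refine ne_of_lt (lt_of_le_of_lt (lintegral_mono h) ?_)
  rw [lint_bk]
  exact measure_ball_lt_top

lemma m0_ne_zero : m0 ≠ 0 := by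
  have h : ∀ z : E3, bk (1 / 2) z ≤ ENNReal.ofReal (bump z) := by
    intro z
    unfold bk
    by_cases hz : ‖z‖ < 1 / 2
    · rw [if_pos hz, bump.one_of_mem_closedBall (by
        rw [mem_closedBall, dist_zero_right]
        exact hz.le)]
      simp
    · rw [if_neg hz]
      exact zero_le
  have h2 : 0 < volume (ball (0 : E3) (1 / 2)) := measure_ball_pos _ _ (by norm_num)
  rw [← lint_bk] at h2
  exact (lt_of_lt_of_le h2 (lintegral_mono h)).ne'

/-- the localised function -/
noncomputable def loc (f : 𝓢(E3, ℝ)) (z : E3) : 𝓢(E3, ℝ) :=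
  HasCompactSupport.toSchwartzMap (f := fun x => f x * bump (x - z))
    (by
      apply HasCompactSupport.mul_left
      have h := bump.hasCompactSupport
      exact h.comp_homeomorph (Homeomorph.subRight z))
    (by
      apply (f.smooth ⊤).mul
      exact bump.contDiff.comp (by fun_prop))

lemma loc_apply (f : 𝓢(E3, ℝ)) (z x : E3) : loc f z x = f x * bump (x - z) := rfl

end Pool.Agent.H79.Wave
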