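import Mathlib
import Pool.Agent.H79.Wave.OSG

/-!
Local smoothing for non-negative velocities in `ℝ³`, all exponents `3 ≤ p ≤ 4`.
-/

set_option autoImplicit false

namespace Pool.Agent.H79.Wave

open MeasureTheory Set Metric FourierTransform RealInnerProductSpace Filter Topology SchwartzMap

/-- the solution for the localised velocity -/
noncomputable def Gz (f : E3 → ℝ) (z : E3) (t : ℝ) (x : E3) : ENNReal :=
  ENNReal.ofReal t * (ENNReal.ofReal (4 * Real.pi)⁻¹ *
    ∫⁻ ω : sphere (0 : E3) 1, ENNReal.ofReal (f (x - t • (ω : E3))) * ENNReal.ofReal (bump (x - t • (ω : E3) - z)) ∂sg)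

lemma Gz_meas (f : E3 → ℝ) (hf : Continuous f) : Measurable (fun w : E3 × (ℝ × E3) => Gz f w.1 w.2.1 w.2.2) := by
  have hb := bump.continuous
  have h1 : Measurable (fun v : (E3 × (ℝ × E3)) × sphere (0 : E3) 1 =>
      ENNReal.ofReal (f (v.1.2.2 - v.1.2.1 • (v.2 : E3))) *
        ENNReal.ofReal (bump (v.1.2.2 - v.1.2.1 • (v.2 : E3) - v.1.1))) := by
    have c1 : Continuous (fun v : (E3 × (ℝ × E3)) × sphere (0 : E3) 1 => f (v.1.2.2 - v.1.2.1 • (v.2 : E3))) :=
      hf.comp (by fun_prop)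
    have c2 : Continuous (fun v : (E3 × (ℝ × E3)) × sphere (0 : E3) 1 =>
        bump (v.1.2.2 - v.1.2.1 • (v.2 : E3) - v.1.1)) := hb.comp (by fun_prop)
    exact c1.measurable.ennreal_ofReal.mul c2.measurable.ennreal_ofReal
  have h2 : Measurable (fun w : E3 × (ℝ × E3) => ∫⁻ ω : sphere (0 : E3) 1,
      ENNReal.ofReal (f (w.2.2 - w.2.1 • (ω : E3))) *
        ENNReal.ofReal (bump (w.2.2 - w.2.1 • (ω : E3) - w.1)) ∂sg) := h1.lintegral_prod_right'
  unfold Gz
  have h3 : Measurable (fun w : E3 × (ℝ × E3) => ENNReal.ofReal w.2.1) :=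
    (measurable_fst.comp measurable_snd).ennreal_ofReal
  exact h3.mul (h2.const_mul _)

lemma wave_enorm (f : 𝓢(E3, ℝ)) (hf0 : ∀ x, 0 ≤ f x) (t : ℝ) (ht : 0 < t) (x : E3) :
    ‖waveSol (fun x => (f x : ℂ)) t x‖ₑ = ENNReal.ofReal t * (ENNReal.ofReal (4 * Real.pi)⁻¹ *
      ∫⁻ ω : sphere (0 : E3) 1, ENNReal.ofReal (f (x - t • (ω : E3))) ∂sg) := by
  have h0 := Av_nonneg (fun x => f x) hf0 t x
  rw [wave_eq_Av f t ht x, ← ofReal_norm, Complex.norm_real, Real.norm_eq_abs,
    abs_of_nonneg (mul_nonneg ht.le h0), ENNReal.ofReal_mul ht.le, Av_lint _ f.continuous hf0]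

lemma loc_nonneg (f : 𝓢(E3, ℝ)) (hf0 : ∀ x, 0 ≤ f x) (z x : E3) : 0 ≤ loc f z x := by
  rw [loc_apply]
  exact mul_nonneg (hf0 x) bump.nonneg

lemma loc_enorm (f : 𝓢(E3, ℝ)) (hf0 : ∀ x, 0 ≤ f x) (z : E3) (t : ℝ) (ht : 0 < t) (x : E3) :
    ‖waveSol (fun x => (loc f z x : ℂ)) t x‖ₑ = Gz (fun x => f x) z t x := by
  rw [wave_enorm (loc f z) (loc_nonneg f hf0 z) t ht x]
  unfold Gz
  congr 2
  apply lintegral_congr
  intro ω
  rw [loc_apply, ENNReal.ofReal_mul (hf0 _)]

/-- superposition of the localised solutions -/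
lemma Gz_lint (f : 𝓢(E3, ℝ)) (hf0 : ∀ x, 0 ≤ f x) (t : ℝ) (ht : 0 < t) (x : E3) :
    ∫⁻ z, Gz (fun x => f x) z t x = m0 * ‖waveSol (fun x => (f x : ℂ)) t x‖ₑ := by
  rw [wave_enorm f hf0 t ht x]
  unfold Gz
  rw [lintegral_const_mul' _ _ ENNReal.ofReal_ne_top, lintegral_const_mul' _ _ ENNReal.ofReal_ne_top,
    lintegral_lintegral_swap]
  · have e : ∀ ω : sphere (0 : E3) 1, ∫⁻ z, ENNReal.ofReal (f (x - t • (ω : E3))) *
        ENNReal.ofReal (bump (x - t • (ω : E3) - z)) = m0 * ENNReal.ofReal (f (x - t • (ω : E3))) := by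
      intro ω
      rw [lintegral_const_mul' _ _ ENNReal.ofReal_ne_top,
        lintegral_sub_left_eq_self (fun z => ENNReal.ofReal (bump z)), mul_comm]
      rfl
    simp_rw [e]
    rw [lintegral_const_mul' _ _ m0_ne_top]
    ring
  · apply Measurable.aemeasurable
    have hb := bump.continuous
    have hf := f.continuous
    have c1 : Continuous (fun v : E3 × sphere (0 : E3) 1 => f (x - t • (v.2 : E3))) :=
      hf.comp (by fun_prop)
    have c2 : Continuous (fun v : E3 × sphere (0 : E3) 1 =>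
        bump (x - t • (v.2 : E3) - v.1)) := hb.comp (by fun_prop)
    exact c1.measurable.ennreal_ofReal.mul c2.measurable.ennreal_ofReal

lemma Gz_supp (f : E3 → ℝ) (z : E3) (t : ℝ) (ht : t ∈ Icc (1 : ℝ) 2) (x : E3) :
    Gz f z t x = bk 4 (x - z) * Gz f z t x := by
  by_cases h : ‖x - z‖ < 4
  · have : bk 4 (x - z) = 1 := by unfold bk; rw [if_pos h]
    rw [this, one_mul]
  · have e : Gz f z t x = 0 := by
      unfold Gz
      have e1 : ∀ ω : sphere (0 : E3) 1, ENNReal.ofReal (f (x - t • (ω : E3))) *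
          ENNReal.ofReal (bump (x - t • (ω : E3) - z)) = 0 := by
        intro ω
        have hω : ‖(ω : E3)‖ = 1 := by simp
        have h1 : ‖t • (ω : E3)‖ ≤ 2 := by
          rw [norm_smul, hω, mul_one, Real.norm_eq_abs, abs_of_pos (by linarith [ht.1])]
          exact ht.2
        have h2 : 1 < ‖x - t • (ω : E3) - z‖ := by
          have h3 : ‖x - z‖ ≤ ‖x - t • (ω : E3) - z‖ + ‖t • (ω : E3)‖ := by
            calc ‖x - z‖ = ‖(x - t • (ω : E3) - z) + t • (ω : E3)‖ := by congr 1; abel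
              _ ≤ _ := norm_add_le _ _
          linarith [not_lt.mp h]
        rw [bump_zero _ h2]
        simp
      simp_rw [e1]
      simp
    rw [e, mul_zero]

/-- the potentials of the localised functions -/
lemma wz_meas (a : ℝ) (f : E3 → ℝ) (hf : Continuous f) :
    Measurable (fun w : E3 × E3 => cv (besK a) (fun y => ENNReal.ofReal (f y) * ENNReal.ofReal (bump (y - w.1))) w.2) := by
  unfold cv
  have hb := bump.continuous
  have hk := besK_meas a
  have h1 : Measurable (fun v : (E3 × E3) × E3 => besK a (v.1.2 - v.2) *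
      (ENNReal.ofReal (f v.2) * ENNReal.ofReal (bump (v.2 - v.1.1)))) := by
    have c1 : Measurable (fun v : (E3 × E3) × E3 => besK a (v.1.2 - v.2)) := hk.comp (by fun_prop)
    have c2 : Measurable (fun v : (E3 × E3) × E3 => f v.2) := hf.measurable.comp measurable_snd
    have c3 : Continuous (fun v : (E3 × E3) × E3 => bump (v.2 - v.1.1)) := hb.comp (by fun_prop)
    exact c1.mul (c2.ennreal_ofReal.mul c3.measurable.ennreal_ofReal)
  exact h1.lintegral_prod_right'

lemma wz_lint (a : ℝ) (f : E3 → ℝ) (hf : Continuous f) (x : E3) :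
    ∫⁻ z, cv (besK a) (fun y => ENNReal.ofReal (f y) * ENNReal.ofReal (bump (y - z))) x =
      m0 * cv (besK a) (fun y => ENNReal.ofReal (f y)) x := by
  unfold cv
  have hb := bump.continuous
  have hk := besK_meas a
  have hbm : ∀ y : E3, Measurable (fun z : E3 => ENNReal.ofReal (bump (y - z))) := fun y =>
    (hb.comp (by fun_prop : Continuous (fun z : E3 => y - z))).measurable.ennreal_ofReal
  rw [lintegral_lintegral_swap]
  · have e : ∀ y : E3, ∫⁻ z, besK a (x - y) * (ENNReal.ofReal (f y) * ENNReal.ofReal (bump (y - z))) =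
        m0 * (besK a (x - y) * ENNReal.ofReal (f y)) := by
      intro y
      rw [lintegral_const_mul _ ((hbm y).const_mul _), lintegral_const_mul _ (hbm y),
        lintegral_sub_left_eq_self (fun z => ENNReal.ofReal (bump z))]
      change besK a (x - y) * (ENNReal.ofReal (f y) * m0) = _
      ring
    simp_rw [e]
    rw [lintegral_const_mul' _ _ m0_ne_top]
  · apply Measurable.aemeasurable
    have c1 : Measurable (fun v : E3 × E3 => besK a (x - v.2)) := hk.comp (by fun_prop)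
    have c2 : Measurable (fun v : E3 × E3 => f v.2) := hf.measurable.comp measurable_snd
    have c3 : Continuous (fun v : E3 × E3 => bump (v.2 - v.1)) := hb.comp (by fun_prop)
    exact c1.mul (c2.ennreal_ofReal.mul c3.measurable.ennreal_ofReal)

/-- Local smoothing for non-negative velocities -/
theorem nonneg_thm (p a : ℝ) (hp : 3 ≤ p) (ha : 0 < a) (h1 : a * p * ((p - 2) / (p - 1)) < 2) (h2 : a * p < 3) :
    ∃ K : ENNReal, K ≠ ⊤ ∧ ∀ f : 𝓢(E3, ℝ), (∀ x, 0 ≤ f x) →
      ∫⁻ t in Icc (1 : ℝ) 2, ∫⁻ x, ‖waveSol (fun x => (f x : ℂ)) t x‖ₑ ^ p ≤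
        K * ∫⁻ x, ‖bessel (-a) (fun x => (f x : ℂ)) x‖ₑ ^ p := by
  have hp0 : 0 < p := by linarith
  have ha1 : a ≤ 1 := by nlinarith
  obtain ⟨K, hK, hloc⟩ := local_thm p a hp ha.le h1 h2 (ENNReal.ofReal c1⁻¹) ENNReal.ofReal_ne_top
  set V : ENNReal := volume (ball (0 : E3) 4) with hV
  have hVt : V ≠ ⊤ := measure_ball_lt_top.ne
  set g : ENNReal := ENNReal.ofReal ((Real.Gamma (a / 2))⁻¹) with hg
  have hG : 0 < Real.Gamma (a / 2) := Real.Gamma_pos_of_pos (by positivity)
  have hg0 : g ≠ 0 := by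
    rw [hg]
    simp only [ne_eq, ENNReal.ofReal_eq_zero, not_le]
    positivity
  have hgt : g ≠ ⊤ := ENNReal.ofReal_ne_top
  have hm0p : m0 ^ p ≠ 0 := by
    rw [ne_eq, ENNReal.rpow_eq_zero_iff]
    push Not
    exact ⟨fun h => absurd h m0_ne_zero, fun h => absurd h m0_ne_top⟩
  have hgp : g ^ p ≠ 0 := by
    rw [ne_eq, ENNReal.rpow_eq_zero_iff]
    push Not
    exact ⟨fun h => absurd h hg0, fun h => absurd h hgt⟩
  refine ⟨(m0 ^ p)⁻¹ * (V ^ (p - 1) * (K * m0)) * (g ^ p)⁻¹, ?_, ?_⟩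
  · apply ENNReal.mul_ne_top
    · apply ENNReal.mul_ne_top (ENNReal.inv_ne_top.mpr hm0p)
      exact ENNReal.mul_ne_top (ENNReal.rpow_ne_top_of_nonneg (by linarith) hVt) (ENNReal.mul_ne_top hK m0_ne_top)
    · exact ENNReal.inv_ne_top.mpr hgp
  intro f hf0
  have hfc := f.continuous
  set fE : E3 → ENNReal := fun y => ENNReal.ofReal (f y) with hfE
  have hfm : Measurable fE := hfc.measurable.ennreal_ofReal
  set w : E3 → ENNReal := cv (besK a) fE with hw
  have hwm : Measurable w := cv_meas _ _ (besK_meas a) hfm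
  have hbes : ∀ x, ‖bessel (-a) (fun x => (f x : ℂ)) x‖ₑ = g * w x := fun x =>
    bessel_nonneg (fun x => f x) hf0 hfc f.integrable (sch_fint f) a ha x
  have hbesp : ∫⁻ x, ‖bessel (-a) (fun x => (f x : ℂ)) x‖ₑ ^ p = g ^ p * ∫⁻ x, w x ^ p := by
    simp_rw [hbes, ENNReal.mul_rpow_of_nonneg _ _ hp0.le]
    rw [lintegral_const_mul _ (hwm.pow_const p)]
  have hGm := Gz_meas (fun x => f x) hfc
  -- pointwise localisation
  have hpt : ∀ t ∈ Icc (1 : ℝ) 2, ∀ x : E3, m0 ^ p * ‖waveSol (fun x => (f x : ℂ)) t x‖ₑ ^ p ≤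
      V ^ (p - 1) * ∫⁻ z, Gz (fun x => f x) z t x ^ p := by
    intro t ht x
    have ht0 : 0 < t := by linarith [ht.1]
    have hGx : Measurable (fun z => Gz (fun x => f x) z t x) :=
      hGm.comp (f := fun z : E3 => (z, (t, x))) (by fun_prop)
    have hbx : Measurable (fun z => bk 4 (x - z)) := (bk_meas 4).comp (by fun_prop)
    rw [← ENNReal.mul_rpow_of_nonneg _ _ hp0.le, ← Gz_lint f hf0 t ht0 x]
    have e : ∫⁻ z, Gz (fun x => f x) z t x = ∫⁻ z, bk 4 (x - z) * Gz (fun x => f x) z t x :=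
      lintegral_congr (fun z => Gz_supp _ z t ht x)
    rw [e]
    refine (jensen_wt volume (fun z => bk 4 (x - z)) (fun z => Gz (fun x => f x) z t x) hbx hGx p
      (by linarith)).trans ?_
    rw [lintegral_sub_left_eq_self (fun z => bk 4 z) x, lint_bk]
    apply mul_le_mul' le_rfl
    apply lintegral_mono
    intro z
    simp only
    calc bk 4 (x - z) * Gz (fun x => f x) z t x ^ p ≤ 1 * Gz (fun x => f x) z t x ^ p := by
          apply mul_le_mul' _ le_rfl
          unfold bk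
          split_ifs
          · exact le_rfl
          · exact zero_le
      _ = _ := one_mul _
  -- the localised problems
  have hz : ∀ z : E3, ∫⁻ t in Icc (1 : ℝ) 2, ∫⁻ x, Gz (fun x => f x) z t x ^ p ≤
      K * ∫⁻ x, cv (besK a) (fun y => ENNReal.ofReal (f y) * ENNReal.ofReal (bump (y - z))) x ^ p := by
    intro z
    have hbz : Measurable (fun y : E3 => ENNReal.ofReal (f y) * ENNReal.ofReal (bump (y - z))) :=
      hfm.mul (bump.continuous.comp (by fun_prop : Continuous (fun y : E3 => y - z))).measurable.ennreal_ofReal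
    have e1 : (fun y => ENNReal.ofReal (loc f z y)) = fun y => ENNReal.ofReal (f y) * ENNReal.ofReal (bump (y - z)) := by
      ext y
      rw [loc_apply, ENNReal.ofReal_mul (hf0 _)]
    have h3 := hloc (loc f z) (cv (besK a) (fun y => ENNReal.ofReal (f y) * ENNReal.ofReal (bump (y - z)))) z
      (loc_nonneg f hf0 z) (cv_meas _ _ (besK_meas a) hbz) (by
        intro y hy
        rw [loc_apply, bump_zero _ hy, mul_zero]) (by
        intro s hs hs3 x
        rw [e1]
        exact avg_le_bessel a ha (by linarith) _ hbz s hs hs3 x)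
    refine le_trans (le_of_eq ?_) h3
    apply setLIntegral_congr_fun measurableSet_Icc
    intro t ht
    apply lintegral_congr
    intro x
    rw [loc_enorm f hf0 z t (by linarith [ht.1]) x]
  -- the potentials
  have hwz : ∫⁻ z, ∫⁻ x, cv (besK a) (fun y => ENNReal.ofReal (f y) * ENNReal.ofReal (bump (y - z))) x ^ p ≤
      m0 * ∫⁻ x, w x ^ p := by
    have hwzm := wz_meas a (fun x => f x) hfc
    rw [lintegral_lintegral_swap (hwzm.pow_const p).aemeasurable, ← lintegral_const_mul _ (hwm.pow_const p)]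
    apply lintegral_mono
    intro x
    simp only
    have h4 : ∀ z, cv (besK a) (fun y => ENNReal.ofReal (f y) * ENNReal.ofReal (bump (y - z))) x ≤ w x := by
      intro z
      apply cv_mono
      intro y
      calc ENNReal.ofReal (f y) * ENNReal.ofReal (bump (y - z)) ≤ ENNReal.ofReal (f y) * 1 := by
            apply mul_le_mul' le_rfl
            rw [← ENNReal.ofReal_one]
            exact ENNReal.ofReal_le_ofReal bump.le_one
        _ = _ := mul_one _
    have e5 : ∀ c : ENNReal, c ^ p = c ^ (p - 1) * c := by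
      intro c
      nth_rewrite 3 [← ENNReal.rpow_one c]
      rw [← ENNReal.rpow_add_of_nonneg _ _ (by linarith) (by norm_num)]
      congr 1
      ring
    have hwx : Measurable (fun z => cv (besK a) (fun y => ENNReal.ofReal (f y) * ENNReal.ofReal (bump (y - z))) x) :=
      hwzm.comp (f := fun z : E3 => (z, x)) (by fun_prop)
    calc ∫⁻ z, cv (besK a) (fun y => ENNReal.ofReal (f y) * ENNReal.ofReal (bump (y - z))) x ^ p
        ≤ ∫⁻ z, w x ^ (p - 1) * cv (besK a) (fun y => ENNReal.ofReal (f y) * ENNReal.ofReal (bump (y - z))) x := by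
          apply lintegral_mono
          intro z
          simp only
          rw [e5]
          apply mul_le_mul' _ le_rfl
          exact ENNReal.rpow_le_rpow (h4 z) (by linarith)
      _ = w x ^ (p - 1) * (m0 * w x) := by
          rw [lintegral_const_mul _ hwx, wz_lint a (fun x => f x) hfc x]
      _ = m0 * w x ^ p := by
          rw [e5 (w x)]
          ring
  -- assembling
  have hmain : m0 ^ p * ∫⁻ t in Icc (1 : ℝ) 2, ∫⁻ x, ‖waveSol (fun x => (f x : ℂ)) t x‖ₑ ^ p ≤
      V ^ (p - 1) * (K * m0) * ∫⁻ x, w x ^ p := by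
    have hm0t : m0 ^ p ≠ ⊤ := ENNReal.rpow_ne_top_of_nonneg hp0.le m0_ne_top
    have hVp : V ^ (p - 1) ≠ ⊤ := ENNReal.rpow_ne_top_of_nonneg (by linarith) hVt
    calc m0 ^ p * ∫⁻ t in Icc (1 : ℝ) 2, ∫⁻ x, ‖waveSol (fun x => (f x : ℂ)) t x‖ₑ ^ p
        = ∫⁻ t in Icc (1 : ℝ) 2, ∫⁻ x, m0 ^ p * ‖waveSol (fun x => (f x : ℂ)) t x‖ₑ ^ p := by
          simp_rw [lintegral_const_mul' _ _ hm0t]
      _ ≤ ∫⁻ t in Icc (1 : ℝ) 2, ∫⁻ x, V ^ (p - 1) * ∫⁻ z, Gz (fun x => f x) z t x ^ p := by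
          apply setLIntegral_mono' measurableSet_Icc
          intro t ht
          apply lintegral_mono
          intro x
          exact hpt t ht x
      _ = V ^ (p - 1) * ∫⁻ t in Icc (1 : ℝ) 2, ∫⁻ x, ∫⁻ z, Gz (fun x => f x) z t x ^ p := by
          simp_rw [lintegral_const_mul' _ _ hVp]
      _ = V ^ (p - 1) * ∫⁻ z, ∫⁻ t in Icc (1 : ℝ) 2, ∫⁻ x, Gz (fun x => f x) z t x ^ p := by
          congr 1
          have s1 : ∀ t : ℝ, ∫⁻ x, ∫⁻ z, Gz (fun x => f x) z t x ^ p = ∫⁻ z, ∫⁻ x, Gz (fun x => f x) z t x ^ p := by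
            intro t
            rw [lintegral_lintegral_swap]
            apply Measurable.aemeasurable
            exact (hGm.pow_const p).comp (f := fun v : E3 × E3 => (v.2, (t, v.1))) (by fun_prop)
          simp_rw [s1]
          rw [lintegral_lintegral_swap]
          apply Measurable.aemeasurable
          have m3 : Measurable (fun v : (ℝ × E3) × E3 => Gz (fun x => f x) v.1.2 v.1.1 v.2 ^ p) :=
            (hGm.pow_const p).comp (f := fun v : (ℝ × E3) × E3 => (v.1.2, (v.1.1, v.2))) (by fun_prop)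
          exact m3.lintegral_prod_right'
      _ ≤ V ^ (p - 1) * ∫⁻ z, K * ∫⁻ x, cv (besK a) (fun y => ENNReal.ofReal (f y) *
            ENNReal.ofReal (bump (y - z))) x ^ p := by
          apply mul_le_mul' le_rfl
          exact lintegral_mono hz
      _ = V ^ (p - 1) * (K * ∫⁻ z, ∫⁻ x, cv (besK a) (fun y => ENNReal.ofReal (f y) *
            ENNReal.ofReal (bump (y - z))) x ^ p) := by
          rw [lintegral_const_mul' _ _ hK]
      _ ≤ V ^ (p - 1) * (K * (m0 * ∫⁻ x, w x ^ p)) := by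
          apply mul_le_mul' le_rfl
          exact mul_le_mul' le_rfl hwz
      _ = _ := by ring
  rw [hbesp]
  calc ∫⁻ t in Icc (1 : ℝ) 2, ∫⁻ x, ‖waveSol (fun x => (f x : ℂ)) t x‖ₑ ^ p
      = (m0 ^ p)⁻¹ * (m0 ^ p * ∫⁻ t in Icc (1 : ℝ) 2, ∫⁻ x, ‖waveSol (fun x => (f x : ℂ)) t x‖ₑ ^ p) := by
        rw [← mul_assoc, ENNReal.inv_mul_cancel hm0p (ENNReal.rpow_ne_top_of_nonneg hp0.le m0_ne_top), one_mul]
    _ ≤ (m0 ^ p)⁻¹ * (V ^ (p - 1) * (K * m0) * ∫⁻ x, w x ^ p) := mul_le_mul' le_rfl hmain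
    _ = (m0 ^ p)⁻¹ * (V ^ (p - 1) * (K * m0)) * (((g ^ p)⁻¹ * g ^ p) * ∫⁻ x, w x ^ p) := by
        rw [ENNReal.inv_mul_cancel hgp (ENNReal.rpow_ne_top_of_nonneg hp0.le hgt), one_mul]
        ring
    _ = _ := by ring

end Pool.Agent.H79.Wave
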