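import Mathlib
import Pool.Agent.H79.Wave.ThmA

/-!
Sharp local smoothing in `ℝ³` for data carried by small sets.
-/

set_option autoImplicit false

namespace Pool.Agent.H79.Wave

open MeasureTheory Set Metric FourierTransform RealInnerProductSpace Filter Topology SchwartzMap

/-- Hölder's inequality with the kernel `|x-y|⁻²` on a set -/
lemma holder_kernel (p : ℝ) (hp : 2 < p) (E : Set E3) (hE : MeasurableSet E) (κ : ENNReal)
    (hκ : ∀ x ∈ E, ∫⁻ y in E, (‖x - y‖ₑ ^ 2)⁻¹ ≤ κ) (a b : E3 → ENNReal) (ha : Measurable a)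
    (hb : Measurable b) (ha0 : ∀ x, x ∉ E → a x = 0) (hb0 : ∀ x, x ∉ E → b x = 0) :
    ∫⁻ x, ∫⁻ y, a x ^ 2 * b y ^ (p - 2) * (‖x - y‖ₑ ^ 2)⁻¹ ≤
      κ * ((∫⁻ x, a x ^ p) ^ (2 / p) * (∫⁻ y, b y ^ p) ^ ((p - 2) / p)) := by
  have hp0 : 0 < p := by linarith
  have hp2 : 0 < p - 2 := by linarith
  set μE : Measure E3 := volume.restrict E with hμE
  set k : E3 × E3 → ENNReal := fun z => (‖z.1 - z.2‖ₑ ^ 2)⁻¹ with hk
  have hkm : Measurable k := by rw [hk]; fun_prop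
  have hkap : ∀ x ∈ E, ∫⁻ y, k (x, y) ∂μE ≤ κ := fun x hx => hκ x hx
  have hkap2 : ∀ y ∈ E, ∫⁻ x, k (x, y) ∂μE ≤ κ := by
    intro y hy
    refine le_trans (le_of_eq ?_) (hkap y hy)
    apply lintegral_congr
    intro x
    rw [hk]
    simp only
    rw [enorm_sub_rev]
  set ν : Measure (E3 × E3) := (μE.prod μE).withDensity k with hν
  -- left-hand side
  have l1 : ∫⁻ x, ∫⁻ y, a x ^ 2 * b y ^ (p - 2) * (‖x - y‖ₑ ^ 2)⁻¹ =
      ∫⁻ z, (a z.1 ^ 2 * b z.2 ^ (p - 2)) ∂ν := by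
    have hm1 : Measurable (fun z : E3 × E3 => a z.1 ^ 2 * b z.2 ^ (p - 2)) := by fun_prop
    rw [hν, lintegral_withDensity_eq_lintegral_mul _ hkm hm1, lintegral_prod _ (hkm.mul hm1).aemeasurable,
      hμE, ← lintegral_indicator hE]
    apply lintegral_congr
    intro x
    by_cases hx : x ∈ E
    · rw [Set.indicator_of_mem hx, ← lintegral_indicator hE]
      apply lintegral_congr
      intro y
      by_cases hy : y ∈ E
      · rw [Set.indicator_of_mem hy]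
        simp only [Pi.mul_apply, hk]
        ring
      · rw [Set.indicator_of_notMem hy, hb0 y hy, ENNReal.zero_rpow_of_pos hp2]
        simp
    · rw [Set.indicator_of_notMem hx]
      simp [ha0 x hx]
  rw [l1]
  have hconj : (p / 2).HolderConjugate (p / (p - 2)) := by
    rw [Real.holderConjugate_iff]
    refine ⟨by linarith [(one_lt_div (by norm_num : (0 : ℝ) < 2)).mpr hp], ?_⟩
    rw [inv_div, inv_div]
    field_simp
    ring
  have hH := ENNReal.lintegral_mul_le_Lp_mul_Lq ν hconj (f := fun z : E3 × E3 => a z.1 ^ 2)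
    (g := fun z : E3 × E3 => b z.2 ^ (p - 2)) (by fun_prop) (by fun_prop)
  simp only [Pi.mul_apply] at hH
  refine hH.trans ?_
  have f1 : ∀ z : E3 × E3, (a z.1 ^ 2) ^ (p / 2) = a z.1 ^ p := by
    intro z
    rw [← ENNReal.rpow_natCast, ← ENNReal.rpow_mul]
    congr 1
    push_cast
    field_simp
  have f2 : ∀ z : E3 × E3, (b z.2 ^ (p - 2)) ^ (p / (p - 2)) = b z.2 ^ p := by
    intro z
    rw [← ENNReal.rpow_mul]
    congr 1
    field_simp
  simp_rw [f1, f2]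
  have b1 : ∫⁻ z, a z.1 ^ p ∂ν ≤ κ * ∫⁻ x, a x ^ p := by
    have hm1 : Measurable (fun z : E3 × E3 => a z.1 ^ p) := by fun_prop
    rw [hν, lintegral_withDensity_eq_lintegral_mul _ hkm hm1, lintegral_prod _ (hkm.mul hm1).aemeasurable]
    calc ∫⁻ x, ∫⁻ y, (k * fun z : E3 × E3 => a z.1 ^ p) (x, y) ∂μE ∂μE
        = ∫⁻ x, a x ^ p * ∫⁻ y, k (x, y) ∂μE ∂μE := by
          apply lintegral_congr
          intro x
          have hkx : Measurable (fun y : E3 => k (x, y)) := hkm.comp measurable_prodMk_left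
          rw [← lintegral_const_mul _ hkx]
          apply lintegral_congr
          intro y
          simp only [Pi.mul_apply]
          ring
      _ ≤ ∫⁻ x, a x ^ p * κ ∂μE := by
          apply setLIntegral_mono' hE
          intro x hx
          gcongr
          exact hkap x hx
      _ ≤ ∫⁻ x, a x ^ p * κ := lintegral_mono' Measure.restrict_le_self le_rfl
      _ = κ * ∫⁻ x, a x ^ p := by
          rw [lintegral_mul_const _ (by fun_prop), mul_comm]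
  have b2 : ∫⁻ z, b z.2 ^ p ∂ν ≤ κ * ∫⁻ y, b y ^ p := by
    have hm1 : Measurable (fun z : E3 × E3 => b z.2 ^ p) := by fun_prop
    rw [hν, lintegral_withDensity_eq_lintegral_mul _ hkm hm1, lintegral_prod_symm _ (hkm.mul hm1).aemeasurable]
    calc ∫⁻ y, ∫⁻ x, (k * fun z : E3 × E3 => b z.2 ^ p) (x, y) ∂μE ∂μE
        = ∫⁻ y, b y ^ p * ∫⁻ x, k (x, y) ∂μE ∂μE := by
          apply lintegral_congr
          intro y
          have hky : Measurable (fun x : E3 => k (x, y)) := hkm.comp measurable_prodMk_right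
          rw [← lintegral_const_mul _ hky]
          apply lintegral_congr
          intro x
          simp only [Pi.mul_apply]
          ring
      _ ≤ ∫⁻ y, b y ^ p * κ ∂μE := by
          apply setLIntegral_mono' hE
          intro y hy
          gcongr
          exact hkap2 y hy
      _ ≤ ∫⁻ y, b y ^ p * κ := lintegral_mono' Measure.restrict_le_self le_rfl
      _ = κ * ∫⁻ y, b y ^ p := by
          rw [lintegral_mul_const _ (by fun_prop), mul_comm]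
  have e1 : 1 / (p / 2) = 2 / p := by rw [one_div, inv_div]
  have e2 : 1 / (p / (p - 2)) = (p - 2) / p := by rw [one_div, inv_div]
  rw [e1, e2]
  have h2p : 0 ≤ 2 / p := by positivity
  have h3p : 0 ≤ (p - 2) / p := by positivity
  calc (∫⁻ z, a z.1 ^ p ∂ν) ^ (2 / p) * (∫⁻ z, b z.2 ^ p ∂ν) ^ ((p - 2) / p)
      ≤ (κ * ∫⁻ x, a x ^ p) ^ (2 / p) * (κ * ∫⁻ y, b y ^ p) ^ ((p - 2) / p) := by gcongr
    _ = (κ ^ (2 / p) * κ ^ ((p - 2) / p)) * ((∫⁻ x, a x ^ p) ^ (2 / p) * (∫⁻ y, b y ^ p) ^ ((p - 2) / p)) := by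
        rw [ENNReal.mul_rpow_of_nonneg _ _ h2p, ENNReal.mul_rpow_of_nonneg _ _ h3p]
        ring
    _ = _ := by
        rw [← ENNReal.rpow_add_of_nonneg _ _ h2p h3p]
        have : 2 / p + (p - 2) / p = 1 := by field_simp; ring
        rw [this, ENNReal.rpow_one]

/-- the kernel integral over a set with dimension bound `α` at scales between `δ` and `1` -/
lemma kappa_bound (α τ A δ : ℝ) (hA : 0 ≤ A) (hτ1 : τ ≤ 1) (hατ : τ < 3 - α) (hδ : 0 < δ) (hδ1 : δ ≤ 1)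
    (E : Set E3) (hE1 : volume E ≤ ENNReal.ofReal (A * δ ^ (3 - α)))
    (x : E3) (hE2 : ∀ r : ℝ, δ ≤ r → r ≤ 1 → volume (E ∩ ball x r) ≤ ENNReal.ofReal (A * δ ^ (3 - α) * r ^ α)) :
    ∫⁻ y in E, (‖x - y‖ₑ ^ 2)⁻¹ ≤
      ENNReal.ofReal ((A + 2 * A / (3 - α - τ) + 8 * Real.pi / 3) * δ ^ τ) := by
  have hpi := Real.pi_pos
  have hg : 0 < 3 - α - τ := by linarith
  have e0 : ∫⁻ y in E, (‖x - y‖ₑ ^ 2)⁻¹ = ∫⁻ y in E, ENNReal.ofReal ((‖x - y‖ ^ 2)⁻¹) := by
    apply lintegral_congr_ae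
    have hne : ∀ᵐ y : E3 ∂(volume.restrict E), y ≠ x := by
      apply ae_restrict_of_ae
      rw [ae_iff]; simp
    filter_upwards [hne] with y hy
    have hy0 : 0 < ‖x - y‖ := norm_pos_iff.mpr (sub_ne_zero.mpr (Ne.symm hy))
    rw [ENNReal.ofReal_inv_of_pos (by positivity), ENNReal.ofReal_pow (norm_nonneg _), ofReal_norm]
  rw [e0, lintegral_eq_lintegral_meas_lt _ (ae_of_all _ (fun y => by simp only [Pi.zero_apply]; positivity))
    (by fun_prop)]
  have hm : ∀ s : ℝ, 0 < s → {y : E3 | s < (‖x - y‖ ^ 2)⁻¹} ⊆ ball x (s ^ (-(1 / 2) : ℝ)) := by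
    intro s hs y hy
    rw [Set.mem_ofPred_eq] at hy
    have hy0 : 0 < ‖x - y‖ ^ 2 := by
      by_contra hcon
      have : ‖x - y‖ ^ 2 = 0 := le_antisymm (not_lt.mp hcon) (by positivity)
      rw [this, inv_zero] at hy
      linarith
    have h1 : ‖x - y‖ ^ 2 < s⁻¹ := by
      rw [lt_inv_comm₀ hs hy0] at hy
      exact hy
    rw [mem_ball, dist_eq_norm, norm_sub_rev]
    have h2 : (s ^ (-(1 / 2) : ℝ)) ^ 2 = s⁻¹ := by
      rw [← Real.rpow_natCast, ← Real.rpow_mul hs.le]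
      norm_num
      rw [Real.rpow_neg_one]
    have h3 : 0 < s ^ (-(1 / 2) : ℝ) := Real.rpow_pos_of_pos hs _
    rw [← h2] at h1
    exact lt_of_pow_lt_pow_left₀ 2 h3.le h1
  set m : ℝ → ENNReal := fun s => (volume.restrict E) {y : E3 | s < (‖x - y‖ ^ 2)⁻¹} with hmdef
  have hmm : ∀ s, MeasurableSet {y : E3 | s < (‖x - y‖ ^ 2)⁻¹} := fun s =>
    measurableSet_lt measurable_const (by fun_prop)
  have hm1 : ∀ s, m s ≤ volume E := by
    intro s
    rw [hmdef]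
    simp only
    rw [Measure.restrict_apply (hmm s)]
    exact measure_mono inter_subset_right
  have hm2 : ∀ s, 0 < s → m s ≤ volume (E ∩ ball x (s ^ (-(1 / 2) : ℝ))) := by
    intro s hs
    rw [hmdef]
    simp only
    rw [Measure.restrict_apply (hmm s)]
    exact measure_mono (fun y hy => ⟨hy.2, hm s hs hy.1⟩)
  have hd2 : 1 ≤ δ ^ (-2 : ℝ) := by
    rw [Real.rpow_neg hδ.le]
    apply (one_le_inv₀ (by positivity)).mpr
    exact Real.rpow_le_one hδ.le hδ1 (by norm_num)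
  have hcover : Ioi (0 : ℝ) ⊆ (Ioc 0 1 ∪ Ioc 1 (δ ^ (-2 : ℝ))) ∪ Ioi (δ ^ (-2 : ℝ)) := by
    intro s hs
    have hs0 : (0 : ℝ) < s := hs
    rcases le_or_gt s 1 with h | h
    · exact Or.inl (Or.inl ⟨hs0, h⟩)
    · rcases le_or_gt s (δ ^ (-2 : ℝ)) with h' | h'
      · exact Or.inl (Or.inr ⟨h, h'⟩)
      · exact Or.inr h'
  -- piece 1
  have p1 : ∫⁻ s in Ioc (0 : ℝ) 1, m s ≤ ENNReal.ofReal (A * δ ^ τ) := by
    calc ∫⁻ s in Ioc (0 : ℝ) 1, m s ≤ ∫⁻ s in Ioc (0 : ℝ) 1, ENNReal.ofReal (A * δ ^ (3 - α)) :=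
          lintegral_mono (fun s => (hm1 s).trans hE1)
      _ = ENNReal.ofReal (A * δ ^ (3 - α)) := by simp
      _ ≤ _ := by
          apply ENNReal.ofReal_le_ofReal
          apply mul_le_mul_of_nonneg_left _ hA
          exact Real.rpow_le_rpow_of_exponent_ge hδ hδ1 (by linarith)
  -- piece 2
  set β : ℝ := (α - 1 + τ) / 2 with hβ
  have hβ1 : β < 1 := by rw [hβ]; linarith
  have p2 : ∫⁻ s in Ioc (1 : ℝ) (δ ^ (-2 : ℝ)), m s ≤ ENNReal.ofReal (2 * A / (3 - α - τ) * δ ^ τ) := by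
    have hpt : ∀ s ∈ Ioc (1 : ℝ) (δ ^ (-2 : ℝ)), m s ≤ ENNReal.ofReal (A * δ ^ (3 - α) * s ^ (-β)) := by
      intro s hs
      have hs0 : 0 < s := lt_trans one_pos hs.1
      have hr1 : s ^ (-(1 / 2) : ℝ) ≤ 1 := Real.rpow_le_one_of_one_le_of_nonpos hs.1.le (by norm_num)
      have hr2 : δ ≤ s ^ (-(1 / 2) : ℝ) := by
        have : (δ ^ (-2 : ℝ)) ^ (-(1 / 2) : ℝ) = δ := by
          rw [← Real.rpow_mul hδ.le]; norm_num
        calc δ = (δ ^ (-2 : ℝ)) ^ (-(1 / 2) : ℝ) := this.symm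
          _ ≤ s ^ (-(1 / 2) : ℝ) := Real.rpow_le_rpow_of_nonpos hs0 hs.2 (by norm_num)
      refine (hm2 s hs0).trans ((hE2 _ hr2 hr1).trans ?_)
      apply ENNReal.ofReal_le_ofReal
      apply mul_le_mul_of_nonneg_left _ (by positivity)
      rw [← Real.rpow_mul hs0.le]
      apply Real.rpow_le_rpow_of_exponent_le hs.1.le
      rw [hβ]; linarith
    have hii : IntervalIntegrable (fun s : ℝ => A * δ ^ (3 - α) * s ^ (-β)) volume 0 (δ ^ (-2 : ℝ)) :=
      (intervalIntegral.intervalIntegrable_rpow' (by linarith)).const_mul _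
    have hd0 : (0 : ℝ) ≤ δ ^ (-2 : ℝ) := by positivity
    have hio : IntegrableOn (fun s : ℝ => A * δ ^ (3 - α) * s ^ (-β)) (Ioc 0 (δ ^ (-2 : ℝ))) :=
      (intervalIntegrable_iff_integrableOn_Ioc_of_le hd0).mp hii
    calc ∫⁻ s in Ioc (1 : ℝ) (δ ^ (-2 : ℝ)), m s
        ≤ ∫⁻ s in Ioc (1 : ℝ) (δ ^ (-2 : ℝ)), ENNReal.ofReal (A * δ ^ (3 - α) * s ^ (-β)) :=
          setLIntegral_mono' measurableSet_Ioc hpt
      _ ≤ ∫⁻ s in Ioc (0 : ℝ) (δ ^ (-2 : ℝ)), ENNReal.ofReal (A * δ ^ (3 - α) * s ^ (-β)) :=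
          lintegral_mono_set (Ioc_subset_Ioc_left (by norm_num))
      _ = ENNReal.ofReal (∫ s in Ioc (0 : ℝ) (δ ^ (-2 : ℝ)), A * δ ^ (3 - α) * s ^ (-β)) := by
          rw [ofReal_integral_eq_lintegral_ofReal hio]
          filter_upwards [ae_restrict_mem measurableSet_Ioc] with s hs
          have : 0 < s := hs.1
          simp only [Pi.zero_apply]
          positivity
      _ = _ := by
          congr 1
          rw [← intervalIntegral.integral_of_le hd0, intervalIntegral.integral_const_mul,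
            integral_rpow (Or.inl (by linarith)), Real.zero_rpow (by linarith), sub_zero,
            ← Real.rpow_mul hδ.le]
          have e3 : -β + 1 = (3 - α - τ) / 2 := by rw [hβ]; ring
          rw [e3]
          have e4 : δ ^ (3 - α) * δ ^ (-2 * ((3 - α - τ) / 2)) = δ ^ τ := by
            rw [← Real.rpow_add hδ]
            congr 1
            ring
          calc A * δ ^ (3 - α) * (δ ^ (-2 * ((3 - α - τ) / 2)) / ((3 - α - τ) / 2))
              = 2 * A / (3 - α - τ) * (δ ^ (3 - α) * δ ^ (-2 * ((3 - α - τ) / 2))) := by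
                field_simp
            _ = _ := by rw [e4]
  -- piece 3
  have p3 : ∫⁻ s in Ioi (δ ^ (-2 : ℝ)), m s ≤ ENNReal.ofReal (8 * Real.pi / 3 * δ ^ τ) := by
    have hc : (0 : ℝ) < δ ^ (-2 : ℝ) := by positivity
    have hpt : ∀ s ∈ Ioi (δ ^ (-2 : ℝ)), m s ≤ ENNReal.ofReal (4 * Real.pi / 3 * s ^ (-(3 / 2) : ℝ)) := by
      intro s hs
      have hs0 : 0 < s := lt_trans hc hs
      have hr0 : 0 < s ^ (-(1 / 2) : ℝ) := Real.rpow_pos_of_pos hs0 _
      refine (hm2 s hs0).trans ((measure_mono inter_subset_right).trans (le_of_eq ?_))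
      rw [EuclideanSpace.volume_ball_fin_three, ← ENNReal.ofReal_pow hr0.le, ← ENNReal.ofReal_mul (by positivity)]
      congr 1
      rw [← Real.rpow_natCast, ← Real.rpow_mul hs0.le]
      norm_num
      ring
    have hio : IntegrableOn (fun s : ℝ => 4 * Real.pi / 3 * s ^ (-(3 / 2) : ℝ)) (Ioi (δ ^ (-2 : ℝ))) :=
      (integrableOn_Ioi_rpow_of_lt (by norm_num) hc).const_mul _
    calc ∫⁻ s in Ioi (δ ^ (-2 : ℝ)), m s
        ≤ ∫⁻ s in Ioi (δ ^ (-2 : ℝ)), ENNReal.ofReal (4 * Real.pi / 3 * s ^ (-(3 / 2) : ℝ)) :=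
          setLIntegral_mono' measurableSet_Ioi hpt
      _ = ENNReal.ofReal (∫ s in Ioi (δ ^ (-2 : ℝ)), 4 * Real.pi / 3 * s ^ (-(3 / 2) : ℝ)) := by
          rw [ofReal_integral_eq_lintegral_ofReal hio]
          filter_upwards [ae_restrict_mem measurableSet_Ioi] with s hs
          have : 0 < s := lt_trans hc hs
          simp only [Pi.zero_apply]
          positivity
      _ ≤ _ := by
          apply ENNReal.ofReal_le_ofReal
          rw [integral_const_mul, integral_Ioi_rpow_of_lt (by norm_num) hc, ← Real.rpow_mul hδ.le]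
          have e5 : δ ^ (-2 * (-(3 / 2) + 1) : ℝ) = δ := by
            rw [show (-2 * (-(3 / 2) + 1) : ℝ) = 1 by norm_num, Real.rpow_one]
          rw [e5]
          have e6 : δ ≤ δ ^ τ := by
            calc δ = δ ^ (1 : ℝ) := (Real.rpow_one δ).symm
              _ ≤ δ ^ τ := Real.rpow_le_rpow_of_exponent_ge hδ hδ1 hτ1
          calc 4 * Real.pi / 3 * (-δ / (-(3 / 2) + 1)) = 8 * Real.pi / 3 * δ := by
                norm_num; ring
            _ ≤ _ := by gcongr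
  calc ∫⁻ s in Ioi (0 : ℝ), m s ≤ ∫⁻ s in (Ioc 0 1 ∪ Ioc 1 (δ ^ (-2 : ℝ))) ∪ Ioi (δ ^ (-2 : ℝ)), m s :=
        lintegral_mono_set hcover
    _ ≤ (∫⁻ s in Ioc (0 : ℝ) 1 ∪ Ioc 1 (δ ^ (-2 : ℝ)), m s) + ∫⁻ s in Ioi (δ ^ (-2 : ℝ)), m s :=
        lintegral_union_le _ _ _
    _ ≤ ((∫⁻ s in Ioc (0 : ℝ) 1, m s) + ∫⁻ s in Ioc 1 (δ ^ (-2 : ℝ)), m s) + ∫⁻ s in Ioi (δ ^ (-2 : ℝ)), m s := by
        gcongr
        exact lintegral_union_le _ _ _
    _ ≤ (ENNReal.ofReal (A * δ ^ τ) + ENNReal.ofReal (2 * A / (3 - α - τ) * δ ^ τ)) +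
        ENNReal.ofReal (8 * Real.pi / 3 * δ ^ τ) := by gcongr
    _ = _ := by
        rw [← ENNReal.ofReal_add (by positivity) (by positivity), ← ENNReal.ofReal_add (by positivity) (by positivity)]
        congr 1
        ring

lemma eLpNorm_rpow (p : ℝ) (hp : 0 < p) {F : Type} [NormedAddCommGroup F] (f : E3 → F) :
    eLpNorm f (ENNReal.ofReal p) volume ^ p = ∫⁻ x, ‖f x‖ₑ ^ p := by
  rw [eLpNorm_eq_lintegral_rpow_enorm_toReal (by simpa using hp) ENNReal.ofReal_ne_top, ENNReal.toReal_ofReal hp.le,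
    ← ENNReal.rpow_mul, one_div, inv_mul_cancel₀ hp.ne', ENNReal.rpow_one]

lemma lint_rpow_eLpNorm (p : ℝ) (hp : 0 < p) {F : Type} [NormedAddCommGroup F] (f : E3 → F) :
    (∫⁻ x, ‖f x‖ₑ ^ p) ^ (1 / p) = eLpNorm f (ENNReal.ofReal p) volume := by
  rw [eLpNorm_eq_lintegral_rpow_enorm_toReal (by simpa using hp) ENNReal.ofReal_ne_top, ENNReal.toReal_ofReal hp.le]

lemma fourier_zero_fun (ξ : E3) : 𝓕 (fun _ : E3 => (0 : ℂ)) ξ = 0 := by
  rw [fourier_eq_exp]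
  simp

lemma waveSol_zero (t : ℝ) (x : E3) : waveSol (⇑(0 : 𝓢(E3, ℂ))) t x = 0 := by
  have h : (⇑(0 : 𝓢(E3, ℂ)) : E3 → ℂ) = fun _ => 0 := rfl
  rw [waveSol, fourierInv_ch, h]
  simp_rw [fourier_zero_fun]
  simp

lemma riesz_zero (x : E3) : riesz (⇑(0 : 𝓢(E3, ℂ))) x = 0 := by
  have h : (⇑(0 : 𝓢(E3, ℂ)) : E3 → ℂ) = fun _ => 0 := rfl
  rw [riesz, fourierInv_ch, h]
  simp_rw [fourier_zero_fun]
  simp

/-- the inequality for data carried by a closed set -/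
theorem sparse_kappa (p : ℝ) (hp : 3 ≤ p) (E : Set E3) (hE : IsClosed E) (κ : ENNReal)
    (hκ : ∀ x ∈ E, ∫⁻ y in E, (‖x - y‖ₑ ^ 2)⁻¹ ≤ κ) (u₀ : 𝓢(E3, ℂ)) (hu : ∀ x, x ∉ E → u₀ x = 0) :
    ∫⁻ t in Icc (1 : ℝ) 2, eLpNorm (fun x => cosSol u₀ t x) (ENNReal.ofReal p) volume ^ p ≤
      ENNReal.ofReal (2 ^ (p - 2) / (4 * Real.pi)) * (κ *
        (eLpNorm u₀ (ENNReal.ofReal p) volume ^ 2 * (eLpNorm u₀ (ENNReal.ofReal p) volume +
          eLpNorm (fderiv ℝ u₀) (ENNReal.ofReal p) volume) ^ (p - 2))) := by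
  have hp0 : 0 < p := by linarith
  have hfc : Continuous (fderiv ℝ (u₀ : E3 → ℂ)) := (u₀.smooth 1).continuous_fderiv (by norm_num)
  have hA := thmA p hp u₀ 0
  simp_rw [waveSol_zero, riesz_zero] at hA
  have hd : ∀ x, x ∉ E → fderiv ℝ u₀ x = 0 := by
    intro x hx
    have hop : Eᶜ ∈ 𝓝 x := hE.isOpen_compl.mem_nhds hx
    have hev : (u₀ : E3 → ℂ) =ᶠ[𝓝 x] fun _ => 0 := by
      filter_upwards [hop] with y hy
      exact hu y hy
    rw [hev.fderiv_eq]
    simp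
  set a : E3 → ENNReal := fun x => ‖u₀ x‖ₑ with ha
  set b : E3 → ENNReal := fun x => ‖u₀ x‖ₑ + ‖fderiv ℝ u₀ x‖ₑ with hb
  have ham : Measurable a := u₀.continuous.measurable.enorm
  have hbm : Measurable b := u₀.continuous.measurable.enorm.add hfc.measurable.enorm
  have hK := holder_kernel p (by linarith) E hE.measurableSet κ hκ a b ham hbm
    (fun x hx => by rw [ha]; simp [hu x hx])
    (fun x hx => by
      rw [hb]
      simp only [hu x hx, hd x hx]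
      rw [← ofReal_norm, ← ofReal_norm, norm_zero, norm_zero, ENNReal.ofReal_zero, add_zero])
  have e1 : ∀ t : ℝ, eLpNorm (fun x => cosSol u₀ t x) (ENNReal.ofReal p) volume ^ p =
      ∫⁻ x, ‖cosSol u₀ t x + 0‖ₑ ^ p := by
    intro t
    rw [eLpNorm_rpow p hp0]
    simp
  have e2 : (∫⁻ x, a x ^ p) ^ (2 / p) = eLpNorm u₀ (ENNReal.ofReal p) volume ^ 2 := by
    rw [← lint_rpow_eLpNorm p hp0, ← ENNReal.rpow_natCast, ← ENNReal.rpow_mul]
    congr 1
    push_cast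
    ring
  have e3 : (∫⁻ y, b y ^ p) ^ ((p - 2) / p) ≤ (eLpNorm u₀ (ENNReal.ofReal p) volume +
          eLpNorm (fderiv ℝ u₀) (ENNReal.ofReal p) volume) ^ (p - 2) := by
    have h1 : (∫⁻ y, b y ^ p) ^ (1 / p) ≤ eLpNorm u₀ (ENNReal.ofReal p) volume +
          eLpNorm (fderiv ℝ u₀) (ENNReal.ofReal p) volume := by
      rw [← lint_rpow_eLpNorm p hp0, ← lint_rpow_eLpNorm p hp0]
      exact ENNReal.lintegral_Lp_add_le ham.aemeasurable hfc.measurable.enorm.aemeasurable (by linarith)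
    calc (∫⁻ y, b y ^ p) ^ ((p - 2) / p) = ((∫⁻ y, b y ^ p) ^ (1 / p)) ^ (p - 2) := by
          rw [← ENNReal.rpow_mul]
          congr 1
          ring
      _ ≤ _ := ENNReal.rpow_le_rpow h1 (by linarith)
  simp_rw [e1]
  refine hA.trans ?_
  gcongr
  calc ∫⁻ x, ∫⁻ y, (‖u₀ x‖ₑ ^ 2 + ‖(0 : ℂ)‖ₑ ^ 2) * (‖u₀ y‖ₑ + ‖fderiv ℝ u₀ y‖ₑ + ‖(0 : 𝓢(E3, ℂ)) y‖ₑ) ^ (p - 2) *
          (‖x - y‖ₑ ^ 2)⁻¹ = ∫⁻ x, ∫⁻ y, a x ^ 2 * b y ^ (p - 2) * (‖x - y‖ₑ ^ 2)⁻¹ := by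
        apply lintegral_congr
        intro x
        apply lintegral_congr
        intro y
        simp [ha, hb]
    _ ≤ κ * ((∫⁻ x, a x ^ p) ^ (2 / p) * (∫⁻ y, b y ^ p) ^ ((p - 2) / p)) := hK
    _ ≤ _ := by
        rw [e2]
        gcongr

/-- sharp local smoothing for data carried by small sets -/
theorem thmB (p α σ A M : ℝ) (hp : 3 ≤ p) (hA : 0 ≤ A) (hM : 0 ≤ M) (hσ : σ ≤ 1 / p)
    (hσα : σ < (3 - α) / p) :
    ∃ C : NNReal, ∀ δ : ℝ, 0 < δ → δ ≤ 1 → ∀ E : Set E3, IsClosed E →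
      volume E ≤ ENNReal.ofReal (A * δ ^ (3 - α)) →
      (∀ x ∈ E, ∀ r : ℝ, δ ≤ r → r ≤ 1 → volume (E ∩ ball x r) ≤ ENNReal.ofReal (A * δ ^ (3 - α) * r ^ α)) →
      ∀ u₀ : 𝓢(E3, ℂ), (∀ x, x ∉ E → u₀ x = 0) →
      ENNReal.ofReal δ * eLpNorm (fderiv ℝ u₀) (ENNReal.ofReal p) volume ≤
        ENNReal.ofReal M * eLpNorm u₀ (ENNReal.ofReal p) volume →
      (∫⁻ t in Icc (1 : ℝ) 2, eLpNorm (fun x => cosSol u₀ t x) (ENNReal.ofReal p) volume ^ p) ^ (1 / p) ≤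
        (C : ENNReal) * ENNReal.ofReal (δ ^ (-(1 - 2 / p - σ))) * eLpNorm u₀ (ENNReal.ofReal p) volume := by
  have hpi := Real.pi_pos
  have hp0 : 0 < p := by linarith
  set τ : ℝ := p * σ with hτ
  have hτ1 : τ ≤ 1 := by
    rw [hτ]
    calc p * σ ≤ p * (1 / p) := by gcongr
      _ = 1 := by field_simp
  have hατ : τ < 3 - α := by
    rw [hτ]
    calc p * σ < p * ((3 - α) / p) := by gcongr
      _ = 3 - α := by field_simp
  have hg : 0 < 3 - α - τ := by linarith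
  set C₁ : ℝ := A + 2 * A / (3 - α - τ) + 8 * Real.pi / 3 with hC₁
  have hC₁0 : 0 ≤ C₁ := by positivity
  set C₂ : ℝ := 2 ^ (p - 2) / (4 * Real.pi) * (C₁ * (1 + M) ^ (p - 2)) with hC₂
  have hC₂0 : 0 ≤ C₂ := by positivity
  refine ⟨⟨C₂ ^ (1 / p), by positivity⟩, fun δ hδ hδ1 E hE hE1 hE2 u₀ hu hfreq => ?_⟩
  set N := eLpNorm u₀ (ENNReal.ofReal p) volume with hN
  set D := eLpNorm (fderiv ℝ u₀) (ENNReal.ofReal p) volume with hD
  have hκ : ∀ x ∈ E, ∫⁻ y in E, (‖x - y‖ₑ ^ 2)⁻¹ ≤ ENNReal.ofReal (C₁ * δ ^ τ) := fun x hx =>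
    kappa_bound α τ A δ hA hτ1 hατ hδ hδ1 E hE1 x (hE2 x hx)
  have h1 := sparse_kappa p hp E hE (ENNReal.ofReal (C₁ * δ ^ τ)) hκ u₀ hu
  have hDN : N + D ≤ ENNReal.ofReal ((1 + M) * δ⁻¹) * N := by
    have h2 : D ≤ ENNReal.ofReal (M * δ⁻¹) * N := by
      calc D = (ENNReal.ofReal (δ⁻¹) * ENNReal.ofReal δ) * D := by
            rw [← ENNReal.ofReal_mul (by positivity), inv_mul_cancel₀ hδ.ne']
            simp
        _ = ENNReal.ofReal (δ⁻¹) * (ENNReal.ofReal δ * D) := by ring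
        _ ≤ ENNReal.ofReal (δ⁻¹) * (ENNReal.ofReal M * N) := by gcongr
        _ = _ := by
            rw [ENNReal.ofReal_mul hM]
            ring
    have h3 : N ≤ ENNReal.ofReal (δ⁻¹) * N := by
      calc N = 1 * N := (one_mul N).symm
        _ ≤ ENNReal.ofReal (δ⁻¹) * N := by
            gcongr
            rw [← ENNReal.ofReal_one]
            exact ENNReal.ofReal_le_ofReal ((one_le_inv₀ hδ).mpr hδ1)
    calc N + D ≤ ENNReal.ofReal (δ⁻¹) * N + ENNReal.ofReal (M * δ⁻¹) * N := add_le_add h3 h2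
      _ = _ := by
          rw [← add_mul, ← ENNReal.ofReal_add (by positivity) (by positivity)]
          congr 2
          ring
  have h4 : ∫⁻ t in Icc (1 : ℝ) 2, eLpNorm (fun x => cosSol u₀ t x) (ENNReal.ofReal p) volume ^ p ≤
      ENNReal.ofReal (C₂ * δ ^ (τ - (p - 2))) * N ^ p := by
    refine h1.trans ?_
    have h5 : (N + D) ^ (p - 2) ≤ ENNReal.ofReal ((1 + M) ^ (p - 2) * δ ^ (-(p - 2))) * N ^ (p - 2) := by
      calc (N + D) ^ (p - 2) ≤ (ENNReal.ofReal ((1 + M) * δ⁻¹) * N) ^ (p - 2) :=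
            ENNReal.rpow_le_rpow hDN (by linarith)
        _ = ENNReal.ofReal ((1 + M) * δ⁻¹) ^ (p - 2) * N ^ (p - 2) :=
            ENNReal.mul_rpow_of_nonneg _ _ (by linarith)
        _ = _ := by
            congr 1
            rw [ENNReal.ofReal_rpow_of_nonneg (by positivity) (by linarith)]
            congr 1
            rw [Real.mul_rpow (by positivity) (by positivity), Real.inv_rpow hδ.le, Real.rpow_neg hδ.le]
    have h6 : N ^ 2 * N ^ (p - 2) = N ^ p := by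
      have h7 : N ^ 2 = N ^ (2 : ℝ) := by rw [← ENNReal.rpow_natCast]; norm_num
      rw [h7, ← ENNReal.rpow_add_of_nonneg _ _ (by norm_num) (by linarith)]
      congr 1
      ring
    calc ENNReal.ofReal (2 ^ (p - 2) / (4 * Real.pi)) * (ENNReal.ofReal (C₁ * δ ^ τ) *
        (N ^ 2 * (N + D) ^ (p - 2)))
        ≤ ENNReal.ofReal (2 ^ (p - 2) / (4 * Real.pi)) * (ENNReal.ofReal (C₁ * δ ^ τ) *
        (N ^ 2 * (ENNReal.ofReal ((1 + M) ^ (p - 2) * δ ^ (-(p - 2))) * N ^ (p - 2)))) := by gcongr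
      _ = (ENNReal.ofReal (2 ^ (p - 2) / (4 * Real.pi)) * (ENNReal.ofReal (C₁ * δ ^ τ) *
          ENNReal.ofReal ((1 + M) ^ (p - 2) * δ ^ (-(p - 2))))) * (N ^ 2 * N ^ (p - 2)) := by ring
      _ = _ := by
          rw [h6, ← ENNReal.ofReal_mul (by positivity), ← ENNReal.ofReal_mul (by positivity)]
          congr 2
          rw [hC₂, sub_eq_add_neg τ, Real.rpow_add hδ]
          ring
  calc (∫⁻ t in Icc (1 : ℝ) 2, eLpNorm (fun x => cosSol u₀ t x) (ENNReal.ofReal p) volume ^ p) ^ (1 / p)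
      ≤ (ENNReal.ofReal (C₂ * δ ^ (τ - (p - 2))) * N ^ p) ^ (1 / p) :=
        ENNReal.rpow_le_rpow h4 (by positivity)
    _ = ENNReal.ofReal (C₂ * δ ^ (τ - (p - 2))) ^ (1 / p) * N := by
        rw [ENNReal.mul_rpow_of_nonneg _ _ (by positivity), ← ENNReal.rpow_mul, mul_one_div_cancel hp0.ne',
          ENNReal.rpow_one]
    _ = _ := by
        congr 1
        rw [ENNReal.ofReal_rpow_of_nonneg (by positivity) (by positivity), Real.mul_rpow hC₂0 (by positivity),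
          ENNReal.ofReal_mul (by positivity), ← Real.rpow_mul hδ.le]
        congr 1
        · rw [← ENNReal.ofReal_coe_nnreal]
          rfl
        · congr 2
          rw [hτ]
          field_simp
          ring

end Pool.Agent.H79.Wave
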