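import Mathlib
import Pool.Agent.H79.Wave.OSH
import Pool.Agent.H79.Wave.ThmB

/-!
From non-negative velocities to data controlled from below, all exponents `3 ≤ p ≤ 4`.
-/

set_option autoImplicit false

namespace Pool.Agent.H79.Wave

open MeasureTheory Set Metric FourierTransform RealInnerProductSpace Filter Topology SchwartzMap

lemma enorm_bound (u₀ : 𝓢(E3, ℂ)) (u₁ g : 𝓢(E3, ℝ)) (hg : ∀ x, ‖u₀ x‖ + ‖fderiv ℝ u₀ x‖ ≤ g x)
    (t : ℝ) (ht : 1 ≤ t) (x : E3) :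
    ‖cosSol u₀ t x + waveSol (fun x => (u₁ x : ℂ)) t x‖ₑ ≤
      2 * ‖waveSol (fun x => (g x : ℂ)) t x‖ₑ + ‖waveSol (fun x => (((u₁ + g) x : ℝ) : ℂ)) t x‖ₑ := by
  have hg0 : ∀ x, 0 ≤ g x := fun x => le_trans (by positivity) (hg x)
  have h1 : ‖cosSol u₀ t x‖ ≤ t * Av (fun x => g x) t x := by
    have h := sol_major u₀ 0 (fun x => g x) g.continuous (fun x => by
      have := hg x
      simpa using this) t ht x
    rw [waveSol_zero, add_zero] at h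
    exact h
  have h2 : ‖cosSol u₀ t x‖ₑ ≤ ‖waveSol (fun x => (g x : ℂ)) t x‖ₑ := by
    rw [wave_eq_Av g t (by linarith) x, ← ofReal_norm, ← ofReal_norm, Complex.norm_real, Real.norm_eq_abs,
      abs_of_nonneg (mul_nonneg (by linarith) (Av_nonneg _ hg0 t x))]
    exact ENNReal.ofReal_le_ofReal h1
  rw [waveSol_sub u₁ g t x]
  calc _ ≤ ‖cosSol u₀ t x‖ₑ + ‖waveSol (fun x => (((u₁ + g) x : ℝ) : ℂ)) t x - waveSol (fun x => (g x : ℂ)) t x‖ₑ :=
        enorm_add_le _ _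
    _ ≤ ‖waveSol (fun x => (g x : ℂ)) t x‖ₑ + (‖waveSol (fun x => (((u₁ + g) x : ℝ) : ℂ)) t x‖ₑ +
        ‖waveSol (fun x => (g x : ℂ)) t x‖ₑ) := add_le_add h2 enorm_sub_le
    _ = _ := by ring

/-- passage from non-negative velocities to general data controlled by `g` -/
theorem onesided_of_nonneg (p a : ℝ) (hp : 3 ≤ p) (ha : 0 < a) (K : ENNReal) (hK : K ≠ ⊤)
    (hN : ∀ f : 𝓢(E3, ℝ), (∀ x, 0 ≤ f x) →
      ∫⁻ t in Icc (1 : ℝ) 2, ∫⁻ x, ‖waveSol (fun x => (f x : ℂ)) t x‖ₑ ^ p ≤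
        K * ∫⁻ x, ‖bessel (-a) (fun x => (f x : ℂ)) x‖ₑ ^ p) :
    ∃ C : NNReal, ∀ (u₀ : 𝓢(E3, ℂ)) (u₁ g : 𝓢(E3, ℝ)), (∀ x, ‖u₀ x‖ + ‖fderiv ℝ u₀ x‖ ≤ g x) →
      (∀ x, 0 ≤ u₁ x + g x) →
      (∫⁻ t in Icc (1 : ℝ) 2, eLpNorm (fun x => cosSol u₀ t x + waveSol (fun x => (u₁ x : ℂ)) t x)
        (ENNReal.ofReal p) volume ^ p) ^ (1 / p) ≤
      (C : ENNReal) * (eLpNorm (bessel (-a) (fun x => (u₁ x : ℂ))) (ENNReal.ofReal p) volume +
        eLpNorm (bessel (-a) (fun x => (g x : ℂ))) (ENNReal.ofReal p) volume) := by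
  have hp0 : 0 < p := by linarith
  have h1p : 0 ≤ 1 / p := by positivity
  set c : ENNReal := 2 ^ (p - 1) * (2 ^ p + 1) * K with hc
  have hct : c ≠ ⊤ := by
    rw [hc]
    refine ENNReal.mul_ne_top (ENNReal.mul_ne_top ?_ ?_) hK
    · exact ENNReal.rpow_ne_top_of_nonneg (by linarith) (by norm_num)
    · exact ENNReal.add_ne_top.mpr ⟨ENNReal.rpow_ne_top_of_nonneg hp0.le (by norm_num), by norm_num⟩
  have hcp : c ^ (1 / p) ≠ ⊤ := ENNReal.rpow_ne_top_of_nonneg h1p hct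
  refine ⟨(c ^ (1 / p)).toNNReal, fun u₀ u₁ g hg hu => ?_⟩
  rw [ENNReal.coe_toNNReal hcp]
  have hg0 : ∀ x, 0 ≤ g x := fun x => le_trans (by positivity) (hg x)
  set Nu := eLpNorm (bessel (-a) (fun x => (u₁ x : ℂ))) (ENNReal.ofReal p) volume with hNu
  set Ng := eLpNorm (bessel (-a) (fun x => (g x : ℂ))) (ENNReal.ofReal p) volume with hNg
  set W : 𝓢(E3, ℝ) → ℝ → E3 → ENNReal := fun f t x => ‖waveSol (fun x => (f x : ℂ)) t x‖ₑ with hW
  have hWm : ∀ f : 𝓢(E3, ℝ), Measurable (fun z : ℝ × E3 => W f z.1 z.2) := fun f => (measurable_waveSol f).enorm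
  have hmx : ∀ (f : 𝓢(E3, ℝ)) (t : ℝ), Measurable (fun x => W f t x ^ p) := fun f t =>
    ((hWm f).comp (f := fun x : E3 => (t, x)) (by fun_prop)).pow_const p
  have hmt : ∀ f : 𝓢(E3, ℝ), Measurable (fun t => ∫⁻ x, W f t x ^ p) := fun f =>
    Measurable.lintegral_prod_right' (f := fun z : ℝ × E3 => W f z.1 z.2 ^ p) ((hWm f).pow_const p)
  have h1 : eLpNorm (bessel (-a) (fun x => (((u₁ + g) x : ℝ) : ℂ))) (ENNReal.ofReal p) volume ≤ Nu + Ng := by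
    have e : bessel (-a) (fun x => (((u₁ + g) x : ℝ) : ℂ)) =
        bessel (-a) (fun x => (u₁ x : ℂ)) + bessel (-a) (fun x => (g x : ℂ)) := by
      ext x
      exact bessel_add (-a) (by linarith) u₁ g x
    rw [e]
    apply eLpNorm_add_le (continuous_bessel _ (by linarith) u₁).aestronglyMeasurable
      (continuous_bessel _ (by linarith) g).aestronglyMeasurable
    rw [← ENNReal.ofReal_one]
    exact ENNReal.ofReal_le_ofReal (by linarith)
  have hNp : ∀ f : 𝓢(E3, ℝ), (∀ x, 0 ≤ f x) → ∫⁻ t in Icc (1 : ℝ) 2, ∫⁻ x, W f t x ^ p ≤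
      K * eLpNorm (bessel (-a) (fun x => (f x : ℂ))) (ENNReal.ofReal p) volume ^ p := by
    intro f hf
    rw [eLpNorm_rpow p hp0]
    exact hN f hf
  have h2p : (2 : ENNReal) ^ p ≠ ⊤ := ENNReal.rpow_ne_top_of_nonneg hp0.le (by norm_num)
  have h2p1 : (2 : ENNReal) ^ (p - 1) ≠ ⊤ := ENNReal.rpow_ne_top_of_nonneg (by linarith) (by norm_num)
  have main : ∫⁻ t in Icc (1 : ℝ) 2, eLpNorm (fun x => cosSol u₀ t x + waveSol (fun x => (u₁ x : ℂ)) t x)
      (ENNReal.ofReal p) volume ^ p ≤ c * (Nu + Ng) ^ p := by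
    simp_rw [eLpNorm_rpow p hp0]
    calc ∫⁻ t in Icc (1 : ℝ) 2, ∫⁻ x, ‖cosSol u₀ t x + waveSol (fun x => (u₁ x : ℂ)) t x‖ₑ ^ p
        ≤ ∫⁻ t in Icc (1 : ℝ) 2, ∫⁻ x, 2 ^ (p - 1) * (2 ^ p * W g t x ^ p + W (u₁ + g) t x ^ p) := by
          apply setLIntegral_mono' measurableSet_Icc
          intro t ht
          apply lintegral_mono
          intro x
          simp only
          calc ‖cosSol u₀ t x + waveSol (fun x => (u₁ x : ℂ)) t x‖ₑ ^ p ≤
              (2 * W g t x + W (u₁ + g) t x) ^ p :=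
                ENNReal.rpow_le_rpow (enorm_bound u₀ u₁ g hg t ht.1 x) hp0.le
            _ ≤ 2 ^ (p - 1) * ((2 * W g t x) ^ p + W (u₁ + g) t x ^ p) :=
                ENNReal.rpow_add_le_mul_rpow_add_rpow _ _ (by linarith)
            _ = _ := by rw [ENNReal.mul_rpow_of_nonneg _ _ hp0.le]
      _ = 2 ^ (p - 1) * (2 ^ p * (∫⁻ t in Icc (1 : ℝ) 2, ∫⁻ x, W g t x ^ p) +
          ∫⁻ t in Icc (1 : ℝ) 2, ∫⁻ x, W (u₁ + g) t x ^ p) := by
          have e1 : ∀ t, ∫⁻ x, 2 ^ (p - 1) * (2 ^ p * W g t x ^ p + W (u₁ + g) t x ^ p) =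
              2 ^ (p - 1) * (2 ^ p * (∫⁻ x, W g t x ^ p) + ∫⁻ x, W (u₁ + g) t x ^ p) := by
            intro t
            rw [lintegral_const_mul' _ _ h2p1, lintegral_add_left ((hmx _ t).const_mul _),
              lintegral_const_mul' _ _ h2p]
          simp_rw [e1]
          rw [lintegral_const_mul' _ _ h2p1, lintegral_add_left ((hmt _).const_mul _),
            lintegral_const_mul' _ _ h2p]
      _ ≤ 2 ^ (p - 1) * (2 ^ p * (K * (Nu + Ng) ^ p) + K * (Nu + Ng) ^ p) := by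
          apply mul_le_mul' le_rfl
          apply add_le_add
          · apply mul_le_mul' le_rfl
            refine (hNp g hg0).trans ?_
            apply mul_le_mul' le_rfl
            exact ENNReal.rpow_le_rpow le_add_self hp0.le
          · refine (hNp (u₁ + g) (fun x => by simpa using hu x)).trans ?_
            apply mul_le_mul' le_rfl
            exact ENNReal.rpow_le_rpow h1 hp0.le
      _ = _ := by rw [hc]; ring
  refine (ENNReal.rpow_le_rpow main h1p).trans (le_of_eq ?_)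
  rw [ENNReal.mul_rpow_of_nonneg _ _ h1p, ← ENNReal.rpow_mul, mul_one_div_cancel hp0.ne', ENNReal.rpow_one]

/-- the endpoint estimate at `p = 3` in the present form -/
lemma nonneg_three (a : ℝ) (ha : 0 < a) (ha1 : a ≤ 1) :
    ∃ K : ENNReal, K ≠ ⊤ ∧ ∀ f : 𝓢(E3, ℝ), (∀ x, 0 ≤ f x) →
      ∫⁻ t in Icc (1 : ℝ) 2, ∫⁻ x, ‖waveSol (fun x => (f x : ℂ)) t x‖ₑ ^ (3 : ℝ) ≤
        K * ∫⁻ x, ‖bessel (-a) (fun x => (f x : ℂ)) x‖ₑ ^ (3 : ℝ) := by
  refine ⟨cB a, cB_ne_top a ha, fun f hf => ?_⟩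
  have e : ∀ c : ENNReal, c ^ (3 : ℝ) = c ^ 3 := fun c => by
    rw [← ENNReal.rpow_natCast]; norm_num
  simp_rw [e]
  exact ls_nonneg a ha ha1 f hf

/-- all cases together -/
theorem ls_final (p σ : ℝ) (hp3 : 3 ≤ p) (hp4 : p ≤ 4) (h1 : -(2 / p) < σ)
    (h2 : σ < 1 / p ∨ (p = 3 ∧ σ = 1 / 3)) :
    ∃ C : NNReal, ∀ (u₀ : 𝓢(E3, ℂ)) (u₁ g : 𝓢(E3, ℝ)), (∀ x, ‖u₀ x‖ + ‖fderiv ℝ u₀ x‖ ≤ g x) →
      (∀ x, 0 ≤ u₁ x + g x) →
      (∫⁻ t in Icc (1 : ℝ) 2, eLpNorm (fun x => cosSol u₀ t x + waveSol (fun x => (u₁ x : ℂ)) t x)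
        (ENNReal.ofReal p) volume ^ p) ^ (1 / p) ≤
      (C : ENNReal) * (eLpNorm (bessel ((1 - 2 / p) - 1 - σ) (fun x => (u₁ x : ℂ))) (ENNReal.ofReal p) volume +
        eLpNorm (bessel ((1 - 2 / p) - 1 - σ) (fun x => (g x : ℂ))) (ENNReal.ofReal p) volume) := by
  have hp0 : 0 < p := by linarith
  set a : ℝ := 2 / p + σ with ha
  have hs : (1 - 2 / p) - 1 - σ = -a := by rw [ha]; ring
  rw [hs]
  have ha0 : 0 < a := by rw [ha]; linarith
  rcases h2 with h2 | ⟨h2, h3⟩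
  · have hap : a * p < 3 := by
      have : a < 3 / p := by
        rw [ha]
        have : 3 / p = 2 / p + 1 / p := by ring
        linarith
      calc a * p < 3 / p * p := mul_lt_mul_of_pos_right this hp0
        _ = 3 := by field_simp
    have hap2 : a * p * ((p - 2) / (p - 1)) < 2 := by
      have hp1 : 0 < p - 1 := by linarith
      have h4 : 0 < (p - 2) / (p - 1) := div_pos (by linarith) hp1
      calc a * p * ((p - 2) / (p - 1)) < 3 * ((p - 2) / (p - 1)) := mul_lt_mul_of_pos_right hap h4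
        _ = (3 * (p - 2)) / (p - 1) := by ring
        _ ≤ 2 := by
          rw [div_le_iff₀ hp1]
          linarith
    obtain ⟨K, hK, hN⟩ := nonneg_thm p a hp3 ha0 hap2 hap
    exact onesided_of_nonneg p a hp3 ha0 K hK hN
  · subst h2
    have ha1 : a ≤ 1 := by rw [ha, h3]; norm_num
    obtain ⟨K, hK, hN⟩ := nonneg_three a ha0 ha1
    exact onesided_of_nonneg 3 a le_rfl ha0 K hK hN

end Pool.Agent.H79.Wave
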