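import Mathlib
import Pool.Agent.H79.Wave.WMain

/-!
The weighted `L²` inequality for solutions of the wave equation, second part.
-/

set_option autoImplicit false

namespace Pool.Agent.H79.Wave

open MeasureTheory Set Metric FourierTransform RealInnerProductSpace Filter Topology SchwartzMap

/-- the trilinear density -/
noncomputable def Ph (φ : E3 → ℂ) (g : 𝓢(E3, ℝ)) (w : E3 × E3) : ℂ :=
  φ w.1 * (starRingEnd ℂ) (φ w.2) * 𝓕 (fun x => (g x : ℂ)) (w.2 - w.1)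

/-- the multiplier at time `t` -/
noncomputable def Mt (m : ℝ → ℝ) (t : ℝ) (w : E3 × E3) : ℝ :=
  m (2 * Real.pi * ‖w.1‖ * t) * m (2 * Real.pi * ‖w.2‖ * t) * am t (w.2 - w.1)

lemma Ph_int (φ : E3 → ℂ) (hφ : Integrable φ) (g : 𝓢(E3, ℝ)) : Integrable (Ph φ g) := by
  have hφc : Integrable (fun ξ => (starRingEnd ℂ) (φ ξ)) := by
    have := (Complex.conjLIE.toContinuousLinearEquiv.toContinuousLinearMap).integrable_comp hφ
    exact this
  have hP : Integrable (fun w : E3 × E3 => φ w.1 * (starRingEnd ℂ) (φ w.2)) := hφ.mul_prod hφc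
  obtain ⟨hm, ⟨C, hC⟩, h1, h2⟩ := sch_props (𝓕 (cplx g))
  have h := hP.bdd_mul (c := (C : ℝ)) (f := fun w : E3 × E3 => 𝓕 (fun x => (g x : ℂ)) (w.2 - w.1))
    (by
      have hc : Continuous (fun w : E3 × E3 => 𝓕 (fun x => (g x : ℂ)) (w.2 - w.1)) :=
        (sch_fcont g).comp (by fun_prop)
      exact hc.aestronglyMeasurable)
    (by
      filter_upwards with w
      have h3 := hC (w.2 - w.1)
      rw [← four_coe, ← ofReal_norm] at h3
      have h4 : ENNReal.ofReal ‖𝓕 (fun x => (g x : ℂ)) (w.2 - w.1)‖ ≤ ENNReal.ofReal (C : ℝ) := by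
        rw [ENNReal.ofReal_coe_nnreal]; exact h3
      exact (ENNReal.ofReal_le_ofReal_iff C.2).mp h4)
  refine h.congr ?_
  filter_upwards with w
  unfold Ph
  ring

lemma Mt_bound (m : ℝ → ℝ) (hm : Adm m) (t : ℝ) (w : E3 × E3) : |Mt m t w| ≤ 1 := by
  unfold Mt
  rw [abs_mul, abs_mul]
  have h1 := hm.bdd (2 * Real.pi * ‖w.1‖ * t)
  have h2 := hm.bdd (2 * Real.pi * ‖w.2‖ * t)
  have h3 := am_bound t (w.2 - w.1)
  calc _ ≤ 1 * 1 * (1 : ℝ) := by gcongr
    _ = 1 := by norm_num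

/-- the weighted energy at time `t` -/
noncomputable def It (m : ℝ → ℝ) (φ : E3 → ℂ) (g : 𝓢(E3, ℝ)) (t : ℝ) : ℝ :=
  ∫ x, ‖Vf (fun ξ => ((m (2 * Real.pi * ‖ξ‖ * t) : ℝ) : ℂ) * φ ξ) x‖ ^ 2 * Av (fun x => g x) t x

lemma psi_int (m : ℝ → ℝ) (hm : Adm m) (φ : E3 → ℂ) (hφ : Integrable φ) (t : ℝ) :
    Integrable (fun ξ => ((m (2 * Real.pi * ‖ξ‖ * t) : ℝ) : ℂ) * φ ξ) := by
  refine hφ.bdd_mul (c := 1) ?_ ?_
  · apply Measurable.aestronglyMeasurable
    have h1 : Measurable (fun ξ : E3 => m (2 * Real.pi * ‖ξ‖ * t)) := hm.meas.comp (by fun_prop)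
    exact Complex.measurable_ofReal.comp h1
  · filter_upwards with ξ
    rw [Complex.norm_real]
    exact hm.bdd _

lemma It_eq (m : ℝ → ℝ) (hm : Adm m) (φ : E3 → ℂ) (hφ : Integrable φ) (g : 𝓢(E3, ℝ)) (t : ℝ) (ht : 0 < t) :
    ((It m φ g t : ℝ) : ℂ) = ∫ w : E3 × E3, ((Mt m t w : ℝ) : ℂ) * Ph φ g w := by
  have h := tri (fun ξ => ((m (2 * Real.pi * ‖ξ‖ * t) : ℝ) : ℂ) * φ ξ)
    (fun x => ((Av (fun x => g x) t x : ℝ) : ℂ)) (psi_int m hm φ hφ t)
    (Av_integrable _ g.continuous g.integrable t).ofReal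
  have e1 : ((It m φ g t : ℝ) : ℂ) = ∫ x, ((‖Vf (fun ξ => ((m (2 * Real.pi * ‖ξ‖ * t) : ℝ) : ℂ) * φ ξ) x‖ ^ 2 : ℝ) : ℂ) *
      ((Av (fun x => g x) t x : ℝ) : ℂ) := by
    unfold It
    rw [← integral_complex_ofReal]
    congr 1; ext x
    push_cast
    ring
  rw [e1, h]
  apply integral_congr_ae
  filter_upwards [ae_diag] with w hw
  rw [fourier_Av g t ht _ hw]
  unfold Mt Ph
  rw [map_mul, Complex.conj_ofReal]
  push_cast
  ring

lemma Vf_cont (ψ : E3 → ℂ) (hψ : Integrable ψ) : Continuous (Vf ψ) := by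
  unfold Vf
  apply continuous_of_dominated (bound := fun ξ => ‖ψ ξ‖)
  · intro x
    exact (Vf_integrable ψ hψ x).aestronglyMeasurable
  · intro x
    filter_upwards with ξ
    rw [norm_mul, norm_ch, one_mul]
  · exact hψ.norm
  · filter_upwards with ξ
    apply Continuous.mul _ continuous_const
    exact continuous_ch.comp (f := fun x : E3 => (x, ξ)) (by fun_prop)

lemma Vf_bound (ψ : E3 → ℂ) (x : E3) : ‖Vf ψ x‖ ≤ ∫ ξ, ‖ψ ξ‖ := by
  unfold Vf
  refine (norm_integral_le_integral_norm _).trans (le_of_eq ?_)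
  congr 1; ext ξ
  rw [norm_mul, norm_ch, one_mul]

lemma It_lint (m : ℝ → ℝ) (hm : Adm m) (φ : E3 → ℂ) (hφ : Integrable φ) (g : 𝓢(E3, ℝ))
    (hg : ∀ x, 0 ≤ g x) (t : ℝ) :
    ∫⁻ x, ‖Vf (fun ξ => ((m (2 * Real.pi * ‖ξ‖ * t) : ℝ) : ℂ) * φ ξ) x‖ₑ ^ 2 *
      ENNReal.ofReal (Av (fun x => g x) t x) = ENNReal.ofReal (It m φ g t) := by
  have hψ := psi_int m hm φ hφ t
  set ψ := fun ξ => ((m (2 * Real.pi * ‖ξ‖ * t) : ℝ) : ℂ) * φ ξ with hψd
  have hint : Integrable (fun x => ‖Vf ψ x‖ ^ 2 * Av (fun x => g x) t x) := by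
    refine (Av_integrable _ g.continuous g.integrable t).bdd_mul (c := (∫ ξ, ‖ψ ξ‖) ^ 2) ?_ ?_
    · exact ((Vf_cont ψ hψ).norm.pow 2).aestronglyMeasurable
    · filter_upwards with x
      rw [Real.norm_eq_abs, abs_of_nonneg (by positivity)]
      have := Vf_bound ψ x
      gcongr
  unfold It
  rw [ofReal_integral_eq_lintegral_ofReal hint (ae_of_all _ (fun x => by
    have := Av_nonneg _ hg t x
    simp only [Pi.zero_apply]
    positivity))]
  apply lintegral_congr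
  intro x
  rw [ENNReal.ofReal_mul (by positivity), ENNReal.ofReal_pow (norm_nonneg _), ofReal_norm]

/-- integrability of the space-time-frequency function -/
lemma F_int (m : ℝ → ℝ) (hm : Adm m) (φ : E3 → ℂ) (hφ : Integrable φ) (g : 𝓢(E3, ℝ)) (κ : ℝ) (hκ : 0 < κ) :
    Integrable (fun z : ℝ × (E3 × E3) => ((Real.exp (-κ * z.1) : ℝ) : ℂ) *
      (((Mt m z.1 z.2 : ℝ) : ℂ) * Ph φ g z.2)) ((volume.restrict (Ioi (0 : ℝ))).prod volume) := by
  have h1 : Integrable (fun z : ℝ × (E3 × E3) => ((Real.exp (-κ * z.1) : ℝ) : ℂ) * Ph φ g z.2)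
        ((volume.restrict (Ioi (0 : ℝ))).prod volume) :=
    Integrable.mul_prod (f := fun t : ℝ => ((Real.exp (-κ * t) : ℝ) : ℂ))
      (g := Ph φ g) (expint κ hκ).ofReal (Ph_int φ hφ g)
  have h2 := h1.bdd_mul (c := 1) (f := fun z : ℝ × (E3 × E3) => ((Mt m z.1 z.2 : ℝ) : ℂ))
    (by
      apply Measurable.aestronglyMeasurable
      apply Complex.measurable_ofReal.comp
      unfold Mt am
      have c1 : Measurable (fun z : ℝ × (E3 × E3) => m (2 * Real.pi * ‖z.2.1‖ * z.1)) :=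
        hm.meas.comp (by fun_prop)
      have c2 : Measurable (fun z : ℝ × (E3 × E3) => m (2 * Real.pi * ‖z.2.2‖ * z.1)) :=
        hm.meas.comp (by fun_prop)
      have c3 : Measurable (fun z : ℝ × (E3 × E3) => Real.sin (2 * Real.pi * z.1 * ‖z.2.2 - z.2.1‖) /
          (2 * Real.pi * z.1 * ‖z.2.2 - z.2.1‖)) := by fun_prop
      exact (c1.mul c2).mul c3)
    (by
      filter_upwards with z
      rw [Complex.norm_real]
      exact Mt_bound m hm z.1 z.2)
  refine h2.congr ?_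
  filter_upwards with z
  ring

/-- the Laplace transform in time of the weighted energy -/
lemma J_eq (m : ℝ → ℝ) (hm : Adm m) (φ : E3 → ℂ) (hφ : Integrable φ) (g : 𝓢(E3, ℝ)) (κ : ℝ) (hκ : 0 < κ) :
    Integrable (fun t => Real.exp (-κ * t) * It m φ g t) (volume.restrict (Ioi (0 : ℝ))) ∧
    ((∫ t in Ioi (0 : ℝ), Real.exp (-κ * t) * It m φ g t : ℝ) : ℂ) =
      ∫ w : E3 × E3, ((∫ t in Ioi (0 : ℝ), Real.exp (-κ * t) * (m (2 * Real.pi * ‖w.1‖ * t) *
        m (2 * Real.pi * ‖w.2‖ * t) * (Real.sin (2 * Real.pi * ‖w.2 - w.1‖ * t) / t)) : ℝ) : ℂ) *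
        (φ w.1 * (starRingEnd ℂ) (φ w.2) * rH (fun x => (g x : ℂ)) (w.2 - w.1)) := by
  have hF := F_int m hm φ hφ g κ hκ
  have e1 : ∀ t ∈ Ioi (0 : ℝ), ((Real.exp (-κ * t) * It m φ g t : ℝ) : ℂ) =
      ∫ w : E3 × E3, ((Real.exp (-κ * t) : ℝ) : ℂ) * (((Mt m t w : ℝ) : ℂ) * Ph φ g w) := by
    intro t ht
    rw [integral_const_mul, Complex.ofReal_mul, It_eq m hm φ hφ g t ht]
  constructor
  · have h1 := hF.integral_prod_left
    have h2 : Integrable (fun t => ((Real.exp (-κ * t) * It m φ g t : ℝ) : ℂ)) (volume.restrict (Ioi (0 : ℝ))) := by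
      refine h1.congr ?_
      filter_upwards [ae_restrict_mem measurableSet_Ioi] with t ht
      exact (e1 t ht).symm
    have := h2.re
    refine this.congr ?_
    filter_upwards with t
    exact Complex.ofReal_re _
  · rw [← integral_complex_ofReal, setIntegral_congr_fun measurableSet_Ioi e1]
    rw [integral_integral_swap hF]
    apply integral_congr_ae
    filter_upwards [ae_diag] with w hw
    have hz : 0 < ‖w.2 - w.1‖ := norm_pos_iff.mpr hw
    have hpi := Real.pi_pos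
    have e2 : ∀ t : ℝ, ((Real.exp (-κ * t) : ℝ) : ℂ) * (((Mt m t w : ℝ) : ℂ) * Ph φ g w) =
        ((Real.exp (-κ * t) * (m (2 * Real.pi * ‖w.1‖ * t) *
        m (2 * Real.pi * ‖w.2‖ * t) * (Real.sin (2 * Real.pi * ‖w.2 - w.1‖ * t) / t)) : ℝ) : ℂ) *
        (φ w.1 * (starRingEnd ℂ) (φ w.2) * rH (fun x => (g x : ℂ)) (w.2 - w.1)) := by
      intro t
      unfold rH Mt am Ph
      rw [show 2 * Real.pi * t * ‖w.2 - w.1‖ = (2 * Real.pi * ‖w.2 - w.1‖) * t by ring]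
      rw [div_mul_eq_div_div]
      push_cast
      have : (2 * Real.pi * ‖w.2 - w.1‖ : ℂ) ≠ 0 := by
        have h0 : (2 * Real.pi * ‖w.2 - w.1‖ : ℝ) ≠ 0 := by positivity
        exact_mod_cast h0
      field_simp
    simp_rw [e2]
    rw [integral_mul_const, integral_complex_ofReal]

/-- the weighted inequality -/
theorem weight_main (m : ℝ → ℝ) (hm : Adm m) (φ : E3 → ℂ) (hφm : Measurable φ)
    (h1 : ∫⁻ ξ, ‖φ ξ‖ₑ ≠ ⊤) (h2 : ∫⁻ ξ, ‖φ ξ‖ₑ ^ 2 ≠ ⊤) (g : 𝓢(E3, ℝ)) (hg : ∀ x, 0 ≤ g x)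
    (G : E3 → ℝ) (hG0 : ∀ x, 0 ≤ G x) (hG : ∀ x, riesz (fun x => (g x : ℂ)) x = (G x : ℂ)) :
    ∫⁻ t in Ioi (0 : ℝ), ∫⁻ x, ‖Vf (fun ξ => ((m (2 * Real.pi * ‖ξ‖ * t) : ℝ) : ℂ) * φ ξ) x‖ₑ ^ 2 *
      ENNReal.ofReal (Av (fun x => g x) t x) ≤
      ENNReal.ofReal (Real.pi / 4) * ∫⁻ x, ‖Vf φ x‖ₑ ^ 2 * ENNReal.ofReal (G x) := by
  have hpi := Real.pi_pos
  have hφ : Integrable φ := ⟨hφm.aestronglyMeasurable, by
    rw [hasFiniteIntegral_iff_enorm]; exact h1.lt_top⟩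
  obtain ⟨hm', ⟨C, hC⟩, hF1, hF2⟩ := sch_props (𝓕 (cplx g))
  obtain ⟨ha, hb, hc⟩ := rH_props _ hm' C hC hF1 hF2
  set H := rH (fun x => (g x : ℂ)) with hH
  have hHe : H = fun ζ => (((2 * Real.pi * ‖ζ‖)⁻¹ : ℝ) : ℂ) * (𝓕 (cplx g) : 𝓢(E3, ℂ)) ζ := by
    ext ζ
    rw [hH, rH, four_coe]
  have hHm : Measurable H := by
    rw [hHe]; fun_prop
  have hHi : Integrable H := rH_integrable g
  have hHb : ∀ y, ‖H y‖ₑ ≤ C * (‖y‖ₑ)⁻¹ := by
    intro y
    rw [hHe]
    exact hc y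
  have hHc : ∀ y, y ≠ 0 → ContinuousAt H y := by
    intro y hy
    rw [hHe]
    have hne : 2 * Real.pi * ‖y‖ ≠ 0 := by
      have := norm_pos_iff.mpr hy
      positivity
    have h3 : ContinuousAt (fun ζ : E3 => (2 * Real.pi * ‖ζ‖)⁻¹) y :=
      ContinuousAt.inv₀ (by fun_prop) hne
    exact (Complex.continuous_ofReal.continuousAt.comp h3).mul
      ((𝓕 (cplx g) : 𝓢(E3, ℂ)).continuous).continuousAt
  set Θ : E3 × E3 → ℂ := fun w => φ w.1 * (starRingEnd ℂ) (φ w.2) * H (w.2 - w.1) with hΘ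
  have hΘi : Integrable Θ := by
    have hker := int_kernel φ hφm h1 h2
    refine (hker.norm.const_mul (C : ℝ)).mono' ?_ ?_
    · have c1 : Measurable (fun w : E3 × E3 => φ w.1 * (starRingEnd ℂ) (φ w.2)) :=
        (hφm.comp measurable_fst).mul (Complex.continuous_conj.measurable.comp (hφm.comp measurable_snd))
      exact (c1.mul (hHm.comp (by fun_prop))).aestronglyMeasurable
    · filter_upwards [ae_diag] with w hw
      have hz : 0 < ‖w.2 - w.1‖ := norm_pos_iff.mpr hw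
      rw [hΘ]
      simp only
      rw [norm_mul, norm_mul (φ w.1 * _), Complex.norm_real, norm_inv, norm_norm]
      have h5 : ‖H (w.2 - w.1)‖ ≤ C * ‖w.2 - w.1‖⁻¹ := by
        have h6 := hHb (w.2 - w.1)
        have h7 : (C : ENNReal) * (‖w.2 - w.1‖ₑ)⁻¹ = ENNReal.ofReal (C * ‖w.2 - w.1‖⁻¹) := by
          rw [ENNReal.ofReal_mul (NNReal.coe_nonneg C), ENNReal.ofReal_inv_of_pos hz, ofReal_norm,
            ENNReal.ofReal_coe_nnreal]
        rw [h7, ← ofReal_norm] at h6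
        exact (ENNReal.ofReal_le_ofReal_iff (by positivity)).mp h6
      calc _ ≤ ‖φ w.1 * (starRingEnd ℂ) (φ w.2)‖ * (C * ‖w.2 - w.1‖⁻¹) := by gcongr
        _ = _ := by ring
  set κ : ℕ → ℝ := fun n => 1 / (n + 1 : ℝ) with hκ
  have hκ0 : ∀ n, 0 < κ n := fun n => by rw [hκ]; positivity
  set M : ℕ → E3 × E3 → ℝ := fun n w => ∫ t in Ioi (0 : ℝ), Real.exp (-(κ n) * t) *
    (m (2 * Real.pi * ‖w.1‖ * t) * m (2 * Real.pi * ‖w.2‖ * t) *
      (Real.sin (2 * Real.pi * ‖w.2 - w.1‖ * t) / t)) with hM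
  set J : ℕ → ℝ := fun n => ∫ t in Ioi (0 : ℝ), Real.exp (-(κ n) * t) * It m φ g t with hJ
  have hJeq : ∀ n, ((J n : ℝ) : ℂ) = ∫ w, ((M n w : ℝ) : ℂ) * Θ w := fun n =>
    (J_eq m hm φ hφ g (κ n) (hκ0 n)).2
  have hMm : ∀ n, Measurable (M n) := by
    intro n
    have hmeas : Measurable (fun z : (E3 × E3) × ℝ => Real.exp (-(κ n) * z.2) *
      (m (2 * Real.pi * ‖z.1.1‖ * z.2) * m (2 * Real.pi * ‖z.1.2‖ * z.2) *
      (Real.sin (2 * Real.pi * ‖z.1.2 - z.1.1‖ * z.2) / z.2))) := by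
      have c1 : Measurable (fun z : (E3 × E3) × ℝ => m (2 * Real.pi * ‖z.1.1‖ * z.2)) :=
        hm.meas.comp (by fun_prop)
      have c2 : Measurable (fun z : (E3 × E3) × ℝ => m (2 * Real.pi * ‖z.1.2‖ * z.2)) :=
        hm.meas.comp (by fun_prop)
      have c3 : Measurable (fun z : (E3 × E3) × ℝ => Real.exp (-(κ n) * z.2)) := by fun_prop
      have c4 : Measurable (fun z : (E3 × E3) × ℝ =>
        Real.sin (2 * Real.pi * ‖z.1.2 - z.1.1‖ * z.2) / z.2) := by fun_prop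
      exact c3.mul ((c1.mul c2).mul c4)
    have := StronglyMeasurable.integral_prod_right' (ν := volume.restrict (Ioi (0 : ℝ)))
      hmeas.stronglyMeasurable
    exact this.measurable
  have hlim : Tendsto (fun n => ((J n : ℝ) : ℂ)) atTop (𝓝 (∫ w, ((Real.pi / 4 : ℝ) : ℂ) * Θ w)) := by
    simp_rw [hJeq]
    apply tendsto_integral_of_dominated_convergence (fun w => Real.pi / 2 * ‖Θ w‖)
    · intro n
      exact (Complex.measurable_ofReal.comp (hMm n)).aestronglyMeasurable.mul hΘi.aestronglyMeasurable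
    · exact hΘi.norm.const_mul _
    · intro n
      filter_upwards with w
      rw [norm_mul, Complex.norm_real]
      gcongr
      exact hm.tbdd (κ n) _ _ _ (hκ0 n)
    · filter_upwards [ae_triangle] with w hw
      apply Tendsto.mul_const
      refine (Complex.continuous_ofReal.tendsto _).comp ?_
      have h8 := hm.tlim (2 * Real.pi * ‖w.1‖) (2 * Real.pi * ‖w.2‖) (2 * Real.pi * ‖w.2 - w.1‖)
        (by
          rw [← mul_sub, abs_mul, abs_of_pos (by positivity : (0 : ℝ) < 2 * Real.pi)]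
          exact mul_lt_mul_of_pos_left hw.1 (by positivity))
        (by
          rw [← mul_add]
          exact mul_lt_mul_of_pos_left hw.2 (by positivity))
      exact h8
  have hlim2 : Tendsto (fun n => ENNReal.ofReal (J n)) atTop
      (𝓝 (ENNReal.ofReal (Real.pi / 4 * (∫ w, Θ w).re))) := by
    have e1 : ∫ w, ((Real.pi / 4 : ℝ) : ℂ) * Θ w = ((Real.pi / 4 : ℝ) : ℂ) * ∫ w, Θ w :=
      integral_const_mul _ _
    rw [e1] at hlim
    have h9 := (Complex.continuous_re.tendsto _).comp hlim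
    rw [Complex.re_ofReal_mul] at h9
    exact (ENNReal.continuous_ofReal.tendsto _).comp h9
  -- Fatou in time
  have hIt0 : ∀ t, 0 ≤ It m φ g t := fun t => integral_nonneg (fun x => by
    have := Av_nonneg _ hg t x
    simp only [Pi.zero_apply]
    positivity)
  have hstep : ∫⁻ t in Ioi (0 : ℝ), ENNReal.ofReal (It m φ g t) ≤
      ENNReal.ofReal (Real.pi / 4 * (∫ w, Θ w).re) := by
    have hfat : ∫⁻ t in Ioi (0 : ℝ), liminf (fun n => ENNReal.ofReal (Real.exp (-(κ n) * t) * It m φ g t)) atTop ≤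
        liminf (fun n => ∫⁻ t in Ioi (0 : ℝ), ENNReal.ofReal (Real.exp (-(κ n) * t) * It m φ g t)) atTop := by
      apply lintegral_liminf_le'
      intro n
      exact ((J_eq m hm φ hφ g (κ n) (hκ0 n)).1.aestronglyMeasurable.aemeasurable).ennreal_ofReal
    have e3 : ∀ n, ∫⁻ t in Ioi (0 : ℝ), ENNReal.ofReal (Real.exp (-(κ n) * t) * It m φ g t) =
        ENNReal.ofReal (J n) := by
      intro n
      rw [hJ]
      simp only
      rw [ofReal_integral_eq_lintegral_ofReal (J_eq m hm φ hφ g (κ n) (hκ0 n)).1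
        (ae_of_all _ (fun t => mul_nonneg (Real.exp_pos _).le (hIt0 t)))]
    simp_rw [e3] at hfat
    rw [hlim2.liminf_eq] at hfat
    refine le_trans (lintegral_mono (fun t => ?_)) hfat
    have h10 : Tendsto (fun n => ENNReal.ofReal (Real.exp (-(κ n) * t) * It m φ g t)) atTop
        (𝓝 (ENNReal.ofReal (It m φ g t))) := by
      refine (ENNReal.continuous_ofReal.tendsto _).comp ?_
      have h11 : Tendsto κ atTop (𝓝 0) := tendsto_one_div_add_atTop_nhds_zero_nat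
      have h12 : Tendsto (fun n => Real.exp (-(κ n) * t) * It m φ g t) atTop
          (𝓝 (Real.exp (-0 * t) * It m φ g t)) := by
        apply Tendsto.mul_const
        exact (Real.continuous_exp.tendsto _).comp ((h11.neg).mul_const t)
      simpa using h12
    simp only
    rw [h10.liminf_eq]
  have hreg := reg φ H hφm h1 h2 hHi hHm C hHb hHc G hG0 (fun x => by rw [← hG x, riesz_eq])
  calc ∫⁻ t in Ioi (0 : ℝ), ∫⁻ x, ‖Vf (fun ξ => ((m (2 * Real.pi * ‖ξ‖ * t) : ℝ) : ℂ) * φ ξ) x‖ₑ ^ 2 *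
      ENNReal.ofReal (Av (fun x => g x) t x) = ∫⁻ t in Ioi (0 : ℝ), ENNReal.ofReal (It m φ g t) := by
        simp_rw [It_lint m hm φ hφ g hg]
    _ ≤ ENNReal.ofReal (Real.pi / 4 * (∫ w, Θ w).re) := hstep
    _ = ENNReal.ofReal (Real.pi / 4) * ENNReal.ofReal (∫ w, Θ w).re := ENNReal.ofReal_mul (by positivity)
    _ ≤ _ := by gcongr

end Pool.Agent.H79.Wave
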